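import Mathlib

open TensorProduct KaehlerDifferential

namespace Pool.Agent.Lib.MP_55c1e7_ag.CH

universe u v w

/-- If `S` is a quotient of a formally smooth `O`-algebra `P` by an ideal generated by `F_i` and there are
derivations `δ i : P → S` with `δ i (F j) = 1` if `i = j` and `0` else, then `S` is formally smooth. -/
theorem formallySmooth_of_derivations {O P S : Type u} [CommRing O] [CommRing P] [CommRing S]
    [Algebra O P] [Algebra O S] [Algebra P S] [IsScalarTower O P S]
    (hsurj : Function.Surjective (algebraMap P S)) [Algebra.FormallySmooth O P]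
    {n : Type*} [Fintype n] [DecidableEq n] (F : n → P)
    (hker : RingHom.ker (algebraMap P S) = Ideal.span (Set.range F))
    (δ : n → Derivation O P S) (hδ : ∀ i j, δ i (F j) = if i = j then 1 else 0) :
    Algebra.FormallySmooth O S := by
  classical
  rw [Algebra.FormallySmooth.iff_split_injection hsurj]
  have hF : ∀ i, F i ∈ RingHom.ker (algebraMap P S) := by
    intro i
    rw [hker]
    exact Ideal.subset_span ⟨i, rfl⟩
  let I := RingHom.ker (algebraMap P S)
  let c : n → I.Cotangent := fun i => I.toCotangent ⟨F i, hF i⟩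
  -- the map `S → I/I^2`, `s ↦ s • [F i]`
  have hkill : ∀ (x : I.Cotangent) (a : P), a ∈ I → a • x = 0 := by
    intro x a ha
    obtain ⟨y, rfl⟩ := I.toCotangent_surjective x
    rw [← map_smul, Ideal.toCotangent_eq_zero]
    rw [pow_two]
    exact Ideal.mul_mem_mul ha y.2
  let σ : S → P := Function.surjInv hsurj
  have hσ : ∀ s, algebraMap P S (σ s) = s := Function.surjInv_eq hsurj
  let m : n → (S →ₗ[P] I.Cotangent) := fun i =>
    { toFun := fun s => σ s • c i
      map_add' := by
        intro s t
        have : σ (s + t) - (σ s + σ t) ∈ I := by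
          simp [I, RingHom.mem_ker, hσ]
        have h := hkill (c i) _ this
        rw [sub_smul, sub_eq_zero] at h
        rw [h, add_smul]
      map_smul' := by
        intro a s
        have : σ (a • s) - a * σ s ∈ I := by
          simp [I, RingHom.mem_ker, hσ, Algebra.smul_def]
        have h := hkill (c i) _ this
        rw [sub_smul, sub_eq_zero] at h
        rw [h, mul_smul]
        rfl }
  have hm : ∀ i (a : P), m i (algebraMap P S a) = a • c i := by
    intro i a
    have : σ (algebraMap P S a) - a ∈ I := by
      simp [I, RingHom.mem_ker, hσ]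
    have h := hkill (c i) _ this
    rw [sub_smul, sub_eq_zero] at h
    exact h
  let φ : n → (S ⊗[P] Ω[P⁄O] →ₗ[P] S) := fun i =>
    TensorProduct.lift ((LinearMap.mul P S).compl₂ ((δ i).liftKaehlerDifferential))
  have hφ : ∀ i (s : S) (a : P), φ i (s ⊗ₜ KaehlerDifferential.D O P a) = s * δ i a := by
    intro i s a
    simp [φ]
  refine ⟨∑ i, (m i) ∘ₗ (φ i), ?_⟩
  apply LinearMap.ext
  intro x
  obtain ⟨y, rfl⟩ := I.toCotangent_surjective x
  obtain ⟨y, hy⟩ := y
  have hy' : y ∈ Ideal.span (Set.range F) := by rw [← hker]; exact hy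
  obtain ⟨f, hf⟩ := (Submodule.mem_span_range_iff_exists_fun P).1 hy'
  have e1 : (I.toCotangent ⟨y, hy⟩ : I.Cotangent) = ∑ i, f i • c i := by
    have : (⟨y, hy⟩ : I) = ∑ i, f i • (⟨F i, hF i⟩ : I) := by
      apply Subtype.ext
      simp [← hf]
    rw [this, map_sum]
    exact Finset.sum_congr rfl (fun i _ => map_smul _ _ _)
  have e2 : ∀ i, δ i y = algebraMap P S (f i) := by
    intro i
    rw [← hf, map_sum]
    have : ∀ j, δ i (f j • F j) = algebraMap P S (f j) * (if i = j then 1 else 0) := by
      intro j
      rw [smul_eq_mul, Derivation.leibniz, hδ i j]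
      have h0 : (F j) • (δ i (f j)) = 0 := by
        rw [Algebra.smul_def, (RingHom.mem_ker).1 (hF j), zero_mul]
      rw [h0, add_zero, Algebra.smul_def]
    rw [Finset.sum_congr rfl (fun j _ => this j)]
    simp
  simp only [LinearMap.comp_apply, LinearMap.id_apply, LinearMap.sum_apply]
  have e3 : (KaehlerDifferential.kerCotangentToTensor O P S) (I.toCotangent ⟨y, hy⟩) =
      1 ⊗ₜ KaehlerDifferential.D O P y := KaehlerDifferential.kerCotangentToTensor_toCotangent O P S ⟨y, hy⟩
  rw [e3, e1]
  refine Finset.sum_congr rfl ?_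
  intro i _
  rw [hφ, one_mul, e2, hm]

end Pool.Agent.Lib.MP_55c1e7_ag.CH
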