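import Mathlib
import Pool.Agent.Lib.MP_55c1e7_ag.CH.Sm

open MvPolynomial

namespace Pool.Agent.Lib.MP_55c1e7_ag.CH

universe u v w

variable {O : Type u} [CommRing O]

/-- The relation `W_i^2 = xi_i^4 + 1`. -/
noncomputable def rel (ξ : Fin 3 → MvPolynomial (Fin 3) O) (i : Fin 3) :
    MvPolynomial (Fin 3 ⊕ Fin 3) O :=
  X (Sum.inr i) ^ 2 - (rename Sum.inl (ξ i) ^ 4 + 1)

/-- The ring `O[a,b,c][W_1,W_2,W_3]/(W_i^2 - xi_i^4 - 1)`. -/
abbrev QR (ξ : Fin 3 → MvPolynomial (Fin 3) O) : Type u :=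
  MvPolynomial (Fin 3 ⊕ Fin 3) O ⧸ Ideal.span (Set.range (rel ξ))

theorem smul_QR (ξ : Fin 3 → MvPolynomial (Fin 3) O) (p : MvPolynomial (Fin 3 ⊕ Fin 3) O)
    (s : QR ξ) : p • s = Ideal.Quotient.mk (Ideal.span (Set.range (rel ξ))) p * s := by
  obtain ⟨q, rfl⟩ := Ideal.Quotient.mk_surjective s
  rfl

/-- The data which make `QR xi` smooth. -/
structure SmoothData (ξ : Fin 3 → MvPolynomial (Fin 3) O) where
  D : Fin 3 → Derivation O (MvPolynomial (Fin 3) O) (MvPolynomial (Fin 3) O)
  A : Fin 3 → MvPolynomial (Fin 3) O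
  B : Fin 3 → MvPolynomial (Fin 3) O
  off : ∀ i j, i ≠ j → D i (ξ j) = 0
  diag : ∀ i, 2 * A i * (ξ i ^ 4 + 1) - 4 * B i * ξ i ^ 3 * D i (ξ i) = 1

theorem mk_rel (ξ : Fin 3 → MvPolynomial (Fin 3) O) (i : Fin 3) :
    (Ideal.Quotient.mk (Ideal.span (Set.range (rel ξ))) (X (Sum.inr i))) ^ 2 =
      (Ideal.Quotient.mk (Ideal.span (Set.range (rel ξ))) (rename Sum.inl (ξ i))) ^ 4 + 1 := by
  have h : Ideal.Quotient.mk (Ideal.span (Set.range (rel ξ))) (rel ξ i) = 0 :=
    Ideal.Quotient.eq_zero_iff_mem.2 (Ideal.subset_span ⟨i, rfl⟩)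
  rw [rel, map_sub, map_add, map_pow, map_pow, map_one, sub_eq_zero] at h
  exact h

/-- The derivation of the polynomial ring with values in `QR xi` belonging to the data. -/
noncomputable def SmoothData.der {ξ : Fin 3 → MvPolynomial (Fin 3) O} (d : SmoothData ξ)
    (i : Fin 3) : Derivation O (MvPolynomial (Fin 3 ⊕ Fin 3) O) (QR ξ) :=
  mkDerivation O (Sum.elim
    (fun j => Ideal.Quotient.mk (Ideal.span (Set.range (rel ξ)))
      (rename Sum.inl (d.B i * d.D i (X j))))
    (fun j => if i = j then Ideal.Quotient.mk (Ideal.span (Set.range (rel ξ)))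
      (rename Sum.inl (d.A i) * X (Sum.inr i)) else 0))

theorem SmoothData.der_rename {ξ : Fin 3 → MvPolynomial (Fin 3) O} (d : SmoothData ξ)
    (i : Fin 3) (p : MvPolynomial (Fin 3) O) :
    d.der i (rename Sum.inl p) = Ideal.Quotient.mk (Ideal.span (Set.range (rel ξ)))
      (rename Sum.inl (d.B i * d.D i p)) := by
  induction p using MvPolynomial.induction_on with
  | C a =>
    rw [rename_C]
    have h1 : (C a : MvPolynomial (Fin 3) O) = algebraMap O _ a := rfl
    have h2 : (C a : MvPolynomial (Fin 3 ⊕ Fin 3) O) = algebraMap O _ a := rfl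
    rw [h1, h2, Derivation.map_algebraMap, Derivation.map_algebraMap]
    simp
  | add p q hp hq =>
    rw [map_add, map_add, hp, hq, map_add, mul_add, map_add, map_add]
  | mul_X p j hp =>
    rw [map_mul, rename_X, Derivation.leibniz, hp, Derivation.leibniz]
    have h3 : d.der i (X (Sum.inl j)) = Ideal.Quotient.mk (Ideal.span (Set.range (rel ξ)))
        (rename Sum.inl (d.B i * d.D i (X j))) := by
      rw [SmoothData.der, mkDerivation_X]
      rfl
    rw [h3]
    simp only [smul_QR, smul_eq_mul, map_mul, map_add, rename_X]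
    ring

theorem SmoothData.der_rel {ξ : Fin 3 → MvPolynomial (Fin 3) O} (d : SmoothData ξ)
    (i j : Fin 3) : d.der i (rel ξ j) = if i = j then 1 else 0 := by
  have h3 : d.der i (X (Sum.inr j)) = if i = j then Ideal.Quotient.mk (Ideal.span (Set.range (rel ξ)))
      (rename Sum.inl (d.A i) * X (Sum.inr i)) else 0 := by
    rw [SmoothData.der, mkDerivation_X]
    rfl
  have h4 : d.der i (1 : MvPolynomial (Fin 3 ⊕ Fin 3) O) = 0 := Derivation.map_one_eq_zero _
  rw [rel, map_sub, map_add, h4, Derivation.leibniz_pow, Derivation.leibniz_pow,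
    d.der_rename, h3]
  simp only [smul_QR, map_mul, map_pow, nsmul_eq_mul, Nat.cast_ofNat, Nat.reduceSub, pow_one]
  by_cases hij : i = j
  · subst hij
    simp only [if_true]
    have h5 := congrArg (fun t => Ideal.Quotient.mk (Ideal.span (Set.range (rel ξ)))
      (rename Sum.inl t)) (d.diag i)
    simp only [map_sub, map_mul, map_add, map_pow, map_one, map_ofNat] at h5
    have h6 := mk_rel ξ i
    linear_combination h5 + 2 * (Ideal.Quotient.mk (Ideal.span (Set.range (rel ξ)))
      (rename Sum.inl (d.A i))) * h6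
  · simp only [if_neg hij, d.off i j hij, map_zero]
    ring

theorem SmoothData.smooth {ξ : Fin 3 → MvPolynomial (Fin 3) O} (d : SmoothData ξ) :
    Algebra.Smooth O (QR ξ) := by
  have h1 : Algebra.FormallySmooth O (QR ξ) := by
    refine formallySmooth_of_derivations (P := MvPolynomial (Fin 3 ⊕ Fin 3) O)
      (Ideal.Quotient.mk_surjective) (rel ξ) ?_ d.der d.der_rel
    exact Ideal.mk_ker
  have h2 : Algebra.FinitePresentation O (QR ξ) := by
    refine Algebra.FinitePresentation.quotient ?_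
    exact ⟨(Set.finite_range (rel ξ)).toFinset, by simp⟩
  exact ⟨h1, h2⟩

end Pool.Agent.Lib.MP_55c1e7_ag.CH
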