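import Mathlib
import Pool.Agent.Lib.MP_55c1e7_ag.CH.Q

open MvPolynomial

namespace Pool.Agent.Lib.MP_55c1e7_ag.CH

universe u v w

variable {O : Type u} [CommRing O]

/-- The monomial `prod_{i in e} W_i`. -/
noncomputable def mon (O : Type u) [CommRing O] (ε : Finset (Fin 3)) :
    MvPolynomial (Fin 3 ⊕ Fin 3) O :=
  ∏ i ∈ ε, X (Sum.inr i)

/-- Toggle membership of `j`. -/
def tog (j : Fin 3) (ε : Finset (Fin 3)) : Finset (Fin 3) :=
  if j ∈ ε then ε.erase j else insert j ε

theorem tog_tog (j : Fin 3) : Function.Involutive (tog j) := by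
  intro ε
  unfold tog
  by_cases h : j ∈ ε
  · simp [h]
  · simp [h]

theorem nf (ξ : Fin 3 → MvPolynomial (Fin 3) O) (p : MvPolynomial (Fin 3 ⊕ Fin 3) O) :
    ∃ r : Finset (Fin 3) → MvPolynomial (Fin 3) O,
      Ideal.Quotient.mk (Ideal.span (Set.range (rel ξ))) p =
        ∑ ε : Finset (Fin 3), Ideal.Quotient.mk (Ideal.span (Set.range (rel ξ)))
          (rename Sum.inl (r ε) * mon O ε) := by
  classical
  induction p using MvPolynomial.induction_on with
  | C a =>
    refine ⟨fun ε => if ε = ∅ then C a else 0, ?_⟩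
    rw [Finset.sum_eq_single (∅ : Finset (Fin 3))]
    · simp [mon]
    · intro b _ hb
      simp [hb]
    · intro h
      exact absurd (Finset.mem_univ _) h
  | add p q hp hq =>
    obtain ⟨r, hr⟩ := hp
    obtain ⟨s, hs⟩ := hq
    refine ⟨fun ε => r ε + s ε, ?_⟩
    rw [map_add, hr, hs, ← Finset.sum_add_distrib]
    refine Finset.sum_congr rfl (fun ε _ => ?_)
    simp only [map_add, add_mul]
  | mul_X p j hp =>
    obtain ⟨r, hr⟩ := hp
    cases j with
    | inl j =>
      refine ⟨fun ε => r ε * X j, ?_⟩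
      rw [map_mul, hr, Finset.sum_mul]
      refine Finset.sum_congr rfl (fun ε _ => ?_)
      simp only [map_mul, rename_X]
      ring
    | inr j =>
      refine ⟨fun ε => if j ∈ ε then r (ε.erase j) else r (insert j ε) * (ξ j ^ 4 + 1), ?_⟩
      rw [map_mul, hr, Finset.sum_mul]
      rw [← Equiv.sum_comp ((tog_tog j).toPerm (tog j))]
      refine Finset.sum_congr rfl (fun ε _ => ?_)
      have e0 : ((tog_tog j).toPerm (tog j)) ε = tog j ε := rfl
      rw [e0]
      by_cases h : j ∈ ε
      · have e1 : tog j ε = ε.erase j := by simp [tog, h]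
        simp only [h, if_true, e1]
        rw [← map_mul, mul_assoc]
        have e2 : mon O (ε.erase j) * X (Sum.inr j) = mon O ε := by
          unfold mon
          exact Finset.prod_erase_mul _ _ h
        rw [e2]
      · have e1 : tog j ε = insert j ε := by simp [tog, h]
        simp only [h, if_false, e1]
        have e2 : mon O (insert j ε) = X (Sum.inr j) * mon O ε := by
          unfold mon
          exact Finset.prod_insert h
        rw [e2]
        have h6 := mk_rel ξ j
        simp only [map_mul, map_add, map_pow, map_one]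
        linear_combination (Ideal.Quotient.mk (Ideal.span (Set.range (rel ξ)))
          (rename Sum.inl (r (insert j ε)))) * (Ideal.Quotient.mk (Ideal.span (Set.range (rel ξ)))
          (mon O ε)) * h6

variable {K : Type v} [Field K] [Algebra O K]

/-- Independence: the monomials in `alpha` and the squarefree products of the `omega` are independent. -/
def Ind (O : Type u) [CommRing O] {K : Type v} [Field K] [Algebra O K] (α ω : Fin 3 → K) : Prop :=
  ∀ r : Finset (Fin 3) → MvPolynomial (Fin 3) O,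
    (∑ ε : Finset (Fin 3), aeval α (r ε) * ∏ i ∈ ε, ω i) = 0 → r = 0

theorem ker_eval (ξ : Fin 3 → MvPolynomial (Fin 3) O) (α ω : Fin 3 → K)
    (hrel : ∀ i, ω i ^ 2 = aeval α (ξ i) ^ 4 + 1) (hind : Ind O α ω) :
    RingHom.ker (aeval (Sum.elim α ω) : MvPolynomial (Fin 3 ⊕ Fin 3) O →ₐ[O] K) =
      Ideal.span (Set.range (rel ξ)) := by
  have hren : ∀ p : MvPolynomial (Fin 3) O,
      (aeval (Sum.elim α ω) : MvPolynomial (Fin 3 ⊕ Fin 3) O →ₐ[O] K) (rename Sum.inl p) =
        aeval α p := by
    intro p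
    rw [aeval_rename]
    rfl
  have hle : Ideal.span (Set.range (rel ξ)) ≤
      RingHom.ker (aeval (Sum.elim α ω) : MvPolynomial (Fin 3 ⊕ Fin 3) O →ₐ[O] K) := by
    rw [Ideal.span_le]
    rintro _ ⟨i, rfl⟩
    rw [SetLike.mem_coe, RingHom.mem_ker, rel]
    rw [map_sub, map_add, map_pow, map_pow, map_one, hren, aeval_X]
    simp [hrel]
  refine le_antisymm ?_ hle
  intro p hp
  obtain ⟨r, hr⟩ := nf ξ p
  rw [← map_sum, Ideal.Quotient.mk_eq_mk_iff_sub_mem] at hr
  have h1 := hle hr
  rw [RingHom.mem_ker, map_sub, (RingHom.mem_ker).1 hp, zero_sub, neg_eq_zero, map_sum] at h1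
  have h2 : r = 0 := by
    apply hind
    rw [← h1]
    refine Finset.sum_congr rfl (fun ε _ => ?_)
    rw [map_mul, hren]
    congr 1
    simp [mon]
  rw [h2] at hr
  simpa using hr

/-- The subalgebra of `K` generated by `alpha` and `omega` is `QR xi`. -/
noncomputable def chartEquiv (ξ : Fin 3 → MvPolynomial (Fin 3) O) (α ω : Fin 3 → K)
    (hrel : ∀ i, ω i ^ 2 = aeval α (ξ i) ^ 4 + 1) (hind : Ind O α ω) :
    QR ξ ≃ₐ[O] Algebra.adjoin O (Set.range (Sum.elim α ω)) :=
  (Ideal.quotientEquivAlgOfEq O (ker_eval ξ α ω hrel hind).symm).trans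
    ((Ideal.quotientKerEquivRange
      (aeval (Sum.elim α ω) : MvPolynomial (Fin 3 ⊕ Fin 3) O →ₐ[O] K)).trans
      (Subalgebra.equivOfEq _ _ (Algebra.adjoin_range_eq_range_aeval O (Sum.elim α ω)).symm))

theorem adjoin_smooth (ξ : Fin 3 → MvPolynomial (Fin 3) O) (α ω : Fin 3 → K)
    (hrel : ∀ i, ω i ^ 2 = aeval α (ξ i) ^ 4 + 1) (hind : Ind O α ω) (d : SmoothData ξ) :
    Algebra.Smooth O (Algebra.adjoin O (Set.range (Sum.elim α ω))) := by
  have := d.smooth
  exact Algebra.Smooth.of_equiv (chartEquiv ξ α ω hrel hind)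

end Pool.Agent.Lib.MP_55c1e7_ag.CH
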