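import Mathlib
import Pool.Agent.Lib.MP_55c1e7_ag.CH.Nf

open MvPolynomial
open scoped IntermediateField.algebraAdjoinAdjoin

namespace Pool.Agent.Lib.MP_55c1e7_ag.CH

universe u v w

/-- Three algebraically independent elements `x_i` of a field `K` over `k` and square roots `w_i` of
`x_i^4+1`, such that the squarefree products of the `w_i` are linearly independent over `k(x_0,x_1,x_2)`
(here: over the polynomials) and `K` is algebraic over `k(x_0,x_1,x_2)`. -/
structure EData (k : Type u) (K : Type v) [Field k] [Field K] [Algebra k K] where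
  x : Fin 3 → K
  w : Fin 3 → K
  rel : ∀ i, w i ^ 2 = x i ^ 4 + 1
  ind : Ind k x w
  alg : Algebra.IsAlgebraic (Algebra.adjoin k (Set.range x)) K

variable {k : Type u} {K : Type v} [Field k] [Field K] [Algebra k K]

theorem EData.algebraicIndependent (D : EData k K) : AlgebraicIndependent k D.x := by
  classical
  rw [algebraicIndependent_iff]
  intro p hp
  have h := D.ind (fun ε => if ε = ∅ then p else 0) (by
    rw [Finset.sum_eq_single (∅ : Finset (Fin 3))]
    · simp [hp]
    · intro b _ hb
      simp [hb]
    · intro h
      exact absurd (Finset.mem_univ _) h)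
  have h2 := congrFun h ∅
  simpa using h2

theorem EData.isTranscendenceBasis (D : EData k K) : IsTranscendenceBasis k D.x := by
  have := D.alg
  rw [isTranscendenceBasis_iff_algebraicIndependent_isAlgebraic]
  exact ⟨D.algebraicIndependent, D.alg⟩

theorem EData.algebraicIndependent_of (D : EData k K) (α : Fin 3 → K)
    (hx : ∀ j, D.x j ∈ IntermediateField.adjoin k (Set.range α)) : AlgebraicIndependent k α := by
  have h1 := D.alg
  have h2 : Algebra.IsAlgebraic (IntermediateField.adjoin k (Set.range α)) K := by
    have hle : Algebra.adjoin k (Set.range D.x) ≤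
        (IntermediateField.adjoin k (Set.range α)).toSubalgebra := by
      rw [Algebra.adjoin_le_iff]
      rintro _ ⟨j, rfl⟩
      exact hx j
    let _ : Algebra (Algebra.adjoin k (Set.range D.x))
        (IntermediateField.adjoin k (Set.range α)).toSubalgebra :=
      (Subalgebra.inclusion hle).toRingHom.toAlgebra
    have : IsScalarTower (Algebra.adjoin k (Set.range D.x))
        (IntermediateField.adjoin k (Set.range α)).toSubalgebra K :=
      IsScalarTower.of_algebraMap_eq (fun _ => rfl)
    have : FaithfulSMul (Algebra.adjoin k (Set.range D.x))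
        (IntermediateField.adjoin k (Set.range α)).toSubalgebra :=
      (faithfulSMul_iff_algebraMap_injective _ _).2 (Subalgebra.inclusion_injective hle)
    constructor
    intro t
    exact (h1.isAlgebraic t).extendScalars (S := (IntermediateField.adjoin k (Set.range α)).toSubalgebra)
      (Subalgebra.inclusion_injective hle)
  have h3 : Algebra.IsAlgebraic (Algebra.adjoin k (Set.range α)) K := by
    have : IsFractionRing (Algebra.adjoin k (Set.range α))
      (IntermediateField.adjoin k (Set.range α)) := inferInstance
    exact (IsFractionRing.comap_isAlgebraic_iff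
      (K := IntermediateField.adjoin k (Set.range α))).2 h2
  have hcard : Cardinal.lift.{v} (Cardinal.mk (Fin 3)) ≤
      Cardinal.lift.{0} (Algebra.trdeg k K) := by
    rw [← D.isTranscendenceBasis.lift_cardinalMk_eq_trdeg]
  exact (Algebra.IsAlgebraic.isTranscendenceBasis_of_lift_le_trdeg_of_finite k α hcard).1

/-- The squarefree products of the `w_i` are linearly independent over `k(x_0,x_1,x_2)`. -/
theorem EData.linearIndependent (D : EData k K) :
    LinearIndependent (IntermediateField.adjoin k (Set.range D.x))
      (fun ε : Finset (Fin 3) => ∏ i ∈ ε, D.w i) := by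
  classical
  rw [← LinearIndependent.iff_fractionRing (Algebra.adjoin k (Set.range D.x))
    (IntermediateField.adjoin k (Set.range D.x))]
  rw [Fintype.linearIndependent_iff]
  intro g hg
  have hex : ∀ ε, ∃ r : MvPolynomial (Fin 3) k, aeval D.x r = (g ε : K) := by
    intro ε
    have h : (g ε : K) ∈ (aeval D.x : MvPolynomial (Fin 3) k →ₐ[k] K).range :=
      (Algebra.adjoin_range_eq_range_aeval k D.x).le (g ε).2
    exact h
  choose r hr using hex
  have h0 : r = 0 := by
    apply D.ind
    rw [← hg]
    refine Finset.sum_congr rfl (fun ε _ => ?_)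
    rw [hr, Algebra.smul_def]
    rfl
  intro ε
  have h1 := hr ε
  rw [h0] at h1
  apply Subtype.ext
  rw [← h1]
  simp

theorem EData.ind_of (D : EData k K) (α ω u : Fin 3 → K)
    (hα : ∀ i, α i ∈ IntermediateField.adjoin k (Set.range D.x))
    (hu : ∀ i, u i ∈ IntermediateField.adjoin k (Set.range D.x))
    (hu0 : ∀ i, u i ≠ 0) (hω : ∀ i, ω i = u i * D.w i)
    (hx : ∀ j, D.x j ∈ IntermediateField.adjoin k (Set.range α)) : Ind k α ω := by
  classical
  intro r hr
  have hA := D.algebraicIndependent_of α hx
  have hB := D.linearIndependent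
  rw [Fintype.linearIndependent_iff] at hB
  have hmem : ∀ ε, aeval α (r ε) * ∏ i ∈ ε, u i ∈
      IntermediateField.adjoin k (Set.range D.x) := by
    intro ε
    apply mul_mem
    · have h1 : aeval α (r ε) ∈ Algebra.adjoin k (Set.range α) := by
        rw [Algebra.adjoin_range_eq_range_aeval]
        exact ⟨r ε, rfl⟩
      have h2 : Algebra.adjoin k (Set.range α) ≤
          (IntermediateField.adjoin k (Set.range D.x)).toSubalgebra := by
        rw [Algebra.adjoin_le_iff]
        rintro _ ⟨j, rfl⟩
        exact hα j
      exact h2 h1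
    · exact prod_mem (fun i _ => hu i)
  have h3 := hB (fun ε => ⟨aeval α (r ε) * ∏ i ∈ ε, u i, hmem ε⟩) (by
    rw [← hr]
    refine Finset.sum_congr rfl (fun ε _ => ?_)
    have e1 : ∏ i ∈ ε, ω i = (∏ i ∈ ε, u i) * ∏ i ∈ ε, D.w i := by
      rw [← Finset.prod_mul_distrib]
      exact Finset.prod_congr rfl (fun i _ => hω i)
    rw [e1, ← mul_assoc, Algebra.smul_def]
    rfl)
  funext ε
  have h4 : aeval α (r ε) * ∏ i ∈ ε, u i = 0 := congrArg Subtype.val (h3 ε)
  have h5 : ∏ i ∈ ε, u i ≠ 0 := Finset.prod_ne_zero_iff.2 (fun i _ => hu0 i)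
  have h6 : aeval α (r ε) = 0 := by
    rcases mul_eq_zero.1 h4 with h | h
    · exact h
    · exact absurd h h5
  exact (algebraicIndependent_iff.1 hA) _ h6

/-- Independence over `k` implies independence over a subring. -/
theorem Ind.descend {O : Type w} [CommRing O] [Algebra O k] [Algebra O K] [IsScalarTower O k K]
    (hinj : Function.Injective (algebraMap O k)) {α ω : Fin 3 → K} (h : Ind k α ω) :
    Ind O α ω := by
  intro r hr
  have h1 := h (fun ε => MvPolynomial.map (algebraMap O k) (r ε)) (by
    rw [← hr]
    refine Finset.sum_congr rfl (fun ε _ => ?_)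
    rw [aeval_map_algebraMap])
  funext ε
  have h2 := congrFun h1 ε
  exact MvPolynomial.map_injective _ hinj (by simpa using h2)

end Pool.Agent.Lib.MP_55c1e7_ag.CH
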