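import Mathlib
import Pool.Agent.Lib.MP_55c1e7_ag.CK.Ed
import Pool.Agent.Lib.MP_55c1e7_ag.CH.ED

open MvPolynomial

namespace Pool.Agent.Lib.MP_55c1e7_ag.CH

open Pool.Agent.Lib.MP_55c1e7_ag.CK

/-- The chart ring `O[h_j / h_i : j]` inside `K`. -/
def chartRing (O : Type) {K : Type} [CommRing O] [Field K] [Algebra O K] {ι : Type} (h : ι → K)
    (i : ι) : Subalgebra O K :=
  Algebra.adjoin O (Set.range fun j => h j / h i)

section basics

variable {k K : Type} [Field k] [Field K] [Algebra k K] (P : Pt k K)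

theorem x_ne (i : Fin 3) : P.x i ≠ 0 := P.ind.ne_zero i

theorem x3_ne : P.x 0 - 3 ≠ 0 := by
  intro h
  have h1 : aeval P.x (X 0 - 3 : MvPolynomial (Fin 3) k) = 0 := by
    rw [map_sub, aeval_X, map_ofNat]
    exact h
  have h2 := (algebraicIndependent_iff.1 P.ind) _ h1
  have h3 := congrArg (fun p => MvPolynomial.eval (fun _ => (4 : k)) p) h2
  simp only [map_sub, eval_X, map_ofNat, map_zero] at h3
  norm_num at h3

theorem w_ne (i : Fin 3) : P.w i ≠ 0 := by
  intro h
  have h0 := P.sq i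
  rw [h] at h0
  have h1 : aeval P.x (X i ^ 4 + 1 : MvPolynomial (Fin 3) k) = 0 := by
    rw [map_add, map_pow, aeval_X, map_one, ← h0]
    simp
  have h2 := (algebraicIndependent_iff.1 P.ind) _ h1
  have h3 := congrArg (fun p => MvPolynomial.eval (fun _ => (0 : k)) p) h2
  simp at h3

/-- The square root on the chart (`true` = at infinity). -/
def ww (s : Fin 3 → Bool) (i : Fin 3) : K :=
  if s i then P.w i / P.x i ^ 2 else P.w i

/-- The coordinate on the chart (`true` = at infinity). -/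
def xx (s : Fin 3 → Bool) (i : Fin 3) : K :=
  if s i then (P.x i)⁻¹ else P.x i

theorem ww_sq (s : Fin 3 → Bool) (i : Fin 3) : ww P s i ^ 2 = xx P s i ^ 4 + 1 := by
  unfold ww xx
  have h := P.sq i
  have h0 := x_ne P i
  split_ifs
  · field_simp
    rw [h]
    ring
  · exact h

theorem chart_core (h2 : (2 : k) ≠ 0) (hP : P.Gen) {O : Type} [CommRing O] [Algebra O k]
    [Algebra O K] [IsScalarTower O k K] (hinj : Function.Injective (algebraMap O k))
    (s : Fin 3 → Bool) (α : Fin 3 → K) (ξ : Fin 3 → MvPolynomial (Fin 3) O)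
    (hα : ∀ i, α i ∈ P.F) (hξ : ∀ i, aeval α (ξ i) = xx P s i) :
    (∀ i, ww P s i ^ 2 = aeval α (ξ i) ^ 4 + 1) ∧ Ind O α (ww P s) := by
  refine ⟨fun i => by rw [hξ, ww_sq], ?_⟩
  obtain ⟨D, hDx, hDw⟩ := edata_of_pt h2 P hP
  apply Ind.descend hinj
  have hxF : ∀ i, P.x i ∈ P.F := fun i =>
    IntermediateField.subset_adjoin k _ ⟨i, rfl⟩
  apply D.ind_of α (ww P s) (fun i => if s i then (P.x i ^ 2)⁻¹ else 1)
  · intro i
    rw [hDx]
    exact hα i
  · intro i
    rw [hDx]
    beta_reduce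
    split_ifs
    · exact inv_mem (pow_mem (hxF i) 2)
    · exact one_mem _
  · intro i
    beta_reduce
    split_ifs
    · exact inv_ne_zero (pow_ne_zero _ (x_ne P i))
    · exact one_ne_zero
  · intro i
    rw [hDw]
    unfold ww
    split_ifs
    · rw [div_eq_inv_mul]
    · rw [one_mul]
  · intro j
    rw [hDx]
    have h1 : xx P s j ∈ IntermediateField.adjoin k (Set.range α) := by
      rw [← hξ j]
      have h3 : aeval α (MvPolynomial.map (algebraMap O k) (ξ j)) ∈
          Algebra.adjoin k (Set.range α) := by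
        rw [Algebra.adjoin_range_eq_range_aeval]
        exact ⟨_, rfl⟩
      rw [aeval_map_algebraMap] at h3
      exact IntermediateField.algebra_adjoin_le_adjoin k _ h3
    unfold xx at h1
    split_ifs at h1 with h
    · have h4 := inv_mem h1
      rwa [inv_inv] at h4
    · exact h1

end basics

section loc

variable {O : Type} [CommRing O] {K : Type} [Field K] [Algebra O K]

/-- Adjoining the inverse of an element of a smooth subalgebra gives a smooth algebra. -/
theorem smooth_insert_inv (S : Set K) (hB : Algebra.Smooth O (Algebra.adjoin O S)) (φ : K)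
    (hφ : φ ∈ Algebra.adjoin O S) (h0 : φ ≠ 0) :
    Algebra.Smooth O (Algebra.adjoin O (insert φ⁻¹ S)) := by
  have hle : Algebra.adjoin O S ≤ Algebra.adjoin O (insert φ⁻¹ S) :=
    Algebra.adjoin_mono (Set.subset_insert _ _)
  letI : Algebra (Algebra.adjoin O S) (Algebra.adjoin O (insert φ⁻¹ S)) :=
    (Subalgebra.inclusion hle).toRingHom.toAlgebra
  haveI : IsScalarTower O (Algebra.adjoin O S) (Algebra.adjoin O (insert φ⁻¹ S)) :=
    IsScalarTower.of_algebraMap_eq (fun r => rfl)
  have hmap : ∀ b : Algebra.adjoin O S,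
      ((algebraMap (Algebra.adjoin O S) (Algebra.adjoin O (insert φ⁻¹ S)) b :
        Algebra.adjoin O (insert φ⁻¹ S)) : K) = b := fun b => rfl
  have hinv : φ⁻¹ ∈ Algebra.adjoin O (insert φ⁻¹ S) :=
    Algebra.subset_adjoin (Set.mem_insert _ _)
  have hloc : IsLocalization.Away (⟨φ, hφ⟩ : Algebra.adjoin O S)
      (Algebra.adjoin O (insert φ⁻¹ S)) := by
    refine IsLocalization.Away.mk _ ?_ ?_ ?_
    · refine IsUnit.of_mul_eq_one ⟨φ⁻¹, hinv⟩ ?_
      apply Subtype.ext
      rw [Subalgebra.coe_mul, hmap]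
      exact mul_inv_cancel₀ h0
    · rintro ⟨z, hz⟩
      have key : ∃ n : ℕ, z * φ ^ n ∈ Algebra.adjoin O S := by
        refine Algebra.adjoin_induction (p := fun z _ => ∃ n : ℕ, z * φ ^ n ∈ Algebra.adjoin O S)
          ?_ ?_ ?_ ?_ hz
        · intro x hx
          rcases hx with rfl | hx
          · exact ⟨1, by rw [pow_one, inv_mul_cancel₀ h0]; exact one_mem _⟩
          · exact ⟨0, by rw [pow_zero, mul_one]; exact Algebra.subset_adjoin hx⟩
        · intro r
          exact ⟨0, by rw [pow_zero, mul_one]; exact Subalgebra.algebraMap_mem _ r⟩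
        · rintro x y _ _ ⟨n, hn⟩ ⟨m, hm⟩
          refine ⟨n + m, ?_⟩
          have h1 : (x + y) * φ ^ (n + m) = x * φ ^ n * φ ^ m + y * φ ^ m * φ ^ n := by ring
          rw [h1]
          exact add_mem (mul_mem hn (pow_mem hφ m)) (mul_mem hm (pow_mem hφ n))
        · rintro x y _ _ ⟨n, hn⟩ ⟨m, hm⟩
          refine ⟨n + m, ?_⟩
          have h1 : (x * y) * φ ^ (n + m) = (x * φ ^ n) * (y * φ ^ m) := by ring
          rw [h1]
          exact mul_mem hn hm
      obtain ⟨n, hn⟩ := key
      refine ⟨n, ⟨_, hn⟩, ?_⟩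
      apply Subtype.ext
      rw [Subalgebra.coe_mul, SubmonoidClass.coe_pow, hmap, hmap]
    · intro a b hab
      refine ⟨0, ?_⟩
      have h1 : (a : K) = b := by
        rw [← hmap a, ← hmap b, hab]
      rw [Subtype.ext h1]
  haveI := Algebra.Smooth.of_isLocalization_Away (A := Algebra.adjoin O (insert φ⁻¹ S))
    (⟨φ, hφ⟩ : Algebra.adjoin O S)
  exact Algebra.Smooth.comp O (Algebra.adjoin O S) (Algebra.adjoin O (insert φ⁻¹ S))

end loc

end Pool.Agent.Lib.MP_55c1e7_ag.CH
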