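import Mathlib
import Pool.Agent.Lib.MP_55c1e7_ag.CH.Ch

namespace Pool.Agent.Lib.MP_55c1e7_ag.CH

open Pool.Agent.Lib.MP_55c1e7_ag.CK

/-- `l3` with `X = x - 3` free. -/
def m3 {K : Type} [Field K] (X y z : K) : Fin 5 → K := ![X * z, X * y * z, y * z, X * y, y]

/-- `l4` with `X = x - 3` free. -/
def m4 {K : Type} [Field K] (X x y z : K) : Fin 4 → K := ![X * z, X * y * z, x * y, x * y * z]

theorem l3_eq {K : Type} [Field K] (x y z : K) : l3 x y z = m3 (x - 3) y z := rfl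

theorem l4_eq {K : Type} [Field K] (x y z : K) : l4 x y z = m4 (x - 3) x y z := rfl

/-- The index of the list `lE` on the chart (`true` = at infinity). -/
def eix (b : Bool) : Fin 4 := if b then 2 else 0

section algebra

variable {O : Type} [CommRing O] {K : Type} [Field K] [Algebra O K]

theorem mem_eq {B : Subalgebra O K} {r t : K} (e : r = t) (h : t ∈ B) : r ∈ B := e ▸ h

theorem three_mem (B : Subalgebra O K) : (3 : K) ∈ B := by
  have h := B.algebraMap_mem 3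
  rwa [map_ofNat] at h

theorem div_self_mem (B : Subalgebra O K) (a : K) : a / a ∈ B := by
  by_cases h : a = 0
  · rw [h, div_zero]
    exact zero_mem _
  · rw [div_self h]
    exact one_mem _

end algebra

section lists

variable {k : Type} [Field k] {O : Type} [CommRing O] {K : Type} [Field K] [Algebra O K]
  [Algebra k K] (P : Pt k K)

theorem lE_ne {x w : K} (hx : x ≠ 0) (hw : w ≠ 0) (j : Fin 4) : lE x w j ≠ 0 := by
  fin_cases j
  · exact one_ne_zero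
  · exact hx
  · exact pow_ne_zero 2 hx
  · exact hw

theorem lyz_ne {y z : K} (hy : y ≠ 0) (hz : z ≠ 0) (j : Fin 3) : lyz y z j ≠ 0 := by
  fin_cases j
  · exact hy
  · exact hz
  · exact mul_ne_zero hy hz

theorem lxyz_ne {x y z : K} (hx : x ≠ 0) (hy : y ≠ 0) (hz : z ≠ 0) (j : Fin 5) :
    lxyz x y z j ≠ 0 := by
  fin_cases j
  · exact mul_ne_zero hx hy
  · exact mul_ne_zero (mul_ne_zero hx hy) hz
  · exact mul_ne_zero hy hz
  · exact mul_ne_zero hx hz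
  · exact hz

theorem l3_ne {x y z : K} (hX : x - 3 ≠ 0) (hy : y ≠ 0) (hz : z ≠ 0) (j : Fin 5) :
    l3 x y z j ≠ 0 := by
  fin_cases j
  · exact mul_ne_zero hX hz
  · exact mul_ne_zero (mul_ne_zero hX hy) hz
  · exact mul_ne_zero hy hz
  · exact mul_ne_zero hX hy
  · exact hy

theorem l4_ne {x y z : K} (hX : x - 3 ≠ 0) (hx : x ≠ 0) (hy : y ≠ 0) (hz : z ≠ 0) (j : Fin 4) :
    l4 x y z j ≠ 0 := by
  fin_cases j
  · exact mul_ne_zero hX hz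
  · exact mul_ne_zero (mul_ne_zero hX hy) hz
  · exact mul_ne_zero hx hy
  · exact mul_ne_zero (mul_ne_zero hx hy) hz

theorem lE_mem (s : Fin 3 → Bool) (i : Fin 3) (B : Subalgebra O K) (hx : xx P s i ∈ B)
    (hw : ww P s i ∈ B) (j : Fin 4) :
    lE (P.x i) (P.w i) j / lE (P.x i) (P.w i) (eix (s i)) ∈ B := by
  have h0 := x_ne P i
  unfold xx at hx
  unfold ww at hw
  unfold eix
  split_ifs at hx hw ⊢
  · fin_cases j
    · change 1 / P.x i ^ 2 ∈ B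
      exact mem_eq (by field_simp) (pow_mem hx 2)
    · change P.x i / P.x i ^ 2 ∈ B
      exact mem_eq (by field_simp) hx
    · exact div_self_mem B _
    · exact hw
  · fin_cases j
    · exact div_self_mem B _
    · change P.x i / 1 ∈ B
      exact mem_eq (by field_simp) hx
    · change P.x i ^ 2 / 1 ∈ B
      exact mem_eq (by field_simp) (pow_mem hx 2)
    · change P.w i / 1 ∈ B
      exact mem_eq (by field_simp) hw

theorem of_lE (s : Fin 3 → Bool) (i : Fin 3) (B : Subalgebra O K)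
    (h : ∀ j, lE (P.x i) (P.w i) j / lE (P.x i) (P.w i) (eix (s i)) ∈ B) :
    xx P s i ∈ B ∧ ww P s i ∈ B := by
  have h0 := x_ne P i
  unfold xx ww
  unfold eix at h
  split_ifs at h ⊢
  · refine ⟨?_, h 3⟩
    have h1 := h 1
    change P.x i / P.x i ^ 2 ∈ B at h1
    exact mem_eq (by field_simp) h1
  · have h1 := h 1
    have h3 := h 3
    change P.x i / 1 ∈ B at h1
    change P.w i / 1 ∈ B at h3
    rw [div_one] at h1 h3
    exact ⟨h1, h3⟩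

end lists

section XX

variable {k : Type} [Field k] {O : Type} [CommRing O] {K : Type} [Field K] [Algebra O K]
  [Algebra k K] (P : Pt k K)

/-- The index of a chart. -/
def iXX (s : Fin 3 → Bool) (i3 : Fin 3) (i4 i5 : Fin 5) :
    Fin 4 × Fin 4 × Fin 4 × Fin 3 × Fin 5 × Fin 5 :=
  (eix (s 0), eix (s 1), eix (s 2), i3, i4, i5)

theorem XX_ne (j : Fin 4 × Fin 4 × Fin 4 × Fin 3 × Fin 5 × Fin 5) : hXX P j ≠ 0 := by
  have hx := x_ne P
  have hw := w_ne P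
  unfold hXX
  refine mul_ne_zero (mul_ne_zero (mul_ne_zero (mul_ne_zero (mul_ne_zero ?_ ?_) ?_) ?_) ?_) ?_
  · exact lE_ne (hx 0) (hw 0) _
  · exact lE_ne (hx 1) (hw 1) _
  · exact lE_ne (hx 2) (hw 2) _
  · exact lyz_ne (hx 1) (hx 2) _
  · exact lxyz_ne (hx 0) (hx 1) (hx 2) _
  · exact l3_ne (x3_ne P) (hx 1) (hx 2) _

theorem XX_le (s : Fin 3 → Bool) (i3 : Fin 3) (i4 i5 : Fin 5) (B : Subalgebra O K)
    (hx : ∀ i, xx P s i ∈ B) (hw : ∀ i, ww P s i ∈ B)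
    (h3 : ∀ j, lyz (P.x 1) (P.x 2) j / lyz (P.x 1) (P.x 2) i3 ∈ B)
    (h4 : ∀ j, lxyz (P.x 0) (P.x 1) (P.x 2) j / lxyz (P.x 0) (P.x 1) (P.x 2) i4 ∈ B)
    (h5 : ∀ j, l3 (P.x 0) (P.x 1) (P.x 2) j / l3 (P.x 0) (P.x 1) (P.x 2) i5 ∈ B) :
    chartRing O (hXX P) (iXX s i3 i4 i5) ≤ B := by
  refine Algebra.adjoin_le ?_
  rintro _ ⟨⟨j0, j1, j2, j3, j4, j5⟩, rfl⟩
  simp only [hXX, iXX, mul_div_mul_comm]
  exact mul_mem (mul_mem (mul_mem (mul_mem (mul_mem (lE_mem P s 0 B (hx 0) (hw 0) j0)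
    (lE_mem P s 1 B (hx 1) (hw 1) j1)) (lE_mem P s 2 B (hx 2) (hw 2) j2)) (h3 j3)) (h4 j4)) (h5 j5)

theorem XX_ge (s : Fin 3 → Bool) (i3 : Fin 3) (i4 i5 : Fin 5) :
    (∀ i, xx P s i ∈ chartRing O (hXX P) (iXX s i3 i4 i5)) ∧
    (∀ i, ww P s i ∈ chartRing O (hXX P) (iXX s i3 i4 i5)) ∧
    (∀ j, lyz (P.x 1) (P.x 2) j / lyz (P.x 1) (P.x 2) i3 ∈
      chartRing O (hXX P) (iXX s i3 i4 i5)) ∧
    (∀ j, lxyz (P.x 0) (P.x 1) (P.x 2) j / lxyz (P.x 0) (P.x 1) (P.x 2) i4 ∈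
      chartRing O (hXX P) (iXX s i3 i4 i5)) ∧
    (∀ j, l3 (P.x 0) (P.x 1) (P.x 2) j / l3 (P.x 0) (P.x 1) (P.x 2) i5 ∈
      chartRing O (hXX P) (iXX s i3 i4 i5)) := by
  have hx := x_ne P
  have hw := w_ne P
  have e0 := lE_ne (hx 0) (hw 0) (eix (s 0))
  have e1 := lE_ne (hx 1) (hw 1) (eix (s 1))
  have e2 := lE_ne (hx 2) (hw 2) (eix (s 2))
  have e3 := lyz_ne (hx 1) (hx 2) i3
  have e4 := lxyz_ne (hx 0) (hx 1) (hx 2) i4
  have e5 := l3_ne (x3_ne P) (hx 1) (hx 2) i5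
  have key : ∀ j, hXX P j / hXX P (iXX s i3 i4 i5) ∈ chartRing O (hXX P) (iXX s i3 i4 i5) :=
    fun j => Algebra.subset_adjoin ⟨j, rfl⟩
  have k0 := fun j => key (j, eix (s 1), eix (s 2), i3, i4, i5)
  have k1 := fun j => key (eix (s 0), j, eix (s 2), i3, i4, i5)
  have k2 := fun j => key (eix (s 0), eix (s 1), j, i3, i4, i5)
  have k3 := fun j => key (eix (s 0), eix (s 1), eix (s 2), j, i4, i5)
  have k4 := fun j => key (eix (s 0), eix (s 1), eix (s 2), i3, j, i5)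
  have k5 := fun j => key (eix (s 0), eix (s 1), eix (s 2), i3, i4, j)
  simp only [hXX, iXX, mul_div_mul_comm, div_self e0, div_self e1, div_self e2, div_self e3,
    div_self e4, div_self e5, one_mul, mul_one] at k0 k1 k2 k3 k4 k5
  have l0 := of_lE P s 0 _ k0
  have l1 := of_lE P s 1 _ k1
  have l2 := of_lE P s 2 _ k2
  refine ⟨?_, ?_, k3, k4, k5⟩
  · intro i
    fin_cases i
    · exact l0.1
    · exact l1.1
    · exact l2.1
  · intro i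
    fin_cases i
    · exact l0.2
    · exact l1.2
    · exact l2.2

end XX

/-- The index of a chart. -/
def iZ (s : Fin 3 → Bool) (i3 : Fin 3) (i4 : Fin 5) (i5 : Fin 4) :
    (Fin 4 × Fin 4 × Fin 4 × Fin 5 × Fin 4) × Fin 3 :=
  ((eix (s 0), eix (s 1), eix (s 2), i4, i5), i3)

section X

variable {k : Type} [Field k] {O : Type} [CommRing O] {K : Type} [Field K] [Algebra O K]
  [Algebra k K] (P : Pt k K)

theorem X_ne (j : (Fin 4 × Fin 4 × Fin 4 × Fin 5 × Fin 4) × Fin 3) : hX P j ≠ 0 := by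
  have hx := x_ne P
  have hw := w_ne P
  unfold hX hZ
  refine mul_ne_zero (mul_ne_zero (mul_ne_zero (mul_ne_zero (mul_ne_zero ?_ ?_) ?_) ?_) ?_) ?_
  · exact lE_ne (hx 0) (hw 0) _
  · exact lE_ne (hx 1) (hw 1) _
  · exact lE_ne (hx 2) (hw 2) _
  · exact lxyz_ne (hx 0) (hx 1) (hx 2) _
  · exact l4_ne (x3_ne P) (hx 0) (hx 1) (hx 2) _
  · exact lyz_ne (hx 1) (hx 2) _

theorem X_le (s : Fin 3 → Bool) (i3 : Fin 3) (i4 : Fin 5) (i5 : Fin 4) (B : Subalgebra O K)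
    (hx : ∀ i, xx P s i ∈ B) (hw : ∀ i, ww P s i ∈ B)
    (h3 : ∀ j, lyz (P.x 1) (P.x 2) j / lyz (P.x 1) (P.x 2) i3 ∈ B)
    (h4 : ∀ j, lxyz (P.x 0) (P.x 1) (P.x 2) j / lxyz (P.x 0) (P.x 1) (P.x 2) i4 ∈ B)
    (h5 : ∀ j, l4 (P.x 0) (P.x 1) (P.x 2) j / l4 (P.x 0) (P.x 1) (P.x 2) i5 ∈ B) :
    chartRing O (hX P) (iZ s i3 i4 i5) ≤ B := by
  refine Algebra.adjoin_le ?_
  rintro _ ⟨⟨⟨j0, j1, j2, j4, j5⟩, j3⟩, rfl⟩
  simp only [hX, hZ, iZ, mul_div_mul_comm]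
  exact mul_mem (mul_mem (mul_mem (mul_mem (mul_mem (lE_mem P s 0 B (hx 0) (hw 0) j0)
    (lE_mem P s 1 B (hx 1) (hw 1) j1)) (lE_mem P s 2 B (hx 2) (hw 2) j2)) (h4 j4)) (h5 j5)) (h3 j3)

theorem X_ge (s : Fin 3 → Bool) (i3 : Fin 3) (i4 : Fin 5) (i5 : Fin 4) :
    (∀ i, xx P s i ∈ chartRing O (hX P) (iZ s i3 i4 i5)) ∧
    (∀ i, ww P s i ∈ chartRing O (hX P) (iZ s i3 i4 i5)) ∧
    (∀ j, lyz (P.x 1) (P.x 2) j / lyz (P.x 1) (P.x 2) i3 ∈
      chartRing O (hX P) (iZ s i3 i4 i5)) ∧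
    (∀ j, lxyz (P.x 0) (P.x 1) (P.x 2) j / lxyz (P.x 0) (P.x 1) (P.x 2) i4 ∈
      chartRing O (hX P) (iZ s i3 i4 i5)) ∧
    (∀ j, l4 (P.x 0) (P.x 1) (P.x 2) j / l4 (P.x 0) (P.x 1) (P.x 2) i5 ∈
      chartRing O (hX P) (iZ s i3 i4 i5)) := by
  have hx := x_ne P
  have hw := w_ne P
  have e0 := lE_ne (hx 0) (hw 0) (eix (s 0))
  have e1 := lE_ne (hx 1) (hw 1) (eix (s 1))
  have e2 := lE_ne (hx 2) (hw 2) (eix (s 2))
  have e3 := lyz_ne (hx 1) (hx 2) i3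
  have e4 := lxyz_ne (hx 0) (hx 1) (hx 2) i4
  have e5 := l4_ne (x3_ne P) (hx 0) (hx 1) (hx 2) i5
  have key : ∀ j, hX P j / hX P (iZ s i3 i4 i5) ∈ chartRing O (hX P) (iZ s i3 i4 i5) :=
    fun j => Algebra.subset_adjoin ⟨j, rfl⟩
  have k0 := fun j => key ((j, eix (s 1), eix (s 2), i4, i5), i3)
  have k1 := fun j => key ((eix (s 0), j, eix (s 2), i4, i5), i3)
  have k2 := fun j => key ((eix (s 0), eix (s 1), j, i4, i5), i3)
  have k3 := fun j => key ((eix (s 0), eix (s 1), eix (s 2), i4, i5), j)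
  have k4 := fun j => key ((eix (s 0), eix (s 1), eix (s 2), j, i5), i3)
  have k5 := fun j => key ((eix (s 0), eix (s 1), eix (s 2), i4, j), i3)
  simp only [hX, hZ, iZ, mul_div_mul_comm, div_self e0, div_self e1, div_self e2, div_self e3,
    div_self e4, div_self e5, one_mul, mul_one] at k0 k1 k2 k3 k4 k5
  have l0 := of_lE P s 0 _ k0
  have l1 := of_lE P s 1 _ k1
  have l2 := of_lE P s 2 _ k2
  refine ⟨?_, ?_, k3, k4, k5⟩
  · intro i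
    fin_cases i
    · exact l0.1
    · exact l1.1
    · exact l2.1
  · intro i
    fin_cases i
    · exact l0.2
    · exact l1.2
    · exact l2.2

end X

section Y

variable {k : Type} [Field k] {O : Type} [CommRing O] {K : Type} [Field K] [Algebra O K]
  [Algebra k K] (P : Pt k K)

theorem Y_ne (j : (Fin 4 × Fin 4 × Fin 4 × Fin 5 × Fin 4) × Fin 3) : hY P j ≠ 0 := by
  have hx := x_ne P
  have hw := w_ne P
  unfold hY hZ
  refine mul_ne_zero (mul_ne_zero (mul_ne_zero (mul_ne_zero (mul_ne_zero ?_ ?_) ?_) ?_) ?_) ?_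
  · exact lE_ne (hx 0) (hw 0) _
  · exact lE_ne (hx 1) (hw 1) _
  · exact lE_ne (hx 2) (hw 2) _
  · exact lxyz_ne (hx 0) (hx 1) (hx 2) _
  · exact l4_ne (x3_ne P) (hx 0) (hx 1) (hx 2) _
  · exact lyz_ne (hx 0) (hx 2) _

theorem Y_le (s : Fin 3 → Bool) (i3 : Fin 3) (i4 : Fin 5) (i5 : Fin 4) (B : Subalgebra O K)
    (hx : ∀ i, xx P s i ∈ B) (hw : ∀ i, ww P s i ∈ B)
    (h3 : ∀ j, lyz (P.x 0) (P.x 2) j / lyz (P.x 0) (P.x 2) i3 ∈ B)
    (h4 : ∀ j, lxyz (P.x 0) (P.x 1) (P.x 2) j / lxyz (P.x 0) (P.x 1) (P.x 2) i4 ∈ B)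
    (h5 : ∀ j, l4 (P.x 0) (P.x 1) (P.x 2) j / l4 (P.x 0) (P.x 1) (P.x 2) i5 ∈ B) :
    chartRing O (hY P) (iZ s i3 i4 i5) ≤ B := by
  refine Algebra.adjoin_le ?_
  rintro _ ⟨⟨⟨j0, j1, j2, j4, j5⟩, j3⟩, rfl⟩
  simp only [hY, hZ, iZ, mul_div_mul_comm]
  exact mul_mem (mul_mem (mul_mem (mul_mem (mul_mem (lE_mem P s 0 B (hx 0) (hw 0) j0)
    (lE_mem P s 1 B (hx 1) (hw 1) j1)) (lE_mem P s 2 B (hx 2) (hw 2) j2)) (h4 j4)) (h5 j5)) (h3 j3)

theorem Y_ge (s : Fin 3 → Bool) (i3 : Fin 3) (i4 : Fin 5) (i5 : Fin 4) :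
    (∀ i, xx P s i ∈ chartRing O (hY P) (iZ s i3 i4 i5)) ∧
    (∀ i, ww P s i ∈ chartRing O (hY P) (iZ s i3 i4 i5)) ∧
    (∀ j, lyz (P.x 0) (P.x 2) j / lyz (P.x 0) (P.x 2) i3 ∈
      chartRing O (hY P) (iZ s i3 i4 i5)) ∧
    (∀ j, lxyz (P.x 0) (P.x 1) (P.x 2) j / lxyz (P.x 0) (P.x 1) (P.x 2) i4 ∈
      chartRing O (hY P) (iZ s i3 i4 i5)) ∧
    (∀ j, l4 (P.x 0) (P.x 1) (P.x 2) j / l4 (P.x 0) (P.x 1) (P.x 2) i5 ∈
      chartRing O (hY P) (iZ s i3 i4 i5)) := by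
  have hx := x_ne P
  have hw := w_ne P
  have e0 := lE_ne (hx 0) (hw 0) (eix (s 0))
  have e1 := lE_ne (hx 1) (hw 1) (eix (s 1))
  have e2 := lE_ne (hx 2) (hw 2) (eix (s 2))
  have e3 := lyz_ne (hx 0) (hx 2) i3
  have e4 := lxyz_ne (hx 0) (hx 1) (hx 2) i4
  have e5 := l4_ne (x3_ne P) (hx 0) (hx 1) (hx 2) i5
  have key : ∀ j, hY P j / hY P (iZ s i3 i4 i5) ∈ chartRing O (hY P) (iZ s i3 i4 i5) :=
    fun j => Algebra.subset_adjoin ⟨j, rfl⟩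
  have k0 := fun j => key ((j, eix (s 1), eix (s 2), i4, i5), i3)
  have k1 := fun j => key ((eix (s 0), j, eix (s 2), i4, i5), i3)
  have k2 := fun j => key ((eix (s 0), eix (s 1), j, i4, i5), i3)
  have k3 := fun j => key ((eix (s 0), eix (s 1), eix (s 2), i4, i5), j)
  have k4 := fun j => key ((eix (s 0), eix (s 1), eix (s 2), j, i5), i3)
  have k5 := fun j => key ((eix (s 0), eix (s 1), eix (s 2), i4, j), i3)
  simp only [hY, hZ, iZ, mul_div_mul_comm, div_self e0, div_self e1, div_self e2, div_self e3,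
    div_self e4, div_self e5, one_mul, mul_one] at k0 k1 k2 k3 k4 k5
  have l0 := of_lE P s 0 _ k0
  have l1 := of_lE P s 1 _ k1
  have l2 := of_lE P s 2 _ k2
  refine ⟨?_, ?_, k3, k4, k5⟩
  · intro i
    fin_cases i
    · exact l0.1
    · exact l1.1
    · exact l2.1
  · intro i
    fin_cases i
    · exact l0.2
    · exact l1.2
    · exact l2.2

end Y

end Pool.Agent.Lib.MP_55c1e7_ag.CH
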