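import Mathlib
import Pool.Agent.Lib.MP_55c1e7_ag.CH.Q

open MvPolynomial

namespace Pool.Agent.Lib.MP_55c1e7_ag.CH

set_option linter.unusedSimpArgs false
set_option linter.unusedTactic false

universe u

section diag
variable {R : Type u} [CommRing R]

theorem diag_mono (t ξ : R) (h2 : 2 * t = 1) :
    2 * t * (ξ ^ 4 + 1) - 4 * t ^ 2 * ξ ^ 3 * ξ = 1 := by
  linear_combination (ξ ^ 4 + 1 - ξ ^ 4 * (2 * t + 1)) * h2

theorem diag_minus (t s ξ : R) (h2 : 2 * t = 1) (h41 : 41 * s = 1) :
    2 * (t * (1 - ξ ^ 4 * (t * s))) * (ξ ^ 4 + 1) -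
      4 * (-(t ^ 3 * s) * (ξ ^ 3 + 3 * ξ ^ 2 + 9 * ξ + 27)) * ξ ^ 3 * (ξ * (ξ - 3)) = 1 := by
  linear_combination ((1 - ξ ^ 4 * t * s) * (ξ ^ 4 + 1) + (2 * t + 1) * t * s * (ξ ^ 4 - 81) * ξ ^ 4
    - ξ ^ 4 * (41 * s)) * h2 - ξ ^ 4 * h41

theorem diag_minus' (t s ξ : R) (h2 : 2 * t = 1) (h41 : 41 * s = 1) :
    2 * (t * (1 - ξ ^ 4 * (t * s))) * (ξ ^ 4 + 1) -
      4 * (-(t ^ 3 * s) * (ξ ^ 3 + 3 * ξ ^ 2 + 9 * ξ + 27) * ξ) * ξ ^ 3 * (ξ - 3) = 1 := by
  linear_combination ((1 - ξ ^ 4 * t * s) * (ξ ^ 4 + 1) + (2 * t + 1) * t * s * (ξ ^ 4 - 81) * ξ ^ 4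
    - ξ ^ 4 * (41 * s)) * h2 - ξ ^ 4 * h41

theorem diag_inv (t s ξ : R) (h2 : 2 * t = 1) (h41 : 41 * s = 1) :
    2 * (t * (1 - 81 * ξ ^ 4 * (t * s))) * (ξ ^ 4 + 1) -
      4 * (t ^ 3 * s * (1 + 3 * ξ + 9 * ξ ^ 2 + 27 * ξ ^ 3)) * ξ ^ 3 * (ξ * (1 - 3 * ξ)) = 1 := by
  linear_combination ((1 - 81 * ξ ^ 4 * t * s) * (ξ ^ 4 + 1)
    - (2 * t + 1) * t * s * (1 - 81 * ξ ^ 4) * ξ ^ 4 - ξ ^ 4 * (41 * s)) * h2 - ξ ^ 4 * h41

end diag

variable {O : Type u} [CommRing O]

/-- Derivation of the polynomial ring in three variables with prescribed values. -/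
noncomputable abbrev der3 (f0 f1 f2 : MvPolynomial (Fin 3) O) :
    Derivation O (MvPolynomial (Fin 3) O) (MvPolynomial (Fin 3) O) :=
  mkDerivation O ![f0, f1, f2]

theorem der3_X0 (f0 f1 f2 : MvPolynomial (Fin 3) O) : der3 f0 f1 f2 (X 0) = f0 := by
  simp [der3, mkDerivation_X]
theorem der3_X1 (f0 f1 f2 : MvPolynomial (Fin 3) O) : der3 f0 f1 f2 (X 1) = f1 := by
  simp [der3, mkDerivation_X]
theorem der3_X2 (f0 f1 f2 : MvPolynomial (Fin 3) O) : der3 f0 f1 f2 (X 2) = f2 := by
  simp [der3, mkDerivation_X]
theorem der3_one (f0 f1 f2 : MvPolynomial (Fin 3) O) : der3 f0 f1 f2 1 = 0 :=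
  Derivation.map_one_eq_zero _
theorem der3_three (f0 f1 f2 : MvPolynomial (Fin 3) O) : der3 f0 f1 f2 3 = 0 := by
  have h : (3 : MvPolynomial (Fin 3) O) = algebraMap O _ 3 := (map_ofNat _ 3).symm
  rw [h, Derivation.map_algebraMap]
theorem der3_mul (f0 f1 f2 p q : MvPolynomial (Fin 3) O) :
    der3 f0 f1 f2 (p * q) = p * der3 f0 f1 f2 q + q * der3 f0 f1 f2 p := by
  rw [Derivation.leibniz, smul_eq_mul, smul_eq_mul]

/-- Coordinates of type T1. -/
noncomputable abbrev T1 (O : Type u) [CommRing O] : Fin 3 → MvPolynomial (Fin 3) O :=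
  ![X 0, X 1, X 0 * X 1 * X 2]

noncomputable def T1_data (t s : O) (h2 : 2 * t = 1) (h41 : 41 * s = 1) : SmoothData (T1 O) :=
  have h2' : 2 * (C t : MvPolynomial (Fin 3) O) = 1 := by
    have h := congrArg (C : O → MvPolynomial (Fin 3) O) h2
    rwa [map_mul, map_ofNat, map_one] at h
  have h41' : 41 * (C s : MvPolynomial (Fin 3) O) = 1 := by
    have h := congrArg (C : O → MvPolynomial (Fin 3) O) h41
    rwa [map_mul, map_ofNat, map_one] at h
  { D := ![der3 (X 0) (0) (-X 2), der3 (0) (X 1) (-X 2),
      der3 (0) (0) (X 2)]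
    A := ![C t, C t, C t]
    B := ![C t ^ 2, C t ^ 2, C t ^ 2]
    off := by
      intro i j hij
      fin_cases i <;> fin_cases j <;> first
        | exact absurd rfl hij
        | (simp only [Matrix.cons_val, Fin.isValue, Fin.zero_eta, Fin.mk_one, Fin.reduceFinMk,
            der3_mul, map_add, map_sub, der3_X0, der3_X1, der3_X2, der3_one, der3_three]
           done)
        | (simp only [Matrix.cons_val, Fin.isValue, Fin.zero_eta, Fin.mk_one, Fin.reduceFinMk,
            der3_mul, map_add, map_sub, der3_X0, der3_X1, der3_X2, der3_one, der3_three]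
           ring)
    diag := by
      have e0 : (der3 (O := O) (X 0) (0) (-X 2)) (X 0) = X 0 := by
        simp only [der3_mul, map_add, map_sub, der3_X0, der3_X1, der3_X2, der3_one, der3_three]
        try ring
      have e1 : (der3 (O := O) (0) (X 1) (-X 2)) (X 1) = X 1 := by
        simp only [der3_mul, map_add, map_sub, der3_X0, der3_X1, der3_X2, der3_one, der3_three]
        try ring
      have e2 : (der3 (O := O) (0) (0) (X 2)) (X 0 * X 1 * X 2) = X 0 * X 1 * X 2 := by
        simp only [der3_mul, map_add, map_sub, der3_X0, der3_X1, der3_X2, der3_one, der3_three]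
        try ring
      intro i
      fin_cases i
      · simp only [Matrix.cons_val, Fin.isValue, Fin.zero_eta]
        rw [e0]
        exact diag_mono (C t) _ h2'
      · simp only [Matrix.cons_val, Fin.isValue, Fin.mk_one]
        rw [e1]
        exact diag_mono (C t) _ h2'
      · simp only [Matrix.cons_val, Fin.isValue, Fin.reduceFinMk]
        rw [e2]
        exact diag_mono (C t) _ h2' }

/-- Coordinates of type T2. -/
noncomputable abbrev T2 (O : Type u) [CommRing O] : Fin 3 → MvPolynomial (Fin 3) O :=
  ![X 0 * X 2, X 1, X 0 * X 1]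

noncomputable def T2_data (t s : O) (h2 : 2 * t = 1) (h41 : 41 * s = 1) : SmoothData (T2 O) :=
  have h2' : 2 * (C t : MvPolynomial (Fin 3) O) = 1 := by
    have h := congrArg (C : O → MvPolynomial (Fin 3) O) h2
    rwa [map_mul, map_ofNat, map_one] at h
  have h41' : 41 * (C s : MvPolynomial (Fin 3) O) = 1 := by
    have h := congrArg (C : O → MvPolynomial (Fin 3) O) h41
    rwa [map_mul, map_ofNat, map_one] at h
  { D := ![der3 (0) (0) (X 2), der3 (-X 0) (X 1) (X 2),
      der3 (X 0) (0) (-X 2)]
    A := ![C t, C t, C t]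
    B := ![C t ^ 2, C t ^ 2, C t ^ 2]
    off := by
      intro i j hij
      fin_cases i <;> fin_cases j <;> first
        | exact absurd rfl hij
        | (simp only [Matrix.cons_val, Fin.isValue, Fin.zero_eta, Fin.mk_one, Fin.reduceFinMk,
            der3_mul, map_add, map_sub, der3_X0, der3_X1, der3_X2, der3_one, der3_three]
           done)
        | (simp only [Matrix.cons_val, Fin.isValue, Fin.zero_eta, Fin.mk_one, Fin.reduceFinMk,
            der3_mul, map_add, map_sub, der3_X0, der3_X1, der3_X2, der3_one, der3_three]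
           ring)
    diag := by
      have e0 : (der3 (O := O) (0) (0) (X 2)) (X 0 * X 2) = X 0 * X 2 := by
        simp only [der3_mul, map_add, map_sub, der3_X0, der3_X1, der3_X2, der3_one, der3_three]
        try ring
      have e1 : (der3 (O := O) (-X 0) (X 1) (X 2)) (X 1) = X 1 := by
        simp only [der3_mul, map_add, map_sub, der3_X0, der3_X1, der3_X2, der3_one, der3_three]
        try ring
      have e2 : (der3 (O := O) (X 0) (0) (-X 2)) (X 0 * X 1) = X 0 * X 1 := by
        simp only [der3_mul, map_add, map_sub, der3_X0, der3_X1, der3_X2, der3_one, der3_three]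
        try ring
      intro i
      fin_cases i
      · simp only [Matrix.cons_val, Fin.isValue, Fin.zero_eta]
        rw [e0]
        exact diag_mono (C t) _ h2'
      · simp only [Matrix.cons_val, Fin.isValue, Fin.mk_one]
        rw [e1]
        exact diag_mono (C t) _ h2'
      · simp only [Matrix.cons_val, Fin.isValue, Fin.reduceFinMk]
        rw [e2]
        exact diag_mono (C t) _ h2' }

/-- Coordinates of type T3. -/
noncomputable abbrev T3 (O : Type u) [CommRing O] : Fin 3 → MvPolynomial (Fin 3) O :=
  ![X 0, X 1 * (X 0 - 3) * X 2, X 1]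

noncomputable def T3_data (t s : O) (h2 : 2 * t = 1) (h41 : 41 * s = 1) : SmoothData (T3 O) :=
  have h2' : 2 * (C t : MvPolynomial (Fin 3) O) = 1 := by
    have h := congrArg (C : O → MvPolynomial (Fin 3) O) h2
    rwa [map_mul, map_ofNat, map_one] at h
  have h41' : 41 * (C s : MvPolynomial (Fin 3) O) = 1 := by
    have h := congrArg (C : O → MvPolynomial (Fin 3) O) h41
    rwa [map_mul, map_ofNat, map_one] at h
  { D := ![der3 ((X 0 - 3) * X 0) (0) (-(X 0 * X 2)), der3 (0) (0) (X 2),
      der3 (0) (X 1) (-X 2)]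
    A := ![C t * (1 - (X 0) ^ 4 * (C t * C s)), C t, C t]
    B := ![-(C t ^ 3 * C s) * ((X 0) ^ 3 + 3 * (X 0) ^ 2 + 9 * (X 0) + 27), C t ^ 2, C t ^ 2]
    off := by
      intro i j hij
      fin_cases i <;> fin_cases j <;> first
        | exact absurd rfl hij
        | (simp only [Matrix.cons_val, Fin.isValue, Fin.zero_eta, Fin.mk_one, Fin.reduceFinMk,
            der3_mul, map_add, map_sub, der3_X0, der3_X1, der3_X2, der3_one, der3_three]
           done)
        | (simp only [Matrix.cons_val, Fin.isValue, Fin.zero_eta, Fin.mk_one, Fin.reduceFinMk,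
            der3_mul, map_add, map_sub, der3_X0, der3_X1, der3_X2, der3_one, der3_three]
           ring)
    diag := by
      have e0 : (der3 (O := O) ((X 0 - 3) * X 0) (0) (-(X 0 * X 2))) (X 0) = (X 0) * ((X 0) - 3) := by
        simp only [der3_mul, map_add, map_sub, der3_X0, der3_X1, der3_X2, der3_one, der3_three]
        try ring
      have e1 : (der3 (O := O) (0) (0) (X 2)) (X 1 * (X 0 - 3) * X 2) = X 1 * (X 0 - 3) * X 2 := by
        simp only [der3_mul, map_add, map_sub, der3_X0, der3_X1, der3_X2, der3_one, der3_three]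
        try ring
      have e2 : (der3 (O := O) (0) (X 1) (-X 2)) (X 1) = X 1 := by
        simp only [der3_mul, map_add, map_sub, der3_X0, der3_X1, der3_X2, der3_one, der3_three]
        try ring
      intro i
      fin_cases i
      · simp only [Matrix.cons_val, Fin.isValue, Fin.zero_eta]
        rw [e0]
        exact diag_minus (C t) (C s) _ h2' h41'
      · simp only [Matrix.cons_val, Fin.isValue, Fin.mk_one]
        rw [e1]
        exact diag_mono (C t) _ h2'
      · simp only [Matrix.cons_val, Fin.isValue, Fin.reduceFinMk]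
        rw [e2]
        exact diag_mono (C t) _ h2' }

/-- Coordinates of type T4. -/
noncomputable abbrev T4 (O : Type u) [CommRing O] : Fin 3 → MvPolynomial (Fin 3) O :=
  ![3 + X 0 * X 2, X 0 * X 1, X 1]

noncomputable def T4_data (t s : O) (h2 : 2 * t = 1) (h41 : 41 * s = 1) : SmoothData (T4 O) :=
  have h2' : 2 * (C t : MvPolynomial (Fin 3) O) = 1 := by
    have h := congrArg (C : O → MvPolynomial (Fin 3) O) h2
    rwa [map_mul, map_ofNat, map_one] at h
  have h41' : 41 * (C s : MvPolynomial (Fin 3) O) = 1 := by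
    have h := congrArg (C : O → MvPolynomial (Fin 3) O) h41
    rwa [map_mul, map_ofNat, map_one] at h
  { D := ![der3 (0) (0) (X 2), der3 (X 0) (0) (-X 2),
      der3 (-X 0) (X 1) (X 2)]
    A := ![C t * (1 - (3 + X 0 * X 2) ^ 4 * (C t * C s)), C t, C t]
    B := ![-(C t ^ 3 * C s) * ((3 + X 0 * X 2) ^ 3 + 3 * (3 + X 0 * X 2) ^ 2 + 9 * (3 + X 0 * X 2) + 27) * (3 + X 0 * X 2), C t ^ 2, C t ^ 2]
    off := by
      intro i j hij
      fin_cases i <;> fin_cases j <;> first
        | exact absurd rfl hij
        | (simp only [Matrix.cons_val, Fin.isValue, Fin.zero_eta, Fin.mk_one, Fin.reduceFinMk,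
            der3_mul, map_add, map_sub, der3_X0, der3_X1, der3_X2, der3_one, der3_three]
           done)
        | (simp only [Matrix.cons_val, Fin.isValue, Fin.zero_eta, Fin.mk_one, Fin.reduceFinMk,
            der3_mul, map_add, map_sub, der3_X0, der3_X1, der3_X2, der3_one, der3_three]
           ring)
    diag := by
      have e0 : (der3 (O := O) (0) (0) (X 2)) (3 + X 0 * X 2) = (3 + X 0 * X 2) - 3 := by
        simp only [der3_mul, map_add, map_sub, der3_X0, der3_X1, der3_X2, der3_one, der3_three]
        try ring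
      have e1 : (der3 (O := O) (X 0) (0) (-X 2)) (X 0 * X 1) = X 0 * X 1 := by
        simp only [der3_mul, map_add, map_sub, der3_X0, der3_X1, der3_X2, der3_one, der3_three]
        try ring
      have e2 : (der3 (O := O) (-X 0) (X 1) (X 2)) (X 1) = X 1 := by
        simp only [der3_mul, map_add, map_sub, der3_X0, der3_X1, der3_X2, der3_one, der3_three]
        try ring
      intro i
      fin_cases i
      · simp only [Matrix.cons_val, Fin.isValue, Fin.zero_eta]
        rw [e0]
        exact diag_minus' (C t) (C s) _ h2' h41'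
      · simp only [Matrix.cons_val, Fin.isValue, Fin.mk_one]
        rw [e1]
        exact diag_mono (C t) _ h2'
      · simp only [Matrix.cons_val, Fin.isValue, Fin.reduceFinMk]
        rw [e2]
        exact diag_mono (C t) _ h2' }

/-- Coordinates of type T5. -/
noncomputable abbrev T5 (O : Type u) [CommRing O] : Fin 3 → MvPolynomial (Fin 3) O :=
  ![X 0, X 1, X 0 * X 2]

noncomputable def T5_data (t s : O) (h2 : 2 * t = 1) (h41 : 41 * s = 1) : SmoothData (T5 O) :=
  have h2' : 2 * (C t : MvPolynomial (Fin 3) O) = 1 := by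
    have h := congrArg (C : O → MvPolynomial (Fin 3) O) h2
    rwa [map_mul, map_ofNat, map_one] at h
  have h41' : 41 * (C s : MvPolynomial (Fin 3) O) = 1 := by
    have h := congrArg (C : O → MvPolynomial (Fin 3) O) h41
    rwa [map_mul, map_ofNat, map_one] at h
  { D := ![der3 (X 0) (0) (-X 2), der3 (0) (X 1) (0),
      der3 (0) (0) (X 2)]
    A := ![C t, C t, C t]
    B := ![C t ^ 2, C t ^ 2, C t ^ 2]
    off := by
      intro i j hij
      fin_cases i <;> fin_cases j <;> first
        | exact absurd rfl hij
        | (simp only [Matrix.cons_val, Fin.isValue, Fin.zero_eta, Fin.mk_one, Fin.reduceFinMk,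
            der3_mul, map_add, map_sub, der3_X0, der3_X1, der3_X2, der3_one, der3_three]
           done)
        | (simp only [Matrix.cons_val, Fin.isValue, Fin.zero_eta, Fin.mk_one, Fin.reduceFinMk,
            der3_mul, map_add, map_sub, der3_X0, der3_X1, der3_X2, der3_one, der3_three]
           ring)
    diag := by
      have e0 : (der3 (O := O) (X 0) (0) (-X 2)) (X 0) = X 0 := by
        simp only [der3_mul, map_add, map_sub, der3_X0, der3_X1, der3_X2, der3_one, der3_three]
        try ring
      have e1 : (der3 (O := O) (0) (X 1) (0)) (X 1) = X 1 := by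
        simp only [der3_mul, map_add, map_sub, der3_X0, der3_X1, der3_X2, der3_one, der3_three]
        try ring
      have e2 : (der3 (O := O) (0) (0) (X 2)) (X 0 * X 2) = X 0 * X 2 := by
        simp only [der3_mul, map_add, map_sub, der3_X0, der3_X1, der3_X2, der3_one, der3_three]
        try ring
      intro i
      fin_cases i
      · simp only [Matrix.cons_val, Fin.isValue, Fin.zero_eta]
        rw [e0]
        exact diag_mono (C t) _ h2'
      · simp only [Matrix.cons_val, Fin.isValue, Fin.mk_one]
        rw [e1]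
        exact diag_mono (C t) _ h2'
      · simp only [Matrix.cons_val, Fin.isValue, Fin.reduceFinMk]
        rw [e2]
        exact diag_mono (C t) _ h2' }

/-- Coordinates of type T6. -/
noncomputable abbrev T6 (O : Type u) [CommRing O] : Fin 3 → MvPolynomial (Fin 3) O :=
  ![X 0 * X 2, X 1, X 2]

noncomputable def T6_data (t s : O) (h2 : 2 * t = 1) (h41 : 41 * s = 1) : SmoothData (T6 O) :=
  have h2' : 2 * (C t : MvPolynomial (Fin 3) O) = 1 := by
    have h := congrArg (C : O → MvPolynomial (Fin 3) O) h2
    rwa [map_mul, map_ofNat, map_one] at h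
  have h41' : 41 * (C s : MvPolynomial (Fin 3) O) = 1 := by
    have h := congrArg (C : O → MvPolynomial (Fin 3) O) h41
    rwa [map_mul, map_ofNat, map_one] at h
  { D := ![der3 (X 0) (0) (0), der3 (0) (X 1) (0),
      der3 (-X 0) (0) (X 2)]
    A := ![C t, C t, C t]
    B := ![C t ^ 2, C t ^ 2, C t ^ 2]
    off := by
      intro i j hij
      fin_cases i <;> fin_cases j <;> first
        | exact absurd rfl hij
        | (simp only [Matrix.cons_val, Fin.isValue, Fin.zero_eta, Fin.mk_one, Fin.reduceFinMk,
            der3_mul, map_add, map_sub, der3_X0, der3_X1, der3_X2, der3_one, der3_three]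
           done)
        | (simp only [Matrix.cons_val, Fin.isValue, Fin.zero_eta, Fin.mk_one, Fin.reduceFinMk,
            der3_mul, map_add, map_sub, der3_X0, der3_X1, der3_X2, der3_one, der3_three]
           ring)
    diag := by
      have e0 : (der3 (O := O) (X 0) (0) (0)) (X 0 * X 2) = X 0 * X 2 := by
        simp only [der3_mul, map_add, map_sub, der3_X0, der3_X1, der3_X2, der3_one, der3_three]
        try ring
      have e1 : (der3 (O := O) (0) (X 1) (0)) (X 1) = X 1 := by
        simp only [der3_mul, map_add, map_sub, der3_X0, der3_X1, der3_X2, der3_one, der3_three]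
        try ring
      have e2 : (der3 (O := O) (-X 0) (0) (X 2)) (X 2) = X 2 := by
        simp only [der3_mul, map_add, map_sub, der3_X0, der3_X1, der3_X2, der3_one, der3_three]
        try ring
      intro i
      fin_cases i
      · simp only [Matrix.cons_val, Fin.isValue, Fin.zero_eta]
        rw [e0]
        exact diag_mono (C t) _ h2'
      · simp only [Matrix.cons_val, Fin.isValue, Fin.mk_one]
        rw [e1]
        exact diag_mono (C t) _ h2'
      · simp only [Matrix.cons_val, Fin.isValue, Fin.reduceFinMk]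
        rw [e2]
        exact diag_mono (C t) _ h2' }

/-- Coordinates of type T7. -/
noncomputable abbrev T7 (O : Type u) [CommRing O] : Fin 3 → MvPolynomial (Fin 3) O :=
  ![X 0, (X 0 - 3) * X 1, X 2]

noncomputable def T7_data (t s : O) (h2 : 2 * t = 1) (h41 : 41 * s = 1) : SmoothData (T7 O) :=
  have h2' : 2 * (C t : MvPolynomial (Fin 3) O) = 1 := by
    have h := congrArg (C : O → MvPolynomial (Fin 3) O) h2
    rwa [map_mul, map_ofNat, map_one] at h
  have h41' : 41 * (C s : MvPolynomial (Fin 3) O) = 1 := by
    have h := congrArg (C : O → MvPolynomial (Fin 3) O) h41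
    rwa [map_mul, map_ofNat, map_one] at h
  { D := ![der3 ((X 0 - 3) * X 0) (-(X 0 * X 1)) (0), der3 (0) (X 1) (0),
      der3 (0) (0) (X 2)]
    A := ![C t * (1 - (X 0) ^ 4 * (C t * C s)), C t, C t]
    B := ![-(C t ^ 3 * C s) * ((X 0) ^ 3 + 3 * (X 0) ^ 2 + 9 * (X 0) + 27), C t ^ 2, C t ^ 2]
    off := by
      intro i j hij
      fin_cases i <;> fin_cases j <;> first
        | exact absurd rfl hij
        | (simp only [Matrix.cons_val, Fin.isValue, Fin.zero_eta, Fin.mk_one, Fin.reduceFinMk,
            der3_mul, map_add, map_sub, der3_X0, der3_X1, der3_X2, der3_one, der3_three]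
           done)
        | (simp only [Matrix.cons_val, Fin.isValue, Fin.zero_eta, Fin.mk_one, Fin.reduceFinMk,
            der3_mul, map_add, map_sub, der3_X0, der3_X1, der3_X2, der3_one, der3_three]
           ring)
    diag := by
      have e0 : (der3 (O := O) ((X 0 - 3) * X 0) (-(X 0 * X 1)) (0)) (X 0) = (X 0) * ((X 0) - 3) := by
        simp only [der3_mul, map_add, map_sub, der3_X0, der3_X1, der3_X2, der3_one, der3_three]
        try ring
      have e1 : (der3 (O := O) (0) (X 1) (0)) ((X 0 - 3) * X 1) = (X 0 - 3) * X 1 := by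
        simp only [der3_mul, map_add, map_sub, der3_X0, der3_X1, der3_X2, der3_one, der3_three]
        try ring
      have e2 : (der3 (O := O) (0) (0) (X 2)) (X 2) = X 2 := by
        simp only [der3_mul, map_add, map_sub, der3_X0, der3_X1, der3_X2, der3_one, der3_three]
        try ring
      intro i
      fin_cases i
      · simp only [Matrix.cons_val, Fin.isValue, Fin.zero_eta]
        rw [e0]
        exact diag_minus (C t) (C s) _ h2' h41'
      · simp only [Matrix.cons_val, Fin.isValue, Fin.mk_one]
        rw [e1]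
        exact diag_mono (C t) _ h2'
      · simp only [Matrix.cons_val, Fin.isValue, Fin.reduceFinMk]
        rw [e2]
        exact diag_mono (C t) _ h2' }

/-- Coordinates of type T8. -/
noncomputable abbrev T8 (O : Type u) [CommRing O] : Fin 3 → MvPolynomial (Fin 3) O :=
  ![3 + X 0 * X 1, X 1, X 2]

noncomputable def T8_data (t s : O) (h2 : 2 * t = 1) (h41 : 41 * s = 1) : SmoothData (T8 O) :=
  have h2' : 2 * (C t : MvPolynomial (Fin 3) O) = 1 := by
    have h := congrArg (C : O → MvPolynomial (Fin 3) O) h2
    rwa [map_mul, map_ofNat, map_one] at h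
  have h41' : 41 * (C s : MvPolynomial (Fin 3) O) = 1 := by
    have h := congrArg (C : O → MvPolynomial (Fin 3) O) h41
    rwa [map_mul, map_ofNat, map_one] at h
  { D := ![der3 (X 0) (0) (0), der3 (-X 0) (X 1) (0),
      der3 (0) (0) (X 2)]
    A := ![C t * (1 - (3 + X 0 * X 1) ^ 4 * (C t * C s)), C t, C t]
    B := ![-(C t ^ 3 * C s) * ((3 + X 0 * X 1) ^ 3 + 3 * (3 + X 0 * X 1) ^ 2 + 9 * (3 + X 0 * X 1) + 27) * (3 + X 0 * X 1), C t ^ 2, C t ^ 2]
    off := by
      intro i j hij
      fin_cases i <;> fin_cases j <;> first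
        | exact absurd rfl hij
        | (simp only [Matrix.cons_val, Fin.isValue, Fin.zero_eta, Fin.mk_one, Fin.reduceFinMk,
            der3_mul, map_add, map_sub, der3_X0, der3_X1, der3_X2, der3_one, der3_three]
           done)
        | (simp only [Matrix.cons_val, Fin.isValue, Fin.zero_eta, Fin.mk_one, Fin.reduceFinMk,
            der3_mul, map_add, map_sub, der3_X0, der3_X1, der3_X2, der3_one, der3_three]
           ring)
    diag := by
      have e0 : (der3 (O := O) (X 0) (0) (0)) (3 + X 0 * X 1) = (3 + X 0 * X 1) - 3 := by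
        simp only [der3_mul, map_add, map_sub, der3_X0, der3_X1, der3_X2, der3_one, der3_three]
        try ring
      have e1 : (der3 (O := O) (-X 0) (X 1) (0)) (X 1) = X 1 := by
        simp only [der3_mul, map_add, map_sub, der3_X0, der3_X1, der3_X2, der3_one, der3_three]
        try ring
      have e2 : (der3 (O := O) (0) (0) (X 2)) (X 2) = X 2 := by
        simp only [der3_mul, map_add, map_sub, der3_X0, der3_X1, der3_X2, der3_one, der3_three]
        try ring
      intro i
      fin_cases i
      · simp only [Matrix.cons_val, Fin.isValue, Fin.zero_eta]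
        rw [e0]
        exact diag_minus' (C t) (C s) _ h2' h41'
      · simp only [Matrix.cons_val, Fin.isValue, Fin.mk_one]
        rw [e1]
        exact diag_mono (C t) _ h2'
      · simp only [Matrix.cons_val, Fin.isValue, Fin.reduceFinMk]
        rw [e2]
        exact diag_mono (C t) _ h2' }

/-- Coordinates of type T9. -/
noncomputable abbrev T9 (O : Type u) [CommRing O] : Fin 3 → MvPolynomial (Fin 3) O :=
  ![X 0, X 1, X 1 * X 2]

noncomputable def T9_data (t s : O) (h2 : 2 * t = 1) (h41 : 41 * s = 1) : SmoothData (T9 O) :=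
  have h2' : 2 * (C t : MvPolynomial (Fin 3) O) = 1 := by
    have h := congrArg (C : O → MvPolynomial (Fin 3) O) h2
    rwa [map_mul, map_ofNat, map_one] at h
  have h41' : 41 * (C s : MvPolynomial (Fin 3) O) = 1 := by
    have h := congrArg (C : O → MvPolynomial (Fin 3) O) h41
    rwa [map_mul, map_ofNat, map_one] at h
  { D := ![der3 (X 0) (0) (0), der3 (0) (X 1) (-X 2),
      der3 (0) (0) (X 2)]
    A := ![C t, C t, C t]
    B := ![C t ^ 2, C t ^ 2, C t ^ 2]
    off := by
      intro i j hij
      fin_cases i <;> fin_cases j <;> first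
        | exact absurd rfl hij
        | (simp only [Matrix.cons_val, Fin.isValue, Fin.zero_eta, Fin.mk_one, Fin.reduceFinMk,
            der3_mul, map_add, map_sub, der3_X0, der3_X1, der3_X2, der3_one, der3_three]
           done)
        | (simp only [Matrix.cons_val, Fin.isValue, Fin.zero_eta, Fin.mk_one, Fin.reduceFinMk,
            der3_mul, map_add, map_sub, der3_X0, der3_X1, der3_X2, der3_one, der3_three]
           ring)
    diag := by
      have e0 : (der3 (O := O) (X 0) (0) (0)) (X 0) = X 0 := by
        simp only [der3_mul, map_add, map_sub, der3_X0, der3_X1, der3_X2, der3_one, der3_three]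
        try ring
      have e1 : (der3 (O := O) (0) (X 1) (-X 2)) (X 1) = X 1 := by
        simp only [der3_mul, map_add, map_sub, der3_X0, der3_X1, der3_X2, der3_one, der3_three]
        try ring
      have e2 : (der3 (O := O) (0) (0) (X 2)) (X 1 * X 2) = X 1 * X 2 := by
        simp only [der3_mul, map_add, map_sub, der3_X0, der3_X1, der3_X2, der3_one, der3_three]
        try ring
      intro i
      fin_cases i
      · simp only [Matrix.cons_val, Fin.isValue, Fin.zero_eta]
        rw [e0]
        exact diag_mono (C t) _ h2'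
      · simp only [Matrix.cons_val, Fin.isValue, Fin.mk_one]
        rw [e1]
        exact diag_mono (C t) _ h2'
      · simp only [Matrix.cons_val, Fin.isValue, Fin.reduceFinMk]
        rw [e2]
        exact diag_mono (C t) _ h2' }

/-- Coordinates of type T10. -/
noncomputable abbrev T10 (O : Type u) [CommRing O] : Fin 3 → MvPolynomial (Fin 3) O :=
  ![X 0, X 1 * (1 - 3 * X 0) * X 2, X 1]

noncomputable def T10_data (t s : O) (h2 : 2 * t = 1) (h41 : 41 * s = 1) : SmoothData (T10 O) :=
  have h2' : 2 * (C t : MvPolynomial (Fin 3) O) = 1 := by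
    have h := congrArg (C : O → MvPolynomial (Fin 3) O) h2
    rwa [map_mul, map_ofNat, map_one] at h
  have h41' : 41 * (C s : MvPolynomial (Fin 3) O) = 1 := by
    have h := congrArg (C : O → MvPolynomial (Fin 3) O) h41
    rwa [map_mul, map_ofNat, map_one] at h
  { D := ![der3 ((1 - 3 * X 0) * X 0) (0) (3 * X 0 * X 2), der3 (0) (0) (X 2),
      der3 (0) (X 1) (-X 2)]
    A := ![C t * (1 - 81 * (X 0) ^ 4 * (C t * C s)), C t, C t]
    B := ![C t ^ 3 * C s * (1 + 3 * (X 0) + 9 * (X 0) ^ 2 + 27 * (X 0) ^ 3), C t ^ 2, C t ^ 2]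
    off := by
      intro i j hij
      fin_cases i <;> fin_cases j <;> first
        | exact absurd rfl hij
        | (simp only [Matrix.cons_val, Fin.isValue, Fin.zero_eta, Fin.mk_one, Fin.reduceFinMk,
            der3_mul, map_add, map_sub, der3_X0, der3_X1, der3_X2, der3_one, der3_three]
           done)
        | (simp only [Matrix.cons_val, Fin.isValue, Fin.zero_eta, Fin.mk_one, Fin.reduceFinMk,
            der3_mul, map_add, map_sub, der3_X0, der3_X1, der3_X2, der3_one, der3_three]
           ring)
    diag := by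
      have e0 : (der3 (O := O) ((1 - 3 * X 0) * X 0) (0) (3 * X 0 * X 2)) (X 0) = (X 0) * (1 - 3 * (X 0)) := by
        simp only [der3_mul, map_add, map_sub, der3_X0, der3_X1, der3_X2, der3_one, der3_three]
        try ring
      have e1 : (der3 (O := O) (0) (0) (X 2)) (X 1 * (1 - 3 * X 0) * X 2) = X 1 * (1 - 3 * X 0) * X 2 := by
        simp only [der3_mul, map_add, map_sub, der3_X0, der3_X1, der3_X2, der3_one, der3_three]
        try ring
      have e2 : (der3 (O := O) (0) (X 1) (-X 2)) (X 1) = X 1 := by
        simp only [der3_mul, map_add, map_sub, der3_X0, der3_X1, der3_X2, der3_one, der3_three]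
        try ring
      intro i
      fin_cases i
      · simp only [Matrix.cons_val, Fin.isValue, Fin.zero_eta]
        rw [e0]
        exact diag_inv (C t) (C s) _ h2' h41'
      · simp only [Matrix.cons_val, Fin.isValue, Fin.mk_one]
        rw [e1]
        exact diag_mono (C t) _ h2'
      · simp only [Matrix.cons_val, Fin.isValue, Fin.reduceFinMk]
        rw [e2]
        exact diag_mono (C t) _ h2' }

/-- Coordinates of type T11. -/
noncomputable abbrev T11 (O : Type u) [CommRing O] : Fin 3 → MvPolynomial (Fin 3) O :=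
  ![X 0, X 1, X 2]

noncomputable def T11_data (t s : O) (h2 : 2 * t = 1) (h41 : 41 * s = 1) : SmoothData (T11 O) :=
  have h2' : 2 * (C t : MvPolynomial (Fin 3) O) = 1 := by
    have h := congrArg (C : O → MvPolynomial (Fin 3) O) h2
    rwa [map_mul, map_ofNat, map_one] at h
  have h41' : 41 * (C s : MvPolynomial (Fin 3) O) = 1 := by
    have h := congrArg (C : O → MvPolynomial (Fin 3) O) h41
    rwa [map_mul, map_ofNat, map_one] at h
  { D := ![der3 (X 0) (0) (0), der3 (0) (X 1) (0),
      der3 (0) (0) (X 2)]
    A := ![C t, C t, C t]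
    B := ![C t ^ 2, C t ^ 2, C t ^ 2]
    off := by
      intro i j hij
      fin_cases i <;> fin_cases j <;> first
        | exact absurd rfl hij
        | (simp only [Matrix.cons_val, Fin.isValue, Fin.zero_eta, Fin.mk_one, Fin.reduceFinMk,
            der3_mul, map_add, map_sub, der3_X0, der3_X1, der3_X2, der3_one, der3_three]
           done)
        | (simp only [Matrix.cons_val, Fin.isValue, Fin.zero_eta, Fin.mk_one, Fin.reduceFinMk,
            der3_mul, map_add, map_sub, der3_X0, der3_X1, der3_X2, der3_one, der3_three]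
           ring)
    diag := by
      have e0 : (der3 (O := O) (X 0) (0) (0)) (X 0) = X 0 := by
        simp only [der3_mul, map_add, map_sub, der3_X0, der3_X1, der3_X2, der3_one, der3_three]
        try ring
      have e1 : (der3 (O := O) (0) (X 1) (0)) (X 1) = X 1 := by
        simp only [der3_mul, map_add, map_sub, der3_X0, der3_X1, der3_X2, der3_one, der3_three]
        try ring
      have e2 : (der3 (O := O) (0) (0) (X 2)) (X 2) = X 2 := by
        simp only [der3_mul, map_add, map_sub, der3_X0, der3_X1, der3_X2, der3_one, der3_three]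
        try ring
      intro i
      fin_cases i
      · simp only [Matrix.cons_val, Fin.isValue, Fin.zero_eta]
        rw [e0]
        exact diag_mono (C t) _ h2'
      · simp only [Matrix.cons_val, Fin.isValue, Fin.mk_one]
        rw [e1]
        exact diag_mono (C t) _ h2'
      · simp only [Matrix.cons_val, Fin.isValue, Fin.reduceFinMk]
        rw [e2]
        exact diag_mono (C t) _ h2' }

/-- Coordinates of type T12. -/
noncomputable abbrev T12 (O : Type u) [CommRing O] : Fin 3 → MvPolynomial (Fin 3) O :=
  ![X 0, (1 - 3 * X 0) * X 1, X 2]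

noncomputable def T12_data (t s : O) (h2 : 2 * t = 1) (h41 : 41 * s = 1) : SmoothData (T12 O) :=
  have h2' : 2 * (C t : MvPolynomial (Fin 3) O) = 1 := by
    have h := congrArg (C : O → MvPolynomial (Fin 3) O) h2
    rwa [map_mul, map_ofNat, map_one] at h
  have h41' : 41 * (C s : MvPolynomial (Fin 3) O) = 1 := by
    have h := congrArg (C : O → MvPolynomial (Fin 3) O) h41
    rwa [map_mul, map_ofNat, map_one] at h
  { D := ![der3 ((1 - 3 * X 0) * X 0) (3 * X 0 * X 1) (0), der3 (0) (X 1) (0),
      der3 (0) (0) (X 2)]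
    A := ![C t * (1 - 81 * (X 0) ^ 4 * (C t * C s)), C t, C t]
    B := ![C t ^ 3 * C s * (1 + 3 * (X 0) + 9 * (X 0) ^ 2 + 27 * (X 0) ^ 3), C t ^ 2, C t ^ 2]
    off := by
      intro i j hij
      fin_cases i <;> fin_cases j <;> first
        | exact absurd rfl hij
        | (simp only [Matrix.cons_val, Fin.isValue, Fin.zero_eta, Fin.mk_one, Fin.reduceFinMk,
            der3_mul, map_add, map_sub, der3_X0, der3_X1, der3_X2, der3_one, der3_three]
           done)
        | (simp only [Matrix.cons_val, Fin.isValue, Fin.zero_eta, Fin.mk_one, Fin.reduceFinMk,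
            der3_mul, map_add, map_sub, der3_X0, der3_X1, der3_X2, der3_one, der3_three]
           ring)
    diag := by
      have e0 : (der3 (O := O) ((1 - 3 * X 0) * X 0) (3 * X 0 * X 1) (0)) (X 0) = (X 0) * (1 - 3 * (X 0)) := by
        simp only [der3_mul, map_add, map_sub, der3_X0, der3_X1, der3_X2, der3_one, der3_three]
        try ring
      have e1 : (der3 (O := O) (0) (X 1) (0)) ((1 - 3 * X 0) * X 1) = (1 - 3 * X 0) * X 1 := by
        simp only [der3_mul, map_add, map_sub, der3_X0, der3_X1, der3_X2, der3_one, der3_three]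
        try ring
      have e2 : (der3 (O := O) (0) (0) (X 2)) (X 2) = X 2 := by
        simp only [der3_mul, map_add, map_sub, der3_X0, der3_X1, der3_X2, der3_one, der3_three]
        try ring
      intro i
      fin_cases i
      · simp only [Matrix.cons_val, Fin.isValue, Fin.zero_eta]
        rw [e0]
        exact diag_inv (C t) (C s) _ h2' h41'
      · simp only [Matrix.cons_val, Fin.isValue, Fin.mk_one]
        rw [e1]
        exact diag_mono (C t) _ h2'
      · simp only [Matrix.cons_val, Fin.isValue, Fin.reduceFinMk]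
        rw [e2]
        exact diag_mono (C t) _ h2' }

/-- Coordinates of type T13. -/
noncomputable abbrev T13 (O : Type u) [CommRing O] : Fin 3 → MvPolynomial (Fin 3) O :=
  ![X 0, X 1 * (X 0 - 3) * X 2, X 0 * X 1]

noncomputable def T13_data (t s : O) (h2 : 2 * t = 1) (h41 : 41 * s = 1) : SmoothData (T13 O) :=
  have h2' : 2 * (C t : MvPolynomial (Fin 3) O) = 1 := by
    have h := congrArg (C : O → MvPolynomial (Fin 3) O) h2
    rwa [map_mul, map_ofNat, map_one] at h
  have h41' : 41 * (C s : MvPolynomial (Fin 3) O) = 1 := by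
    have h := congrArg (C : O → MvPolynomial (Fin 3) O) h41
    rwa [map_mul, map_ofNat, map_one] at h
  { D := ![der3 ((X 0 - 3) * X 0) (-((X 0 - 3) * X 1)) (-(3 * X 2)), der3 (0) (0) (X 2),
      der3 (0) (X 1) (-X 2)]
    A := ![C t * (1 - (X 0) ^ 4 * (C t * C s)), C t, C t]
    B := ![-(C t ^ 3 * C s) * ((X 0) ^ 3 + 3 * (X 0) ^ 2 + 9 * (X 0) + 27), C t ^ 2, C t ^ 2]
    off := by
      intro i j hij
      fin_cases i <;> fin_cases j <;> first
        | exact absurd rfl hij
        | (simp only [Matrix.cons_val, Fin.isValue, Fin.zero_eta, Fin.mk_one, Fin.reduceFinMk,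
            der3_mul, map_add, map_sub, der3_X0, der3_X1, der3_X2, der3_one, der3_three]
           done)
        | (simp only [Matrix.cons_val, Fin.isValue, Fin.zero_eta, Fin.mk_one, Fin.reduceFinMk,
            der3_mul, map_add, map_sub, der3_X0, der3_X1, der3_X2, der3_one, der3_three]
           ring)
    diag := by
      have e0 : (der3 (O := O) ((X 0 - 3) * X 0) (-((X 0 - 3) * X 1)) (-(3 * X 2))) (X 0) = (X 0) * ((X 0) - 3) := by
        simp only [der3_mul, map_add, map_sub, der3_X0, der3_X1, der3_X2, der3_one, der3_three]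
        try ring
      have e1 : (der3 (O := O) (0) (0) (X 2)) (X 1 * (X 0 - 3) * X 2) = X 1 * (X 0 - 3) * X 2 := by
        simp only [der3_mul, map_add, map_sub, der3_X0, der3_X1, der3_X2, der3_one, der3_three]
        try ring
      have e2 : (der3 (O := O) (0) (X 1) (-X 2)) (X 0 * X 1) = X 0 * X 1 := by
        simp only [der3_mul, map_add, map_sub, der3_X0, der3_X1, der3_X2, der3_one, der3_three]
        try ring
      intro i
      fin_cases i
      · simp only [Matrix.cons_val, Fin.isValue, Fin.zero_eta]
        rw [e0]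
        exact diag_minus (C t) (C s) _ h2' h41'
      · simp only [Matrix.cons_val, Fin.isValue, Fin.mk_one]
        rw [e1]
        exact diag_mono (C t) _ h2'
      · simp only [Matrix.cons_val, Fin.isValue, Fin.reduceFinMk]
        rw [e2]
        exact diag_mono (C t) _ h2' }

/-- Coordinates of type T14. -/
noncomputable abbrev T14 (O : Type u) [CommRing O] : Fin 3 → MvPolynomial (Fin 3) O :=
  ![3 + X 0 * X 2, X 0 * X 1, (3 + X 0 * X 2) * X 1]

noncomputable def T14_data (t s : O) (h2 : 2 * t = 1) (h41 : 41 * s = 1) : SmoothData (T14 O) :=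
  have h2' : 2 * (C t : MvPolynomial (Fin 3) O) = 1 := by
    have h := congrArg (C : O → MvPolynomial (Fin 3) O) h2
    rwa [map_mul, map_ofNat, map_one] at h
  have h41' : 41 * (C s : MvPolynomial (Fin 3) O) = 1 := by
    have h := congrArg (C : O → MvPolynomial (Fin 3) O) h41
    rwa [map_mul, map_ofNat, map_one] at h
  { D := ![der3 (X 0 * X 2 * X 0) (-(X 0 * X 2 * X 1)) (3 * X 2), der3 (X 0) (0) (-X 2),
      der3 (-X 0) (X 1) (X 2)]
    A := ![C t * (1 - (3 + X 0 * X 2) ^ 4 * (C t * C s)), C t, C t]
    B := ![-(C t ^ 3 * C s) * ((3 + X 0 * X 2) ^ 3 + 3 * (3 + X 0 * X 2) ^ 2 + 9 * (3 + X 0 * X 2) + 27), C t ^ 2, C t ^ 2]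
    off := by
      intro i j hij
      fin_cases i <;> fin_cases j <;> first
        | exact absurd rfl hij
        | (simp only [Matrix.cons_val, Fin.isValue, Fin.zero_eta, Fin.mk_one, Fin.reduceFinMk,
            der3_mul, map_add, map_sub, der3_X0, der3_X1, der3_X2, der3_one, der3_three]
           done)
        | (simp only [Matrix.cons_val, Fin.isValue, Fin.zero_eta, Fin.mk_one, Fin.reduceFinMk,
            der3_mul, map_add, map_sub, der3_X0, der3_X1, der3_X2, der3_one, der3_three]
           ring)
    diag := by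
      have e0 : (der3 (O := O) (X 0 * X 2 * X 0) (-(X 0 * X 2 * X 1)) (3 * X 2)) (3 + X 0 * X 2) = (3 + X 0 * X 2) * ((3 + X 0 * X 2) - 3) := by
        simp only [der3_mul, map_add, map_sub, der3_X0, der3_X1, der3_X2, der3_one, der3_three]
        try ring
      have e1 : (der3 (O := O) (X 0) (0) (-X 2)) (X 0 * X 1) = X 0 * X 1 := by
        simp only [der3_mul, map_add, map_sub, der3_X0, der3_X1, der3_X2, der3_one, der3_three]
        try ring
      have e2 : (der3 (O := O) (-X 0) (X 1) (X 2)) ((3 + X 0 * X 2) * X 1) = (3 + X 0 * X 2) * X 1 := by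
        simp only [der3_mul, map_add, map_sub, der3_X0, der3_X1, der3_X2, der3_one, der3_three]
        try ring
      intro i
      fin_cases i
      · simp only [Matrix.cons_val, Fin.isValue, Fin.zero_eta]
        rw [e0]
        exact diag_minus (C t) (C s) _ h2' h41'
      · simp only [Matrix.cons_val, Fin.isValue, Fin.mk_one]
        rw [e1]
        exact diag_mono (C t) _ h2'
      · simp only [Matrix.cons_val, Fin.isValue, Fin.reduceFinMk]
        rw [e2]
        exact diag_mono (C t) _ h2' }

/-- Coordinates of type T15. -/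
noncomputable abbrev T15 (O : Type u) [CommRing O] : Fin 3 → MvPolynomial (Fin 3) O :=
  ![X 0 * X 1, (X 0 * X 1 - 3) * X 2, X 1]

noncomputable def T15_data (t s : O) (h2 : 2 * t = 1) (h41 : 41 * s = 1) : SmoothData (T15 O) :=
  have h2' : 2 * (C t : MvPolynomial (Fin 3) O) = 1 := by
    have h := congrArg (C : O → MvPolynomial (Fin 3) O) h2
    rwa [map_mul, map_ofNat, map_one] at h
  have h41' : 41 * (C s : MvPolynomial (Fin 3) O) = 1 := by
    have h := congrArg (C : O → MvPolynomial (Fin 3) O) h41
    rwa [map_mul, map_ofNat, map_one] at h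
  { D := ![der3 ((X 0 * X 1 - 3) * X 0) (0) (-(X 0 * X 1 * X 2)), der3 (0) (0) (X 2),
      der3 (-X 0) (X 1) (0)]
    A := ![C t * (1 - (X 0 * X 1) ^ 4 * (C t * C s)), C t, C t]
    B := ![-(C t ^ 3 * C s) * ((X 0 * X 1) ^ 3 + 3 * (X 0 * X 1) ^ 2 + 9 * (X 0 * X 1) + 27), C t ^ 2, C t ^ 2]
    off := by
      intro i j hij
      fin_cases i <;> fin_cases j <;> first
        | exact absurd rfl hij
        | (simp only [Matrix.cons_val, Fin.isValue, Fin.zero_eta, Fin.mk_one, Fin.reduceFinMk,
            der3_mul, map_add, map_sub, der3_X0, der3_X1, der3_X2, der3_one, der3_three]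
           done)
        | (simp only [Matrix.cons_val, Fin.isValue, Fin.zero_eta, Fin.mk_one, Fin.reduceFinMk,
            der3_mul, map_add, map_sub, der3_X0, der3_X1, der3_X2, der3_one, der3_three]
           ring)
    diag := by
      have e0 : (der3 (O := O) ((X 0 * X 1 - 3) * X 0) (0) (-(X 0 * X 1 * X 2))) (X 0 * X 1) = (X 0 * X 1) * ((X 0 * X 1) - 3) := by
        simp only [der3_mul, map_add, map_sub, der3_X0, der3_X1, der3_X2, der3_one, der3_three]
        try ring
      have e1 : (der3 (O := O) (0) (0) (X 2)) ((X 0 * X 1 - 3) * X 2) = (X 0 * X 1 - 3) * X 2 := by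
        simp only [der3_mul, map_add, map_sub, der3_X0, der3_X1, der3_X2, der3_one, der3_three]
        try ring
      have e2 : (der3 (O := O) (-X 0) (X 1) (0)) (X 1) = X 1 := by
        simp only [der3_mul, map_add, map_sub, der3_X0, der3_X1, der3_X2, der3_one, der3_three]
        try ring
      intro i
      fin_cases i
      · simp only [Matrix.cons_val, Fin.isValue, Fin.zero_eta]
        rw [e0]
        exact diag_minus (C t) (C s) _ h2' h41'
      · simp only [Matrix.cons_val, Fin.isValue, Fin.mk_one]
        rw [e1]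
        exact diag_mono (C t) _ h2'
      · simp only [Matrix.cons_val, Fin.isValue, Fin.reduceFinMk]
        rw [e2]
        exact diag_mono (C t) _ h2' }

end Pool.Agent.Lib.MP_55c1e7_ag.CH
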