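import Mathlib
import Pool.Agent.Lib.MP_55c1e7_ag.CH.Ra
import Pool.Agent.Lib.MP_55c1e7_ag.CH.Ty

open MvPolynomial

namespace Pool.Agent.Lib.MP_55c1e7_ag.CH

open Pool.Agent.Lib.MP_55c1e7_ag.CK

variable {k K : Type} [Field k] [Field K] [Algebra k K]

/-- A smooth chart of a linear system. -/
structure Chart (O : Type) [CommRing O] [Algebra O K] (P : Pt k K) {ι : Type} (h : ι → K)
    (i : ι) where
  s : Fin 3 → Bool
  a : Fin 3 → K
  φ : K
  ξ : Fin 3 → MvPolynomial (Fin 3) O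
  d : SmoothData ξ
  hξ : ∀ j, aeval a (ξ j) = xx P s j
  hF : ∀ j, a j ∈ P.F
  φmem : φ ∈ Algebra.adjoin O (Set.range a)
  φ0 : φ ≠ 0
  le : ∀ B : Subalgebra O K, (∀ j, a j ∈ B) → φ⁻¹ ∈ B → (∀ j, ww P s j ∈ B) → chartRing O h i ≤ B
  ge : (∀ j, a j ∈ chartRing O h i) ∧ φ⁻¹ ∈ chartRing O h i ∧ ∀ j, ww P s j ∈ chartRing O h i

namespace Chart

variable {O : Type} [CommRing O] [Algebra O K] {P : Pt k K} {ι : Type} {h : ι → K} {i : ι}

theorem eq (C : Chart O P h i) :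
    chartRing O h i = Algebra.adjoin O (insert C.φ⁻¹ (Set.range (Sum.elim C.a (ww P C.s)))) := by
  apply le_antisymm
  · apply C.le
    · intro j
      exact Algebra.subset_adjoin (Set.mem_insert_of_mem _ ⟨Sum.inl j, rfl⟩)
    · exact Algebra.subset_adjoin (Set.mem_insert _ _)
    · intro j
      exact Algebra.subset_adjoin (Set.mem_insert_of_mem _ ⟨Sum.inr j, rfl⟩)
  · apply Algebra.adjoin_le
    rintro t (rfl | ⟨j | j, rfl⟩)
    · exact C.ge.2.1
    · exact C.ge.1 j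
    · exact C.ge.2.2 j

theorem smooth [Algebra O k] [IsScalarTower O k K] (h2 : (2 : k) ≠ 0) (hP : P.Gen)
    (hinj : Function.Injective (algebraMap O k)) (C : Chart O P h i) :
    Algebra.Smooth O (chartRing O h i) := by
  have hc := chart_core P h2 hP hinj C.s C.a C.ξ C.hF C.hξ
  have h1 := adjoin_smooth C.ξ C.a (ww P C.s) hc.1 hc.2 C.d
  have hle : Algebra.adjoin O (Set.range C.a) ≤
      Algebra.adjoin O (Set.range (Sum.elim C.a (ww P C.s))) := by
    apply Algebra.adjoin_mono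
    rintro _ ⟨j, rfl⟩
    exact ⟨Sum.inl j, rfl⟩
  have h3 := smooth_insert_inv _ h1 C.φ (hle C.φmem) C.φ0
  rw [C.eq]
  exact h3

theorem xx_mem (C : Chart O P h i) (B : Subalgebra O K) (hB : ∀ j, C.a j ∈ B) (j : Fin 3) :
    xx P C.s j ∈ B := by
  rw [← C.hξ j]
  have h3 : aeval C.a (C.ξ j) ∈ Algebra.adjoin O (Set.range C.a) := by
    rw [Algebra.adjoin_range_eq_range_aeval]
    exact ⟨_, rfl⟩
  refine (Algebra.adjoin_le ?_) h3
  rintro _ ⟨l, rfl⟩
  exact hB l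

end Chart

theorem aeval_mem_of {O : Type} [CommRing O] [Algebra O K] (B : Subalgebra O K)
    (ξ : Fin 3 → MvPolynomial (Fin 3) O) (a : Fin 3 → K) (hB : ∀ j, a j ∈ B) (j : Fin 3) :
    aeval a (ξ j) ∈ B := by
  have h3 : aeval a (ξ j) ∈ Algebra.adjoin O (Set.range a) := by
    rw [Algebra.adjoin_range_eq_range_aeval]
    exact ⟨_, rfl⟩
  refine (Algebra.adjoin_le ?_) h3
  rintro _ ⟨l, rfl⟩
  exact hB l

theorem third_mem (B : Subalgebra k K) : (3 : K)⁻¹ ∈ B := by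
  have h := B.algebraMap_mem (3 : k)⁻¹
  rwa [map_inv₀, map_ofNat] at h

theorem xF (P : Pt k K) (i : Fin 3) : P.x i ∈ P.F := IntermediateField.subset_adjoin k _ ⟨i, rfl⟩

theorem x3F (P : Pt k K) : P.x 0 - 3 ∈ P.F := sub_mem (xF P 0) (ofNat_mem _ 3)

end Pool.Agent.Lib.MP_55c1e7_ag.CH
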