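import Mathlib
import Pool.Agent.Lib.MP_55c1e7_ag.CH.Cs
import Pool.Agent.Lib.MP_55c1e7_ag.CH.XXa

set_option linter.unusedVariables false
set_option linter.unusedTactic false
set_option linter.unreachableTactic false
set_option linter.unusedSimpArgs false
set_option linter.unnecessarySeqFocus false

open MvPolynomial

namespace Pool.Agent.Lib.MP_55c1e7_ag.CH

open Pool.Agent.Lib.MP_55c1e7_ag.CK

variable {k : Type} [Field k] {O : Type} [CommRing O] {K : Type} [Field K] [Algebra O K]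
  [Algebra k K]

/-- The coordinates of chart 1. -/
noncomputable def XX1_a (P : Pt k K) : Fin 3 → K :=
  ![P.x 0, P.x 1, P.x 2 / (P.x 0 * P.x 1)]

theorem XX1_hxi (P : Pt k K) (O : Type) [CommRing O] [Algebra O K] (j : Fin 3) :
    aeval (XX1_a P) (T1 O j) = xx P ![false, false, false] j := by
  have h := XX1_xi (x_ne P 0) (x_ne P 1) (x_ne P 2) (x3_ne P) (sub_add_cancel _ _).symm
  fin_cases j
  · change aeval (XX1_a P) (X 0 : MvPolynomial (Fin 3) O) = P.x 0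
    simp only [map_mul, map_sub, map_add, map_one, map_ofNat, aeval_X]
    exact h.1
  · change aeval (XX1_a P) (X 1 : MvPolynomial (Fin 3) O) = P.x 1
    simp only [map_mul, map_sub, map_add, map_one, map_ofNat, aeval_X]
    exact h.2.1
  · change aeval (XX1_a P) (X 0 * X 1 * X 2 : MvPolynomial (Fin 3) O) = P.x 2
    simp only [map_mul, map_sub, map_add, map_one, map_ofNat, aeval_X]
    exact h.2.2

theorem XX1_F (P : Pt k K) (j : Fin 3) : XX1_a P j ∈ P.F := by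
  fin_cases j
  · change P.x 0 ∈ P.F
    exact xF P 0
  · change P.x 1 ∈ P.F
    exact xF P 1
  · change P.x 2 / (P.x 0 * P.x 1) ∈ P.F
    exact div_mem (xF P 2) (mul_mem (xF P 0) (xF P 1))

theorem XX1_cle (P : Pt k K) (B : Subalgebra O K) (ha : ∀ j, XX1_a P j ∈ B)
    (hφ : (1 : K)⁻¹ ∈ B) (hw : ∀ j, ww P ![false, false, false] j ∈ B) :
    chartRing O (hXX P) (iXX ![false, false, false] 0 0 4) ≤ B := by
  rw [inv_one] at hφ
  have ha0 : P.x 0 ∈ B := ha 0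
  have ha1 : P.x 1 ∈ B := ha 1
  have ha2 : P.x 2 / (P.x 0 * P.x 1) ∈ B := ha 2
  have h := XX1_le (x_ne P 0) (x_ne P 1) (x_ne P 2) (x3_ne P) (sub_add_cancel _ _).symm ha0 ha1 ha2 hφ
  have hxx : ∀ j, xx P ![false, false, false] j ∈ B := fun j => by
    rw [← XX1_hxi P O j]
    exact aeval_mem_of B _ _ ha j
  exact XX_le P ![false, false, false] 0 0 4 B hxx hw h.1 h.2.1 h.2.2

theorem XX1_cge (P : Pt k K) :
    (∀ j, XX1_a P j ∈ chartRing O (hXX P) (iXX ![false, false, false] 0 0 4)) ∧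
    (1 : K)⁻¹ ∈ chartRing O (hXX P) (iXX ![false, false, false] 0 0 4) ∧
    ∀ j, ww P ![false, false, false] j ∈ chartRing O (hXX P) (iXX ![false, false, false] 0 0 4) := by
  obtain ⟨hxx, hww, h3, h4, h5⟩ := XX_ge (O := O) P ![false, false, false] 0 0 4
  have hx0 : P.x 0 ∈ chartRing O (hXX P) (iXX ![false, false, false] 0 0 4) := hxx 0
  have hx1 : P.x 1 ∈ chartRing O (hXX P) (iXX ![false, false, false] 0 0 4) := hxx 1
  have hx2 : P.x 2 ∈ chartRing O (hXX P) (iXX ![false, false, false] 0 0 4) := hxx 2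
  have h := XX1_ge (x_ne P 0) (x_ne P 1) (x_ne P 2) (x3_ne P) (sub_add_cancel _ _).symm hx0 hx1 hx2 h3 h4 h5
  refine ⟨?_, ?_, hww⟩
  · intro j
    fin_cases j
    · exact h.1
    · exact h.2.1
    · exact h.2.2.1
  · rw [inv_one]
    exact h.2.2.2

/-- Chart 1. -/
noncomputable def XX1 (P : Pt k K) (t s : O) (h2 : 2 * t = 1) (h41 : 41 * s = 1) :
    Chart O P (hXX P) (iXX ![false, false, false] 0 0 4) where
  s := ![false, false, false]
  a := XX1_a P
  φ := 1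
  ξ := T1 O
  d := T1_data t s h2 h41
  hξ := XX1_hxi P O
  hF := XX1_F P
  φmem := one_mem _
  φ0 := one_ne_zero
  le := XX1_cle P
  ge := XX1_cge P

/-- The coordinates of chart 2. -/
noncomputable def XX2_a (P : Pt k K) : Fin 3 → K :=
  ![P.x 2 / P.x 1, P.x 1, P.x 0 * P.x 1 / P.x 2]

theorem XX2_hxi (P : Pt k K) (O : Type) [CommRing O] [Algebra O K] (j : Fin 3) :
    aeval (XX2_a P) (T2 O j) = xx P ![false, false, false] j := by
  have h := XX2_xi (x_ne P 0) (x_ne P 1) (x_ne P 2) (x3_ne P) (sub_add_cancel _ _).symm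
  fin_cases j
  · change aeval (XX2_a P) (X 0 * X 2 : MvPolynomial (Fin 3) O) = P.x 0
    simp only [map_mul, map_sub, map_add, map_one, map_ofNat, aeval_X]
    exact h.1
  · change aeval (XX2_a P) (X 1 : MvPolynomial (Fin 3) O) = P.x 1
    simp only [map_mul, map_sub, map_add, map_one, map_ofNat, aeval_X]
    exact h.2.1
  · change aeval (XX2_a P) (X 0 * X 1 : MvPolynomial (Fin 3) O) = P.x 2
    simp only [map_mul, map_sub, map_add, map_one, map_ofNat, aeval_X]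
    exact h.2.2

theorem XX2_F (P : Pt k K) (j : Fin 3) : XX2_a P j ∈ P.F := by
  fin_cases j
  · change P.x 2 / P.x 1 ∈ P.F
    exact div_mem (xF P 2) (xF P 1)
  · change P.x 1 ∈ P.F
    exact xF P 1
  · change P.x 0 * P.x 1 / P.x 2 ∈ P.F
    exact div_mem (mul_mem (xF P 0) (xF P 1)) (xF P 2)

theorem XX2_cle (P : Pt k K) (B : Subalgebra O K) (ha : ∀ j, XX2_a P j ∈ B)
    (hφ : (1 : K)⁻¹ ∈ B) (hw : ∀ j, ww P ![false, false, false] j ∈ B) :
    chartRing O (hXX P) (iXX ![false, false, false] 0 4 4) ≤ B := by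
  rw [inv_one] at hφ
  have ha0 : P.x 2 / P.x 1 ∈ B := ha 0
  have ha1 : P.x 1 ∈ B := ha 1
  have ha2 : P.x 0 * P.x 1 / P.x 2 ∈ B := ha 2
  have h := XX2_le (x_ne P 0) (x_ne P 1) (x_ne P 2) (x3_ne P) (sub_add_cancel _ _).symm ha0 ha1 ha2 hφ
  have hxx : ∀ j, xx P ![false, false, false] j ∈ B := fun j => by
    rw [← XX2_hxi P O j]
    exact aeval_mem_of B _ _ ha j
  exact XX_le P ![false, false, false] 0 4 4 B hxx hw h.1 h.2.1 h.2.2

theorem XX2_cge (P : Pt k K) :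
    (∀ j, XX2_a P j ∈ chartRing O (hXX P) (iXX ![false, false, false] 0 4 4)) ∧
    (1 : K)⁻¹ ∈ chartRing O (hXX P) (iXX ![false, false, false] 0 4 4) ∧
    ∀ j, ww P ![false, false, false] j ∈ chartRing O (hXX P) (iXX ![false, false, false] 0 4 4) := by
  obtain ⟨hxx, hww, h3, h4, h5⟩ := XX_ge (O := O) P ![false, false, false] 0 4 4
  have hx0 : P.x 0 ∈ chartRing O (hXX P) (iXX ![false, false, false] 0 4 4) := hxx 0
  have hx1 : P.x 1 ∈ chartRing O (hXX P) (iXX ![false, false, false] 0 4 4) := hxx 1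
  have hx2 : P.x 2 ∈ chartRing O (hXX P) (iXX ![false, false, false] 0 4 4) := hxx 2
  have h := XX2_ge (x_ne P 0) (x_ne P 1) (x_ne P 2) (x3_ne P) (sub_add_cancel _ _).symm hx0 hx1 hx2 h3 h4 h5
  refine ⟨?_, ?_, hww⟩
  · intro j
    fin_cases j
    · exact h.1
    · exact h.2.1
    · exact h.2.2.1
  · rw [inv_one]
    exact h.2.2.2

/-- Chart 2. -/
noncomputable def XX2 (P : Pt k K) (t s : O) (h2 : 2 * t = 1) (h41 : 41 * s = 1) :
    Chart O P (hXX P) (iXX ![false, false, false] 0 4 4) where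
  s := ![false, false, false]
  a := XX2_a P
  φ := 1
  ξ := T2 O
  d := T2_data t s h2 h41
  hξ := XX2_hxi P O
  hF := XX2_F P
  φmem := one_mem _
  φ0 := one_ne_zero
  le := XX2_cle P
  ge := XX2_cge P

/-- The coordinates of chart 3. -/
noncomputable def XX3_a (P : Pt k K) : Fin 3 → K :=
  ![P.x 0, P.x 2, P.x 1 / ((P.x 0 - 3) * P.x 2)]

theorem XX3_hxi (P : Pt k K) (O : Type) [CommRing O] [Algebra O K] (j : Fin 3) :
    aeval (XX3_a P) (T3 O j) = xx P ![false, false, false] j := by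
  have h := XX3_xi (x_ne P 0) (x_ne P 1) (x_ne P 2) (x3_ne P) (sub_add_cancel _ _).symm
  fin_cases j
  · change aeval (XX3_a P) (X 0 : MvPolynomial (Fin 3) O) = P.x 0
    simp only [map_mul, map_sub, map_add, map_one, map_ofNat, aeval_X]
    exact h.1
  · change aeval (XX3_a P) (X 1 * (X 0 - 3) * X 2 : MvPolynomial (Fin 3) O) = P.x 1
    simp only [map_mul, map_sub, map_add, map_one, map_ofNat, aeval_X]
    exact h.2.1
  · change aeval (XX3_a P) (X 1 : MvPolynomial (Fin 3) O) = P.x 2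
    simp only [map_mul, map_sub, map_add, map_one, map_ofNat, aeval_X]
    exact h.2.2

theorem XX3_F (P : Pt k K) (j : Fin 3) : XX3_a P j ∈ P.F := by
  fin_cases j
  · change P.x 0 ∈ P.F
    exact xF P 0
  · change P.x 2 ∈ P.F
    exact xF P 2
  · change P.x 1 / ((P.x 0 - 3) * P.x 2) ∈ P.F
    exact div_mem (xF P 1) (mul_mem (x3F P) (xF P 2))

theorem XX3_cle (P : Pt k K) (B : Subalgebra O K) (ha : ∀ j, XX3_a P j ∈ B)
    (hφ : (1 : K)⁻¹ ∈ B) (hw : ∀ j, ww P ![false, false, false] j ∈ B) :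
    chartRing O (hXX P) (iXX ![false, false, false] 1 4 0) ≤ B := by
  rw [inv_one] at hφ
  have ha0 : P.x 0 ∈ B := ha 0
  have ha1 : P.x 2 ∈ B := ha 1
  have ha2 : P.x 1 / ((P.x 0 - 3) * P.x 2) ∈ B := ha 2
  have h := XX3_le (x_ne P 0) (x_ne P 1) (x_ne P 2) (x3_ne P) (sub_add_cancel _ _).symm ha0 ha1 ha2 hφ
  have hxx : ∀ j, xx P ![false, false, false] j ∈ B := fun j => by
    rw [← XX3_hxi P O j]
    exact aeval_mem_of B _ _ ha j
  exact XX_le P ![false, false, false] 1 4 0 B hxx hw h.1 h.2.1 h.2.2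

theorem XX3_cge (P : Pt k K) :
    (∀ j, XX3_a P j ∈ chartRing O (hXX P) (iXX ![false, false, false] 1 4 0)) ∧
    (1 : K)⁻¹ ∈ chartRing O (hXX P) (iXX ![false, false, false] 1 4 0) ∧
    ∀ j, ww P ![false, false, false] j ∈ chartRing O (hXX P) (iXX ![false, false, false] 1 4 0) := by
  obtain ⟨hxx, hww, h3, h4, h5⟩ := XX_ge (O := O) P ![false, false, false] 1 4 0
  have hx0 : P.x 0 ∈ chartRing O (hXX P) (iXX ![false, false, false] 1 4 0) := hxx 0
  have hx1 : P.x 1 ∈ chartRing O (hXX P) (iXX ![false, false, false] 1 4 0) := hxx 1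
  have hx2 : P.x 2 ∈ chartRing O (hXX P) (iXX ![false, false, false] 1 4 0) := hxx 2
  have h := XX3_ge (x_ne P 0) (x_ne P 1) (x_ne P 2) (x3_ne P) (sub_add_cancel _ _).symm hx0 hx1 hx2 h3 h4 h5
  refine ⟨?_, ?_, hww⟩
  · intro j
    fin_cases j
    · exact h.1
    · exact h.2.1
    · exact h.2.2.1
  · rw [inv_one]
    exact h.2.2.2

/-- Chart 3. -/
noncomputable def XX3 (P : Pt k K) (t s : O) (h2 : 2 * t = 1) (h41 : 41 * s = 1) :
    Chart O P (hXX P) (iXX ![false, false, false] 1 4 0) where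
  s := ![false, false, false]
  a := XX3_a P
  φ := 1
  ξ := T3 O
  d := T3_data t s h2 h41
  hξ := XX3_hxi P O
  hF := XX3_F P
  φmem := one_mem _
  φ0 := one_ne_zero
  le := XX3_cle P
  ge := XX3_cge P

/-- The coordinates of chart 4. -/
noncomputable def XX4_a (P : Pt k K) : Fin 3 → K :=
  ![P.x 1 / P.x 2, P.x 2, (P.x 0 - 3) * P.x 2 / P.x 1]

theorem XX4_hxi (P : Pt k K) (O : Type) [CommRing O] [Algebra O K] (j : Fin 3) :
    aeval (XX4_a P) (T4 O j) = xx P ![false, false, false] j := by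
  have h := XX4_xi (x_ne P 0) (x_ne P 1) (x_ne P 2) (x3_ne P) (sub_add_cancel _ _).symm
  fin_cases j
  · change aeval (XX4_a P) (3 + X 0 * X 2 : MvPolynomial (Fin 3) O) = P.x 0
    simp only [map_mul, map_sub, map_add, map_one, map_ofNat, aeval_X]
    exact h.1
  · change aeval (XX4_a P) (X 0 * X 1 : MvPolynomial (Fin 3) O) = P.x 1
    simp only [map_mul, map_sub, map_add, map_one, map_ofNat, aeval_X]
    exact h.2.1
  · change aeval (XX4_a P) (X 1 : MvPolynomial (Fin 3) O) = P.x 2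
    simp only [map_mul, map_sub, map_add, map_one, map_ofNat, aeval_X]
    exact h.2.2

theorem XX4_F (P : Pt k K) (j : Fin 3) : XX4_a P j ∈ P.F := by
  fin_cases j
  · change P.x 1 / P.x 2 ∈ P.F
    exact div_mem (xF P 1) (xF P 2)
  · change P.x 2 ∈ P.F
    exact xF P 2
  · change (P.x 0 - 3) * P.x 2 / P.x 1 ∈ P.F
    exact div_mem (mul_mem (x3F P) (xF P 2)) (xF P 1)

theorem XX4_cle (P : Pt k K) (B : Subalgebra O K) (ha : ∀ j, XX4_a P j ∈ B)
    (hφ : (1 : K)⁻¹ ∈ B) (hw : ∀ j, ww P ![false, false, false] j ∈ B) :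
    chartRing O (hXX P) (iXX ![false, false, false] 1 4 4) ≤ B := by
  rw [inv_one] at hφ
  have ha0 : P.x 1 / P.x 2 ∈ B := ha 0
  have ha1 : P.x 2 ∈ B := ha 1
  have ha2 : (P.x 0 - 3) * P.x 2 / P.x 1 ∈ B := ha 2
  have h := XX4_le (x_ne P 0) (x_ne P 1) (x_ne P 2) (x3_ne P) (sub_add_cancel _ _).symm ha0 ha1 ha2 hφ
  have hxx : ∀ j, xx P ![false, false, false] j ∈ B := fun j => by
    rw [← XX4_hxi P O j]
    exact aeval_mem_of B _ _ ha j
  exact XX_le P ![false, false, false] 1 4 4 B hxx hw h.1 h.2.1 h.2.2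

theorem XX4_cge (P : Pt k K) :
    (∀ j, XX4_a P j ∈ chartRing O (hXX P) (iXX ![false, false, false] 1 4 4)) ∧
    (1 : K)⁻¹ ∈ chartRing O (hXX P) (iXX ![false, false, false] 1 4 4) ∧
    ∀ j, ww P ![false, false, false] j ∈ chartRing O (hXX P) (iXX ![false, false, false] 1 4 4) := by
  obtain ⟨hxx, hww, h3, h4, h5⟩ := XX_ge (O := O) P ![false, false, false] 1 4 4
  have hx0 : P.x 0 ∈ chartRing O (hXX P) (iXX ![false, false, false] 1 4 4) := hxx 0
  have hx1 : P.x 1 ∈ chartRing O (hXX P) (iXX ![false, false, false] 1 4 4) := hxx 1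
  have hx2 : P.x 2 ∈ chartRing O (hXX P) (iXX ![false, false, false] 1 4 4) := hxx 2
  have h := XX4_ge (x_ne P 0) (x_ne P 1) (x_ne P 2) (x3_ne P) (sub_add_cancel _ _).symm hx0 hx1 hx2 h3 h4 h5
  refine ⟨?_, ?_, hww⟩
  · intro j
    fin_cases j
    · exact h.1
    · exact h.2.1
    · exact h.2.2.1
  · rw [inv_one]
    exact h.2.2.2

/-- Chart 4. -/
noncomputable def XX4 (P : Pt k K) (t s : O) (h2 : 2 * t = 1) (h41 : 41 * s = 1) :
    Chart O P (hXX P) (iXX ![false, false, false] 1 4 4) where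
  s := ![false, false, false]
  a := XX4_a P
  φ := 1
  ξ := T4 O
  d := T4_data t s h2 h41
  hξ := XX4_hxi P O
  hF := XX4_F P
  φmem := one_mem _
  φ0 := one_ne_zero
  le := XX4_cle P
  ge := XX4_cge P

/-- The coordinates of chart 5. -/
noncomputable def XX5_a (P : Pt k K) : Fin 3 → K :=
  ![P.x 0, (P.x 1)⁻¹, P.x 2 / P.x 0]

theorem XX5_hxi (P : Pt k K) (O : Type) [CommRing O] [Algebra O K] (j : Fin 3) :
    aeval (XX5_a P) (T5 O j) = xx P ![false, true, false] j := by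
  have h := XX5_xi (x_ne P 0) (x_ne P 1) (x_ne P 2) (x3_ne P) (sub_add_cancel _ _).symm
  fin_cases j
  · change aeval (XX5_a P) (X 0 : MvPolynomial (Fin 3) O) = P.x 0
    simp only [map_mul, map_sub, map_add, map_one, map_ofNat, aeval_X]
    exact h.1
  · change aeval (XX5_a P) (X 1 : MvPolynomial (Fin 3) O) = (P.x 1)⁻¹
    simp only [map_mul, map_sub, map_add, map_one, map_ofNat, aeval_X]
    exact h.2.1
  · change aeval (XX5_a P) (X 0 * X 2 : MvPolynomial (Fin 3) O) = P.x 2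
    simp only [map_mul, map_sub, map_add, map_one, map_ofNat, aeval_X]
    exact h.2.2

theorem XX5_F (P : Pt k K) (j : Fin 3) : XX5_a P j ∈ P.F := by
  fin_cases j
  · change P.x 0 ∈ P.F
    exact xF P 0
  · change (P.x 1)⁻¹ ∈ P.F
    exact inv_mem (xF P 1)
  · change P.x 2 / P.x 0 ∈ P.F
    exact div_mem (xF P 2) (xF P 0)

theorem XX5_cle (P : Pt k K) (B : Subalgebra O K) (ha : ∀ j, XX5_a P j ∈ B)
    (hφ : (1 : K)⁻¹ ∈ B) (hw : ∀ j, ww P ![false, true, false] j ∈ B) :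
    chartRing O (hXX P) (iXX ![false, true, false] 0 0 4) ≤ B := by
  rw [inv_one] at hφ
  have ha0 : P.x 0 ∈ B := ha 0
  have ha1 : (P.x 1)⁻¹ ∈ B := ha 1
  have ha2 : P.x 2 / P.x 0 ∈ B := ha 2
  have h := XX5_le (x_ne P 0) (x_ne P 1) (x_ne P 2) (x3_ne P) (sub_add_cancel _ _).symm ha0 ha1 ha2 hφ
  have hxx : ∀ j, xx P ![false, true, false] j ∈ B := fun j => by
    rw [← XX5_hxi P O j]
    exact aeval_mem_of B _ _ ha j
  exact XX_le P ![false, true, false] 0 0 4 B hxx hw h.1 h.2.1 h.2.2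

theorem XX5_cge (P : Pt k K) :
    (∀ j, XX5_a P j ∈ chartRing O (hXX P) (iXX ![false, true, false] 0 0 4)) ∧
    (1 : K)⁻¹ ∈ chartRing O (hXX P) (iXX ![false, true, false] 0 0 4) ∧
    ∀ j, ww P ![false, true, false] j ∈ chartRing O (hXX P) (iXX ![false, true, false] 0 0 4) := by
  obtain ⟨hxx, hww, h3, h4, h5⟩ := XX_ge (O := O) P ![false, true, false] 0 0 4
  have hx0 : P.x 0 ∈ chartRing O (hXX P) (iXX ![false, true, false] 0 0 4) := hxx 0
  have hx1 : (P.x 1)⁻¹ ∈ chartRing O (hXX P) (iXX ![false, true, false] 0 0 4) := hxx 1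
  have hx2 : P.x 2 ∈ chartRing O (hXX P) (iXX ![false, true, false] 0 0 4) := hxx 2
  have h := XX5_ge (x_ne P 0) (x_ne P 1) (x_ne P 2) (x3_ne P) (sub_add_cancel _ _).symm hx0 hx1 hx2 h3 h4 h5
  refine ⟨?_, ?_, hww⟩
  · intro j
    fin_cases j
    · exact h.1
    · exact h.2.1
    · exact h.2.2.1
  · rw [inv_one]
    exact h.2.2.2

/-- Chart 5. -/
noncomputable def XX5 (P : Pt k K) (t s : O) (h2 : 2 * t = 1) (h41 : 41 * s = 1) :
    Chart O P (hXX P) (iXX ![false, true, false] 0 0 4) where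
  s := ![false, true, false]
  a := XX5_a P
  φ := 1
  ξ := T5 O
  d := T5_data t s h2 h41
  hξ := XX5_hxi P O
  hF := XX5_F P
  φmem := one_mem _
  φ0 := one_ne_zero
  le := XX5_cle P
  ge := XX5_cge P

/-- The coordinates of chart 6. -/
noncomputable def XX6_a (P : Pt k K) : Fin 3 → K :=
  ![P.x 0 / P.x 2, (P.x 1)⁻¹, P.x 2]

theorem XX6_hxi (P : Pt k K) (O : Type) [CommRing O] [Algebra O K] (j : Fin 3) :
    aeval (XX6_a P) (T6 O j) = xx P ![false, true, false] j := by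
  have h := XX6_xi (x_ne P 0) (x_ne P 1) (x_ne P 2) (x3_ne P) (sub_add_cancel _ _).symm
  fin_cases j
  · change aeval (XX6_a P) (X 0 * X 2 : MvPolynomial (Fin 3) O) = P.x 0
    simp only [map_mul, map_sub, map_add, map_one, map_ofNat, aeval_X]
    exact h.1
  · change aeval (XX6_a P) (X 1 : MvPolynomial (Fin 3) O) = (P.x 1)⁻¹
    simp only [map_mul, map_sub, map_add, map_one, map_ofNat, aeval_X]
    exact h.2.1
  · change aeval (XX6_a P) (X 2 : MvPolynomial (Fin 3) O) = P.x 2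
    simp only [map_mul, map_sub, map_add, map_one, map_ofNat, aeval_X]
    exact h.2.2

theorem XX6_F (P : Pt k K) (j : Fin 3) : XX6_a P j ∈ P.F := by
  fin_cases j
  · change P.x 0 / P.x 2 ∈ P.F
    exact div_mem (xF P 0) (xF P 2)
  · change (P.x 1)⁻¹ ∈ P.F
    exact inv_mem (xF P 1)
  · change P.x 2 ∈ P.F
    exact xF P 2

theorem XX6_cle (P : Pt k K) (B : Subalgebra O K) (ha : ∀ j, XX6_a P j ∈ B)
    (hφ : (1 : K)⁻¹ ∈ B) (hw : ∀ j, ww P ![false, true, false] j ∈ B) :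
    chartRing O (hXX P) (iXX ![false, true, false] 0 2 4) ≤ B := by
  rw [inv_one] at hφ
  have ha0 : P.x 0 / P.x 2 ∈ B := ha 0
  have ha1 : (P.x 1)⁻¹ ∈ B := ha 1
  have ha2 : P.x 2 ∈ B := ha 2
  have h := XX6_le (x_ne P 0) (x_ne P 1) (x_ne P 2) (x3_ne P) (sub_add_cancel _ _).symm ha0 ha1 ha2 hφ
  have hxx : ∀ j, xx P ![false, true, false] j ∈ B := fun j => by
    rw [← XX6_hxi P O j]
    exact aeval_mem_of B _ _ ha j
  exact XX_le P ![false, true, false] 0 2 4 B hxx hw h.1 h.2.1 h.2.2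

theorem XX6_cge (P : Pt k K) :
    (∀ j, XX6_a P j ∈ chartRing O (hXX P) (iXX ![false, true, false] 0 2 4)) ∧
    (1 : K)⁻¹ ∈ chartRing O (hXX P) (iXX ![false, true, false] 0 2 4) ∧
    ∀ j, ww P ![false, true, false] j ∈ chartRing O (hXX P) (iXX ![false, true, false] 0 2 4) := by
  obtain ⟨hxx, hww, h3, h4, h5⟩ := XX_ge (O := O) P ![false, true, false] 0 2 4
  have hx0 : P.x 0 ∈ chartRing O (hXX P) (iXX ![false, true, false] 0 2 4) := hxx 0
  have hx1 : (P.x 1)⁻¹ ∈ chartRing O (hXX P) (iXX ![false, true, false] 0 2 4) := hxx 1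
  have hx2 : P.x 2 ∈ chartRing O (hXX P) (iXX ![false, true, false] 0 2 4) := hxx 2
  have h := XX6_ge (x_ne P 0) (x_ne P 1) (x_ne P 2) (x3_ne P) (sub_add_cancel _ _).symm hx0 hx1 hx2 h3 h4 h5
  refine ⟨?_, ?_, hww⟩
  · intro j
    fin_cases j
    · exact h.1
    · exact h.2.1
    · exact h.2.2.1
  · rw [inv_one]
    exact h.2.2.2

/-- Chart 6. -/
noncomputable def XX6 (P : Pt k K) (t s : O) (h2 : 2 * t = 1) (h41 : 41 * s = 1) :
    Chart O P (hXX P) (iXX ![false, true, false] 0 2 4) where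
  s := ![false, true, false]
  a := XX6_a P
  φ := 1
  ξ := T6 O
  d := T6_data t s h2 h41
  hξ := XX6_hxi P O
  hF := XX6_F P
  φmem := one_mem _
  φ0 := one_ne_zero
  le := XX6_cle P
  ge := XX6_cge P

/-- The coordinates of chart 7. -/
noncomputable def XX7_a (P : Pt k K) : Fin 3 → K :=
  ![P.x 0, P.x 1 / (P.x 0 - 3), (P.x 2)⁻¹]

theorem XX7_hxi (P : Pt k K) (O : Type) [CommRing O] [Algebra O K] (j : Fin 3) :
    aeval (XX7_a P) (T7 O j) = xx P ![false, false, true] j := by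
  have h := XX7_xi (x_ne P 0) (x_ne P 1) (x_ne P 2) (x3_ne P) (sub_add_cancel _ _).symm
  fin_cases j
  · change aeval (XX7_a P) (X 0 : MvPolynomial (Fin 3) O) = P.x 0
    simp only [map_mul, map_sub, map_add, map_one, map_ofNat, aeval_X]
    exact h.1
  · change aeval (XX7_a P) ((X 0 - 3) * X 1 : MvPolynomial (Fin 3) O) = P.x 1
    simp only [map_mul, map_sub, map_add, map_one, map_ofNat, aeval_X]
    exact h.2.1
  · change aeval (XX7_a P) (X 2 : MvPolynomial (Fin 3) O) = (P.x 2)⁻¹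
    simp only [map_mul, map_sub, map_add, map_one, map_ofNat, aeval_X]
    exact h.2.2

theorem XX7_F (P : Pt k K) (j : Fin 3) : XX7_a P j ∈ P.F := by
  fin_cases j
  · change P.x 0 ∈ P.F
    exact xF P 0
  · change P.x 1 / (P.x 0 - 3) ∈ P.F
    exact div_mem (xF P 1) (x3F P)
  · change (P.x 2)⁻¹ ∈ P.F
    exact inv_mem (xF P 2)

theorem XX7_cle (P : Pt k K) (B : Subalgebra O K) (ha : ∀ j, XX7_a P j ∈ B)
    (hφ : (1 : K)⁻¹ ∈ B) (hw : ∀ j, ww P ![false, false, true] j ∈ B) :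
    chartRing O (hXX P) (iXX ![false, false, true] 1 4 0) ≤ B := by
  rw [inv_one] at hφ
  have ha0 : P.x 0 ∈ B := ha 0
  have ha1 : P.x 1 / (P.x 0 - 3) ∈ B := ha 1
  have ha2 : (P.x 2)⁻¹ ∈ B := ha 2
  have h := XX7_le (x_ne P 0) (x_ne P 1) (x_ne P 2) (x3_ne P) (sub_add_cancel _ _).symm ha0 ha1 ha2 hφ
  have hxx : ∀ j, xx P ![false, false, true] j ∈ B := fun j => by
    rw [← XX7_hxi P O j]
    exact aeval_mem_of B _ _ ha j
  exact XX_le P ![false, false, true] 1 4 0 B hxx hw h.1 h.2.1 h.2.2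

theorem XX7_cge (P : Pt k K) :
    (∀ j, XX7_a P j ∈ chartRing O (hXX P) (iXX ![false, false, true] 1 4 0)) ∧
    (1 : K)⁻¹ ∈ chartRing O (hXX P) (iXX ![false, false, true] 1 4 0) ∧
    ∀ j, ww P ![false, false, true] j ∈ chartRing O (hXX P) (iXX ![false, false, true] 1 4 0) := by
  obtain ⟨hxx, hww, h3, h4, h5⟩ := XX_ge (O := O) P ![false, false, true] 1 4 0
  have hx0 : P.x 0 ∈ chartRing O (hXX P) (iXX ![false, false, true] 1 4 0) := hxx 0
  have hx1 : P.x 1 ∈ chartRing O (hXX P) (iXX ![false, false, true] 1 4 0) := hxx 1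
  have hx2 : (P.x 2)⁻¹ ∈ chartRing O (hXX P) (iXX ![false, false, true] 1 4 0) := hxx 2
  have h := XX7_ge (x_ne P 0) (x_ne P 1) (x_ne P 2) (x3_ne P) (sub_add_cancel _ _).symm hx0 hx1 hx2 h3 h4 h5
  refine ⟨?_, ?_, hww⟩
  · intro j
    fin_cases j
    · exact h.1
    · exact h.2.1
    · exact h.2.2.1
  · rw [inv_one]
    exact h.2.2.2

/-- Chart 7. -/
noncomputable def XX7 (P : Pt k K) (t s : O) (h2 : 2 * t = 1) (h41 : 41 * s = 1) :
    Chart O P (hXX P) (iXX ![false, false, true] 1 4 0) where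
  s := ![false, false, true]
  a := XX7_a P
  φ := 1
  ξ := T7 O
  d := T7_data t s h2 h41
  hξ := XX7_hxi P O
  hF := XX7_F P
  φmem := one_mem _
  φ0 := one_ne_zero
  le := XX7_cle P
  ge := XX7_cge P

/-- The coordinates of chart 8. -/
noncomputable def XX8_a (P : Pt k K) : Fin 3 → K :=
  ![(P.x 0 - 3) / P.x 1, P.x 1, (P.x 2)⁻¹]

theorem XX8_hxi (P : Pt k K) (O : Type) [CommRing O] [Algebra O K] (j : Fin 3) :
    aeval (XX8_a P) (T8 O j) = xx P ![false, false, true] j := by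
  have h := XX8_xi (x_ne P 0) (x_ne P 1) (x_ne P 2) (x3_ne P) (sub_add_cancel _ _).symm
  fin_cases j
  · change aeval (XX8_a P) (3 + X 0 * X 1 : MvPolynomial (Fin 3) O) = P.x 0
    simp only [map_mul, map_sub, map_add, map_one, map_ofNat, aeval_X]
    exact h.1
  · change aeval (XX8_a P) (X 1 : MvPolynomial (Fin 3) O) = P.x 1
    simp only [map_mul, map_sub, map_add, map_one, map_ofNat, aeval_X]
    exact h.2.1
  · change aeval (XX8_a P) (X 2 : MvPolynomial (Fin 3) O) = (P.x 2)⁻¹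
    simp only [map_mul, map_sub, map_add, map_one, map_ofNat, aeval_X]
    exact h.2.2

theorem XX8_F (P : Pt k K) (j : Fin 3) : XX8_a P j ∈ P.F := by
  fin_cases j
  · change (P.x 0 - 3) / P.x 1 ∈ P.F
    exact div_mem (x3F P) (xF P 1)
  · change P.x 1 ∈ P.F
    exact xF P 1
  · change (P.x 2)⁻¹ ∈ P.F
    exact inv_mem (xF P 2)

theorem XX8_cle (P : Pt k K) (B : Subalgebra O K) (ha : ∀ j, XX8_a P j ∈ B)
    (hφ : (1 : K)⁻¹ ∈ B) (hw : ∀ j, ww P ![false, false, true] j ∈ B) :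
    chartRing O (hXX P) (iXX ![false, false, true] 1 4 2) ≤ B := by
  rw [inv_one] at hφ
  have ha0 : (P.x 0 - 3) / P.x 1 ∈ B := ha 0
  have ha1 : P.x 1 ∈ B := ha 1
  have ha2 : (P.x 2)⁻¹ ∈ B := ha 2
  have h := XX8_le (x_ne P 0) (x_ne P 1) (x_ne P 2) (x3_ne P) (sub_add_cancel _ _).symm ha0 ha1 ha2 hφ
  have hxx : ∀ j, xx P ![false, false, true] j ∈ B := fun j => by
    rw [← XX8_hxi P O j]
    exact aeval_mem_of B _ _ ha j
  exact XX_le P ![false, false, true] 1 4 2 B hxx hw h.1 h.2.1 h.2.2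

theorem XX8_cge (P : Pt k K) :
    (∀ j, XX8_a P j ∈ chartRing O (hXX P) (iXX ![false, false, true] 1 4 2)) ∧
    (1 : K)⁻¹ ∈ chartRing O (hXX P) (iXX ![false, false, true] 1 4 2) ∧
    ∀ j, ww P ![false, false, true] j ∈ chartRing O (hXX P) (iXX ![false, false, true] 1 4 2) := by
  obtain ⟨hxx, hww, h3, h4, h5⟩ := XX_ge (O := O) P ![false, false, true] 1 4 2
  have hx0 : P.x 0 ∈ chartRing O (hXX P) (iXX ![false, false, true] 1 4 2) := hxx 0
  have hx1 : P.x 1 ∈ chartRing O (hXX P) (iXX ![false, false, true] 1 4 2) := hxx 1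
  have hx2 : (P.x 2)⁻¹ ∈ chartRing O (hXX P) (iXX ![false, false, true] 1 4 2) := hxx 2
  have h := XX8_ge (x_ne P 0) (x_ne P 1) (x_ne P 2) (x3_ne P) (sub_add_cancel _ _).symm hx0 hx1 hx2 h3 h4 h5
  refine ⟨?_, ?_, hww⟩
  · intro j
    fin_cases j
    · exact h.1
    · exact h.2.1
    · exact h.2.2.1
  · rw [inv_one]
    exact h.2.2.2

/-- Chart 8. -/
noncomputable def XX8 (P : Pt k K) (t s : O) (h2 : 2 * t = 1) (h41 : 41 * s = 1) :
    Chart O P (hXX P) (iXX ![false, false, true] 1 4 2) where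
  s := ![false, false, true]
  a := XX8_a P
  φ := 1
  ξ := T8 O
  d := T8_data t s h2 h41
  hξ := XX8_hxi P O
  hF := XX8_F P
  φmem := one_mem _
  φ0 := one_ne_zero
  le := XX8_cle P
  ge := XX8_cge P

/-- The coordinates of chart 9. -/
noncomputable def XX9_a (P : Pt k K) : Fin 3 → K :=
  ![(P.x 0)⁻¹, P.x 1, P.x 2 / P.x 1]

theorem XX9_hxi (P : Pt k K) (O : Type) [CommRing O] [Algebra O K] (j : Fin 3) :
    aeval (XX9_a P) (T9 O j) = xx P ![true, false, false] j := by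
  have h := XX9_xi (x_ne P 0) (x_ne P 1) (x_ne P 2) (x3_ne P) (sub_add_cancel _ _).symm
  fin_cases j
  · change aeval (XX9_a P) (X 0 : MvPolynomial (Fin 3) O) = (P.x 0)⁻¹
    simp only [map_mul, map_sub, map_add, map_one, map_ofNat, aeval_X]
    exact h.1
  · change aeval (XX9_a P) (X 1 : MvPolynomial (Fin 3) O) = P.x 1
    simp only [map_mul, map_sub, map_add, map_one, map_ofNat, aeval_X]
    exact h.2.1
  · change aeval (XX9_a P) (X 1 * X 2 : MvPolynomial (Fin 3) O) = P.x 2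
    simp only [map_mul, map_sub, map_add, map_one, map_ofNat, aeval_X]
    exact h.2.2

theorem XX9_F (P : Pt k K) (j : Fin 3) : XX9_a P j ∈ P.F := by
  fin_cases j
  · change (P.x 0)⁻¹ ∈ P.F
    exact inv_mem (xF P 0)
  · change P.x 1 ∈ P.F
    exact xF P 1
  · change P.x 2 / P.x 1 ∈ P.F
    exact div_mem (xF P 2) (xF P 1)

theorem XX9_cle (P : Pt k K) (B : Subalgebra O K) (ha : ∀ j, XX9_a P j ∈ B)
    (hφ : ((P.x 0 - 3) / P.x 0 : K)⁻¹ ∈ B) (hw : ∀ j, ww P ![true, false, false] j ∈ B) :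
    chartRing O (hXX P) (iXX ![true, false, false] 0 0 3) ≤ B := by
  rw [inv_div] at hφ
  have ha0 : (P.x 0)⁻¹ ∈ B := ha 0
  have ha1 : P.x 1 ∈ B := ha 1
  have ha2 : P.x 2 / P.x 1 ∈ B := ha 2
  have h := XX9_le (x_ne P 0) (x_ne P 1) (x_ne P 2) (x3_ne P) (sub_add_cancel _ _).symm ha0 ha1 ha2 hφ
  have hxx : ∀ j, xx P ![true, false, false] j ∈ B := fun j => by
    rw [← XX9_hxi P O j]
    exact aeval_mem_of B _ _ ha j
  exact XX_le P ![true, false, false] 0 0 3 B hxx hw h.1 h.2.1 h.2.2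

theorem XX9_cge (P : Pt k K) :
    (∀ j, XX9_a P j ∈ chartRing O (hXX P) (iXX ![true, false, false] 0 0 3)) ∧
    ((P.x 0 - 3) / P.x 0 : K)⁻¹ ∈ chartRing O (hXX P) (iXX ![true, false, false] 0 0 3) ∧
    ∀ j, ww P ![true, false, false] j ∈ chartRing O (hXX P) (iXX ![true, false, false] 0 0 3) := by
  obtain ⟨hxx, hww, h3, h4, h5⟩ := XX_ge (O := O) P ![true, false, false] 0 0 3
  have hx0 : (P.x 0)⁻¹ ∈ chartRing O (hXX P) (iXX ![true, false, false] 0 0 3) := hxx 0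
  have hx1 : P.x 1 ∈ chartRing O (hXX P) (iXX ![true, false, false] 0 0 3) := hxx 1
  have hx2 : P.x 2 ∈ chartRing O (hXX P) (iXX ![true, false, false] 0 0 3) := hxx 2
  have h := XX9_ge (x_ne P 0) (x_ne P 1) (x_ne P 2) (x3_ne P) (sub_add_cancel _ _).symm hx0 hx1 hx2 h3 h4 h5
  refine ⟨?_, ?_, hww⟩
  · intro j
    fin_cases j
    · exact h.1
    · exact h.2.1
    · exact h.2.2.1
  · rw [inv_div]
    exact h.2.2.2

/-- Chart 9. -/
noncomputable def XX9 (P : Pt k K) (t s : O) (h2 : 2 * t = 1) (h41 : 41 * s = 1) :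
    Chart O P (hXX P) (iXX ![true, false, false] 0 0 3) where
  s := ![true, false, false]
  a := XX9_a P
  φ := (P.x 0 - 3) / P.x 0
  ξ := T9 O
  d := T9_data t s h2 h41
  hξ := XX9_hxi P O
  hF := XX9_F P
  φmem := XX9_phi (x_ne P 0) (x_ne P 1) (x_ne P 2) (x3_ne P) (sub_add_cancel _ _).symm
    (Algebra.subset_adjoin ⟨0, rfl⟩) (Algebra.subset_adjoin ⟨1, rfl⟩) (Algebra.subset_adjoin ⟨2, rfl⟩)
  φ0 := div_ne_zero (x3_ne P) (x_ne P 0)
  le := XX9_cle P
  ge := XX9_cge P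

/-- The coordinates of chart 10. -/
noncomputable def XX10_a (P : Pt k K) : Fin 3 → K :=
  ![(P.x 0)⁻¹, P.x 2, P.x 0 * P.x 1 / ((P.x 0 - 3) * P.x 2)]

theorem XX10_hxi (P : Pt k K) (O : Type) [CommRing O] [Algebra O K] (j : Fin 3) :
    aeval (XX10_a P) (T10 O j) = xx P ![true, false, false] j := by
  have h := XX10_xi (x_ne P 0) (x_ne P 1) (x_ne P 2) (x3_ne P) (sub_add_cancel _ _).symm
  fin_cases j
  · change aeval (XX10_a P) (X 0 : MvPolynomial (Fin 3) O) = (P.x 0)⁻¹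
    simp only [map_mul, map_sub, map_add, map_one, map_ofNat, aeval_X]
    exact h.1
  · change aeval (XX10_a P) (X 1 * (1 - 3 * X 0) * X 2 : MvPolynomial (Fin 3) O) = P.x 1
    simp only [map_mul, map_sub, map_add, map_one, map_ofNat, aeval_X]
    exact h.2.1
  · change aeval (XX10_a P) (X 1 : MvPolynomial (Fin 3) O) = P.x 2
    simp only [map_mul, map_sub, map_add, map_one, map_ofNat, aeval_X]
    exact h.2.2

theorem XX10_F (P : Pt k K) (j : Fin 3) : XX10_a P j ∈ P.F := by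
  fin_cases j
  · change (P.x 0)⁻¹ ∈ P.F
    exact inv_mem (xF P 0)
  · change P.x 2 ∈ P.F
    exact xF P 2
  · change P.x 0 * P.x 1 / ((P.x 0 - 3) * P.x 2) ∈ P.F
    exact div_mem (mul_mem (xF P 0) (xF P 1)) (mul_mem (x3F P) (xF P 2))

theorem XX10_cle (P : Pt k K) (B : Subalgebra O K) (ha : ∀ j, XX10_a P j ∈ B)
    (hφ : (1 : K)⁻¹ ∈ B) (hw : ∀ j, ww P ![true, false, false] j ∈ B) :
    chartRing O (hXX P) (iXX ![true, false, false] 1 3 0) ≤ B := by
  rw [inv_one] at hφ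
  have ha0 : (P.x 0)⁻¹ ∈ B := ha 0
  have ha1 : P.x 2 ∈ B := ha 1
  have ha2 : P.x 0 * P.x 1 / ((P.x 0 - 3) * P.x 2) ∈ B := ha 2
  have h := XX10_le (x_ne P 0) (x_ne P 1) (x_ne P 2) (x3_ne P) (sub_add_cancel _ _).symm ha0 ha1 ha2 hφ
  have hxx : ∀ j, xx P ![true, false, false] j ∈ B := fun j => by
    rw [← XX10_hxi P O j]
    exact aeval_mem_of B _ _ ha j
  exact XX_le P ![true, false, false] 1 3 0 B hxx hw h.1 h.2.1 h.2.2

theorem XX10_cge (P : Pt k K) :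
    (∀ j, XX10_a P j ∈ chartRing O (hXX P) (iXX ![true, false, false] 1 3 0)) ∧
    (1 : K)⁻¹ ∈ chartRing O (hXX P) (iXX ![true, false, false] 1 3 0) ∧
    ∀ j, ww P ![true, false, false] j ∈ chartRing O (hXX P) (iXX ![true, false, false] 1 3 0) := by
  obtain ⟨hxx, hww, h3, h4, h5⟩ := XX_ge (O := O) P ![true, false, false] 1 3 0
  have hx0 : (P.x 0)⁻¹ ∈ chartRing O (hXX P) (iXX ![true, false, false] 1 3 0) := hxx 0
  have hx1 : P.x 1 ∈ chartRing O (hXX P) (iXX ![true, false, false] 1 3 0) := hxx 1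
  have hx2 : P.x 2 ∈ chartRing O (hXX P) (iXX ![true, false, false] 1 3 0) := hxx 2
  have h := XX10_ge (x_ne P 0) (x_ne P 1) (x_ne P 2) (x3_ne P) (sub_add_cancel _ _).symm hx0 hx1 hx2 h3 h4 h5
  refine ⟨?_, ?_, hww⟩
  · intro j
    fin_cases j
    · exact h.1
    · exact h.2.1
    · exact h.2.2.1
  · rw [inv_one]
    exact h.2.2.2

/-- Chart 10. -/
noncomputable def XX10 (P : Pt k K) (t s : O) (h2 : 2 * t = 1) (h41 : 41 * s = 1) :
    Chart O P (hXX P) (iXX ![true, false, false] 1 3 0) where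
  s := ![true, false, false]
  a := XX10_a P
  φ := 1
  ξ := T10 O
  d := T10_data t s h2 h41
  hξ := XX10_hxi P O
  hF := XX10_F P
  φmem := one_mem _
  φ0 := one_ne_zero
  le := XX10_cle P
  ge := XX10_cge P

/-- The coordinates of chart 11. -/
noncomputable def XX11_a (P : Pt k K) : Fin 3 → K :=
  ![(P.x 0)⁻¹, (P.x 1)⁻¹, P.x 2]

theorem XX11_hxi (P : Pt k K) (O : Type) [CommRing O] [Algebra O K] (j : Fin 3) :
    aeval (XX11_a P) (T11 O j) = xx P ![true, true, false] j := by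
  have h := XX11_xi (x_ne P 0) (x_ne P 1) (x_ne P 2) (x3_ne P) (sub_add_cancel _ _).symm
  fin_cases j
  · change aeval (XX11_a P) (X 0 : MvPolynomial (Fin 3) O) = (P.x 0)⁻¹
    simp only [map_mul, map_sub, map_add, map_one, map_ofNat, aeval_X]
    exact h.1
  · change aeval (XX11_a P) (X 1 : MvPolynomial (Fin 3) O) = (P.x 1)⁻¹
    simp only [map_mul, map_sub, map_add, map_one, map_ofNat, aeval_X]
    exact h.2.1
  · change aeval (XX11_a P) (X 2 : MvPolynomial (Fin 3) O) = P.x 2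
    simp only [map_mul, map_sub, map_add, map_one, map_ofNat, aeval_X]
    exact h.2.2

theorem XX11_F (P : Pt k K) (j : Fin 3) : XX11_a P j ∈ P.F := by
  fin_cases j
  · change (P.x 0)⁻¹ ∈ P.F
    exact inv_mem (xF P 0)
  · change (P.x 1)⁻¹ ∈ P.F
    exact inv_mem (xF P 1)
  · change P.x 2 ∈ P.F
    exact xF P 2

theorem XX11_cle (P : Pt k K) (B : Subalgebra O K) (ha : ∀ j, XX11_a P j ∈ B)
    (hφ : ((P.x 0 - 3) / P.x 0 : K)⁻¹ ∈ B) (hw : ∀ j, ww P ![true, true, false] j ∈ B) :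
    chartRing O (hXX P) (iXX ![true, true, false] 0 0 3) ≤ B := by
  rw [inv_div] at hφ
  have ha0 : (P.x 0)⁻¹ ∈ B := ha 0
  have ha1 : (P.x 1)⁻¹ ∈ B := ha 1
  have ha2 : P.x 2 ∈ B := ha 2
  have h := XX11_le (x_ne P 0) (x_ne P 1) (x_ne P 2) (x3_ne P) (sub_add_cancel _ _).symm ha0 ha1 ha2 hφ
  have hxx : ∀ j, xx P ![true, true, false] j ∈ B := fun j => by
    rw [← XX11_hxi P O j]
    exact aeval_mem_of B _ _ ha j
  exact XX_le P ![true, true, false] 0 0 3 B hxx hw h.1 h.2.1 h.2.2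

theorem XX11_cge (P : Pt k K) :
    (∀ j, XX11_a P j ∈ chartRing O (hXX P) (iXX ![true, true, false] 0 0 3)) ∧
    ((P.x 0 - 3) / P.x 0 : K)⁻¹ ∈ chartRing O (hXX P) (iXX ![true, true, false] 0 0 3) ∧
    ∀ j, ww P ![true, true, false] j ∈ chartRing O (hXX P) (iXX ![true, true, false] 0 0 3) := by
  obtain ⟨hxx, hww, h3, h4, h5⟩ := XX_ge (O := O) P ![true, true, false] 0 0 3
  have hx0 : (P.x 0)⁻¹ ∈ chartRing O (hXX P) (iXX ![true, true, false] 0 0 3) := hxx 0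
  have hx1 : (P.x 1)⁻¹ ∈ chartRing O (hXX P) (iXX ![true, true, false] 0 0 3) := hxx 1
  have hx2 : P.x 2 ∈ chartRing O (hXX P) (iXX ![true, true, false] 0 0 3) := hxx 2
  have h := XX11_ge (x_ne P 0) (x_ne P 1) (x_ne P 2) (x3_ne P) (sub_add_cancel _ _).symm hx0 hx1 hx2 h3 h4 h5
  refine ⟨?_, ?_, hww⟩
  · intro j
    fin_cases j
    · exact h.1
    · exact h.2.1
    · exact h.2.2.1
  · rw [inv_div]
    exact h.2.2.2

/-- Chart 11. -/
noncomputable def XX11 (P : Pt k K) (t s : O) (h2 : 2 * t = 1) (h41 : 41 * s = 1) :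
    Chart O P (hXX P) (iXX ![true, true, false] 0 0 3) where
  s := ![true, true, false]
  a := XX11_a P
  φ := (P.x 0 - 3) / P.x 0
  ξ := T11 O
  d := T11_data t s h2 h41
  hξ := XX11_hxi P O
  hF := XX11_F P
  φmem := XX11_phi (x_ne P 0) (x_ne P 1) (x_ne P 2) (x3_ne P) (sub_add_cancel _ _).symm
    (Algebra.subset_adjoin ⟨0, rfl⟩) (Algebra.subset_adjoin ⟨1, rfl⟩) (Algebra.subset_adjoin ⟨2, rfl⟩)
  φ0 := div_ne_zero (x3_ne P) (x_ne P 0)
  le := XX11_cle P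
  ge := XX11_cge P

/-- The coordinates of chart 12. -/
noncomputable def XX12_a (P : Pt k K) : Fin 3 → K :=
  ![(P.x 0)⁻¹, P.x 0 * P.x 1 / (P.x 0 - 3), (P.x 2)⁻¹]

theorem XX12_hxi (P : Pt k K) (O : Type) [CommRing O] [Algebra O K] (j : Fin 3) :
    aeval (XX12_a P) (T12 O j) = xx P ![true, false, true] j := by
  have h := XX12_xi (x_ne P 0) (x_ne P 1) (x_ne P 2) (x3_ne P) (sub_add_cancel _ _).symm
  fin_cases j
  · change aeval (XX12_a P) (X 0 : MvPolynomial (Fin 3) O) = (P.x 0)⁻¹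
    simp only [map_mul, map_sub, map_add, map_one, map_ofNat, aeval_X]
    exact h.1
  · change aeval (XX12_a P) ((1 - 3 * X 0) * X 1 : MvPolynomial (Fin 3) O) = P.x 1
    simp only [map_mul, map_sub, map_add, map_one, map_ofNat, aeval_X]
    exact h.2.1
  · change aeval (XX12_a P) (X 2 : MvPolynomial (Fin 3) O) = (P.x 2)⁻¹
    simp only [map_mul, map_sub, map_add, map_one, map_ofNat, aeval_X]
    exact h.2.2

theorem XX12_F (P : Pt k K) (j : Fin 3) : XX12_a P j ∈ P.F := by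
  fin_cases j
  · change (P.x 0)⁻¹ ∈ P.F
    exact inv_mem (xF P 0)
  · change P.x 0 * P.x 1 / (P.x 0 - 3) ∈ P.F
    exact div_mem (mul_mem (xF P 0) (xF P 1)) (x3F P)
  · change (P.x 2)⁻¹ ∈ P.F
    exact inv_mem (xF P 2)

theorem XX12_cle (P : Pt k K) (B : Subalgebra O K) (ha : ∀ j, XX12_a P j ∈ B)
    (hφ : (1 : K)⁻¹ ∈ B) (hw : ∀ j, ww P ![true, false, true] j ∈ B) :
    chartRing O (hXX P) (iXX ![true, false, true] 1 3 0) ≤ B := by
  rw [inv_one] at hφ
  have ha0 : (P.x 0)⁻¹ ∈ B := ha 0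
  have ha1 : P.x 0 * P.x 1 / (P.x 0 - 3) ∈ B := ha 1
  have ha2 : (P.x 2)⁻¹ ∈ B := ha 2
  have h := XX12_le (x_ne P 0) (x_ne P 1) (x_ne P 2) (x3_ne P) (sub_add_cancel _ _).symm ha0 ha1 ha2 hφ
  have hxx : ∀ j, xx P ![true, false, true] j ∈ B := fun j => by
    rw [← XX12_hxi P O j]
    exact aeval_mem_of B _ _ ha j
  exact XX_le P ![true, false, true] 1 3 0 B hxx hw h.1 h.2.1 h.2.2

theorem XX12_cge (P : Pt k K) :
    (∀ j, XX12_a P j ∈ chartRing O (hXX P) (iXX ![true, false, true] 1 3 0)) ∧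
    (1 : K)⁻¹ ∈ chartRing O (hXX P) (iXX ![true, false, true] 1 3 0) ∧
    ∀ j, ww P ![true, false, true] j ∈ chartRing O (hXX P) (iXX ![true, false, true] 1 3 0) := by
  obtain ⟨hxx, hww, h3, h4, h5⟩ := XX_ge (O := O) P ![true, false, true] 1 3 0
  have hx0 : (P.x 0)⁻¹ ∈ chartRing O (hXX P) (iXX ![true, false, true] 1 3 0) := hxx 0
  have hx1 : P.x 1 ∈ chartRing O (hXX P) (iXX ![true, false, true] 1 3 0) := hxx 1
  have hx2 : (P.x 2)⁻¹ ∈ chartRing O (hXX P) (iXX ![true, false, true] 1 3 0) := hxx 2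
  have h := XX12_ge (x_ne P 0) (x_ne P 1) (x_ne P 2) (x3_ne P) (sub_add_cancel _ _).symm hx0 hx1 hx2 h3 h4 h5
  refine ⟨?_, ?_, hww⟩
  · intro j
    fin_cases j
    · exact h.1
    · exact h.2.1
    · exact h.2.2.1
  · rw [inv_one]
    exact h.2.2.2

/-- Chart 12. -/
noncomputable def XX12 (P : Pt k K) (t s : O) (h2 : 2 * t = 1) (h41 : 41 * s = 1) :
    Chart O P (hXX P) (iXX ![true, false, true] 1 3 0) where
  s := ![true, false, true]
  a := XX12_a P
  φ := 1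
  ξ := T12 O
  d := T12_data t s h2 h41
  hξ := XX12_hxi P O
  hF := XX12_F P
  φmem := one_mem _
  φ0 := one_ne_zero
  le := XX12_cle P
  ge := XX12_cge P

/-- The coordinates of chart 13. -/
noncomputable def XX13_a (P : Pt k K) : Fin 3 → K :=
  ![P.x 0, (P.x 1)⁻¹, (P.x 2)⁻¹]

theorem XX13_hxi (P : Pt k K) (O : Type) [CommRing O] [Algebra O K] (j : Fin 3) :
    aeval (XX13_a P) (T11 O j) = xx P ![false, true, true] j := by
  have h := XX13_xi (x_ne P 0) (x_ne P 1) (x_ne P 2) (x3_ne P) (sub_add_cancel _ _).symm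
  fin_cases j
  · change aeval (XX13_a P) (X 0 : MvPolynomial (Fin 3) O) = P.x 0
    simp only [map_mul, map_sub, map_add, map_one, map_ofNat, aeval_X]
    exact h.1
  · change aeval (XX13_a P) (X 1 : MvPolynomial (Fin 3) O) = (P.x 1)⁻¹
    simp only [map_mul, map_sub, map_add, map_one, map_ofNat, aeval_X]
    exact h.2.1
  · change aeval (XX13_a P) (X 2 : MvPolynomial (Fin 3) O) = (P.x 2)⁻¹
    simp only [map_mul, map_sub, map_add, map_one, map_ofNat, aeval_X]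
    exact h.2.2

theorem XX13_F (P : Pt k K) (j : Fin 3) : XX13_a P j ∈ P.F := by
  fin_cases j
  · change P.x 0 ∈ P.F
    exact xF P 0
  · change (P.x 1)⁻¹ ∈ P.F
    exact inv_mem (xF P 1)
  · change (P.x 2)⁻¹ ∈ P.F
    exact inv_mem (xF P 2)

theorem XX13_cle (P : Pt k K) (B : Subalgebra O K) (ha : ∀ j, XX13_a P j ∈ B)
    (hφ : (1 : K)⁻¹ ∈ B) (hw : ∀ j, ww P ![false, true, true] j ∈ B) :
    chartRing O (hXX P) (iXX ![false, true, true] 2 2 2) ≤ B := by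
  rw [inv_one] at hφ
  have ha0 : P.x 0 ∈ B := ha 0
  have ha1 : (P.x 1)⁻¹ ∈ B := ha 1
  have ha2 : (P.x 2)⁻¹ ∈ B := ha 2
  have h := XX13_le (x_ne P 0) (x_ne P 1) (x_ne P 2) (x3_ne P) (sub_add_cancel _ _).symm ha0 ha1 ha2 hφ
  have hxx : ∀ j, xx P ![false, true, true] j ∈ B := fun j => by
    rw [← XX13_hxi P O j]
    exact aeval_mem_of B _ _ ha j
  exact XX_le P ![false, true, true] 2 2 2 B hxx hw h.1 h.2.1 h.2.2

theorem XX13_cge (P : Pt k K) :
    (∀ j, XX13_a P j ∈ chartRing O (hXX P) (iXX ![false, true, true] 2 2 2)) ∧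
    (1 : K)⁻¹ ∈ chartRing O (hXX P) (iXX ![false, true, true] 2 2 2) ∧
    ∀ j, ww P ![false, true, true] j ∈ chartRing O (hXX P) (iXX ![false, true, true] 2 2 2) := by
  obtain ⟨hxx, hww, h3, h4, h5⟩ := XX_ge (O := O) P ![false, true, true] 2 2 2
  have hx0 : P.x 0 ∈ chartRing O (hXX P) (iXX ![false, true, true] 2 2 2) := hxx 0
  have hx1 : (P.x 1)⁻¹ ∈ chartRing O (hXX P) (iXX ![false, true, true] 2 2 2) := hxx 1
  have hx2 : (P.x 2)⁻¹ ∈ chartRing O (hXX P) (iXX ![false, true, true] 2 2 2) := hxx 2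
  have h := XX13_ge (x_ne P 0) (x_ne P 1) (x_ne P 2) (x3_ne P) (sub_add_cancel _ _).symm hx0 hx1 hx2 h3 h4 h5
  refine ⟨?_, ?_, hww⟩
  · intro j
    fin_cases j
    · exact h.1
    · exact h.2.1
    · exact h.2.2.1
  · rw [inv_one]
    exact h.2.2.2

/-- Chart 13. -/
noncomputable def XX13 (P : Pt k K) (t s : O) (h2 : 2 * t = 1) (h41 : 41 * s = 1) :
    Chart O P (hXX P) (iXX ![false, true, true] 2 2 2) where
  s := ![false, true, true]
  a := XX13_a P
  φ := 1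
  ξ := T11 O
  d := T11_data t s h2 h41
  hξ := XX13_hxi P O
  hF := XX13_F P
  φmem := one_mem _
  φ0 := one_ne_zero
  le := XX13_cle P
  ge := XX13_cge P

/-- The coordinates of chart 14. -/
noncomputable def XX14_a (P : Pt k K) : Fin 3 → K :=
  ![(P.x 0)⁻¹, (P.x 1)⁻¹, (P.x 2)⁻¹]

theorem XX14_hxi (P : Pt k K) (O : Type) [CommRing O] [Algebra O K] (j : Fin 3) :
    aeval (XX14_a P) (T11 O j) = xx P ![true, true, true] j := by
  have h := XX14_xi (x_ne P 0) (x_ne P 1) (x_ne P 2) (x3_ne P) (sub_add_cancel _ _).symm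
  fin_cases j
  · change aeval (XX14_a P) (X 0 : MvPolynomial (Fin 3) O) = (P.x 0)⁻¹
    simp only [map_mul, map_sub, map_add, map_one, map_ofNat, aeval_X]
    exact h.1
  · change aeval (XX14_a P) (X 1 : MvPolynomial (Fin 3) O) = (P.x 1)⁻¹
    simp only [map_mul, map_sub, map_add, map_one, map_ofNat, aeval_X]
    exact h.2.1
  · change aeval (XX14_a P) (X 2 : MvPolynomial (Fin 3) O) = (P.x 2)⁻¹
    simp only [map_mul, map_sub, map_add, map_one, map_ofNat, aeval_X]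
    exact h.2.2

theorem XX14_F (P : Pt k K) (j : Fin 3) : XX14_a P j ∈ P.F := by
  fin_cases j
  · change (P.x 0)⁻¹ ∈ P.F
    exact inv_mem (xF P 0)
  · change (P.x 1)⁻¹ ∈ P.F
    exact inv_mem (xF P 1)
  · change (P.x 2)⁻¹ ∈ P.F
    exact inv_mem (xF P 2)

theorem XX14_cle (P : Pt k K) (B : Subalgebra O K) (ha : ∀ j, XX14_a P j ∈ B)
    (hφ : ((P.x 0 - 3) / P.x 0 : K)⁻¹ ∈ B) (hw : ∀ j, ww P ![true, true, true] j ∈ B) :
    chartRing O (hXX P) (iXX ![true, true, true] 2 1 1) ≤ B := by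
  rw [inv_div] at hφ
  have ha0 : (P.x 0)⁻¹ ∈ B := ha 0
  have ha1 : (P.x 1)⁻¹ ∈ B := ha 1
  have ha2 : (P.x 2)⁻¹ ∈ B := ha 2
  have h := XX14_le (x_ne P 0) (x_ne P 1) (x_ne P 2) (x3_ne P) (sub_add_cancel _ _).symm ha0 ha1 ha2 hφ
  have hxx : ∀ j, xx P ![true, true, true] j ∈ B := fun j => by
    rw [← XX14_hxi P O j]
    exact aeval_mem_of B _ _ ha j
  exact XX_le P ![true, true, true] 2 1 1 B hxx hw h.1 h.2.1 h.2.2

theorem XX14_cge (P : Pt k K) :
    (∀ j, XX14_a P j ∈ chartRing O (hXX P) (iXX ![true, true, true] 2 1 1)) ∧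
    ((P.x 0 - 3) / P.x 0 : K)⁻¹ ∈ chartRing O (hXX P) (iXX ![true, true, true] 2 1 1) ∧
    ∀ j, ww P ![true, true, true] j ∈ chartRing O (hXX P) (iXX ![true, true, true] 2 1 1) := by
  obtain ⟨hxx, hww, h3, h4, h5⟩ := XX_ge (O := O) P ![true, true, true] 2 1 1
  have hx0 : (P.x 0)⁻¹ ∈ chartRing O (hXX P) (iXX ![true, true, true] 2 1 1) := hxx 0
  have hx1 : (P.x 1)⁻¹ ∈ chartRing O (hXX P) (iXX ![true, true, true] 2 1 1) := hxx 1
  have hx2 : (P.x 2)⁻¹ ∈ chartRing O (hXX P) (iXX ![true, true, true] 2 1 1) := hxx 2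
  have h := XX14_ge (x_ne P 0) (x_ne P 1) (x_ne P 2) (x3_ne P) (sub_add_cancel _ _).symm hx0 hx1 hx2 h3 h4 h5
  refine ⟨?_, ?_, hww⟩
  · intro j
    fin_cases j
    · exact h.1
    · exact h.2.1
    · exact h.2.2.1
  · rw [inv_div]
    exact h.2.2.2

/-- Chart 14. -/
noncomputable def XX14 (P : Pt k K) (t s : O) (h2 : 2 * t = 1) (h41 : 41 * s = 1) :
    Chart O P (hXX P) (iXX ![true, true, true] 2 1 1) where
  s := ![true, true, true]
  a := XX14_a P
  φ := (P.x 0 - 3) / P.x 0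
  ξ := T11 O
  d := T11_data t s h2 h41
  hξ := XX14_hxi P O
  hF := XX14_F P
  φmem := XX14_phi (x_ne P 0) (x_ne P 1) (x_ne P 2) (x3_ne P) (sub_add_cancel _ _).symm
    (Algebra.subset_adjoin ⟨0, rfl⟩) (Algebra.subset_adjoin ⟨1, rfl⟩) (Algebra.subset_adjoin ⟨2, rfl⟩)
  φ0 := div_ne_zero (x3_ne P) (x_ne P 0)
  le := XX14_cle P
  ge := XX14_cge P

end Pool.Agent.Lib.MP_55c1e7_ag.CH
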