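import Mathlib
import Pool.Agent.Lib.MP_55c1e7_ag.CH.Ra

set_option linter.unusedVariables false
set_option linter.unusedTactic false
set_option linter.unreachableTactic false
set_option linter.unusedSimpArgs false
set_option linter.unnecessarySeqFocus false

namespace Pool.Agent.Lib.MP_55c1e7_ag.CH

open Pool.Agent.Lib.MP_55c1e7_ag.CK

variable {O : Type} [CommRing O] {K : Type} [Field K] [Algebra O K]

theorem X1_le {B : Subalgebra O K} {x y z X : K} (hx : x ≠ 0) (hy : y ≠ 0) (hz : z ≠ 0)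
    (hX : X ≠ 0) (hXe : x = X + 3) (ha : x ∈ B) (hb : y ∈ B) (hc : z / (x * y) ∈ B)
    (hQ : 1 ∈ B) :
    (∀ j, lyz y z j / lyz y z 0 ∈ B) ∧
    (∀ j, lxyz x y z j / lxyz x y z 0 ∈ B) ∧
    (∀ j, m4 X x y z j / m4 X x y z 2 ∈ B) := by
  have hP : X ∈ B :=
    mem_eq (by first | (rw [hXe]; ring1) | (field_simp <;> rw [hXe] <;> ring1)) (sub_mem ha (three_mem B))
  refine ⟨?_, ?_, ?_⟩
  · intro j
    fin_cases j
    · exact div_self_mem B _
    · change z / y ∈ B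
      exact mem_eq (by field_simp) (mul_mem ha hc)
    · change y * z / y ∈ B
      exact mem_eq (by field_simp) (mul_mem (mul_mem ha hb) hc)
  · intro j
    fin_cases j
    · exact div_self_mem B _
    · change x * y * z / (x * y) ∈ B
      exact mem_eq (by field_simp) (mul_mem (mul_mem ha hb) hc)
    · change y * z / (x * y) ∈ B
      exact mem_eq (by field_simp) (mul_mem hb hc)
    · change x * z / (x * y) ∈ B
      exact mem_eq (by field_simp) (mul_mem ha hc)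
    · change z / (x * y) ∈ B
      exact mem_eq (by field_simp) (hc)
  · intro j
    fin_cases j
    · change X * z / (x * y) ∈ B
      exact mem_eq (by field_simp) (mul_mem hc hP)
    · change X * y * z / (x * y) ∈ B
      exact mem_eq (by field_simp) (mul_mem (mul_mem hb hc) hP)
    · exact div_self_mem B _
    · change x * y * z / (x * y) ∈ B
      exact mem_eq (by field_simp) (mul_mem (mul_mem ha hb) hc)

theorem X1_ge {B : Subalgebra O K} {x y z X : K} (hx : x ≠ 0) (hy : y ≠ 0) (hz : z ≠ 0)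
    (hX : X ≠ 0) (hXe : x = X + 3) (h30 : (3 : K) ≠ 0) (ht : (3 : K)⁻¹ ∈ B)
    (ex : x ∈ B) (ey : y ∈ B) (ez : z ∈ B)
    (h3 : ∀ j, lyz y z j / lyz y z 0 ∈ B)
    (h4 : ∀ j, lxyz x y z j / lxyz x y z 0 ∈ B)
    (h5 : ∀ j, m4 X x y z j / m4 X x y z 2 ∈ B)
    : x ∈ B ∧ y ∈ B ∧ z / (x * y) ∈ B ∧ 1 ∈ B := by
  have h3_1 : z / y ∈ B := h3 1
  have h3_2 : y * z / y ∈ B := h3 2
  have h4_1 : x * y * z / (x * y) ∈ B := h4 1
  have h4_2 : y * z / (x * y) ∈ B := h4 2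
  have h4_3 : x * z / (x * y) ∈ B := h4 3
  have h4_4 : z / (x * y) ∈ B := h4 4
  have h5_0 : X * z / (x * y) ∈ B := h5 0
  have h5_1 : X * y * z / (x * y) ∈ B := h5 1
  have h5_3 : x * y * z / (x * y) ∈ B := h5 3
  refine ⟨?_, ?_, ?_, ?_⟩
  · exact ex
  · exact ey
  · exact mem_eq (by field_simp) (h4_4)
  · exact one_mem B

theorem X1_xi {x y z X : K} (hx : x ≠ 0) (hy : y ≠ 0) (hz : z ≠ 0)
    (hX : X ≠ 0) (hXe : x = X + 3) :
    (x = x) ∧ (y = y) ∧ (x * y * (z / (x * y)) = z) := by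
  refine ⟨?_, ?_, ?_⟩
  · first | rfl | (rw [hXe]; ring1) | (field_simp; done) | (field_simp <;> rw [hXe] <;> ring1)
  · first | rfl | (rw [hXe]; ring1) | (field_simp; done) | (field_simp <;> rw [hXe] <;> ring1)
  · first | rfl | (rw [hXe]; ring1) | (field_simp; done) | (field_simp <;> rw [hXe] <;> ring1)

theorem X2_le {B : Subalgebra O K} {x y z X : K} (hx : x ≠ 0) (hy : y ≠ 0) (hz : z ≠ 0)
    (hX : X ≠ 0) (hXe : x = X + 3) (ha : z / y ∈ B) (hb : y ∈ B) (hc : x * y / z ∈ B)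
    (hQ : X⁻¹ ∈ B) :
    (∀ j, lyz y z j / lyz y z 0 ∈ B) ∧
    (∀ j, lxyz x y z j / lxyz x y z 4 ∈ B) ∧
    (∀ j, m4 X x y z j / m4 X x y z 0 ∈ B) := by
  have hP : X ∈ B :=
    mem_eq (by first | (rw [hXe]; ring1) | (field_simp <;> rw [hXe] <;> ring1)) (sub_mem (mul_mem ha hc) (three_mem B))
  refine ⟨?_, ?_, ?_⟩
  · intro j
    fin_cases j
    · exact div_self_mem B _
    · change z / y ∈ B
      exact mem_eq (by field_simp) (ha)
    · change y * z / y ∈ B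
      exact mem_eq (by field_simp) (mul_mem ha hb)
  · intro j
    fin_cases j
    · change x * y / z ∈ B
      exact mem_eq (by field_simp) (hc)
    · change x * y * z / z ∈ B
      exact mem_eq (by field_simp) (mul_mem (mul_mem ha hb) hc)
    · change y * z / z ∈ B
      exact mem_eq (by field_simp) (hb)
    · change x * z / z ∈ B
      exact mem_eq (by field_simp) (mul_mem ha hc)
    · exact div_self_mem B _
  · intro j
    fin_cases j
    · exact div_self_mem B _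
    · change X * y * z / (X * z) ∈ B
      exact mem_eq (by field_simp) (hb)
    · change x * y / (X * z) ∈ B
      exact mem_eq (by field_simp) (mul_mem hc hQ)
    · change x * y * z / (X * z) ∈ B
      exact mem_eq (by field_simp) (mul_mem (mul_mem (mul_mem ha hb) hc) hQ)

theorem X2_ge {B : Subalgebra O K} {x y z X : K} (hx : x ≠ 0) (hy : y ≠ 0) (hz : z ≠ 0)
    (hX : X ≠ 0) (hXe : x = X + 3) (h30 : (3 : K) ≠ 0) (ht : (3 : K)⁻¹ ∈ B)
    (ex : x ∈ B) (ey : y ∈ B) (ez : z ∈ B)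
    (h3 : ∀ j, lyz y z j / lyz y z 0 ∈ B)
    (h4 : ∀ j, lxyz x y z j / lxyz x y z 4 ∈ B)
    (h5 : ∀ j, m4 X x y z j / m4 X x y z 0 ∈ B)
    : z / y ∈ B ∧ y ∈ B ∧ x * y / z ∈ B ∧ X⁻¹ ∈ B := by
  have h3_1 : z / y ∈ B := h3 1
  have h3_2 : y * z / y ∈ B := h3 2
  have h4_0 : x * y / z ∈ B := h4 0
  have h4_1 : x * y * z / z ∈ B := h4 1
  have h4_2 : y * z / z ∈ B := h4 2
  have h4_3 : x * z / z ∈ B := h4 3
  have h5_1 : X * y * z / (X * z) ∈ B := h5 1
  have h5_2 : x * y / (X * z) ∈ B := h5 2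
  have h5_3 : x * y * z / (X * z) ∈ B := h5 3
  refine ⟨?_, ?_, ?_, ?_⟩
  · exact mem_eq (by field_simp) (h3_1)
  · exact ey
  · exact mem_eq (by field_simp) (h4_0)
  · have e : X⁻¹ = (3 : K)⁻¹ * (x * y / (X * z) * (z / y) - 1) := by
      field_simp <;> rw [hXe] <;> ring1
    exact mem_eq e (mul_mem ht (sub_mem (mul_mem h5_2 h3_1) (one_mem _)))

theorem X2_xi {x y z X : K} (hx : x ≠ 0) (hy : y ≠ 0) (hz : z ≠ 0)
    (hX : X ≠ 0) (hXe : x = X + 3) :
    ((z / y) * (x * y / z) = x) ∧ (y = y) ∧ ((z / y) * y = z) := by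
  refine ⟨?_, ?_, ?_⟩
  · first | rfl | (rw [hXe]; ring1) | (field_simp; done) | (field_simp <;> rw [hXe] <;> ring1)
  · first | rfl | (rw [hXe]; ring1) | (field_simp; done) | (field_simp <;> rw [hXe] <;> ring1)
  · first | rfl | (rw [hXe]; ring1) | (field_simp; done) | (field_simp <;> rw [hXe] <;> ring1)

theorem X2_phi {B : Subalgebra O K} {x y z X : K} (hx : x ≠ 0) (hy : y ≠ 0) (hz : z ≠ 0)
    (hX : X ≠ 0) (hXe : x = X + 3) (ha : z / y ∈ B) (hb : y ∈ B) (hc : x * y / z ∈ B) :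
    X ∈ B := by
  exact mem_eq (by first | (rw [hXe]; ring1) | (field_simp <;> rw [hXe] <;> ring1)) (sub_mem (mul_mem ha hc) (three_mem B))

theorem X3_le {B : Subalgebra O K} {x y z X : K} (hx : x ≠ 0) (hy : y ≠ 0) (hz : z ≠ 0)
    (hX : X ≠ 0) (hXe : x = X + 3) (ha : x ∈ B) (hb : z ∈ B) (hc : y / (X * z) ∈ B)
    (hQ : 1 ∈ B) :
    (∀ j, lyz y z j / lyz y z 1 ∈ B) ∧
    (∀ j, lxyz x y z j / lxyz x y z 4 ∈ B) ∧
    (∀ j, m4 X x y z j / m4 X x y z 0 ∈ B) := by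
  have hP : X ∈ B :=
    mem_eq (by first | (rw [hXe]; ring1) | (field_simp <;> rw [hXe] <;> ring1)) (sub_mem ha (three_mem B))
  refine ⟨?_, ?_, ?_⟩
  · intro j
    fin_cases j
    · change y / z ∈ B
      exact mem_eq (by field_simp) (mul_mem hc hP)
    · exact div_self_mem B _
    · change y * z / z ∈ B
      exact mem_eq (by field_simp) (mul_mem (mul_mem hb hc) hP)
  · intro j
    fin_cases j
    · change x * y / z ∈ B
      exact mem_eq (by field_simp) (mul_mem (mul_mem ha hc) hP)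
    · change x * y * z / z ∈ B
      exact mem_eq (by field_simp) (mul_mem (mul_mem (mul_mem ha hb) hc) hP)
    · change y * z / z ∈ B
      exact mem_eq (by field_simp) (mul_mem (mul_mem hb hc) hP)
    · change x * z / z ∈ B
      exact mem_eq (by field_simp) (ha)
    · exact div_self_mem B _
  · intro j
    fin_cases j
    · exact div_self_mem B _
    · change X * y * z / (X * z) ∈ B
      exact mem_eq (by field_simp) (mul_mem (mul_mem hb hc) hP)
    · change x * y / (X * z) ∈ B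
      exact mem_eq (by field_simp) (mul_mem ha hc)
    · change x * y * z / (X * z) ∈ B
      exact mem_eq (by field_simp) (mul_mem (mul_mem ha hb) hc)

theorem X3_ge {B : Subalgebra O K} {x y z X : K} (hx : x ≠ 0) (hy : y ≠ 0) (hz : z ≠ 0)
    (hX : X ≠ 0) (hXe : x = X + 3) (h30 : (3 : K) ≠ 0) (ht : (3 : K)⁻¹ ∈ B)
    (ex : x ∈ B) (ey : y ∈ B) (ez : z ∈ B)
    (h3 : ∀ j, lyz y z j / lyz y z 1 ∈ B)
    (h4 : ∀ j, lxyz x y z j / lxyz x y z 4 ∈ B)
    (h5 : ∀ j, m4 X x y z j / m4 X x y z 0 ∈ B)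
    : x ∈ B ∧ z ∈ B ∧ y / (X * z) ∈ B ∧ 1 ∈ B := by
  have h3_0 : y / z ∈ B := h3 0
  have h3_2 : y * z / z ∈ B := h3 2
  have h4_0 : x * y / z ∈ B := h4 0
  have h4_1 : x * y * z / z ∈ B := h4 1
  have h4_2 : y * z / z ∈ B := h4 2
  have h4_3 : x * z / z ∈ B := h4 3
  have h5_1 : X * y * z / (X * z) ∈ B := h5 1
  have h5_2 : x * y / (X * z) ∈ B := h5 2
  have h5_3 : x * y * z / (X * z) ∈ B := h5 3
  refine ⟨?_, ?_, ?_, ?_⟩
  · exact ex
  · exact ez
  · have e : y / (X * z) = (3 : K)⁻¹ * (x * y / (X * z) - y / z) := by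
      field_simp <;> rw [hXe] <;> ring1
    exact mem_eq e (mul_mem ht (sub_mem h5_2 h3_0))
  · exact one_mem B

theorem X3_xi {x y z X : K} (hx : x ≠ 0) (hy : y ≠ 0) (hz : z ≠ 0)
    (hX : X ≠ 0) (hXe : x = X + 3) :
    (x = x) ∧ (z * (x - 3) * (y / (X * z)) = y) ∧ (z = z) := by
  refine ⟨?_, ?_, ?_⟩
  · first | rfl | (rw [hXe]; ring1) | (field_simp; done) | (field_simp <;> rw [hXe] <;> ring1)
  · first | rfl | (rw [hXe]; ring1) | (field_simp; done) | (field_simp <;> rw [hXe] <;> ring1)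
  · first | rfl | (rw [hXe]; ring1) | (field_simp; done) | (field_simp <;> rw [hXe] <;> ring1)

theorem X4_le {B : Subalgebra O K} {x y z X : K} (hx : x ≠ 0) (hy : y ≠ 0) (hz : z ≠ 0)
    (hX : X ≠ 0) (hXe : x = X + 3) (ha : y / z ∈ B) (hb : z ∈ B) (hc : X * z / y ∈ B)
    (hQ : x⁻¹ ∈ B) :
    (∀ j, lyz y z j / lyz y z 1 ∈ B) ∧
    (∀ j, lxyz x y z j / lxyz x y z 4 ∈ B) ∧
    (∀ j, m4 X x y z j / m4 X x y z 2 ∈ B) := by
  have hP : x ∈ B :=
    mem_eq (by first | (rw [hXe]; ring1) | (field_simp <;> rw [hXe] <;> ring1)) (add_mem (mul_mem ha hc) (three_mem B))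
  refine ⟨?_, ?_, ?_⟩
  · intro j
    fin_cases j
    · change y / z ∈ B
      exact mem_eq (by field_simp) (ha)
    · exact div_self_mem B _
    · change y * z / z ∈ B
      exact mem_eq (by field_simp) (mul_mem ha hb)
  · intro j
    fin_cases j
    · change x * y / z ∈ B
      exact mem_eq (by field_simp) (mul_mem ha hP)
    · change x * y * z / z ∈ B
      exact mem_eq (by field_simp) (mul_mem (mul_mem ha hb) hP)
    · change y * z / z ∈ B
      exact mem_eq (by field_simp) (mul_mem ha hb)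
    · change x * z / z ∈ B
      exact mem_eq (by field_simp) (hP)
    · exact div_self_mem B _
  · intro j
    fin_cases j
    · change X * z / (x * y) ∈ B
      exact mem_eq (by field_simp) (mul_mem hc hQ)
    · change X * y * z / (x * y) ∈ B
      exact mem_eq (by field_simp) (mul_mem (mul_mem (mul_mem ha hb) hc) hQ)
    · exact div_self_mem B _
    · change x * y * z / (x * y) ∈ B
      exact mem_eq (by field_simp) (hb)

theorem X4_ge {B : Subalgebra O K} {x y z X : K} (hx : x ≠ 0) (hy : y ≠ 0) (hz : z ≠ 0)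
    (hX : X ≠ 0) (hXe : x = X + 3) (h30 : (3 : K) ≠ 0) (ht : (3 : K)⁻¹ ∈ B)
    (ex : x ∈ B) (ey : y ∈ B) (ez : z ∈ B)
    (h3 : ∀ j, lyz y z j / lyz y z 1 ∈ B)
    (h4 : ∀ j, lxyz x y z j / lxyz x y z 4 ∈ B)
    (h5 : ∀ j, m4 X x y z j / m4 X x y z 2 ∈ B)
    : y / z ∈ B ∧ z ∈ B ∧ X * z / y ∈ B ∧ x⁻¹ ∈ B := by
  have h3_0 : y / z ∈ B := h3 0
  have h3_2 : y * z / z ∈ B := h3 2
  have h4_0 : x * y / z ∈ B := h4 0
  have h4_1 : x * y * z / z ∈ B := h4 1
  have h4_2 : y * z / z ∈ B := h4 2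
  have h4_3 : x * z / z ∈ B := h4 3
  have h5_0 : X * z / (x * y) ∈ B := h5 0
  have h5_1 : X * y * z / (x * y) ∈ B := h5 1
  have h5_3 : x * y * z / (x * y) ∈ B := h5 3
  refine ⟨?_, ?_, ?_, ?_⟩
  · exact mem_eq (by field_simp) (h3_0)
  · exact ez
  · have e : X * z / y = x * (X * z / (x * y)) := by
      field_simp <;> rw [hXe] <;> ring1
    exact mem_eq e (mul_mem ex h5_0)
  · have e : x⁻¹ = (3 : K)⁻¹ * (1 - X * z / (x * y) * (y / z)) := by
      field_simp <;> rw [hXe] <;> ring1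
    exact mem_eq e (mul_mem ht (sub_mem (one_mem _) (mul_mem h5_0 h3_0)))

theorem X4_xi {x y z X : K} (hx : x ≠ 0) (hy : y ≠ 0) (hz : z ≠ 0)
    (hX : X ≠ 0) (hXe : x = X + 3) :
    (3 + (y / z) * (X * z / y) = x) ∧ ((y / z) * z = y) ∧ (z = z) := by
  refine ⟨?_, ?_, ?_⟩
  · first | rfl | (rw [hXe]; ring1) | (field_simp; done) | (field_simp <;> rw [hXe] <;> ring1)
  · first | rfl | (rw [hXe]; ring1) | (field_simp; done) | (field_simp <;> rw [hXe] <;> ring1)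
  · first | rfl | (rw [hXe]; ring1) | (field_simp; done) | (field_simp <;> rw [hXe] <;> ring1)

theorem X4_phi {B : Subalgebra O K} {x y z X : K} (hx : x ≠ 0) (hy : y ≠ 0) (hz : z ≠ 0)
    (hX : X ≠ 0) (hXe : x = X + 3) (ha : y / z ∈ B) (hb : z ∈ B) (hc : X * z / y ∈ B) :
    x ∈ B := by
  exact mem_eq (by first | (rw [hXe]; ring1) | (field_simp <;> rw [hXe] <;> ring1)) (add_mem (mul_mem ha hc) (three_mem B))

theorem X5_le {B : Subalgebra O K} {x y z X : K} (hx : x ≠ 0) (hy : y ≠ 0) (hz : z ≠ 0)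
    (hX : X ≠ 0) (hXe : x = X + 3) (ha : x ∈ B) (hb : y⁻¹ ∈ B) (hc : z / x ∈ B)
    (hQ : 1 ∈ B) :
    (∀ j, lyz y z j / lyz y z 0 ∈ B) ∧
    (∀ j, lxyz x y z j / lxyz x y z 0 ∈ B) ∧
    (∀ j, m4 X x y z j / m4 X x y z 2 ∈ B) := by
  have hP : X ∈ B :=
    mem_eq (by first | (rw [hXe]; ring1) | (field_simp <;> rw [hXe] <;> ring1)) (sub_mem ha (three_mem B))
  refine ⟨?_, ?_, ?_⟩
  · intro j
    fin_cases j
    · exact div_self_mem B _
    · change z / y ∈ B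
      exact mem_eq (by field_simp) (mul_mem (mul_mem ha hb) hc)
    · change y * z / y ∈ B
      exact mem_eq (by field_simp) (mul_mem ha hc)
  · intro j
    fin_cases j
    · exact div_self_mem B _
    · change x * y * z / (x * y) ∈ B
      exact mem_eq (by field_simp) (mul_mem ha hc)
    · change y * z / (x * y) ∈ B
      exact mem_eq (by field_simp) (hc)
    · change x * z / (x * y) ∈ B
      exact mem_eq (by field_simp) (mul_mem (mul_mem ha hb) hc)
    · change z / (x * y) ∈ B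
      exact mem_eq (by field_simp) (mul_mem hb hc)
  · intro j
    fin_cases j
    · change X * z / (x * y) ∈ B
      exact mem_eq (by field_simp) (mul_mem (mul_mem hb hc) hP)
    · change X * y * z / (x * y) ∈ B
      exact mem_eq (by field_simp) (mul_mem hc hP)
    · exact div_self_mem B _
    · change x * y * z / (x * y) ∈ B
      exact mem_eq (by field_simp) (mul_mem ha hc)

theorem X5_ge {B : Subalgebra O K} {x y z X : K} (hx : x ≠ 0) (hy : y ≠ 0) (hz : z ≠ 0)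
    (hX : X ≠ 0) (hXe : x = X + 3) (h30 : (3 : K) ≠ 0) (ht : (3 : K)⁻¹ ∈ B)
    (ex : x ∈ B) (ey : y⁻¹ ∈ B) (ez : z ∈ B)
    (h3 : ∀ j, lyz y z j / lyz y z 0 ∈ B)
    (h4 : ∀ j, lxyz x y z j / lxyz x y z 0 ∈ B)
    (h5 : ∀ j, m4 X x y z j / m4 X x y z 2 ∈ B)
    : x ∈ B ∧ y⁻¹ ∈ B ∧ z / x ∈ B ∧ 1 ∈ B := by
  have h3_1 : z / y ∈ B := h3 1
  have h3_2 : y * z / y ∈ B := h3 2
  have h4_1 : x * y * z / (x * y) ∈ B := h4 1
  have h4_2 : y * z / (x * y) ∈ B := h4 2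
  have h4_3 : x * z / (x * y) ∈ B := h4 3
  have h4_4 : z / (x * y) ∈ B := h4 4
  have h5_0 : X * z / (x * y) ∈ B := h5 0
  have h5_1 : X * y * z / (x * y) ∈ B := h5 1
  have h5_3 : x * y * z / (x * y) ∈ B := h5 3
  refine ⟨?_, ?_, ?_, ?_⟩
  · exact ex
  · exact ey
  · exact mem_eq (by field_simp) (h4_2)
  · exact one_mem B

theorem X5_xi {x y z X : K} (hx : x ≠ 0) (hy : y ≠ 0) (hz : z ≠ 0)
    (hX : X ≠ 0) (hXe : x = X + 3) :
    (x = x) ∧ ((y⁻¹) = y⁻¹) ∧ (x * (z / x) = z) := by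
  refine ⟨?_, ?_, ?_⟩
  · first | rfl | (rw [hXe]; ring1) | (field_simp; done) | (field_simp <;> rw [hXe] <;> ring1)
  · first | rfl | (rw [hXe]; ring1) | (field_simp; done) | (field_simp <;> rw [hXe] <;> ring1)
  · first | rfl | (rw [hXe]; ring1) | (field_simp; done) | (field_simp <;> rw [hXe] <;> ring1)

theorem X6_le {B : Subalgebra O K} {x y z X : K} (hx : x ≠ 0) (hy : y ≠ 0) (hz : z ≠ 0)
    (hX : X ≠ 0) (hXe : x = X + 3) (ha : x / z ∈ B) (hb : y⁻¹ ∈ B) (hc : z ∈ B)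
    (hQ : X⁻¹ ∈ B) :
    (∀ j, lyz y z j / lyz y z 0 ∈ B) ∧
    (∀ j, lxyz x y z j / lxyz x y z 2 ∈ B) ∧
    (∀ j, m4 X x y z j / m4 X x y z 1 ∈ B) := by
  have hP : X ∈ B :=
    mem_eq (by first | (rw [hXe]; ring1) | (field_simp <;> rw [hXe] <;> ring1)) (sub_mem (mul_mem ha hc) (three_mem B))
  refine ⟨?_, ?_, ?_⟩
  · intro j
    fin_cases j
    · exact div_self_mem B _
    · change z / y ∈ B
      exact mem_eq (by field_simp) (mul_mem hb hc)
    · change y * z / y ∈ B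
      exact mem_eq (by field_simp) (hc)
  · intro j
    fin_cases j
    · change x * y / (y * z) ∈ B
      exact mem_eq (by field_simp) (ha)
    · change x * y * z / (y * z) ∈ B
      exact mem_eq (by field_simp) (mul_mem ha hc)
    · exact div_self_mem B _
    · change x * z / (y * z) ∈ B
      exact mem_eq (by field_simp) (mul_mem (mul_mem ha hb) hc)
    · change z / (y * z) ∈ B
      exact mem_eq (by field_simp) (hb)
  · intro j
    fin_cases j
    · change X * z / (X * y * z) ∈ B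
      exact mem_eq (by field_simp) (hb)
    · exact div_self_mem B _
    · change x * y / (X * y * z) ∈ B
      exact mem_eq (by field_simp) (mul_mem ha hQ)
    · change x * y * z / (X * y * z) ∈ B
      exact mem_eq (by field_simp) (mul_mem (mul_mem ha hc) hQ)

theorem X6_ge {B : Subalgebra O K} {x y z X : K} (hx : x ≠ 0) (hy : y ≠ 0) (hz : z ≠ 0)
    (hX : X ≠ 0) (hXe : x = X + 3) (h30 : (3 : K) ≠ 0) (ht : (3 : K)⁻¹ ∈ B)
    (ex : x ∈ B) (ey : y⁻¹ ∈ B) (ez : z ∈ B)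
    (h3 : ∀ j, lyz y z j / lyz y z 0 ∈ B)
    (h4 : ∀ j, lxyz x y z j / lxyz x y z 2 ∈ B)
    (h5 : ∀ j, m4 X x y z j / m4 X x y z 1 ∈ B)
    : x / z ∈ B ∧ y⁻¹ ∈ B ∧ z ∈ B ∧ X⁻¹ ∈ B := by
  have h3_1 : z / y ∈ B := h3 1
  have h3_2 : y * z / y ∈ B := h3 2
  have h4_0 : x * y / (y * z) ∈ B := h4 0
  have h4_1 : x * y * z / (y * z) ∈ B := h4 1
  have h4_3 : x * z / (y * z) ∈ B := h4 3
  have h4_4 : z / (y * z) ∈ B := h4 4
  have h5_0 : X * z / (X * y * z) ∈ B := h5 0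
  have h5_2 : x * y / (X * y * z) ∈ B := h5 2
  have h5_3 : x * y * z / (X * y * z) ∈ B := h5 3
  refine ⟨?_, ?_, ?_, ?_⟩
  · exact mem_eq (by field_simp) (h4_0)
  · exact ey
  · exact ez
  · have e : X⁻¹ = (3 : K)⁻¹ * (x * y * z / (X * y * z) - 1) := by
      field_simp <;> rw [hXe] <;> ring1
    exact mem_eq e (mul_mem ht (sub_mem h5_3 (one_mem _)))

theorem X6_xi {x y z X : K} (hx : x ≠ 0) (hy : y ≠ 0) (hz : z ≠ 0)
    (hX : X ≠ 0) (hXe : x = X + 3) :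
    ((x / z) * z = x) ∧ ((y⁻¹) = y⁻¹) ∧ (z = z) := by
  refine ⟨?_, ?_, ?_⟩
  · first | rfl | (rw [hXe]; ring1) | (field_simp; done) | (field_simp <;> rw [hXe] <;> ring1)
  · first | rfl | (rw [hXe]; ring1) | (field_simp; done) | (field_simp <;> rw [hXe] <;> ring1)
  · first | rfl | (rw [hXe]; ring1) | (field_simp; done) | (field_simp <;> rw [hXe] <;> ring1)

theorem X6_phi {B : Subalgebra O K} {x y z X : K} (hx : x ≠ 0) (hy : y ≠ 0) (hz : z ≠ 0)
    (hX : X ≠ 0) (hXe : x = X + 3) (ha : x / z ∈ B) (hb : y⁻¹ ∈ B) (hc : z ∈ B) :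
    X ∈ B := by
  exact mem_eq (by first | (rw [hXe]; ring1) | (field_simp <;> rw [hXe] <;> ring1)) (sub_mem (mul_mem ha hc) (three_mem B))

theorem X7_le {B : Subalgebra O K} {x y z X : K} (hx : x ≠ 0) (hy : y ≠ 0) (hz : z ≠ 0)
    (hX : X ≠ 0) (hXe : x = X + 3) (ha : x ∈ B) (hb : y / X ∈ B) (hc : z⁻¹ ∈ B)
    (hQ : 1 ∈ B) :
    (∀ j, lyz y z j / lyz y z 1 ∈ B) ∧
    (∀ j, lxyz x y z j / lxyz x y z 4 ∈ B) ∧
    (∀ j, m4 X x y z j / m4 X x y z 0 ∈ B) := by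
  have hP : X ∈ B :=
    mem_eq (by first | (rw [hXe]; ring1) | (field_simp <;> rw [hXe] <;> ring1)) (sub_mem ha (three_mem B))
  refine ⟨?_, ?_, ?_⟩
  · intro j
    fin_cases j
    · change y / z ∈ B
      exact mem_eq (by field_simp) (mul_mem (mul_mem hb hc) hP)
    · exact div_self_mem B _
    · change y * z / z ∈ B
      exact mem_eq (by field_simp) (mul_mem hb hP)
  · intro j
    fin_cases j
    · change x * y / z ∈ B
      exact mem_eq (by field_simp) (mul_mem (mul_mem (mul_mem ha hb) hc) hP)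
    · change x * y * z / z ∈ B
      exact mem_eq (by field_simp) (mul_mem (mul_mem ha hb) hP)
    · change y * z / z ∈ B
      exact mem_eq (by field_simp) (mul_mem hb hP)
    · change x * z / z ∈ B
      exact mem_eq (by field_simp) (ha)
    · exact div_self_mem B _
  · intro j
    fin_cases j
    · exact div_self_mem B _
    · change X * y * z / (X * z) ∈ B
      exact mem_eq (by field_simp) (mul_mem hb hP)
    · change x * y / (X * z) ∈ B
      exact mem_eq (by field_simp) (mul_mem (mul_mem ha hb) hc)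
    · change x * y * z / (X * z) ∈ B
      exact mem_eq (by field_simp) (mul_mem ha hb)

theorem X7_ge {B : Subalgebra O K} {x y z X : K} (hx : x ≠ 0) (hy : y ≠ 0) (hz : z ≠ 0)
    (hX : X ≠ 0) (hXe : x = X + 3) (h30 : (3 : K) ≠ 0) (ht : (3 : K)⁻¹ ∈ B)
    (ex : x ∈ B) (ey : y ∈ B) (ez : z⁻¹ ∈ B)
    (h3 : ∀ j, lyz y z j / lyz y z 1 ∈ B)
    (h4 : ∀ j, lxyz x y z j / lxyz x y z 4 ∈ B)
    (h5 : ∀ j, m4 X x y z j / m4 X x y z 0 ∈ B)
    : x ∈ B ∧ y / X ∈ B ∧ z⁻¹ ∈ B ∧ 1 ∈ B := by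
  have h3_0 : y / z ∈ B := h3 0
  have h3_2 : y * z / z ∈ B := h3 2
  have h4_0 : x * y / z ∈ B := h4 0
  have h4_1 : x * y * z / z ∈ B := h4 1
  have h4_2 : y * z / z ∈ B := h4 2
  have h4_3 : x * z / z ∈ B := h4 3
  have h5_1 : X * y * z / (X * z) ∈ B := h5 1
  have h5_2 : x * y / (X * z) ∈ B := h5 2
  have h5_3 : x * y * z / (X * z) ∈ B := h5 3
  refine ⟨?_, ?_, ?_, ?_⟩
  · exact ex
  · have e : y / X = (3 : K)⁻¹ * (x * y * z / (X * z) - y) := by
      field_simp <;> rw [hXe] <;> ring1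
    exact mem_eq e (mul_mem ht (sub_mem h5_3 ey))
  · exact ez
  · exact one_mem B

theorem X7_xi {x y z X : K} (hx : x ≠ 0) (hy : y ≠ 0) (hz : z ≠ 0)
    (hX : X ≠ 0) (hXe : x = X + 3) :
    (x = x) ∧ ((x - 3) * (y / X) = y) ∧ ((z⁻¹) = z⁻¹) := by
  refine ⟨?_, ?_, ?_⟩
  · first | rfl | (rw [hXe]; ring1) | (field_simp; done) | (field_simp <;> rw [hXe] <;> ring1)
  · first | rfl | (rw [hXe]; ring1) | (field_simp; done) | (field_simp <;> rw [hXe] <;> ring1)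
  · first | rfl | (rw [hXe]; ring1) | (field_simp; done) | (field_simp <;> rw [hXe] <;> ring1)

theorem X8_le {B : Subalgebra O K} {x y z X : K} (hx : x ≠ 0) (hy : y ≠ 0) (hz : z ≠ 0)
    (hX : X ≠ 0) (hXe : x = X + 3) (ha : X / y ∈ B) (hb : y ∈ B) (hc : z⁻¹ ∈ B)
    (hQ : x⁻¹ ∈ B) :
    (∀ j, lyz y z j / lyz y z 1 ∈ B) ∧
    (∀ j, lxyz x y z j / lxyz x y z 4 ∈ B) ∧
    (∀ j, m4 X x y z j / m4 X x y z 3 ∈ B) := by
  have hP : x ∈ B :=
    mem_eq (by first | (rw [hXe]; ring1) | (field_simp <;> rw [hXe] <;> ring1)) (add_mem (mul_mem ha hb) (three_mem B))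
  refine ⟨?_, ?_, ?_⟩
  · intro j
    fin_cases j
    · change y / z ∈ B
      exact mem_eq (by field_simp) (mul_mem hb hc)
    · exact div_self_mem B _
    · change y * z / z ∈ B
      exact mem_eq (by field_simp) (hb)
  · intro j
    fin_cases j
    · change x * y / z ∈ B
      exact mem_eq (by field_simp) (mul_mem (mul_mem hb hc) hP)
    · change x * y * z / z ∈ B
      exact mem_eq (by field_simp) (mul_mem hb hP)
    · change y * z / z ∈ B
      exact mem_eq (by field_simp) (hb)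
    · change x * z / z ∈ B
      exact mem_eq (by field_simp) (hP)
    · exact div_self_mem B _
  · intro j
    fin_cases j
    · change X * z / (x * y * z) ∈ B
      exact mem_eq (by field_simp) (mul_mem ha hQ)
    · change X * y * z / (x * y * z) ∈ B
      exact mem_eq (by field_simp) (mul_mem (mul_mem ha hb) hQ)
    · change x * y / (x * y * z) ∈ B
      exact mem_eq (by field_simp) (hc)
    · exact div_self_mem B _

theorem X8_ge {B : Subalgebra O K} {x y z X : K} (hx : x ≠ 0) (hy : y ≠ 0) (hz : z ≠ 0)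
    (hX : X ≠ 0) (hXe : x = X + 3) (h30 : (3 : K) ≠ 0) (ht : (3 : K)⁻¹ ∈ B)
    (ex : x ∈ B) (ey : y ∈ B) (ez : z⁻¹ ∈ B)
    (h3 : ∀ j, lyz y z j / lyz y z 1 ∈ B)
    (h4 : ∀ j, lxyz x y z j / lxyz x y z 4 ∈ B)
    (h5 : ∀ j, m4 X x y z j / m4 X x y z 3 ∈ B)
    : X / y ∈ B ∧ y ∈ B ∧ z⁻¹ ∈ B ∧ x⁻¹ ∈ B := by
  have h3_0 : y / z ∈ B := h3 0
  have h3_2 : y * z / z ∈ B := h3 2
  have h4_0 : x * y / z ∈ B := h4 0
  have h4_1 : x * y * z / z ∈ B := h4 1
  have h4_2 : y * z / z ∈ B := h4 2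
  have h4_3 : x * z / z ∈ B := h4 3
  have h5_0 : X * z / (x * y * z) ∈ B := h5 0
  have h5_1 : X * y * z / (x * y * z) ∈ B := h5 1
  have h5_2 : x * y / (x * y * z) ∈ B := h5 2
  refine ⟨?_, ?_, ?_, ?_⟩
  · have e : X / y = x * (X * z / (x * y * z)) := by
      field_simp <;> rw [hXe] <;> ring1
    exact mem_eq e (mul_mem ex h5_0)
  · exact ey
  · exact ez
  · have e : x⁻¹ = (3 : K)⁻¹ * (1 - X * y * z / (x * y * z)) := by
      field_simp <;> rw [hXe] <;> ring1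
    exact mem_eq e (mul_mem ht (sub_mem (one_mem _) h5_1))

theorem X8_xi {x y z X : K} (hx : x ≠ 0) (hy : y ≠ 0) (hz : z ≠ 0)
    (hX : X ≠ 0) (hXe : x = X + 3) :
    (3 + (X / y) * y = x) ∧ (y = y) ∧ ((z⁻¹) = z⁻¹) := by
  refine ⟨?_, ?_, ?_⟩
  · first | rfl | (rw [hXe]; ring1) | (field_simp; done) | (field_simp <;> rw [hXe] <;> ring1)
  · first | rfl | (rw [hXe]; ring1) | (field_simp; done) | (field_simp <;> rw [hXe] <;> ring1)
  · first | rfl | (rw [hXe]; ring1) | (field_simp; done) | (field_simp <;> rw [hXe] <;> ring1)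

theorem X8_phi {B : Subalgebra O K} {x y z X : K} (hx : x ≠ 0) (hy : y ≠ 0) (hz : z ≠ 0)
    (hX : X ≠ 0) (hXe : x = X + 3) (ha : X / y ∈ B) (hb : y ∈ B) (hc : z⁻¹ ∈ B) :
    x ∈ B := by
  exact mem_eq (by first | (rw [hXe]; ring1) | (field_simp <;> rw [hXe] <;> ring1)) (add_mem (mul_mem ha hb) (three_mem B))

theorem X9_le {B : Subalgebra O K} {x y z X : K} (hx : x ≠ 0) (hy : y ≠ 0) (hz : z ≠ 0)
    (hX : X ≠ 0) (hXe : x = X + 3) (ha : x⁻¹ ∈ B) (hb : y ∈ B) (hc : z / y ∈ B)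
    (hQ : 1 ∈ B) :
    (∀ j, lyz y z j / lyz y z 0 ∈ B) ∧
    (∀ j, lxyz x y z j / lxyz x y z 0 ∈ B) ∧
    (∀ j, m4 X x y z j / m4 X x y z 2 ∈ B) := by
  have hP : X / x ∈ B :=
    mem_eq (by first | (rw [hXe]; ring1) | (field_simp <;> rw [hXe] <;> ring1)) (sub_mem (one_mem B) (mul_mem (three_mem B) ha))
  refine ⟨?_, ?_, ?_⟩
  · intro j
    fin_cases j
    · exact div_self_mem B _
    · change z / y ∈ B
      exact mem_eq (by field_simp) (hc)
    · change y * z / y ∈ B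
      exact mem_eq (by field_simp) (mul_mem hb hc)
  · intro j
    fin_cases j
    · exact div_self_mem B _
    · change x * y * z / (x * y) ∈ B
      exact mem_eq (by field_simp) (mul_mem hb hc)
    · change y * z / (x * y) ∈ B
      exact mem_eq (by field_simp) (mul_mem (mul_mem ha hb) hc)
    · change x * z / (x * y) ∈ B
      exact mem_eq (by field_simp) (hc)
    · change z / (x * y) ∈ B
      exact mem_eq (by field_simp) (mul_mem ha hc)
  · intro j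
    fin_cases j
    · change X * z / (x * y) ∈ B
      exact mem_eq (by field_simp) (mul_mem hc hP)
    · change X * y * z / (x * y) ∈ B
      exact mem_eq (by field_simp) (mul_mem (mul_mem hb hc) hP)
    · exact div_self_mem B _
    · change x * y * z / (x * y) ∈ B
      exact mem_eq (by field_simp) (mul_mem hb hc)

theorem X9_ge {B : Subalgebra O K} {x y z X : K} (hx : x ≠ 0) (hy : y ≠ 0) (hz : z ≠ 0)
    (hX : X ≠ 0) (hXe : x = X + 3) (h30 : (3 : K) ≠ 0) (ht : (3 : K)⁻¹ ∈ B)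
    (ex : x⁻¹ ∈ B) (ey : y ∈ B) (ez : z ∈ B)
    (h3 : ∀ j, lyz y z j / lyz y z 0 ∈ B)
    (h4 : ∀ j, lxyz x y z j / lxyz x y z 0 ∈ B)
    (h5 : ∀ j, m4 X x y z j / m4 X x y z 2 ∈ B)
    : x⁻¹ ∈ B ∧ y ∈ B ∧ z / y ∈ B ∧ 1 ∈ B := by
  have h3_1 : z / y ∈ B := h3 1
  have h3_2 : y * z / y ∈ B := h3 2
  have h4_1 : x * y * z / (x * y) ∈ B := h4 1
  have h4_2 : y * z / (x * y) ∈ B := h4 2
  have h4_3 : x * z / (x * y) ∈ B := h4 3
  have h4_4 : z / (x * y) ∈ B := h4 4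
  have h5_0 : X * z / (x * y) ∈ B := h5 0
  have h5_1 : X * y * z / (x * y) ∈ B := h5 1
  have h5_3 : x * y * z / (x * y) ∈ B := h5 3
  refine ⟨?_, ?_, ?_, ?_⟩
  · exact ex
  · exact ey
  · exact mem_eq (by field_simp) (h3_1)
  · exact one_mem B

theorem X9_xi {x y z X : K} (hx : x ≠ 0) (hy : y ≠ 0) (hz : z ≠ 0)
    (hX : X ≠ 0) (hXe : x = X + 3) :
    ((x⁻¹) = x⁻¹) ∧ (y = y) ∧ (y * (z / y) = z) := by
  refine ⟨?_, ?_, ?_⟩
  · first | rfl | (rw [hXe]; ring1) | (field_simp; done) | (field_simp <;> rw [hXe] <;> ring1)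
  · first | rfl | (rw [hXe]; ring1) | (field_simp; done) | (field_simp <;> rw [hXe] <;> ring1)
  · first | rfl | (rw [hXe]; ring1) | (field_simp; done) | (field_simp <;> rw [hXe] <;> ring1)

theorem X10_le {B : Subalgebra O K} {x y z X : K} (hx : x ≠ 0) (hy : y ≠ 0) (hz : z ≠ 0)
    (hX : X ≠ 0) (hXe : x = X + 3) (ha : x⁻¹ ∈ B) (hb : z ∈ B) (hc : x * y / (X * z) ∈ B)
    (hQ : 1 ∈ B) :
    (∀ j, lyz y z j / lyz y z 1 ∈ B) ∧
    (∀ j, lxyz x y z j / lxyz x y z 3 ∈ B) ∧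
    (∀ j, m4 X x y z j / m4 X x y z 0 ∈ B) := by
  have hP : X / x ∈ B :=
    mem_eq (by first | (rw [hXe]; ring1) | (field_simp <;> rw [hXe] <;> ring1)) (sub_mem (one_mem B) (mul_mem (three_mem B) ha))
  refine ⟨?_, ?_, ?_⟩
  · intro j
    fin_cases j
    · change y / z ∈ B
      exact mem_eq (by field_simp) (mul_mem hc hP)
    · exact div_self_mem B _
    · change y * z / z ∈ B
      exact mem_eq (by field_simp) (mul_mem (mul_mem hb hc) hP)
  · intro j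
    fin_cases j
    · change x * y / (x * z) ∈ B
      exact mem_eq (by field_simp) (mul_mem hc hP)
    · change x * y * z / (x * z) ∈ B
      exact mem_eq (by field_simp) (mul_mem (mul_mem hb hc) hP)
    · change y * z / (x * z) ∈ B
      exact mem_eq (by field_simp) (mul_mem (mul_mem (mul_mem ha hb) hc) hP)
    · exact div_self_mem B _
    · change z / (x * z) ∈ B
      exact mem_eq (by field_simp) (ha)
  · intro j
    fin_cases j
    · exact div_self_mem B _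
    · change X * y * z / (X * z) ∈ B
      exact mem_eq (by field_simp) (mul_mem (mul_mem hb hc) hP)
    · change x * y / (X * z) ∈ B
      exact mem_eq (by field_simp) (hc)
    · change x * y * z / (X * z) ∈ B
      exact mem_eq (by field_simp) (mul_mem hb hc)

theorem X10_ge {B : Subalgebra O K} {x y z X : K} (hx : x ≠ 0) (hy : y ≠ 0) (hz : z ≠ 0)
    (hX : X ≠ 0) (hXe : x = X + 3) (h30 : (3 : K) ≠ 0) (ht : (3 : K)⁻¹ ∈ B)
    (ex : x⁻¹ ∈ B) (ey : y ∈ B) (ez : z ∈ B)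
    (h3 : ∀ j, lyz y z j / lyz y z 1 ∈ B)
    (h4 : ∀ j, lxyz x y z j / lxyz x y z 3 ∈ B)
    (h5 : ∀ j, m4 X x y z j / m4 X x y z 0 ∈ B)
    : x⁻¹ ∈ B ∧ z ∈ B ∧ x * y / (X * z) ∈ B ∧ 1 ∈ B := by
  have h3_0 : y / z ∈ B := h3 0
  have h3_2 : y * z / z ∈ B := h3 2
  have h4_0 : x * y / (x * z) ∈ B := h4 0
  have h4_1 : x * y * z / (x * z) ∈ B := h4 1
  have h4_2 : y * z / (x * z) ∈ B := h4 2
  have h4_4 : z / (x * z) ∈ B := h4 4
  have h5_1 : X * y * z / (X * z) ∈ B := h5 1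
  have h5_2 : x * y / (X * z) ∈ B := h5 2
  have h5_3 : x * y * z / (X * z) ∈ B := h5 3
  refine ⟨?_, ?_, ?_, ?_⟩
  · exact ex
  · exact ez
  · exact mem_eq (by field_simp) (h5_2)
  · exact one_mem B

theorem X10_xi {x y z X : K} (hx : x ≠ 0) (hy : y ≠ 0) (hz : z ≠ 0)
    (hX : X ≠ 0) (hXe : x = X + 3) :
    ((x⁻¹) = x⁻¹) ∧ (z * (1 - 3 * (x⁻¹)) * (x * y / (X * z)) = y) ∧ (z = z) := by
  refine ⟨?_, ?_, ?_⟩
  · first | rfl | (rw [hXe]; ring1) | (field_simp; done) | (field_simp <;> rw [hXe] <;> ring1)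
  · first | rfl | (rw [hXe]; ring1) | (field_simp; done) | (field_simp <;> rw [hXe] <;> ring1)
  · first | rfl | (rw [hXe]; ring1) | (field_simp; done) | (field_simp <;> rw [hXe] <;> ring1)

theorem X11_le {B : Subalgebra O K} {x y z X : K} (hx : x ≠ 0) (hy : y ≠ 0) (hz : z ≠ 0)
    (hX : X ≠ 0) (hXe : x = X + 3) (ha : x⁻¹ ∈ B) (hb : y⁻¹ ∈ B) (hc : z ∈ B)
    (hQ : 1 ∈ B) :
    (∀ j, lyz y z j / lyz y z 0 ∈ B) ∧
    (∀ j, lxyz x y z j / lxyz x y z 0 ∈ B) ∧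
    (∀ j, m4 X x y z j / m4 X x y z 2 ∈ B) := by
  have hP : X / x ∈ B :=
    mem_eq (by first | (rw [hXe]; ring1) | (field_simp <;> rw [hXe] <;> ring1)) (sub_mem (one_mem B) (mul_mem (three_mem B) ha))
  refine ⟨?_, ?_, ?_⟩
  · intro j
    fin_cases j
    · exact div_self_mem B _
    · change z / y ∈ B
      exact mem_eq (by field_simp) (mul_mem hb hc)
    · change y * z / y ∈ B
      exact mem_eq (by field_simp) (hc)
  · intro j
    fin_cases j
    · exact div_self_mem B _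
    · change x * y * z / (x * y) ∈ B
      exact mem_eq (by field_simp) (hc)
    · change y * z / (x * y) ∈ B
      exact mem_eq (by field_simp) (mul_mem ha hc)
    · change x * z / (x * y) ∈ B
      exact mem_eq (by field_simp) (mul_mem hb hc)
    · change z / (x * y) ∈ B
      exact mem_eq (by field_simp) (mul_mem (mul_mem ha hb) hc)
  · intro j
    fin_cases j
    · change X * z / (x * y) ∈ B
      exact mem_eq (by field_simp) (mul_mem (mul_mem hb hc) hP)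
    · change X * y * z / (x * y) ∈ B
      exact mem_eq (by field_simp) (mul_mem hc hP)
    · exact div_self_mem B _
    · change x * y * z / (x * y) ∈ B
      exact mem_eq (by field_simp) (hc)

theorem X11_ge {B : Subalgebra O K} {x y z X : K} (hx : x ≠ 0) (hy : y ≠ 0) (hz : z ≠ 0)
    (hX : X ≠ 0) (hXe : x = X + 3) (h30 : (3 : K) ≠ 0) (ht : (3 : K)⁻¹ ∈ B)
    (ex : x⁻¹ ∈ B) (ey : y⁻¹ ∈ B) (ez : z ∈ B)
    (h3 : ∀ j, lyz y z j / lyz y z 0 ∈ B)
    (h4 : ∀ j, lxyz x y z j / lxyz x y z 0 ∈ B)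
    (h5 : ∀ j, m4 X x y z j / m4 X x y z 2 ∈ B)
    : x⁻¹ ∈ B ∧ y⁻¹ ∈ B ∧ z ∈ B ∧ 1 ∈ B := by
  have h3_1 : z / y ∈ B := h3 1
  have h3_2 : y * z / y ∈ B := h3 2
  have h4_1 : x * y * z / (x * y) ∈ B := h4 1
  have h4_2 : y * z / (x * y) ∈ B := h4 2
  have h4_3 : x * z / (x * y) ∈ B := h4 3
  have h4_4 : z / (x * y) ∈ B := h4 4
  have h5_0 : X * z / (x * y) ∈ B := h5 0
  have h5_1 : X * y * z / (x * y) ∈ B := h5 1
  have h5_3 : x * y * z / (x * y) ∈ B := h5 3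
  refine ⟨?_, ?_, ?_, ?_⟩
  · exact ex
  · exact ey
  · exact ez
  · exact one_mem B

theorem X11_xi {x y z X : K} (hx : x ≠ 0) (hy : y ≠ 0) (hz : z ≠ 0)
    (hX : X ≠ 0) (hXe : x = X + 3) :
    ((x⁻¹) = x⁻¹) ∧ ((y⁻¹) = y⁻¹) ∧ (z = z) := by
  refine ⟨?_, ?_, ?_⟩
  · first | rfl | (rw [hXe]; ring1) | (field_simp; done) | (field_simp <;> rw [hXe] <;> ring1)
  · first | rfl | (rw [hXe]; ring1) | (field_simp; done) | (field_simp <;> rw [hXe] <;> ring1)
  · first | rfl | (rw [hXe]; ring1) | (field_simp; done) | (field_simp <;> rw [hXe] <;> ring1)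

theorem X12_le {B : Subalgebra O K} {x y z X : K} (hx : x ≠ 0) (hy : y ≠ 0) (hz : z ≠ 0)
    (hX : X ≠ 0) (hXe : x = X + 3) (ha : x⁻¹ ∈ B) (hb : x * y / X ∈ B) (hc : z⁻¹ ∈ B)
    (hQ : 1 ∈ B) :
    (∀ j, lyz y z j / lyz y z 1 ∈ B) ∧
    (∀ j, lxyz x y z j / lxyz x y z 3 ∈ B) ∧
    (∀ j, m4 X x y z j / m4 X x y z 0 ∈ B) := by
  have hP : X / x ∈ B :=
    mem_eq (by first | (rw [hXe]; ring1) | (field_simp <;> rw [hXe] <;> ring1)) (sub_mem (one_mem B) (mul_mem (three_mem B) ha))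
  refine ⟨?_, ?_, ?_⟩
  · intro j
    fin_cases j
    · change y / z ∈ B
      exact mem_eq (by field_simp) (mul_mem (mul_mem hb hc) hP)
    · exact div_self_mem B _
    · change y * z / z ∈ B
      exact mem_eq (by field_simp) (mul_mem hb hP)
  · intro j
    fin_cases j
    · change x * y / (x * z) ∈ B
      exact mem_eq (by field_simp) (mul_mem (mul_mem hb hc) hP)
    · change x * y * z / (x * z) ∈ B
      exact mem_eq (by field_simp) (mul_mem hb hP)
    · change y * z / (x * z) ∈ B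
      exact mem_eq (by field_simp) (mul_mem (mul_mem ha hb) hP)
    · exact div_self_mem B _
    · change z / (x * z) ∈ B
      exact mem_eq (by field_simp) (ha)
  · intro j
    fin_cases j
    · exact div_self_mem B _
    · change X * y * z / (X * z) ∈ B
      exact mem_eq (by field_simp) (mul_mem hb hP)
    · change x * y / (X * z) ∈ B
      exact mem_eq (by field_simp) (mul_mem hb hc)
    · change x * y * z / (X * z) ∈ B
      exact mem_eq (by field_simp) (hb)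

theorem X12_ge {B : Subalgebra O K} {x y z X : K} (hx : x ≠ 0) (hy : y ≠ 0) (hz : z ≠ 0)
    (hX : X ≠ 0) (hXe : x = X + 3) (h30 : (3 : K) ≠ 0) (ht : (3 : K)⁻¹ ∈ B)
    (ex : x⁻¹ ∈ B) (ey : y ∈ B) (ez : z⁻¹ ∈ B)
    (h3 : ∀ j, lyz y z j / lyz y z 1 ∈ B)
    (h4 : ∀ j, lxyz x y z j / lxyz x y z 3 ∈ B)
    (h5 : ∀ j, m4 X x y z j / m4 X x y z 0 ∈ B)
    : x⁻¹ ∈ B ∧ x * y / X ∈ B ∧ z⁻¹ ∈ B ∧ 1 ∈ B := by
  have h3_0 : y / z ∈ B := h3 0
  have h3_2 : y * z / z ∈ B := h3 2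
  have h4_0 : x * y / (x * z) ∈ B := h4 0
  have h4_1 : x * y * z / (x * z) ∈ B := h4 1
  have h4_2 : y * z / (x * z) ∈ B := h4 2
  have h4_4 : z / (x * z) ∈ B := h4 4
  have h5_1 : X * y * z / (X * z) ∈ B := h5 1
  have h5_2 : x * y / (X * z) ∈ B := h5 2
  have h5_3 : x * y * z / (X * z) ∈ B := h5 3
  refine ⟨?_, ?_, ?_, ?_⟩
  · exact ex
  · exact mem_eq (by field_simp) (h5_3)
  · exact ez
  · exact one_mem B

theorem X12_xi {x y z X : K} (hx : x ≠ 0) (hy : y ≠ 0) (hz : z ≠ 0)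
    (hX : X ≠ 0) (hXe : x = X + 3) :
    ((x⁻¹) = x⁻¹) ∧ ((1 - 3 * (x⁻¹)) * (x * y / X) = y) ∧ ((z⁻¹) = z⁻¹) := by
  refine ⟨?_, ?_, ?_⟩
  · first | rfl | (rw [hXe]; ring1) | (field_simp; done) | (field_simp <;> rw [hXe] <;> ring1)
  · first | rfl | (rw [hXe]; ring1) | (field_simp; done) | (field_simp <;> rw [hXe] <;> ring1)
  · first | rfl | (rw [hXe]; ring1) | (field_simp; done) | (field_simp <;> rw [hXe] <;> ring1)

theorem X13_le {B : Subalgebra O K} {x y z X : K} (hx : x ≠ 0) (hy : y ≠ 0) (hz : z ≠ 0)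
    (hX : X ≠ 0) (hXe : x = X + 3) (ha : x ∈ B) (hb : y⁻¹ ∈ B) (hc : z⁻¹ ∈ B)
    (hQ : X⁻¹ ∈ B) :
    (∀ j, lyz y z j / lyz y z 2 ∈ B) ∧
    (∀ j, lxyz x y z j / lxyz x y z 2 ∈ B) ∧
    (∀ j, m4 X x y z j / m4 X x y z 1 ∈ B) := by
  have hP : X ∈ B :=
    mem_eq (by first | (rw [hXe]; ring1) | (field_simp <;> rw [hXe] <;> ring1)) (sub_mem ha (three_mem B))
  refine ⟨?_, ?_, ?_⟩
  · intro j
    fin_cases j
    · change y / (y * z) ∈ B
      exact mem_eq (by field_simp) (hc)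
    · change z / (y * z) ∈ B
      exact mem_eq (by field_simp) (hb)
    · exact div_self_mem B _
  · intro j
    fin_cases j
    · change x * y / (y * z) ∈ B
      exact mem_eq (by field_simp) (mul_mem ha hc)
    · change x * y * z / (y * z) ∈ B
      exact mem_eq (by field_simp) (ha)
    · exact div_self_mem B _
    · change x * z / (y * z) ∈ B
      exact mem_eq (by field_simp) (mul_mem ha hb)
    · change z / (y * z) ∈ B
      exact mem_eq (by field_simp) (hb)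
  · intro j
    fin_cases j
    · change X * z / (X * y * z) ∈ B
      exact mem_eq (by field_simp) (hb)
    · exact div_self_mem B _
    · change x * y / (X * y * z) ∈ B
      exact mem_eq (by field_simp) (mul_mem (mul_mem ha hc) hQ)
    · change x * y * z / (X * y * z) ∈ B
      exact mem_eq (by field_simp) (mul_mem ha hQ)

theorem X13_ge {B : Subalgebra O K} {x y z X : K} (hx : x ≠ 0) (hy : y ≠ 0) (hz : z ≠ 0)
    (hX : X ≠ 0) (hXe : x = X + 3) (h30 : (3 : K) ≠ 0) (ht : (3 : K)⁻¹ ∈ B)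
    (ex : x ∈ B) (ey : y⁻¹ ∈ B) (ez : z⁻¹ ∈ B)
    (h3 : ∀ j, lyz y z j / lyz y z 2 ∈ B)
    (h4 : ∀ j, lxyz x y z j / lxyz x y z 2 ∈ B)
    (h5 : ∀ j, m4 X x y z j / m4 X x y z 1 ∈ B)
    : x ∈ B ∧ y⁻¹ ∈ B ∧ z⁻¹ ∈ B ∧ X⁻¹ ∈ B := by
  have h3_0 : y / (y * z) ∈ B := h3 0
  have h3_1 : z / (y * z) ∈ B := h3 1
  have h4_0 : x * y / (y * z) ∈ B := h4 0
  have h4_1 : x * y * z / (y * z) ∈ B := h4 1
  have h4_3 : x * z / (y * z) ∈ B := h4 3
  have h4_4 : z / (y * z) ∈ B := h4 4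
  have h5_0 : X * z / (X * y * z) ∈ B := h5 0
  have h5_2 : x * y / (X * y * z) ∈ B := h5 2
  have h5_3 : x * y * z / (X * y * z) ∈ B := h5 3
  refine ⟨?_, ?_, ?_, ?_⟩
  · exact ex
  · exact ey
  · exact ez
  · have e : X⁻¹ = (3 : K)⁻¹ * (x * y * z / (X * y * z) - 1) := by
      field_simp <;> rw [hXe] <;> ring1
    exact mem_eq e (mul_mem ht (sub_mem h5_3 (one_mem _)))

theorem X13_xi {x y z X : K} (hx : x ≠ 0) (hy : y ≠ 0) (hz : z ≠ 0)
    (hX : X ≠ 0) (hXe : x = X + 3) :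
    (x = x) ∧ ((y⁻¹) = y⁻¹) ∧ ((z⁻¹) = z⁻¹) := by
  refine ⟨?_, ?_, ?_⟩
  · first | rfl | (rw [hXe]; ring1) | (field_simp; done) | (field_simp <;> rw [hXe] <;> ring1)
  · first | rfl | (rw [hXe]; ring1) | (field_simp; done) | (field_simp <;> rw [hXe] <;> ring1)
  · first | rfl | (rw [hXe]; ring1) | (field_simp; done) | (field_simp <;> rw [hXe] <;> ring1)

theorem X13_phi {B : Subalgebra O K} {x y z X : K} (hx : x ≠ 0) (hy : y ≠ 0) (hz : z ≠ 0)
    (hX : X ≠ 0) (hXe : x = X + 3) (ha : x ∈ B) (hb : y⁻¹ ∈ B) (hc : z⁻¹ ∈ B) :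
    X ∈ B := by
  exact mem_eq (by first | (rw [hXe]; ring1) | (field_simp <;> rw [hXe] <;> ring1)) (sub_mem ha (three_mem B))

theorem X14_le {B : Subalgebra O K} {x y z X : K} (hx : x ≠ 0) (hy : y ≠ 0) (hz : z ≠ 0)
    (hX : X ≠ 0) (hXe : x = X + 3) (ha : x ∈ B) (hb : y⁻¹ ∈ B) (hc : z⁻¹ ∈ B)
    (hQ : x⁻¹ ∈ B) :
    (∀ j, lyz y z j / lyz y z 2 ∈ B) ∧
    (∀ j, lxyz x y z j / lxyz x y z 2 ∈ B) ∧
    (∀ j, m4 X x y z j / m4 X x y z 3 ∈ B) := by
  have hP : X ∈ B :=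
    mem_eq (by first | (rw [hXe]; ring1) | (field_simp <;> rw [hXe] <;> ring1)) (sub_mem ha (three_mem B))
  refine ⟨?_, ?_, ?_⟩
  · intro j
    fin_cases j
    · change y / (y * z) ∈ B
      exact mem_eq (by field_simp) (hc)
    · change z / (y * z) ∈ B
      exact mem_eq (by field_simp) (hb)
    · exact div_self_mem B _
  · intro j
    fin_cases j
    · change x * y / (y * z) ∈ B
      exact mem_eq (by field_simp) (mul_mem ha hc)
    · change x * y * z / (y * z) ∈ B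
      exact mem_eq (by field_simp) (ha)
    · exact div_self_mem B _
    · change x * z / (y * z) ∈ B
      exact mem_eq (by field_simp) (mul_mem ha hb)
    · change z / (y * z) ∈ B
      exact mem_eq (by field_simp) (hb)
  · intro j
    fin_cases j
    · change X * z / (x * y * z) ∈ B
      exact mem_eq (by field_simp) (mul_mem (mul_mem hb hP) hQ)
    · change X * y * z / (x * y * z) ∈ B
      exact mem_eq (by field_simp) (mul_mem hP hQ)
    · change x * y / (x * y * z) ∈ B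
      exact mem_eq (by field_simp) (hc)
    · exact div_self_mem B _

theorem X14_ge {B : Subalgebra O K} {x y z X : K} (hx : x ≠ 0) (hy : y ≠ 0) (hz : z ≠ 0)
    (hX : X ≠ 0) (hXe : x = X + 3) (h30 : (3 : K) ≠ 0) (ht : (3 : K)⁻¹ ∈ B)
    (ex : x ∈ B) (ey : y⁻¹ ∈ B) (ez : z⁻¹ ∈ B)
    (h3 : ∀ j, lyz y z j / lyz y z 2 ∈ B)
    (h4 : ∀ j, lxyz x y z j / lxyz x y z 2 ∈ B)
    (h5 : ∀ j, m4 X x y z j / m4 X x y z 3 ∈ B)
    : x ∈ B ∧ y⁻¹ ∈ B ∧ z⁻¹ ∈ B ∧ x⁻¹ ∈ B := by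
  have h3_0 : y / (y * z) ∈ B := h3 0
  have h3_1 : z / (y * z) ∈ B := h3 1
  have h4_0 : x * y / (y * z) ∈ B := h4 0
  have h4_1 : x * y * z / (y * z) ∈ B := h4 1
  have h4_3 : x * z / (y * z) ∈ B := h4 3
  have h4_4 : z / (y * z) ∈ B := h4 4
  have h5_0 : X * z / (x * y * z) ∈ B := h5 0
  have h5_1 : X * y * z / (x * y * z) ∈ B := h5 1
  have h5_2 : x * y / (x * y * z) ∈ B := h5 2
  refine ⟨?_, ?_, ?_, ?_⟩
  · exact ex
  · exact ey
  · exact ez
  · have e : x⁻¹ = (3 : K)⁻¹ * (1 - X * y * z / (x * y * z)) := by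
      field_simp <;> rw [hXe] <;> ring1
    exact mem_eq e (mul_mem ht (sub_mem (one_mem _) h5_1))

theorem X14_xi {x y z X : K} (hx : x ≠ 0) (hy : y ≠ 0) (hz : z ≠ 0)
    (hX : X ≠ 0) (hXe : x = X + 3) :
    (x = x) ∧ ((y⁻¹) = y⁻¹) ∧ ((z⁻¹) = z⁻¹) := by
  refine ⟨?_, ?_, ?_⟩
  · first | rfl | (rw [hXe]; ring1) | (field_simp; done) | (field_simp <;> rw [hXe] <;> ring1)
  · first | rfl | (rw [hXe]; ring1) | (field_simp; done) | (field_simp <;> rw [hXe] <;> ring1)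
  · first | rfl | (rw [hXe]; ring1) | (field_simp; done) | (field_simp <;> rw [hXe] <;> ring1)

theorem X14_phi {B : Subalgebra O K} {x y z X : K} (hx : x ≠ 0) (hy : y ≠ 0) (hz : z ≠ 0)
    (hX : X ≠ 0) (hXe : x = X + 3) (ha : x ∈ B) (hb : y⁻¹ ∈ B) (hc : z⁻¹ ∈ B) :
    x ∈ B := by
  exact ha

theorem X15_le {B : Subalgebra O K} {x y z X : K} (hx : x ≠ 0) (hy : y ≠ 0) (hz : z ≠ 0)
    (hX : X ≠ 0) (hXe : x = X + 3) (ha : x⁻¹ ∈ B) (hb : y⁻¹ ∈ B) (hc : z⁻¹ ∈ B)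
    (hQ : 1 ∈ B) :
    (∀ j, lyz y z j / lyz y z 2 ∈ B) ∧
    (∀ j, lxyz x y z j / lxyz x y z 1 ∈ B) ∧
    (∀ j, m4 X x y z j / m4 X x y z 3 ∈ B) := by
  have hP : X / x ∈ B :=
    mem_eq (by first | (rw [hXe]; ring1) | (field_simp <;> rw [hXe] <;> ring1)) (sub_mem (one_mem B) (mul_mem (three_mem B) ha))
  refine ⟨?_, ?_, ?_⟩
  · intro j
    fin_cases j
    · change y / (y * z) ∈ B
      exact mem_eq (by field_simp) (hc)
    · change z / (y * z) ∈ B
      exact mem_eq (by field_simp) (hb)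
    · exact div_self_mem B _
  · intro j
    fin_cases j
    · change x * y / (x * y * z) ∈ B
      exact mem_eq (by field_simp) (hc)
    · exact div_self_mem B _
    · change y * z / (x * y * z) ∈ B
      exact mem_eq (by field_simp) (ha)
    · change x * z / (x * y * z) ∈ B
      exact mem_eq (by field_simp) (hb)
    · change z / (x * y * z) ∈ B
      exact mem_eq (by field_simp) (mul_mem ha hb)
  · intro j
    fin_cases j
    · change X * z / (x * y * z) ∈ B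
      exact mem_eq (by field_simp) (mul_mem hb hP)
    · change X * y * z / (x * y * z) ∈ B
      exact mem_eq (by field_simp) (hP)
    · change x * y / (x * y * z) ∈ B
      exact mem_eq (by field_simp) (hc)
    · exact div_self_mem B _

theorem X15_ge {B : Subalgebra O K} {x y z X : K} (hx : x ≠ 0) (hy : y ≠ 0) (hz : z ≠ 0)
    (hX : X ≠ 0) (hXe : x = X + 3) (h30 : (3 : K) ≠ 0) (ht : (3 : K)⁻¹ ∈ B)
    (ex : x⁻¹ ∈ B) (ey : y⁻¹ ∈ B) (ez : z⁻¹ ∈ B)
    (h3 : ∀ j, lyz y z j / lyz y z 2 ∈ B)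
    (h4 : ∀ j, lxyz x y z j / lxyz x y z 1 ∈ B)
    (h5 : ∀ j, m4 X x y z j / m4 X x y z 3 ∈ B)
    : x⁻¹ ∈ B ∧ y⁻¹ ∈ B ∧ z⁻¹ ∈ B ∧ 1 ∈ B := by
  have h3_0 : y / (y * z) ∈ B := h3 0
  have h3_1 : z / (y * z) ∈ B := h3 1
  have h4_0 : x * y / (x * y * z) ∈ B := h4 0
  have h4_2 : y * z / (x * y * z) ∈ B := h4 2
  have h4_3 : x * z / (x * y * z) ∈ B := h4 3
  have h4_4 : z / (x * y * z) ∈ B := h4 4
  have h5_0 : X * z / (x * y * z) ∈ B := h5 0
  have h5_1 : X * y * z / (x * y * z) ∈ B := h5 1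
  have h5_2 : x * y / (x * y * z) ∈ B := h5 2
  refine ⟨?_, ?_, ?_, ?_⟩
  · exact ex
  · exact ey
  · exact ez
  · exact one_mem B

theorem X15_xi {x y z X : K} (hx : x ≠ 0) (hy : y ≠ 0) (hz : z ≠ 0)
    (hX : X ≠ 0) (hXe : x = X + 3) :
    ((x⁻¹) = x⁻¹) ∧ ((y⁻¹) = y⁻¹) ∧ ((z⁻¹) = z⁻¹) := by
  refine ⟨?_, ?_, ?_⟩
  · first | rfl | (rw [hXe]; ring1) | (field_simp; done) | (field_simp <;> rw [hXe] <;> ring1)
  · first | rfl | (rw [hXe]; ring1) | (field_simp; done) | (field_simp <;> rw [hXe] <;> ring1)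
  · first | rfl | (rw [hXe]; ring1) | (field_simp; done) | (field_simp <;> rw [hXe] <;> ring1)

end Pool.Agent.Lib.MP_55c1e7_ag.CH
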