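import Mathlib
import Pool.Agent.Lib.MP_55c1e7_ag.CH.Cs
import Pool.Agent.Lib.MP_55c1e7_ag.CH.Xa

set_option linter.unusedVariables false
set_option linter.unusedTactic false
set_option linter.unreachableTactic false
set_option linter.unusedSimpArgs false
set_option linter.unnecessarySeqFocus false

open MvPolynomial

namespace Pool.Agent.Lib.MP_55c1e7_ag.CH

open Pool.Agent.Lib.MP_55c1e7_ag.CK

variable {k : Type} [Field k] {K : Type} [Field K] [Algebra k K]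

/-- The coordinates of chart 1. -/
noncomputable def X1_a (P : Pt k K) : Fin 3 → K :=
  ![P.x 0, P.x 1, P.x 2 / (P.x 0 * P.x 1)]

theorem X1_hxi (P : Pt k K) (O : Type) [CommRing O] [Algebra O K] (j : Fin 3) :
    aeval (X1_a P) (T1 O j) = xx P ![false, false, false] j := by
  have h := X1_xi (x_ne P 0) (x_ne P 1) (x_ne P 2) (x3_ne P) (sub_add_cancel _ _).symm
  fin_cases j
  · change aeval (X1_a P) (X 0 : MvPolynomial (Fin 3) O) = P.x 0
    simp only [map_mul, map_sub, map_add, map_one, map_ofNat, aeval_X]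
    exact h.1
  · change aeval (X1_a P) (X 1 : MvPolynomial (Fin 3) O) = P.x 1
    simp only [map_mul, map_sub, map_add, map_one, map_ofNat, aeval_X]
    exact h.2.1
  · change aeval (X1_a P) (X 0 * X 1 * X 2 : MvPolynomial (Fin 3) O) = P.x 2
    simp only [map_mul, map_sub, map_add, map_one, map_ofNat, aeval_X]
    exact h.2.2

theorem X1_F (P : Pt k K) (j : Fin 3) : X1_a P j ∈ P.F := by
  fin_cases j
  · change P.x 0 ∈ P.F
    exact xF P 0
  · change P.x 1 ∈ P.F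
    exact xF P 1
  · change P.x 2 / (P.x 0 * P.x 1) ∈ P.F
    exact div_mem (xF P 2) (mul_mem (xF P 0) (xF P 1))

theorem X1_cle (P : Pt k K) (B : Subalgebra k K) (ha : ∀ j, X1_a P j ∈ B)
    (hφ : (1 : K)⁻¹ ∈ B) (hw : ∀ j, ww P ![false, false, false] j ∈ B) :
    chartRing k (hX P) (iZ ![false, false, false] 0 0 2) ≤ B := by
  rw [inv_one] at hφ
  have ha0 : P.x 0 ∈ B := ha 0
  have ha1 : P.x 1 ∈ B := ha 1
  have ha2 : P.x 2 / (P.x 0 * P.x 1) ∈ B := ha 2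
  have h := X1_le (x_ne P 0) (x_ne P 1) (x_ne P 2) (x3_ne P) (sub_add_cancel _ _).symm ha0 ha1 ha2 hφ
  have hxx : ∀ j, xx P ![false, false, false] j ∈ B := fun j => by
    rw [← X1_hxi P k j]
    exact aeval_mem_of B _ _ ha j
  exact X_le P ![false, false, false] 0 0 2 B hxx hw h.1 h.2.1 h.2.2

theorem X1_cge (P : Pt k K) (h30 : (3 : K) ≠ 0) :
    (∀ j, X1_a P j ∈ chartRing k (hX P) (iZ ![false, false, false] 0 0 2)) ∧
    (1 : K)⁻¹ ∈ chartRing k (hX P) (iZ ![false, false, false] 0 0 2) ∧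
    ∀ j, ww P ![false, false, false] j ∈ chartRing k (hX P) (iZ ![false, false, false] 0 0 2) := by
  obtain ⟨hxx, hww, h3, h4, h5⟩ := X_ge (O := k) P ![false, false, false] 0 0 2
  have hx0 : P.x 0 ∈ chartRing k (hX P) (iZ ![false, false, false] 0 0 2) := hxx 0
  have hx1 : P.x 1 ∈ chartRing k (hX P) (iZ ![false, false, false] 0 0 2) := hxx 1
  have hx2 : P.x 2 ∈ chartRing k (hX P) (iZ ![false, false, false] 0 0 2) := hxx 2
  have h := X1_ge (x_ne P 0) (x_ne P 1) (x_ne P 2) (x3_ne P) (sub_add_cancel _ _).symm h30 (third_mem _) hx0 hx1 hx2 h3 h4 h5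
  refine ⟨?_, ?_, hww⟩
  · intro j
    fin_cases j
    · exact h.1
    · exact h.2.1
    · exact h.2.2.1
  · rw [inv_one]
    exact h.2.2.2

/-- Chart 1. -/
noncomputable def X1 (P : Pt k K) (t s : k) (h2 : 2 * t = 1) (h41 : 41 * s = 1) (h30 : (3 : K) ≠ 0) :
    Chart k P (hX P) (iZ ![false, false, false] 0 0 2) where
  s := ![false, false, false]
  a := X1_a P
  φ := 1
  ξ := T1 k
  d := T1_data t s h2 h41
  hξ := X1_hxi P k
  hF := X1_F P
  φmem := one_mem _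
  φ0 := one_ne_zero
  le := X1_cle P
  ge := X1_cge P h30

/-- The coordinates of chart 2. -/
noncomputable def X2_a (P : Pt k K) : Fin 3 → K :=
  ![P.x 2 / P.x 1, P.x 1, P.x 0 * P.x 1 / P.x 2]

theorem X2_hxi (P : Pt k K) (O : Type) [CommRing O] [Algebra O K] (j : Fin 3) :
    aeval (X2_a P) (T2 O j) = xx P ![false, false, false] j := by
  have h := X2_xi (x_ne P 0) (x_ne P 1) (x_ne P 2) (x3_ne P) (sub_add_cancel _ _).symm
  fin_cases j
  · change aeval (X2_a P) (X 0 * X 2 : MvPolynomial (Fin 3) O) = P.x 0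
    simp only [map_mul, map_sub, map_add, map_one, map_ofNat, aeval_X]
    exact h.1
  · change aeval (X2_a P) (X 1 : MvPolynomial (Fin 3) O) = P.x 1
    simp only [map_mul, map_sub, map_add, map_one, map_ofNat, aeval_X]
    exact h.2.1
  · change aeval (X2_a P) (X 0 * X 1 : MvPolynomial (Fin 3) O) = P.x 2
    simp only [map_mul, map_sub, map_add, map_one, map_ofNat, aeval_X]
    exact h.2.2

theorem X2_F (P : Pt k K) (j : Fin 3) : X2_a P j ∈ P.F := by
  fin_cases j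
  · change P.x 2 / P.x 1 ∈ P.F
    exact div_mem (xF P 2) (xF P 1)
  · change P.x 1 ∈ P.F
    exact xF P 1
  · change P.x 0 * P.x 1 / P.x 2 ∈ P.F
    exact div_mem (mul_mem (xF P 0) (xF P 1)) (xF P 2)

theorem X2_cle (P : Pt k K) (B : Subalgebra k K) (ha : ∀ j, X2_a P j ∈ B)
    (hφ : ((P.x 0 - 3) : K)⁻¹ ∈ B) (hw : ∀ j, ww P ![false, false, false] j ∈ B) :
    chartRing k (hX P) (iZ ![false, false, false] 0 4 0) ≤ B := by
  have ha0 : P.x 2 / P.x 1 ∈ B := ha 0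
  have ha1 : P.x 1 ∈ B := ha 1
  have ha2 : P.x 0 * P.x 1 / P.x 2 ∈ B := ha 2
  have h := X2_le (x_ne P 0) (x_ne P 1) (x_ne P 2) (x3_ne P) (sub_add_cancel _ _).symm ha0 ha1 ha2 hφ
  have hxx : ∀ j, xx P ![false, false, false] j ∈ B := fun j => by
    rw [← X2_hxi P k j]
    exact aeval_mem_of B _ _ ha j
  exact X_le P ![false, false, false] 0 4 0 B hxx hw h.1 h.2.1 h.2.2

theorem X2_cge (P : Pt k K) (h30 : (3 : K) ≠ 0) :
    (∀ j, X2_a P j ∈ chartRing k (hX P) (iZ ![false, false, false] 0 4 0)) ∧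
    ((P.x 0 - 3) : K)⁻¹ ∈ chartRing k (hX P) (iZ ![false, false, false] 0 4 0) ∧
    ∀ j, ww P ![false, false, false] j ∈ chartRing k (hX P) (iZ ![false, false, false] 0 4 0) := by
  obtain ⟨hxx, hww, h3, h4, h5⟩ := X_ge (O := k) P ![false, false, false] 0 4 0
  have hx0 : P.x 0 ∈ chartRing k (hX P) (iZ ![false, false, false] 0 4 0) := hxx 0
  have hx1 : P.x 1 ∈ chartRing k (hX P) (iZ ![false, false, false] 0 4 0) := hxx 1
  have hx2 : P.x 2 ∈ chartRing k (hX P) (iZ ![false, false, false] 0 4 0) := hxx 2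
  have h := X2_ge (x_ne P 0) (x_ne P 1) (x_ne P 2) (x3_ne P) (sub_add_cancel _ _).symm h30 (third_mem _) hx0 hx1 hx2 h3 h4 h5
  refine ⟨?_, ?_, hww⟩
  · intro j
    fin_cases j
    · exact h.1
    · exact h.2.1
    · exact h.2.2.1
  · exact h.2.2.2

/-- Chart 2. -/
noncomputable def X2 (P : Pt k K) (t s : k) (h2 : 2 * t = 1) (h41 : 41 * s = 1) (h30 : (3 : K) ≠ 0) :
    Chart k P (hX P) (iZ ![false, false, false] 0 4 0) where
  s := ![false, false, false]
  a := X2_a P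
  φ := (P.x 0 - 3)
  ξ := T2 k
  d := T2_data t s h2 h41
  hξ := X2_hxi P k
  hF := X2_F P
  φmem := X2_phi (x_ne P 0) (x_ne P 1) (x_ne P 2) (x3_ne P) (sub_add_cancel _ _).symm
    (Algebra.subset_adjoin ⟨0, rfl⟩) (Algebra.subset_adjoin ⟨1, rfl⟩) (Algebra.subset_adjoin ⟨2, rfl⟩)
  φ0 := x3_ne P
  le := X2_cle P
  ge := X2_cge P h30

/-- The coordinates of chart 3. -/
noncomputable def X3_a (P : Pt k K) : Fin 3 → K :=
  ![P.x 0, P.x 2, P.x 1 / ((P.x 0 - 3) * P.x 2)]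

theorem X3_hxi (P : Pt k K) (O : Type) [CommRing O] [Algebra O K] (j : Fin 3) :
    aeval (X3_a P) (T3 O j) = xx P ![false, false, false] j := by
  have h := X3_xi (x_ne P 0) (x_ne P 1) (x_ne P 2) (x3_ne P) (sub_add_cancel _ _).symm
  fin_cases j
  · change aeval (X3_a P) (X 0 : MvPolynomial (Fin 3) O) = P.x 0
    simp only [map_mul, map_sub, map_add, map_one, map_ofNat, aeval_X]
    exact h.1
  · change aeval (X3_a P) (X 1 * (X 0 - 3) * X 2 : MvPolynomial (Fin 3) O) = P.x 1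
    simp only [map_mul, map_sub, map_add, map_one, map_ofNat, aeval_X]
    exact h.2.1
  · change aeval (X3_a P) (X 1 : MvPolynomial (Fin 3) O) = P.x 2
    simp only [map_mul, map_sub, map_add, map_one, map_ofNat, aeval_X]
    exact h.2.2

theorem X3_F (P : Pt k K) (j : Fin 3) : X3_a P j ∈ P.F := by
  fin_cases j
  · change P.x 0 ∈ P.F
    exact xF P 0
  · change P.x 2 ∈ P.F
    exact xF P 2
  · change P.x 1 / ((P.x 0 - 3) * P.x 2) ∈ P.F
    exact div_mem (xF P 1) (mul_mem (x3F P) (xF P 2))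

theorem X3_cle (P : Pt k K) (B : Subalgebra k K) (ha : ∀ j, X3_a P j ∈ B)
    (hφ : (1 : K)⁻¹ ∈ B) (hw : ∀ j, ww P ![false, false, false] j ∈ B) :
    chartRing k (hX P) (iZ ![false, false, false] 1 4 0) ≤ B := by
  rw [inv_one] at hφ
  have ha0 : P.x 0 ∈ B := ha 0
  have ha1 : P.x 2 ∈ B := ha 1
  have ha2 : P.x 1 / ((P.x 0 - 3) * P.x 2) ∈ B := ha 2
  have h := X3_le (x_ne P 0) (x_ne P 1) (x_ne P 2) (x3_ne P) (sub_add_cancel _ _).symm ha0 ha1 ha2 hφ
  have hxx : ∀ j, xx P ![false, false, false] j ∈ B := fun j => by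
    rw [← X3_hxi P k j]
    exact aeval_mem_of B _ _ ha j
  exact X_le P ![false, false, false] 1 4 0 B hxx hw h.1 h.2.1 h.2.2

theorem X3_cge (P : Pt k K) (h30 : (3 : K) ≠ 0) :
    (∀ j, X3_a P j ∈ chartRing k (hX P) (iZ ![false, false, false] 1 4 0)) ∧
    (1 : K)⁻¹ ∈ chartRing k (hX P) (iZ ![false, false, false] 1 4 0) ∧
    ∀ j, ww P ![false, false, false] j ∈ chartRing k (hX P) (iZ ![false, false, false] 1 4 0) := by
  obtain ⟨hxx, hww, h3, h4, h5⟩ := X_ge (O := k) P ![false, false, false] 1 4 0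
  have hx0 : P.x 0 ∈ chartRing k (hX P) (iZ ![false, false, false] 1 4 0) := hxx 0
  have hx1 : P.x 1 ∈ chartRing k (hX P) (iZ ![false, false, false] 1 4 0) := hxx 1
  have hx2 : P.x 2 ∈ chartRing k (hX P) (iZ ![false, false, false] 1 4 0) := hxx 2
  have h := X3_ge (x_ne P 0) (x_ne P 1) (x_ne P 2) (x3_ne P) (sub_add_cancel _ _).symm h30 (third_mem _) hx0 hx1 hx2 h3 h4 h5
  refine ⟨?_, ?_, hww⟩
  · intro j
    fin_cases j
    · exact h.1
    · exact h.2.1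
    · exact h.2.2.1
  · rw [inv_one]
    exact h.2.2.2

/-- Chart 3. -/
noncomputable def X3 (P : Pt k K) (t s : k) (h2 : 2 * t = 1) (h41 : 41 * s = 1) (h30 : (3 : K) ≠ 0) :
    Chart k P (hX P) (iZ ![false, false, false] 1 4 0) where
  s := ![false, false, false]
  a := X3_a P
  φ := 1
  ξ := T3 k
  d := T3_data t s h2 h41
  hξ := X3_hxi P k
  hF := X3_F P
  φmem := one_mem _
  φ0 := one_ne_zero
  le := X3_cle P
  ge := X3_cge P h30

/-- The coordinates of chart 4. -/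
noncomputable def X4_a (P : Pt k K) : Fin 3 → K :=
  ![P.x 1 / P.x 2, P.x 2, (P.x 0 - 3) * P.x 2 / P.x 1]

theorem X4_hxi (P : Pt k K) (O : Type) [CommRing O] [Algebra O K] (j : Fin 3) :
    aeval (X4_a P) (T4 O j) = xx P ![false, false, false] j := by
  have h := X4_xi (x_ne P 0) (x_ne P 1) (x_ne P 2) (x3_ne P) (sub_add_cancel _ _).symm
  fin_cases j
  · change aeval (X4_a P) (3 + X 0 * X 2 : MvPolynomial (Fin 3) O) = P.x 0
    simp only [map_mul, map_sub, map_add, map_one, map_ofNat, aeval_X]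
    exact h.1
  · change aeval (X4_a P) (X 0 * X 1 : MvPolynomial (Fin 3) O) = P.x 1
    simp only [map_mul, map_sub, map_add, map_one, map_ofNat, aeval_X]
    exact h.2.1
  · change aeval (X4_a P) (X 1 : MvPolynomial (Fin 3) O) = P.x 2
    simp only [map_mul, map_sub, map_add, map_one, map_ofNat, aeval_X]
    exact h.2.2

theorem X4_F (P : Pt k K) (j : Fin 3) : X4_a P j ∈ P.F := by
  fin_cases j
  · change P.x 1 / P.x 2 ∈ P.F
    exact div_mem (xF P 1) (xF P 2)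
  · change P.x 2 ∈ P.F
    exact xF P 2
  · change (P.x 0 - 3) * P.x 2 / P.x 1 ∈ P.F
    exact div_mem (mul_mem (x3F P) (xF P 2)) (xF P 1)

theorem X4_cle (P : Pt k K) (B : Subalgebra k K) (ha : ∀ j, X4_a P j ∈ B)
    (hφ : (P.x 0 : K)⁻¹ ∈ B) (hw : ∀ j, ww P ![false, false, false] j ∈ B) :
    chartRing k (hX P) (iZ ![false, false, false] 1 4 2) ≤ B := by
  have ha0 : P.x 1 / P.x 2 ∈ B := ha 0
  have ha1 : P.x 2 ∈ B := ha 1
  have ha2 : (P.x 0 - 3) * P.x 2 / P.x 1 ∈ B := ha 2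
  have h := X4_le (x_ne P 0) (x_ne P 1) (x_ne P 2) (x3_ne P) (sub_add_cancel _ _).symm ha0 ha1 ha2 hφ
  have hxx : ∀ j, xx P ![false, false, false] j ∈ B := fun j => by
    rw [← X4_hxi P k j]
    exact aeval_mem_of B _ _ ha j
  exact X_le P ![false, false, false] 1 4 2 B hxx hw h.1 h.2.1 h.2.2

theorem X4_cge (P : Pt k K) (h30 : (3 : K) ≠ 0) :
    (∀ j, X4_a P j ∈ chartRing k (hX P) (iZ ![false, false, false] 1 4 2)) ∧
    (P.x 0 : K)⁻¹ ∈ chartRing k (hX P) (iZ ![false, false, false] 1 4 2) ∧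
    ∀ j, ww P ![false, false, false] j ∈ chartRing k (hX P) (iZ ![false, false, false] 1 4 2) := by
  obtain ⟨hxx, hww, h3, h4, h5⟩ := X_ge (O := k) P ![false, false, false] 1 4 2
  have hx0 : P.x 0 ∈ chartRing k (hX P) (iZ ![false, false, false] 1 4 2) := hxx 0
  have hx1 : P.x 1 ∈ chartRing k (hX P) (iZ ![false, false, false] 1 4 2) := hxx 1
  have hx2 : P.x 2 ∈ chartRing k (hX P) (iZ ![false, false, false] 1 4 2) := hxx 2
  have h := X4_ge (x_ne P 0) (x_ne P 1) (x_ne P 2) (x3_ne P) (sub_add_cancel _ _).symm h30 (third_mem _) hx0 hx1 hx2 h3 h4 h5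
  refine ⟨?_, ?_, hww⟩
  · intro j
    fin_cases j
    · exact h.1
    · exact h.2.1
    · exact h.2.2.1
  · exact h.2.2.2

/-- Chart 4. -/
noncomputable def X4 (P : Pt k K) (t s : k) (h2 : 2 * t = 1) (h41 : 41 * s = 1) (h30 : (3 : K) ≠ 0) :
    Chart k P (hX P) (iZ ![false, false, false] 1 4 2) where
  s := ![false, false, false]
  a := X4_a P
  φ := P.x 0
  ξ := T4 k
  d := T4_data t s h2 h41
  hξ := X4_hxi P k
  hF := X4_F P
  φmem := X4_phi (x_ne P 0) (x_ne P 1) (x_ne P 2) (x3_ne P) (sub_add_cancel _ _).symm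
    (Algebra.subset_adjoin ⟨0, rfl⟩) (Algebra.subset_adjoin ⟨1, rfl⟩) (Algebra.subset_adjoin ⟨2, rfl⟩)
  φ0 := x_ne P 0
  le := X4_cle P
  ge := X4_cge P h30

/-- The coordinates of chart 5. -/
noncomputable def X5_a (P : Pt k K) : Fin 3 → K :=
  ![P.x 0, (P.x 1)⁻¹, P.x 2 / P.x 0]

theorem X5_hxi (P : Pt k K) (O : Type) [CommRing O] [Algebra O K] (j : Fin 3) :
    aeval (X5_a P) (T5 O j) = xx P ![false, true, false] j := by
  have h := X5_xi (x_ne P 0) (x_ne P 1) (x_ne P 2) (x3_ne P) (sub_add_cancel _ _).symm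
  fin_cases j
  · change aeval (X5_a P) (X 0 : MvPolynomial (Fin 3) O) = P.x 0
    simp only [map_mul, map_sub, map_add, map_one, map_ofNat, aeval_X]
    exact h.1
  · change aeval (X5_a P) (X 1 : MvPolynomial (Fin 3) O) = (P.x 1)⁻¹
    simp only [map_mul, map_sub, map_add, map_one, map_ofNat, aeval_X]
    exact h.2.1
  · change aeval (X5_a P) (X 0 * X 2 : MvPolynomial (Fin 3) O) = P.x 2
    simp only [map_mul, map_sub, map_add, map_one, map_ofNat, aeval_X]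
    exact h.2.2

theorem X5_F (P : Pt k K) (j : Fin 3) : X5_a P j ∈ P.F := by
  fin_cases j
  · change P.x 0 ∈ P.F
    exact xF P 0
  · change (P.x 1)⁻¹ ∈ P.F
    exact inv_mem (xF P 1)
  · change P.x 2 / P.x 0 ∈ P.F
    exact div_mem (xF P 2) (xF P 0)

theorem X5_cle (P : Pt k K) (B : Subalgebra k K) (ha : ∀ j, X5_a P j ∈ B)
    (hφ : (1 : K)⁻¹ ∈ B) (hw : ∀ j, ww P ![false, true, false] j ∈ B) :
    chartRing k (hX P) (iZ ![false, true, false] 0 0 2) ≤ B := by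
  rw [inv_one] at hφ
  have ha0 : P.x 0 ∈ B := ha 0
  have ha1 : (P.x 1)⁻¹ ∈ B := ha 1
  have ha2 : P.x 2 / P.x 0 ∈ B := ha 2
  have h := X5_le (x_ne P 0) (x_ne P 1) (x_ne P 2) (x3_ne P) (sub_add_cancel _ _).symm ha0 ha1 ha2 hφ
  have hxx : ∀ j, xx P ![false, true, false] j ∈ B := fun j => by
    rw [← X5_hxi P k j]
    exact aeval_mem_of B _ _ ha j
  exact X_le P ![false, true, false] 0 0 2 B hxx hw h.1 h.2.1 h.2.2

theorem X5_cge (P : Pt k K) (h30 : (3 : K) ≠ 0) :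
    (∀ j, X5_a P j ∈ chartRing k (hX P) (iZ ![false, true, false] 0 0 2)) ∧
    (1 : K)⁻¹ ∈ chartRing k (hX P) (iZ ![false, true, false] 0 0 2) ∧
    ∀ j, ww P ![false, true, false] j ∈ chartRing k (hX P) (iZ ![false, true, false] 0 0 2) := by
  obtain ⟨hxx, hww, h3, h4, h5⟩ := X_ge (O := k) P ![false, true, false] 0 0 2
  have hx0 : P.x 0 ∈ chartRing k (hX P) (iZ ![false, true, false] 0 0 2) := hxx 0
  have hx1 : (P.x 1)⁻¹ ∈ chartRing k (hX P) (iZ ![false, true, false] 0 0 2) := hxx 1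
  have hx2 : P.x 2 ∈ chartRing k (hX P) (iZ ![false, true, false] 0 0 2) := hxx 2
  have h := X5_ge (x_ne P 0) (x_ne P 1) (x_ne P 2) (x3_ne P) (sub_add_cancel _ _).symm h30 (third_mem _) hx0 hx1 hx2 h3 h4 h5
  refine ⟨?_, ?_, hww⟩
  · intro j
    fin_cases j
    · exact h.1
    · exact h.2.1
    · exact h.2.2.1
  · rw [inv_one]
    exact h.2.2.2

/-- Chart 5. -/
noncomputable def X5 (P : Pt k K) (t s : k) (h2 : 2 * t = 1) (h41 : 41 * s = 1) (h30 : (3 : K) ≠ 0) :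
    Chart k P (hX P) (iZ ![false, true, false] 0 0 2) where
  s := ![false, true, false]
  a := X5_a P
  φ := 1
  ξ := T5 k
  d := T5_data t s h2 h41
  hξ := X5_hxi P k
  hF := X5_F P
  φmem := one_mem _
  φ0 := one_ne_zero
  le := X5_cle P
  ge := X5_cge P h30

/-- The coordinates of chart 6. -/
noncomputable def X6_a (P : Pt k K) : Fin 3 → K :=
  ![P.x 0 / P.x 2, (P.x 1)⁻¹, P.x 2]

theorem X6_hxi (P : Pt k K) (O : Type) [CommRing O] [Algebra O K] (j : Fin 3) :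
    aeval (X6_a P) (T6 O j) = xx P ![false, true, false] j := by
  have h := X6_xi (x_ne P 0) (x_ne P 1) (x_ne P 2) (x3_ne P) (sub_add_cancel _ _).symm
  fin_cases j
  · change aeval (X6_a P) (X 0 * X 2 : MvPolynomial (Fin 3) O) = P.x 0
    simp only [map_mul, map_sub, map_add, map_one, map_ofNat, aeval_X]
    exact h.1
  · change aeval (X6_a P) (X 1 : MvPolynomial (Fin 3) O) = (P.x 1)⁻¹
    simp only [map_mul, map_sub, map_add, map_one, map_ofNat, aeval_X]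
    exact h.2.1
  · change aeval (X6_a P) (X 2 : MvPolynomial (Fin 3) O) = P.x 2
    simp only [map_mul, map_sub, map_add, map_one, map_ofNat, aeval_X]
    exact h.2.2

theorem X6_F (P : Pt k K) (j : Fin 3) : X6_a P j ∈ P.F := by
  fin_cases j
  · change P.x 0 / P.x 2 ∈ P.F
    exact div_mem (xF P 0) (xF P 2)
  · change (P.x 1)⁻¹ ∈ P.F
    exact inv_mem (xF P 1)
  · change P.x 2 ∈ P.F
    exact xF P 2

theorem X6_cle (P : Pt k K) (B : Subalgebra k K) (ha : ∀ j, X6_a P j ∈ B)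
    (hφ : ((P.x 0 - 3) : K)⁻¹ ∈ B) (hw : ∀ j, ww P ![false, true, false] j ∈ B) :
    chartRing k (hX P) (iZ ![false, true, false] 0 2 1) ≤ B := by
  have ha0 : P.x 0 / P.x 2 ∈ B := ha 0
  have ha1 : (P.x 1)⁻¹ ∈ B := ha 1
  have ha2 : P.x 2 ∈ B := ha 2
  have h := X6_le (x_ne P 0) (x_ne P 1) (x_ne P 2) (x3_ne P) (sub_add_cancel _ _).symm ha0 ha1 ha2 hφ
  have hxx : ∀ j, xx P ![false, true, false] j ∈ B := fun j => by
    rw [← X6_hxi P k j]
    exact aeval_mem_of B _ _ ha j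
  exact X_le P ![false, true, false] 0 2 1 B hxx hw h.1 h.2.1 h.2.2

theorem X6_cge (P : Pt k K) (h30 : (3 : K) ≠ 0) :
    (∀ j, X6_a P j ∈ chartRing k (hX P) (iZ ![false, true, false] 0 2 1)) ∧
    ((P.x 0 - 3) : K)⁻¹ ∈ chartRing k (hX P) (iZ ![false, true, false] 0 2 1) ∧
    ∀ j, ww P ![false, true, false] j ∈ chartRing k (hX P) (iZ ![false, true, false] 0 2 1) := by
  obtain ⟨hxx, hww, h3, h4, h5⟩ := X_ge (O := k) P ![false, true, false] 0 2 1
  have hx0 : P.x 0 ∈ chartRing k (hX P) (iZ ![false, true, false] 0 2 1) := hxx 0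
  have hx1 : (P.x 1)⁻¹ ∈ chartRing k (hX P) (iZ ![false, true, false] 0 2 1) := hxx 1
  have hx2 : P.x 2 ∈ chartRing k (hX P) (iZ ![false, true, false] 0 2 1) := hxx 2
  have h := X6_ge (x_ne P 0) (x_ne P 1) (x_ne P 2) (x3_ne P) (sub_add_cancel _ _).symm h30 (third_mem _) hx0 hx1 hx2 h3 h4 h5
  refine ⟨?_, ?_, hww⟩
  · intro j
    fin_cases j
    · exact h.1
    · exact h.2.1
    · exact h.2.2.1
  · exact h.2.2.2

/-- Chart 6. -/
noncomputable def X6 (P : Pt k K) (t s : k) (h2 : 2 * t = 1) (h41 : 41 * s = 1) (h30 : (3 : K) ≠ 0) :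
    Chart k P (hX P) (iZ ![false, true, false] 0 2 1) where
  s := ![false, true, false]
  a := X6_a P
  φ := (P.x 0 - 3)
  ξ := T6 k
  d := T6_data t s h2 h41
  hξ := X6_hxi P k
  hF := X6_F P
  φmem := X6_phi (x_ne P 0) (x_ne P 1) (x_ne P 2) (x3_ne P) (sub_add_cancel _ _).symm
    (Algebra.subset_adjoin ⟨0, rfl⟩) (Algebra.subset_adjoin ⟨1, rfl⟩) (Algebra.subset_adjoin ⟨2, rfl⟩)
  φ0 := x3_ne P
  le := X6_cle P
  ge := X6_cge P h30

/-- The coordinates of chart 7. -/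
noncomputable def X7_a (P : Pt k K) : Fin 3 → K :=
  ![P.x 0, P.x 1 / (P.x 0 - 3), (P.x 2)⁻¹]

theorem X7_hxi (P : Pt k K) (O : Type) [CommRing O] [Algebra O K] (j : Fin 3) :
    aeval (X7_a P) (T7 O j) = xx P ![false, false, true] j := by
  have h := X7_xi (x_ne P 0) (x_ne P 1) (x_ne P 2) (x3_ne P) (sub_add_cancel _ _).symm
  fin_cases j
  · change aeval (X7_a P) (X 0 : MvPolynomial (Fin 3) O) = P.x 0
    simp only [map_mul, map_sub, map_add, map_one, map_ofNat, aeval_X]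
    exact h.1
  · change aeval (X7_a P) ((X 0 - 3) * X 1 : MvPolynomial (Fin 3) O) = P.x 1
    simp only [map_mul, map_sub, map_add, map_one, map_ofNat, aeval_X]
    exact h.2.1
  · change aeval (X7_a P) (X 2 : MvPolynomial (Fin 3) O) = (P.x 2)⁻¹
    simp only [map_mul, map_sub, map_add, map_one, map_ofNat, aeval_X]
    exact h.2.2

theorem X7_F (P : Pt k K) (j : Fin 3) : X7_a P j ∈ P.F := by
  fin_cases j
  · change P.x 0 ∈ P.F
    exact xF P 0
  · change P.x 1 / (P.x 0 - 3) ∈ P.F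
    exact div_mem (xF P 1) (x3F P)
  · change (P.x 2)⁻¹ ∈ P.F
    exact inv_mem (xF P 2)

theorem X7_cle (P : Pt k K) (B : Subalgebra k K) (ha : ∀ j, X7_a P j ∈ B)
    (hφ : (1 : K)⁻¹ ∈ B) (hw : ∀ j, ww P ![false, false, true] j ∈ B) :
    chartRing k (hX P) (iZ ![false, false, true] 1 4 0) ≤ B := by
  rw [inv_one] at hφ
  have ha0 : P.x 0 ∈ B := ha 0
  have ha1 : P.x 1 / (P.x 0 - 3) ∈ B := ha 1
  have ha2 : (P.x 2)⁻¹ ∈ B := ha 2
  have h := X7_le (x_ne P 0) (x_ne P 1) (x_ne P 2) (x3_ne P) (sub_add_cancel _ _).symm ha0 ha1 ha2 hφ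
  have hxx : ∀ j, xx P ![false, false, true] j ∈ B := fun j => by
    rw [← X7_hxi P k j]
    exact aeval_mem_of B _ _ ha j
  exact X_le P ![false, false, true] 1 4 0 B hxx hw h.1 h.2.1 h.2.2

theorem X7_cge (P : Pt k K) (h30 : (3 : K) ≠ 0) :
    (∀ j, X7_a P j ∈ chartRing k (hX P) (iZ ![false, false, true] 1 4 0)) ∧
    (1 : K)⁻¹ ∈ chartRing k (hX P) (iZ ![false, false, true] 1 4 0) ∧
    ∀ j, ww P ![false, false, true] j ∈ chartRing k (hX P) (iZ ![false, false, true] 1 4 0) := by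
  obtain ⟨hxx, hww, h3, h4, h5⟩ := X_ge (O := k) P ![false, false, true] 1 4 0
  have hx0 : P.x 0 ∈ chartRing k (hX P) (iZ ![false, false, true] 1 4 0) := hxx 0
  have hx1 : P.x 1 ∈ chartRing k (hX P) (iZ ![false, false, true] 1 4 0) := hxx 1
  have hx2 : (P.x 2)⁻¹ ∈ chartRing k (hX P) (iZ ![false, false, true] 1 4 0) := hxx 2
  have h := X7_ge (x_ne P 0) (x_ne P 1) (x_ne P 2) (x3_ne P) (sub_add_cancel _ _).symm h30 (third_mem _) hx0 hx1 hx2 h3 h4 h5
  refine ⟨?_, ?_, hww⟩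
  · intro j
    fin_cases j
    · exact h.1
    · exact h.2.1
    · exact h.2.2.1
  · rw [inv_one]
    exact h.2.2.2

/-- Chart 7. -/
noncomputable def X7 (P : Pt k K) (t s : k) (h2 : 2 * t = 1) (h41 : 41 * s = 1) (h30 : (3 : K) ≠ 0) :
    Chart k P (hX P) (iZ ![false, false, true] 1 4 0) where
  s := ![false, false, true]
  a := X7_a P
  φ := 1
  ξ := T7 k
  d := T7_data t s h2 h41
  hξ := X7_hxi P k
  hF := X7_F P
  φmem := one_mem _
  φ0 := one_ne_zero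
  le := X7_cle P
  ge := X7_cge P h30

/-- The coordinates of chart 8. -/
noncomputable def X8_a (P : Pt k K) : Fin 3 → K :=
  ![(P.x 0 - 3) / P.x 1, P.x 1, (P.x 2)⁻¹]

theorem X8_hxi (P : Pt k K) (O : Type) [CommRing O] [Algebra O K] (j : Fin 3) :
    aeval (X8_a P) (T8 O j) = xx P ![false, false, true] j := by
  have h := X8_xi (x_ne P 0) (x_ne P 1) (x_ne P 2) (x3_ne P) (sub_add_cancel _ _).symm
  fin_cases j
  · change aeval (X8_a P) (3 + X 0 * X 1 : MvPolynomial (Fin 3) O) = P.x 0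
    simp only [map_mul, map_sub, map_add, map_one, map_ofNat, aeval_X]
    exact h.1
  · change aeval (X8_a P) (X 1 : MvPolynomial (Fin 3) O) = P.x 1
    simp only [map_mul, map_sub, map_add, map_one, map_ofNat, aeval_X]
    exact h.2.1
  · change aeval (X8_a P) (X 2 : MvPolynomial (Fin 3) O) = (P.x 2)⁻¹
    simp only [map_mul, map_sub, map_add, map_one, map_ofNat, aeval_X]
    exact h.2.2

theorem X8_F (P : Pt k K) (j : Fin 3) : X8_a P j ∈ P.F := by
  fin_cases j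
  · change (P.x 0 - 3) / P.x 1 ∈ P.F
    exact div_mem (x3F P) (xF P 1)
  · change P.x 1 ∈ P.F
    exact xF P 1
  · change (P.x 2)⁻¹ ∈ P.F
    exact inv_mem (xF P 2)

theorem X8_cle (P : Pt k K) (B : Subalgebra k K) (ha : ∀ j, X8_a P j ∈ B)
    (hφ : (P.x 0 : K)⁻¹ ∈ B) (hw : ∀ j, ww P ![false, false, true] j ∈ B) :
    chartRing k (hX P) (iZ ![false, false, true] 1 4 3) ≤ B := by
  have ha0 : (P.x 0 - 3) / P.x 1 ∈ B := ha 0
  have ha1 : P.x 1 ∈ B := ha 1
  have ha2 : (P.x 2)⁻¹ ∈ B := ha 2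
  have h := X8_le (x_ne P 0) (x_ne P 1) (x_ne P 2) (x3_ne P) (sub_add_cancel _ _).symm ha0 ha1 ha2 hφ
  have hxx : ∀ j, xx P ![false, false, true] j ∈ B := fun j => by
    rw [← X8_hxi P k j]
    exact aeval_mem_of B _ _ ha j
  exact X_le P ![false, false, true] 1 4 3 B hxx hw h.1 h.2.1 h.2.2

theorem X8_cge (P : Pt k K) (h30 : (3 : K) ≠ 0) :
    (∀ j, X8_a P j ∈ chartRing k (hX P) (iZ ![false, false, true] 1 4 3)) ∧
    (P.x 0 : K)⁻¹ ∈ chartRing k (hX P) (iZ ![false, false, true] 1 4 3) ∧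
    ∀ j, ww P ![false, false, true] j ∈ chartRing k (hX P) (iZ ![false, false, true] 1 4 3) := by
  obtain ⟨hxx, hww, h3, h4, h5⟩ := X_ge (O := k) P ![false, false, true] 1 4 3
  have hx0 : P.x 0 ∈ chartRing k (hX P) (iZ ![false, false, true] 1 4 3) := hxx 0
  have hx1 : P.x 1 ∈ chartRing k (hX P) (iZ ![false, false, true] 1 4 3) := hxx 1
  have hx2 : (P.x 2)⁻¹ ∈ chartRing k (hX P) (iZ ![false, false, true] 1 4 3) := hxx 2
  have h := X8_ge (x_ne P 0) (x_ne P 1) (x_ne P 2) (x3_ne P) (sub_add_cancel _ _).symm h30 (third_mem _) hx0 hx1 hx2 h3 h4 h5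
  refine ⟨?_, ?_, hww⟩
  · intro j
    fin_cases j
    · exact h.1
    · exact h.2.1
    · exact h.2.2.1
  · exact h.2.2.2

/-- Chart 8. -/
noncomputable def X8 (P : Pt k K) (t s : k) (h2 : 2 * t = 1) (h41 : 41 * s = 1) (h30 : (3 : K) ≠ 0) :
    Chart k P (hX P) (iZ ![false, false, true] 1 4 3) where
  s := ![false, false, true]
  a := X8_a P
  φ := P.x 0
  ξ := T8 k
  d := T8_data t s h2 h41
  hξ := X8_hxi P k
  hF := X8_F P
  φmem := X8_phi (x_ne P 0) (x_ne P 1) (x_ne P 2) (x3_ne P) (sub_add_cancel _ _).symm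
    (Algebra.subset_adjoin ⟨0, rfl⟩) (Algebra.subset_adjoin ⟨1, rfl⟩) (Algebra.subset_adjoin ⟨2, rfl⟩)
  φ0 := x_ne P 0
  le := X8_cle P
  ge := X8_cge P h30

/-- The coordinates of chart 9. -/
noncomputable def X9_a (P : Pt k K) : Fin 3 → K :=
  ![(P.x 0)⁻¹, P.x 1, P.x 2 / P.x 1]

theorem X9_hxi (P : Pt k K) (O : Type) [CommRing O] [Algebra O K] (j : Fin 3) :
    aeval (X9_a P) (T9 O j) = xx P ![true, false, false] j := by
  have h := X9_xi (x_ne P 0) (x_ne P 1) (x_ne P 2) (x3_ne P) (sub_add_cancel _ _).symm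
  fin_cases j
  · change aeval (X9_a P) (X 0 : MvPolynomial (Fin 3) O) = (P.x 0)⁻¹
    simp only [map_mul, map_sub, map_add, map_one, map_ofNat, aeval_X]
    exact h.1
  · change aeval (X9_a P) (X 1 : MvPolynomial (Fin 3) O) = P.x 1
    simp only [map_mul, map_sub, map_add, map_one, map_ofNat, aeval_X]
    exact h.2.1
  · change aeval (X9_a P) (X 1 * X 2 : MvPolynomial (Fin 3) O) = P.x 2
    simp only [map_mul, map_sub, map_add, map_one, map_ofNat, aeval_X]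
    exact h.2.2

theorem X9_F (P : Pt k K) (j : Fin 3) : X9_a P j ∈ P.F := by
  fin_cases j
  · change (P.x 0)⁻¹ ∈ P.F
    exact inv_mem (xF P 0)
  · change P.x 1 ∈ P.F
    exact xF P 1
  · change P.x 2 / P.x 1 ∈ P.F
    exact div_mem (xF P 2) (xF P 1)

theorem X9_cle (P : Pt k K) (B : Subalgebra k K) (ha : ∀ j, X9_a P j ∈ B)
    (hφ : (1 : K)⁻¹ ∈ B) (hw : ∀ j, ww P ![true, false, false] j ∈ B) :
    chartRing k (hX P) (iZ ![true, false, false] 0 0 2) ≤ B := by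
  rw [inv_one] at hφ
  have ha0 : (P.x 0)⁻¹ ∈ B := ha 0
  have ha1 : P.x 1 ∈ B := ha 1
  have ha2 : P.x 2 / P.x 1 ∈ B := ha 2
  have h := X9_le (x_ne P 0) (x_ne P 1) (x_ne P 2) (x3_ne P) (sub_add_cancel _ _).symm ha0 ha1 ha2 hφ
  have hxx : ∀ j, xx P ![true, false, false] j ∈ B := fun j => by
    rw [← X9_hxi P k j]
    exact aeval_mem_of B _ _ ha j
  exact X_le P ![true, false, false] 0 0 2 B hxx hw h.1 h.2.1 h.2.2

theorem X9_cge (P : Pt k K) (h30 : (3 : K) ≠ 0) :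
    (∀ j, X9_a P j ∈ chartRing k (hX P) (iZ ![true, false, false] 0 0 2)) ∧
    (1 : K)⁻¹ ∈ chartRing k (hX P) (iZ ![true, false, false] 0 0 2) ∧
    ∀ j, ww P ![true, false, false] j ∈ chartRing k (hX P) (iZ ![true, false, false] 0 0 2) := by
  obtain ⟨hxx, hww, h3, h4, h5⟩ := X_ge (O := k) P ![true, false, false] 0 0 2
  have hx0 : (P.x 0)⁻¹ ∈ chartRing k (hX P) (iZ ![true, false, false] 0 0 2) := hxx 0
  have hx1 : P.x 1 ∈ chartRing k (hX P) (iZ ![true, false, false] 0 0 2) := hxx 1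
  have hx2 : P.x 2 ∈ chartRing k (hX P) (iZ ![true, false, false] 0 0 2) := hxx 2
  have h := X9_ge (x_ne P 0) (x_ne P 1) (x_ne P 2) (x3_ne P) (sub_add_cancel _ _).symm h30 (third_mem _) hx0 hx1 hx2 h3 h4 h5
  refine ⟨?_, ?_, hww⟩
  · intro j
    fin_cases j
    · exact h.1
    · exact h.2.1
    · exact h.2.2.1
  · rw [inv_one]
    exact h.2.2.2

/-- Chart 9. -/
noncomputable def X9 (P : Pt k K) (t s : k) (h2 : 2 * t = 1) (h41 : 41 * s = 1) (h30 : (3 : K) ≠ 0) :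
    Chart k P (hX P) (iZ ![true, false, false] 0 0 2) where
  s := ![true, false, false]
  a := X9_a P
  φ := 1
  ξ := T9 k
  d := T9_data t s h2 h41
  hξ := X9_hxi P k
  hF := X9_F P
  φmem := one_mem _
  φ0 := one_ne_zero
  le := X9_cle P
  ge := X9_cge P h30

/-- The coordinates of chart 10. -/
noncomputable def X10_a (P : Pt k K) : Fin 3 → K :=
  ![(P.x 0)⁻¹, P.x 2, P.x 0 * P.x 1 / ((P.x 0 - 3) * P.x 2)]

theorem X10_hxi (P : Pt k K) (O : Type) [CommRing O] [Algebra O K] (j : Fin 3) :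
    aeval (X10_a P) (T10 O j) = xx P ![true, false, false] j := by
  have h := X10_xi (x_ne P 0) (x_ne P 1) (x_ne P 2) (x3_ne P) (sub_add_cancel _ _).symm
  fin_cases j
  · change aeval (X10_a P) (X 0 : MvPolynomial (Fin 3) O) = (P.x 0)⁻¹
    simp only [map_mul, map_sub, map_add, map_one, map_ofNat, aeval_X]
    exact h.1
  · change aeval (X10_a P) (X 1 * (1 - 3 * X 0) * X 2 : MvPolynomial (Fin 3) O) = P.x 1
    simp only [map_mul, map_sub, map_add, map_one, map_ofNat, aeval_X]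
    exact h.2.1
  · change aeval (X10_a P) (X 1 : MvPolynomial (Fin 3) O) = P.x 2
    simp only [map_mul, map_sub, map_add, map_one, map_ofNat, aeval_X]
    exact h.2.2

theorem X10_F (P : Pt k K) (j : Fin 3) : X10_a P j ∈ P.F := by
  fin_cases j
  · change (P.x 0)⁻¹ ∈ P.F
    exact inv_mem (xF P 0)
  · change P.x 2 ∈ P.F
    exact xF P 2
  · change P.x 0 * P.x 1 / ((P.x 0 - 3) * P.x 2) ∈ P.F
    exact div_mem (mul_mem (xF P 0) (xF P 1)) (mul_mem (x3F P) (xF P 2))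

theorem X10_cle (P : Pt k K) (B : Subalgebra k K) (ha : ∀ j, X10_a P j ∈ B)
    (hφ : (1 : K)⁻¹ ∈ B) (hw : ∀ j, ww P ![true, false, false] j ∈ B) :
    chartRing k (hX P) (iZ ![true, false, false] 1 3 0) ≤ B := by
  rw [inv_one] at hφ
  have ha0 : (P.x 0)⁻¹ ∈ B := ha 0
  have ha1 : P.x 2 ∈ B := ha 1
  have ha2 : P.x 0 * P.x 1 / ((P.x 0 - 3) * P.x 2) ∈ B := ha 2
  have h := X10_le (x_ne P 0) (x_ne P 1) (x_ne P 2) (x3_ne P) (sub_add_cancel _ _).symm ha0 ha1 ha2 hφ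
  have hxx : ∀ j, xx P ![true, false, false] j ∈ B := fun j => by
    rw [← X10_hxi P k j]
    exact aeval_mem_of B _ _ ha j
  exact X_le P ![true, false, false] 1 3 0 B hxx hw h.1 h.2.1 h.2.2

theorem X10_cge (P : Pt k K) (h30 : (3 : K) ≠ 0) :
    (∀ j, X10_a P j ∈ chartRing k (hX P) (iZ ![true, false, false] 1 3 0)) ∧
    (1 : K)⁻¹ ∈ chartRing k (hX P) (iZ ![true, false, false] 1 3 0) ∧
    ∀ j, ww P ![true, false, false] j ∈ chartRing k (hX P) (iZ ![true, false, false] 1 3 0) := by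
  obtain ⟨hxx, hww, h3, h4, h5⟩ := X_ge (O := k) P ![true, false, false] 1 3 0
  have hx0 : (P.x 0)⁻¹ ∈ chartRing k (hX P) (iZ ![true, false, false] 1 3 0) := hxx 0
  have hx1 : P.x 1 ∈ chartRing k (hX P) (iZ ![true, false, false] 1 3 0) := hxx 1
  have hx2 : P.x 2 ∈ chartRing k (hX P) (iZ ![true, false, false] 1 3 0) := hxx 2
  have h := X10_ge (x_ne P 0) (x_ne P 1) (x_ne P 2) (x3_ne P) (sub_add_cancel _ _).symm h30 (third_mem _) hx0 hx1 hx2 h3 h4 h5
  refine ⟨?_, ?_, hww⟩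
  · intro j
    fin_cases j
    · exact h.1
    · exact h.2.1
    · exact h.2.2.1
  · rw [inv_one]
    exact h.2.2.2

/-- Chart 10. -/
noncomputable def X10 (P : Pt k K) (t s : k) (h2 : 2 * t = 1) (h41 : 41 * s = 1) (h30 : (3 : K) ≠ 0) :
    Chart k P (hX P) (iZ ![true, false, false] 1 3 0) where
  s := ![true, false, false]
  a := X10_a P
  φ := 1
  ξ := T10 k
  d := T10_data t s h2 h41
  hξ := X10_hxi P k
  hF := X10_F P
  φmem := one_mem _
  φ0 := one_ne_zero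
  le := X10_cle P
  ge := X10_cge P h30

/-- The coordinates of chart 11. -/
noncomputable def X11_a (P : Pt k K) : Fin 3 → K :=
  ![(P.x 0)⁻¹, (P.x 1)⁻¹, P.x 2]

theorem X11_hxi (P : Pt k K) (O : Type) [CommRing O] [Algebra O K] (j : Fin 3) :
    aeval (X11_a P) (T11 O j) = xx P ![true, true, false] j := by
  have h := X11_xi (x_ne P 0) (x_ne P 1) (x_ne P 2) (x3_ne P) (sub_add_cancel _ _).symm
  fin_cases j
  · change aeval (X11_a P) (X 0 : MvPolynomial (Fin 3) O) = (P.x 0)⁻¹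
    simp only [map_mul, map_sub, map_add, map_one, map_ofNat, aeval_X]
    exact h.1
  · change aeval (X11_a P) (X 1 : MvPolynomial (Fin 3) O) = (P.x 1)⁻¹
    simp only [map_mul, map_sub, map_add, map_one, map_ofNat, aeval_X]
    exact h.2.1
  · change aeval (X11_a P) (X 2 : MvPolynomial (Fin 3) O) = P.x 2
    simp only [map_mul, map_sub, map_add, map_one, map_ofNat, aeval_X]
    exact h.2.2

theorem X11_F (P : Pt k K) (j : Fin 3) : X11_a P j ∈ P.F := by
  fin_cases j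
  · change (P.x 0)⁻¹ ∈ P.F
    exact inv_mem (xF P 0)
  · change (P.x 1)⁻¹ ∈ P.F
    exact inv_mem (xF P 1)
  · change P.x 2 ∈ P.F
    exact xF P 2

theorem X11_cle (P : Pt k K) (B : Subalgebra k K) (ha : ∀ j, X11_a P j ∈ B)
    (hφ : (1 : K)⁻¹ ∈ B) (hw : ∀ j, ww P ![true, true, false] j ∈ B) :
    chartRing k (hX P) (iZ ![true, true, false] 0 0 2) ≤ B := by
  rw [inv_one] at hφ
  have ha0 : (P.x 0)⁻¹ ∈ B := ha 0
  have ha1 : (P.x 1)⁻¹ ∈ B := ha 1
  have ha2 : P.x 2 ∈ B := ha 2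
  have h := X11_le (x_ne P 0) (x_ne P 1) (x_ne P 2) (x3_ne P) (sub_add_cancel _ _).symm ha0 ha1 ha2 hφ
  have hxx : ∀ j, xx P ![true, true, false] j ∈ B := fun j => by
    rw [← X11_hxi P k j]
    exact aeval_mem_of B _ _ ha j
  exact X_le P ![true, true, false] 0 0 2 B hxx hw h.1 h.2.1 h.2.2

theorem X11_cge (P : Pt k K) (h30 : (3 : K) ≠ 0) :
    (∀ j, X11_a P j ∈ chartRing k (hX P) (iZ ![true, true, false] 0 0 2)) ∧
    (1 : K)⁻¹ ∈ chartRing k (hX P) (iZ ![true, true, false] 0 0 2) ∧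
    ∀ j, ww P ![true, true, false] j ∈ chartRing k (hX P) (iZ ![true, true, false] 0 0 2) := by
  obtain ⟨hxx, hww, h3, h4, h5⟩ := X_ge (O := k) P ![true, true, false] 0 0 2
  have hx0 : (P.x 0)⁻¹ ∈ chartRing k (hX P) (iZ ![true, true, false] 0 0 2) := hxx 0
  have hx1 : (P.x 1)⁻¹ ∈ chartRing k (hX P) (iZ ![true, true, false] 0 0 2) := hxx 1
  have hx2 : P.x 2 ∈ chartRing k (hX P) (iZ ![true, true, false] 0 0 2) := hxx 2
  have h := X11_ge (x_ne P 0) (x_ne P 1) (x_ne P 2) (x3_ne P) (sub_add_cancel _ _).symm h30 (third_mem _) hx0 hx1 hx2 h3 h4 h5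
  refine ⟨?_, ?_, hww⟩
  · intro j
    fin_cases j
    · exact h.1
    · exact h.2.1
    · exact h.2.2.1
  · rw [inv_one]
    exact h.2.2.2

/-- Chart 11. -/
noncomputable def X11 (P : Pt k K) (t s : k) (h2 : 2 * t = 1) (h41 : 41 * s = 1) (h30 : (3 : K) ≠ 0) :
    Chart k P (hX P) (iZ ![true, true, false] 0 0 2) where
  s := ![true, true, false]
  a := X11_a P
  φ := 1
  ξ := T11 k
  d := T11_data t s h2 h41
  hξ := X11_hxi P k
  hF := X11_F P
  φmem := one_mem _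
  φ0 := one_ne_zero
  le := X11_cle P
  ge := X11_cge P h30

/-- The coordinates of chart 12. -/
noncomputable def X12_a (P : Pt k K) : Fin 3 → K :=
  ![(P.x 0)⁻¹, P.x 0 * P.x 1 / (P.x 0 - 3), (P.x 2)⁻¹]

theorem X12_hxi (P : Pt k K) (O : Type) [CommRing O] [Algebra O K] (j : Fin 3) :
    aeval (X12_a P) (T12 O j) = xx P ![true, false, true] j := by
  have h := X12_xi (x_ne P 0) (x_ne P 1) (x_ne P 2) (x3_ne P) (sub_add_cancel _ _).symm
  fin_cases j
  · change aeval (X12_a P) (X 0 : MvPolynomial (Fin 3) O) = (P.x 0)⁻¹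
    simp only [map_mul, map_sub, map_add, map_one, map_ofNat, aeval_X]
    exact h.1
  · change aeval (X12_a P) ((1 - 3 * X 0) * X 1 : MvPolynomial (Fin 3) O) = P.x 1
    simp only [map_mul, map_sub, map_add, map_one, map_ofNat, aeval_X]
    exact h.2.1
  · change aeval (X12_a P) (X 2 : MvPolynomial (Fin 3) O) = (P.x 2)⁻¹
    simp only [map_mul, map_sub, map_add, map_one, map_ofNat, aeval_X]
    exact h.2.2

theorem X12_F (P : Pt k K) (j : Fin 3) : X12_a P j ∈ P.F := by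
  fin_cases j
  · change (P.x 0)⁻¹ ∈ P.F
    exact inv_mem (xF P 0)
  · change P.x 0 * P.x 1 / (P.x 0 - 3) ∈ P.F
    exact div_mem (mul_mem (xF P 0) (xF P 1)) (x3F P)
  · change (P.x 2)⁻¹ ∈ P.F
    exact inv_mem (xF P 2)

theorem X12_cle (P : Pt k K) (B : Subalgebra k K) (ha : ∀ j, X12_a P j ∈ B)
    (hφ : (1 : K)⁻¹ ∈ B) (hw : ∀ j, ww P ![true, false, true] j ∈ B) :
    chartRing k (hX P) (iZ ![true, false, true] 1 3 0) ≤ B := by
  rw [inv_one] at hφ
  have ha0 : (P.x 0)⁻¹ ∈ B := ha 0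
  have ha1 : P.x 0 * P.x 1 / (P.x 0 - 3) ∈ B := ha 1
  have ha2 : (P.x 2)⁻¹ ∈ B := ha 2
  have h := X12_le (x_ne P 0) (x_ne P 1) (x_ne P 2) (x3_ne P) (sub_add_cancel _ _).symm ha0 ha1 ha2 hφ
  have hxx : ∀ j, xx P ![true, false, true] j ∈ B := fun j => by
    rw [← X12_hxi P k j]
    exact aeval_mem_of B _ _ ha j
  exact X_le P ![true, false, true] 1 3 0 B hxx hw h.1 h.2.1 h.2.2

theorem X12_cge (P : Pt k K) (h30 : (3 : K) ≠ 0) :
    (∀ j, X12_a P j ∈ chartRing k (hX P) (iZ ![true, false, true] 1 3 0)) ∧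
    (1 : K)⁻¹ ∈ chartRing k (hX P) (iZ ![true, false, true] 1 3 0) ∧
    ∀ j, ww P ![true, false, true] j ∈ chartRing k (hX P) (iZ ![true, false, true] 1 3 0) := by
  obtain ⟨hxx, hww, h3, h4, h5⟩ := X_ge (O := k) P ![true, false, true] 1 3 0
  have hx0 : (P.x 0)⁻¹ ∈ chartRing k (hX P) (iZ ![true, false, true] 1 3 0) := hxx 0
  have hx1 : P.x 1 ∈ chartRing k (hX P) (iZ ![true, false, true] 1 3 0) := hxx 1
  have hx2 : (P.x 2)⁻¹ ∈ chartRing k (hX P) (iZ ![true, false, true] 1 3 0) := hxx 2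
  have h := X12_ge (x_ne P 0) (x_ne P 1) (x_ne P 2) (x3_ne P) (sub_add_cancel _ _).symm h30 (third_mem _) hx0 hx1 hx2 h3 h4 h5
  refine ⟨?_, ?_, hww⟩
  · intro j
    fin_cases j
    · exact h.1
    · exact h.2.1
    · exact h.2.2.1
  · rw [inv_one]
    exact h.2.2.2

/-- Chart 12. -/
noncomputable def X12 (P : Pt k K) (t s : k) (h2 : 2 * t = 1) (h41 : 41 * s = 1) (h30 : (3 : K) ≠ 0) :
    Chart k P (hX P) (iZ ![true, false, true] 1 3 0) where
  s := ![true, false, true]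
  a := X12_a P
  φ := 1
  ξ := T12 k
  d := T12_data t s h2 h41
  hξ := X12_hxi P k
  hF := X12_F P
  φmem := one_mem _
  φ0 := one_ne_zero
  le := X12_cle P
  ge := X12_cge P h30

/-- The coordinates of chart 13. -/
noncomputable def X13_a (P : Pt k K) : Fin 3 → K :=
  ![P.x 0, (P.x 1)⁻¹, (P.x 2)⁻¹]

theorem X13_hxi (P : Pt k K) (O : Type) [CommRing O] [Algebra O K] (j : Fin 3) :
    aeval (X13_a P) (T11 O j) = xx P ![false, true, true] j := by
  have h := X13_xi (x_ne P 0) (x_ne P 1) (x_ne P 2) (x3_ne P) (sub_add_cancel _ _).symm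
  fin_cases j
  · change aeval (X13_a P) (X 0 : MvPolynomial (Fin 3) O) = P.x 0
    simp only [map_mul, map_sub, map_add, map_one, map_ofNat, aeval_X]
    exact h.1
  · change aeval (X13_a P) (X 1 : MvPolynomial (Fin 3) O) = (P.x 1)⁻¹
    simp only [map_mul, map_sub, map_add, map_one, map_ofNat, aeval_X]
    exact h.2.1
  · change aeval (X13_a P) (X 2 : MvPolynomial (Fin 3) O) = (P.x 2)⁻¹
    simp only [map_mul, map_sub, map_add, map_one, map_ofNat, aeval_X]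
    exact h.2.2

theorem X13_F (P : Pt k K) (j : Fin 3) : X13_a P j ∈ P.F := by
  fin_cases j
  · change P.x 0 ∈ P.F
    exact xF P 0
  · change (P.x 1)⁻¹ ∈ P.F
    exact inv_mem (xF P 1)
  · change (P.x 2)⁻¹ ∈ P.F
    exact inv_mem (xF P 2)

theorem X13_cle (P : Pt k K) (B : Subalgebra k K) (ha : ∀ j, X13_a P j ∈ B)
    (hφ : ((P.x 0 - 3) : K)⁻¹ ∈ B) (hw : ∀ j, ww P ![false, true, true] j ∈ B) :
    chartRing k (hX P) (iZ ![false, true, true] 2 2 1) ≤ B := by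
  have ha0 : P.x 0 ∈ B := ha 0
  have ha1 : (P.x 1)⁻¹ ∈ B := ha 1
  have ha2 : (P.x 2)⁻¹ ∈ B := ha 2
  have h := X13_le (x_ne P 0) (x_ne P 1) (x_ne P 2) (x3_ne P) (sub_add_cancel _ _).symm ha0 ha1 ha2 hφ
  have hxx : ∀ j, xx P ![false, true, true] j ∈ B := fun j => by
    rw [← X13_hxi P k j]
    exact aeval_mem_of B _ _ ha j
  exact X_le P ![false, true, true] 2 2 1 B hxx hw h.1 h.2.1 h.2.2

theorem X13_cge (P : Pt k K) (h30 : (3 : K) ≠ 0) :
    (∀ j, X13_a P j ∈ chartRing k (hX P) (iZ ![false, true, true] 2 2 1)) ∧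
    ((P.x 0 - 3) : K)⁻¹ ∈ chartRing k (hX P) (iZ ![false, true, true] 2 2 1) ∧
    ∀ j, ww P ![false, true, true] j ∈ chartRing k (hX P) (iZ ![false, true, true] 2 2 1) := by
  obtain ⟨hxx, hww, h3, h4, h5⟩ := X_ge (O := k) P ![false, true, true] 2 2 1
  have hx0 : P.x 0 ∈ chartRing k (hX P) (iZ ![false, true, true] 2 2 1) := hxx 0
  have hx1 : (P.x 1)⁻¹ ∈ chartRing k (hX P) (iZ ![false, true, true] 2 2 1) := hxx 1
  have hx2 : (P.x 2)⁻¹ ∈ chartRing k (hX P) (iZ ![false, true, true] 2 2 1) := hxx 2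
  have h := X13_ge (x_ne P 0) (x_ne P 1) (x_ne P 2) (x3_ne P) (sub_add_cancel _ _).symm h30 (third_mem _) hx0 hx1 hx2 h3 h4 h5
  refine ⟨?_, ?_, hww⟩
  · intro j
    fin_cases j
    · exact h.1
    · exact h.2.1
    · exact h.2.2.1
  · exact h.2.2.2

/-- Chart 13. -/
noncomputable def X13 (P : Pt k K) (t s : k) (h2 : 2 * t = 1) (h41 : 41 * s = 1) (h30 : (3 : K) ≠ 0) :
    Chart k P (hX P) (iZ ![false, true, true] 2 2 1) where
  s := ![false, true, true]
  a := X13_a P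
  φ := (P.x 0 - 3)
  ξ := T11 k
  d := T11_data t s h2 h41
  hξ := X13_hxi P k
  hF := X13_F P
  φmem := X13_phi (x_ne P 0) (x_ne P 1) (x_ne P 2) (x3_ne P) (sub_add_cancel _ _).symm
    (Algebra.subset_adjoin ⟨0, rfl⟩) (Algebra.subset_adjoin ⟨1, rfl⟩) (Algebra.subset_adjoin ⟨2, rfl⟩)
  φ0 := x3_ne P
  le := X13_cle P
  ge := X13_cge P h30

/-- The coordinates of chart 14. -/
noncomputable def X14_a (P : Pt k K) : Fin 3 → K :=
  ![P.x 0, (P.x 1)⁻¹, (P.x 2)⁻¹]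

theorem X14_hxi (P : Pt k K) (O : Type) [CommRing O] [Algebra O K] (j : Fin 3) :
    aeval (X14_a P) (T11 O j) = xx P ![false, true, true] j := by
  have h := X14_xi (x_ne P 0) (x_ne P 1) (x_ne P 2) (x3_ne P) (sub_add_cancel _ _).symm
  fin_cases j
  · change aeval (X14_a P) (X 0 : MvPolynomial (Fin 3) O) = P.x 0
    simp only [map_mul, map_sub, map_add, map_one, map_ofNat, aeval_X]
    exact h.1
  · change aeval (X14_a P) (X 1 : MvPolynomial (Fin 3) O) = (P.x 1)⁻¹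
    simp only [map_mul, map_sub, map_add, map_one, map_ofNat, aeval_X]
    exact h.2.1
  · change aeval (X14_a P) (X 2 : MvPolynomial (Fin 3) O) = (P.x 2)⁻¹
    simp only [map_mul, map_sub, map_add, map_one, map_ofNat, aeval_X]
    exact h.2.2

theorem X14_F (P : Pt k K) (j : Fin 3) : X14_a P j ∈ P.F := by
  fin_cases j
  · change P.x 0 ∈ P.F
    exact xF P 0
  · change (P.x 1)⁻¹ ∈ P.F
    exact inv_mem (xF P 1)
  · change (P.x 2)⁻¹ ∈ P.F
    exact inv_mem (xF P 2)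

theorem X14_cle (P : Pt k K) (B : Subalgebra k K) (ha : ∀ j, X14_a P j ∈ B)
    (hφ : (P.x 0 : K)⁻¹ ∈ B) (hw : ∀ j, ww P ![false, true, true] j ∈ B) :
    chartRing k (hX P) (iZ ![false, true, true] 2 2 3) ≤ B := by
  have ha0 : P.x 0 ∈ B := ha 0
  have ha1 : (P.x 1)⁻¹ ∈ B := ha 1
  have ha2 : (P.x 2)⁻¹ ∈ B := ha 2
  have h := X14_le (x_ne P 0) (x_ne P 1) (x_ne P 2) (x3_ne P) (sub_add_cancel _ _).symm ha0 ha1 ha2 hφ
  have hxx : ∀ j, xx P ![false, true, true] j ∈ B := fun j => by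
    rw [← X14_hxi P k j]
    exact aeval_mem_of B _ _ ha j
  exact X_le P ![false, true, true] 2 2 3 B hxx hw h.1 h.2.1 h.2.2

theorem X14_cge (P : Pt k K) (h30 : (3 : K) ≠ 0) :
    (∀ j, X14_a P j ∈ chartRing k (hX P) (iZ ![false, true, true] 2 2 3)) ∧
    (P.x 0 : K)⁻¹ ∈ chartRing k (hX P) (iZ ![false, true, true] 2 2 3) ∧
    ∀ j, ww P ![false, true, true] j ∈ chartRing k (hX P) (iZ ![false, true, true] 2 2 3) := by
  obtain ⟨hxx, hww, h3, h4, h5⟩ := X_ge (O := k) P ![false, true, true] 2 2 3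
  have hx0 : P.x 0 ∈ chartRing k (hX P) (iZ ![false, true, true] 2 2 3) := hxx 0
  have hx1 : (P.x 1)⁻¹ ∈ chartRing k (hX P) (iZ ![false, true, true] 2 2 3) := hxx 1
  have hx2 : (P.x 2)⁻¹ ∈ chartRing k (hX P) (iZ ![false, true, true] 2 2 3) := hxx 2
  have h := X14_ge (x_ne P 0) (x_ne P 1) (x_ne P 2) (x3_ne P) (sub_add_cancel _ _).symm h30 (third_mem _) hx0 hx1 hx2 h3 h4 h5
  refine ⟨?_, ?_, hww⟩
  · intro j
    fin_cases j
    · exact h.1
    · exact h.2.1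
    · exact h.2.2.1
  · exact h.2.2.2

/-- Chart 14. -/
noncomputable def X14 (P : Pt k K) (t s : k) (h2 : 2 * t = 1) (h41 : 41 * s = 1) (h30 : (3 : K) ≠ 0) :
    Chart k P (hX P) (iZ ![false, true, true] 2 2 3) where
  s := ![false, true, true]
  a := X14_a P
  φ := P.x 0
  ξ := T11 k
  d := T11_data t s h2 h41
  hξ := X14_hxi P k
  hF := X14_F P
  φmem := X14_phi (x_ne P 0) (x_ne P 1) (x_ne P 2) (x3_ne P) (sub_add_cancel _ _).symm
    (Algebra.subset_adjoin ⟨0, rfl⟩) (Algebra.subset_adjoin ⟨1, rfl⟩) (Algebra.subset_adjoin ⟨2, rfl⟩)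
  φ0 := x_ne P 0
  le := X14_cle P
  ge := X14_cge P h30

/-- The coordinates of chart 15. -/
noncomputable def X15_a (P : Pt k K) : Fin 3 → K :=
  ![(P.x 0)⁻¹, (P.x 1)⁻¹, (P.x 2)⁻¹]

theorem X15_hxi (P : Pt k K) (O : Type) [CommRing O] [Algebra O K] (j : Fin 3) :
    aeval (X15_a P) (T11 O j) = xx P ![true, true, true] j := by
  have h := X15_xi (x_ne P 0) (x_ne P 1) (x_ne P 2) (x3_ne P) (sub_add_cancel _ _).symm
  fin_cases j
  · change aeval (X15_a P) (X 0 : MvPolynomial (Fin 3) O) = (P.x 0)⁻¹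
    simp only [map_mul, map_sub, map_add, map_one, map_ofNat, aeval_X]
    exact h.1
  · change aeval (X15_a P) (X 1 : MvPolynomial (Fin 3) O) = (P.x 1)⁻¹
    simp only [map_mul, map_sub, map_add, map_one, map_ofNat, aeval_X]
    exact h.2.1
  · change aeval (X15_a P) (X 2 : MvPolynomial (Fin 3) O) = (P.x 2)⁻¹
    simp only [map_mul, map_sub, map_add, map_one, map_ofNat, aeval_X]
    exact h.2.2

theorem X15_F (P : Pt k K) (j : Fin 3) : X15_a P j ∈ P.F := by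
  fin_cases j
  · change (P.x 0)⁻¹ ∈ P.F
    exact inv_mem (xF P 0)
  · change (P.x 1)⁻¹ ∈ P.F
    exact inv_mem (xF P 1)
  · change (P.x 2)⁻¹ ∈ P.F
    exact inv_mem (xF P 2)

theorem X15_cle (P : Pt k K) (B : Subalgebra k K) (ha : ∀ j, X15_a P j ∈ B)
    (hφ : (1 : K)⁻¹ ∈ B) (hw : ∀ j, ww P ![true, true, true] j ∈ B) :
    chartRing k (hX P) (iZ ![true, true, true] 2 1 3) ≤ B := by
  rw [inv_one] at hφ
  have ha0 : (P.x 0)⁻¹ ∈ B := ha 0
  have ha1 : (P.x 1)⁻¹ ∈ B := ha 1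
  have ha2 : (P.x 2)⁻¹ ∈ B := ha 2
  have h := X15_le (x_ne P 0) (x_ne P 1) (x_ne P 2) (x3_ne P) (sub_add_cancel _ _).symm ha0 ha1 ha2 hφ
  have hxx : ∀ j, xx P ![true, true, true] j ∈ B := fun j => by
    rw [← X15_hxi P k j]
    exact aeval_mem_of B _ _ ha j
  exact X_le P ![true, true, true] 2 1 3 B hxx hw h.1 h.2.1 h.2.2

theorem X15_cge (P : Pt k K) (h30 : (3 : K) ≠ 0) :
    (∀ j, X15_a P j ∈ chartRing k (hX P) (iZ ![true, true, true] 2 1 3)) ∧
    (1 : K)⁻¹ ∈ chartRing k (hX P) (iZ ![true, true, true] 2 1 3) ∧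
    ∀ j, ww P ![true, true, true] j ∈ chartRing k (hX P) (iZ ![true, true, true] 2 1 3) := by
  obtain ⟨hxx, hww, h3, h4, h5⟩ := X_ge (O := k) P ![true, true, true] 2 1 3
  have hx0 : (P.x 0)⁻¹ ∈ chartRing k (hX P) (iZ ![true, true, true] 2 1 3) := hxx 0
  have hx1 : (P.x 1)⁻¹ ∈ chartRing k (hX P) (iZ ![true, true, true] 2 1 3) := hxx 1
  have hx2 : (P.x 2)⁻¹ ∈ chartRing k (hX P) (iZ ![true, true, true] 2 1 3) := hxx 2
  have h := X15_ge (x_ne P 0) (x_ne P 1) (x_ne P 2) (x3_ne P) (sub_add_cancel _ _).symm h30 (third_mem _) hx0 hx1 hx2 h3 h4 h5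
  refine ⟨?_, ?_, hww⟩
  · intro j
    fin_cases j
    · exact h.1
    · exact h.2.1
    · exact h.2.2.1
  · rw [inv_one]
    exact h.2.2.2

/-- Chart 15. -/
noncomputable def X15 (P : Pt k K) (t s : k) (h2 : 2 * t = 1) (h41 : 41 * s = 1) (h30 : (3 : K) ≠ 0) :
    Chart k P (hX P) (iZ ![true, true, true] 2 1 3) where
  s := ![true, true, true]
  a := X15_a P
  φ := 1
  ξ := T11 k
  d := T11_data t s h2 h41
  hξ := X15_hxi P k
  hF := X15_F P
  φmem := one_mem _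
  φ0 := one_ne_zero
  le := X15_cle P
  ge := X15_cge P h30

end Pool.Agent.Lib.MP_55c1e7_ag.CH
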