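import Mathlib
import Pool.Agent.Lib.MP_55c1e7_ag.CH.Cs
import Pool.Agent.Lib.MP_55c1e7_ag.CH.Ya

set_option linter.unusedVariables false
set_option linter.unusedTactic false
set_option linter.unreachableTactic false
set_option linter.unusedSimpArgs false
set_option linter.unnecessarySeqFocus false

open MvPolynomial

namespace Pool.Agent.Lib.MP_55c1e7_ag.CH

open Pool.Agent.Lib.MP_55c1e7_ag.CK

variable {k : Type} [Field k] {K : Type} [Field K] [Algebra k K]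

/-- The coordinates of chart 1. -/
noncomputable def Y1_a (P : Pt k K) : Fin 3 → K :=
  ![P.x 0, P.x 1, P.x 2 / (P.x 0 * P.x 1)]

theorem Y1_hxi (P : Pt k K) (O : Type) [CommRing O] [Algebra O K] (j : Fin 3) :
    aeval (Y1_a P) (T1 O j) = xx P ![false, false, false] j := by
  have h := Y1_xi (x_ne P 0) (x_ne P 1) (x_ne P 2) (x3_ne P) (sub_add_cancel _ _).symm
  fin_cases j
  · change aeval (Y1_a P) (X 0 : MvPolynomial (Fin 3) O) = P.x 0
    simp only [map_mul, map_sub, map_add, map_one, map_ofNat, aeval_X]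
    exact h.1
  · change aeval (Y1_a P) (X 1 : MvPolynomial (Fin 3) O) = P.x 1
    simp only [map_mul, map_sub, map_add, map_one, map_ofNat, aeval_X]
    exact h.2.1
  · change aeval (Y1_a P) (X 0 * X 1 * X 2 : MvPolynomial (Fin 3) O) = P.x 2
    simp only [map_mul, map_sub, map_add, map_one, map_ofNat, aeval_X]
    exact h.2.2

theorem Y1_F (P : Pt k K) (j : Fin 3) : Y1_a P j ∈ P.F := by
  fin_cases j
  · change P.x 0 ∈ P.F
    exact xF P 0
  · change P.x 1 ∈ P.F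
    exact xF P 1
  · change P.x 2 / (P.x 0 * P.x 1) ∈ P.F
    exact div_mem (xF P 2) (mul_mem (xF P 0) (xF P 1))

theorem Y1_cle (P : Pt k K) (B : Subalgebra k K) (ha : ∀ j, Y1_a P j ∈ B)
    (hφ : (1 : K)⁻¹ ∈ B) (hw : ∀ j, ww P ![false, false, false] j ∈ B) :
    chartRing k (hY P) (iZ ![false, false, false] 0 0 2) ≤ B := by
  rw [inv_one] at hφ
  have ha0 : P.x 0 ∈ B := ha 0
  have ha1 : P.x 1 ∈ B := ha 1
  have ha2 : P.x 2 / (P.x 0 * P.x 1) ∈ B := ha 2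
  have h := Y1_le (x_ne P 0) (x_ne P 1) (x_ne P 2) (x3_ne P) (sub_add_cancel _ _).symm ha0 ha1 ha2 hφ
  have hxx : ∀ j, xx P ![false, false, false] j ∈ B := fun j => by
    rw [← Y1_hxi P k j]
    exact aeval_mem_of B _ _ ha j
  exact Y_le P ![false, false, false] 0 0 2 B hxx hw h.1 h.2.1 h.2.2

theorem Y1_cge (P : Pt k K) (h30 : (3 : K) ≠ 0) :
    (∀ j, Y1_a P j ∈ chartRing k (hY P) (iZ ![false, false, false] 0 0 2)) ∧
    (1 : K)⁻¹ ∈ chartRing k (hY P) (iZ ![false, false, false] 0 0 2) ∧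
    ∀ j, ww P ![false, false, false] j ∈ chartRing k (hY P) (iZ ![false, false, false] 0 0 2) := by
  obtain ⟨hxx, hww, h3, h4, h5⟩ := Y_ge (O := k) P ![false, false, false] 0 0 2
  have hx0 : P.x 0 ∈ chartRing k (hY P) (iZ ![false, false, false] 0 0 2) := hxx 0
  have hx1 : P.x 1 ∈ chartRing k (hY P) (iZ ![false, false, false] 0 0 2) := hxx 1
  have hx2 : P.x 2 ∈ chartRing k (hY P) (iZ ![false, false, false] 0 0 2) := hxx 2
  have h := Y1_ge (x_ne P 0) (x_ne P 1) (x_ne P 2) (x3_ne P) (sub_add_cancel _ _).symm h30 (third_mem _) hx0 hx1 hx2 h3 h4 h5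
  refine ⟨?_, ?_, hww⟩
  · intro j
    fin_cases j
    · exact h.1
    · exact h.2.1
    · exact h.2.2.1
  · rw [inv_one]
    exact h.2.2.2

/-- Chart 1. -/
noncomputable def Y1 (P : Pt k K) (t s : k) (h2 : 2 * t = 1) (h41 : 41 * s = 1) (h30 : (3 : K) ≠ 0) :
    Chart k P (hY P) (iZ ![false, false, false] 0 0 2) where
  s := ![false, false, false]
  a := Y1_a P
  φ := 1
  ξ := T1 k
  d := T1_data t s h2 h41
  hξ := Y1_hxi P k
  hF := Y1_F P
  φmem := one_mem _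
  φ0 := one_ne_zero
  le := Y1_cle P
  ge := Y1_cge P h30

/-- The coordinates of chart 2. -/
noncomputable def Y2_a (P : Pt k K) : Fin 3 → K :=
  ![P.x 0, P.x 2 / P.x 0, P.x 0 * P.x 1 / ((P.x 0 - 3) * P.x 2)]

theorem Y2_hxi (P : Pt k K) (O : Type) [CommRing O] [Algebra O K] (j : Fin 3) :
    aeval (Y2_a P) (T13 O j) = xx P ![false, false, false] j := by
  have h := Y2_xi (x_ne P 0) (x_ne P 1) (x_ne P 2) (x3_ne P) (sub_add_cancel _ _).symm
  fin_cases j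
  · change aeval (Y2_a P) (X 0 : MvPolynomial (Fin 3) O) = P.x 0
    simp only [map_mul, map_sub, map_add, map_one, map_ofNat, aeval_X]
    exact h.1
  · change aeval (Y2_a P) (X 1 * (X 0 - 3) * X 2 : MvPolynomial (Fin 3) O) = P.x 1
    simp only [map_mul, map_sub, map_add, map_one, map_ofNat, aeval_X]
    exact h.2.1
  · change aeval (Y2_a P) (X 0 * X 1 : MvPolynomial (Fin 3) O) = P.x 2
    simp only [map_mul, map_sub, map_add, map_one, map_ofNat, aeval_X]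
    exact h.2.2

theorem Y2_F (P : Pt k K) (j : Fin 3) : Y2_a P j ∈ P.F := by
  fin_cases j
  · change P.x 0 ∈ P.F
    exact xF P 0
  · change P.x 2 / P.x 0 ∈ P.F
    exact div_mem (xF P 2) (xF P 0)
  · change P.x 0 * P.x 1 / ((P.x 0 - 3) * P.x 2) ∈ P.F
    exact div_mem (mul_mem (xF P 0) (xF P 1)) (mul_mem (x3F P) (xF P 2))

theorem Y2_cle (P : Pt k K) (B : Subalgebra k K) (ha : ∀ j, Y2_a P j ∈ B)
    (hφ : (1 : K)⁻¹ ∈ B) (hw : ∀ j, ww P ![false, false, false] j ∈ B) :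
    chartRing k (hY P) (iZ ![false, false, false] 0 4 0) ≤ B := by
  rw [inv_one] at hφ
  have ha0 : P.x 0 ∈ B := ha 0
  have ha1 : P.x 2 / P.x 0 ∈ B := ha 1
  have ha2 : P.x 0 * P.x 1 / ((P.x 0 - 3) * P.x 2) ∈ B := ha 2
  have h := Y2_le (x_ne P 0) (x_ne P 1) (x_ne P 2) (x3_ne P) (sub_add_cancel _ _).symm ha0 ha1 ha2 hφ
  have hxx : ∀ j, xx P ![false, false, false] j ∈ B := fun j => by
    rw [← Y2_hxi P k j]
    exact aeval_mem_of B _ _ ha j
  exact Y_le P ![false, false, false] 0 4 0 B hxx hw h.1 h.2.1 h.2.2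

theorem Y2_cge (P : Pt k K) (h30 : (3 : K) ≠ 0) :
    (∀ j, Y2_a P j ∈ chartRing k (hY P) (iZ ![false, false, false] 0 4 0)) ∧
    (1 : K)⁻¹ ∈ chartRing k (hY P) (iZ ![false, false, false] 0 4 0) ∧
    ∀ j, ww P ![false, false, false] j ∈ chartRing k (hY P) (iZ ![false, false, false] 0 4 0) := by
  obtain ⟨hxx, hww, h3, h4, h5⟩ := Y_ge (O := k) P ![false, false, false] 0 4 0
  have hx0 : P.x 0 ∈ chartRing k (hY P) (iZ ![false, false, false] 0 4 0) := hxx 0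
  have hx1 : P.x 1 ∈ chartRing k (hY P) (iZ ![false, false, false] 0 4 0) := hxx 1
  have hx2 : P.x 2 ∈ chartRing k (hY P) (iZ ![false, false, false] 0 4 0) := hxx 2
  have h := Y2_ge (x_ne P 0) (x_ne P 1) (x_ne P 2) (x3_ne P) (sub_add_cancel _ _).symm h30 (third_mem _) hx0 hx1 hx2 h3 h4 h5
  refine ⟨?_, ?_, hww⟩
  · intro j
    fin_cases j
    · exact h.1
    · exact h.2.1
    · exact h.2.2.1
  · rw [inv_one]
    exact h.2.2.2

/-- Chart 2. -/
noncomputable def Y2 (P : Pt k K) (t s : k) (h2 : 2 * t = 1) (h41 : 41 * s = 1) (h30 : (3 : K) ≠ 0) :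
    Chart k P (hY P) (iZ ![false, false, false] 0 4 0) where
  s := ![false, false, false]
  a := Y2_a P
  φ := 1
  ξ := T13 k
  d := T13_data t s h2 h41
  hξ := Y2_hxi P k
  hF := Y2_F P
  φmem := one_mem _
  φ0 := one_ne_zero
  le := Y2_cle P
  ge := Y2_cge P h30

/-- The coordinates of chart 3. -/
noncomputable def Y3_a (P : Pt k K) : Fin 3 → K :=
  ![P.x 0 * P.x 1 / P.x 2, P.x 2 / P.x 0, (P.x 0 - 3) * P.x 2 / (P.x 0 * P.x 1)]

theorem Y3_hxi (P : Pt k K) (O : Type) [CommRing O] [Algebra O K] (j : Fin 3) :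
    aeval (Y3_a P) (T14 O j) = xx P ![false, false, false] j := by
  have h := Y3_xi (x_ne P 0) (x_ne P 1) (x_ne P 2) (x3_ne P) (sub_add_cancel _ _).symm
  fin_cases j
  · change aeval (Y3_a P) (3 + X 0 * X 2 : MvPolynomial (Fin 3) O) = P.x 0
    simp only [map_mul, map_sub, map_add, map_one, map_ofNat, aeval_X]
    exact h.1
  · change aeval (Y3_a P) (X 0 * X 1 : MvPolynomial (Fin 3) O) = P.x 1
    simp only [map_mul, map_sub, map_add, map_one, map_ofNat, aeval_X]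
    exact h.2.1
  · change aeval (Y3_a P) ((3 + X 0 * X 2) * X 1 : MvPolynomial (Fin 3) O) = P.x 2
    simp only [map_mul, map_sub, map_add, map_one, map_ofNat, aeval_X]
    exact h.2.2

theorem Y3_F (P : Pt k K) (j : Fin 3) : Y3_a P j ∈ P.F := by
  fin_cases j
  · change P.x 0 * P.x 1 / P.x 2 ∈ P.F
    exact div_mem (mul_mem (xF P 0) (xF P 1)) (xF P 2)
  · change P.x 2 / P.x 0 ∈ P.F
    exact div_mem (xF P 2) (xF P 0)
  · change (P.x 0 - 3) * P.x 2 / (P.x 0 * P.x 1) ∈ P.F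
    exact div_mem (mul_mem (x3F P) (xF P 2)) (mul_mem (xF P 0) (xF P 1))

theorem Y3_cle (P : Pt k K) (B : Subalgebra k K) (ha : ∀ j, Y3_a P j ∈ B)
    (hφ : (1 : K)⁻¹ ∈ B) (hw : ∀ j, ww P ![false, false, false] j ∈ B) :
    chartRing k (hY P) (iZ ![false, false, false] 0 4 2) ≤ B := by
  rw [inv_one] at hφ
  have ha0 : P.x 0 * P.x 1 / P.x 2 ∈ B := ha 0
  have ha1 : P.x 2 / P.x 0 ∈ B := ha 1
  have ha2 : (P.x 0 - 3) * P.x 2 / (P.x 0 * P.x 1) ∈ B := ha 2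
  have h := Y3_le (x_ne P 0) (x_ne P 1) (x_ne P 2) (x3_ne P) (sub_add_cancel _ _).symm ha0 ha1 ha2 hφ
  have hxx : ∀ j, xx P ![false, false, false] j ∈ B := fun j => by
    rw [← Y3_hxi P k j]
    exact aeval_mem_of B _ _ ha j
  exact Y_le P ![false, false, false] 0 4 2 B hxx hw h.1 h.2.1 h.2.2

theorem Y3_cge (P : Pt k K) (h30 : (3 : K) ≠ 0) :
    (∀ j, Y3_a P j ∈ chartRing k (hY P) (iZ ![false, false, false] 0 4 2)) ∧
    (1 : K)⁻¹ ∈ chartRing k (hY P) (iZ ![false, false, false] 0 4 2) ∧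
    ∀ j, ww P ![false, false, false] j ∈ chartRing k (hY P) (iZ ![false, false, false] 0 4 2) := by
  obtain ⟨hxx, hww, h3, h4, h5⟩ := Y_ge (O := k) P ![false, false, false] 0 4 2
  have hx0 : P.x 0 ∈ chartRing k (hY P) (iZ ![false, false, false] 0 4 2) := hxx 0
  have hx1 : P.x 1 ∈ chartRing k (hY P) (iZ ![false, false, false] 0 4 2) := hxx 1
  have hx2 : P.x 2 ∈ chartRing k (hY P) (iZ ![false, false, false] 0 4 2) := hxx 2
  have h := Y3_ge (x_ne P 0) (x_ne P 1) (x_ne P 2) (x3_ne P) (sub_add_cancel _ _).symm h30 (third_mem _) hx0 hx1 hx2 h3 h4 h5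
  refine ⟨?_, ?_, hww⟩
  · intro j
    fin_cases j
    · exact h.1
    · exact h.2.1
    · exact h.2.2.1
  · rw [inv_one]
    exact h.2.2.2

/-- Chart 3. -/
noncomputable def Y3 (P : Pt k K) (t s : k) (h2 : 2 * t = 1) (h41 : 41 * s = 1) (h30 : (3 : K) ≠ 0) :
    Chart k P (hY P) (iZ ![false, false, false] 0 4 2) where
  s := ![false, false, false]
  a := Y3_a P
  φ := 1
  ξ := T14 k
  d := T14_data t s h2 h41
  hξ := Y3_hxi P k
  hF := Y3_F P
  φmem := one_mem _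
  φ0 := one_ne_zero
  le := Y3_cle P
  ge := Y3_cge P h30

/-- The coordinates of chart 4. -/
noncomputable def Y4_a (P : Pt k K) : Fin 3 → K :=
  ![P.x 0 / P.x 2, P.x 2, P.x 1 / (P.x 0 - 3)]

theorem Y4_hxi (P : Pt k K) (O : Type) [CommRing O] [Algebra O K] (j : Fin 3) :
    aeval (Y4_a P) (T15 O j) = xx P ![false, false, false] j := by
  have h := Y4_xi (x_ne P 0) (x_ne P 1) (x_ne P 2) (x3_ne P) (sub_add_cancel _ _).symm
  fin_cases j
  · change aeval (Y4_a P) (X 0 * X 1 : MvPolynomial (Fin 3) O) = P.x 0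
    simp only [map_mul, map_sub, map_add, map_one, map_ofNat, aeval_X]
    exact h.1
  · change aeval (Y4_a P) ((X 0 * X 1 - 3) * X 2 : MvPolynomial (Fin 3) O) = P.x 1
    simp only [map_mul, map_sub, map_add, map_one, map_ofNat, aeval_X]
    exact h.2.1
  · change aeval (Y4_a P) (X 1 : MvPolynomial (Fin 3) O) = P.x 2
    simp only [map_mul, map_sub, map_add, map_one, map_ofNat, aeval_X]
    exact h.2.2

theorem Y4_F (P : Pt k K) (j : Fin 3) : Y4_a P j ∈ P.F := by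
  fin_cases j
  · change P.x 0 / P.x 2 ∈ P.F
    exact div_mem (xF P 0) (xF P 2)
  · change P.x 2 ∈ P.F
    exact xF P 2
  · change P.x 1 / (P.x 0 - 3) ∈ P.F
    exact div_mem (xF P 1) (x3F P)

theorem Y4_cle (P : Pt k K) (B : Subalgebra k K) (ha : ∀ j, Y4_a P j ∈ B)
    (hφ : (1 : K)⁻¹ ∈ B) (hw : ∀ j, ww P ![false, false, false] j ∈ B) :
    chartRing k (hY P) (iZ ![false, false, false] 1 4 0) ≤ B := by
  rw [inv_one] at hφ
  have ha0 : P.x 0 / P.x 2 ∈ B := ha 0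
  have ha1 : P.x 2 ∈ B := ha 1
  have ha2 : P.x 1 / (P.x 0 - 3) ∈ B := ha 2
  have h := Y4_le (x_ne P 0) (x_ne P 1) (x_ne P 2) (x3_ne P) (sub_add_cancel _ _).symm ha0 ha1 ha2 hφ
  have hxx : ∀ j, xx P ![false, false, false] j ∈ B := fun j => by
    rw [← Y4_hxi P k j]
    exact aeval_mem_of B _ _ ha j
  exact Y_le P ![false, false, false] 1 4 0 B hxx hw h.1 h.2.1 h.2.2

theorem Y4_cge (P : Pt k K) (h30 : (3 : K) ≠ 0) :
    (∀ j, Y4_a P j ∈ chartRing k (hY P) (iZ ![false, false, false] 1 4 0)) ∧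
    (1 : K)⁻¹ ∈ chartRing k (hY P) (iZ ![false, false, false] 1 4 0) ∧
    ∀ j, ww P ![false, false, false] j ∈ chartRing k (hY P) (iZ ![false, false, false] 1 4 0) := by
  obtain ⟨hxx, hww, h3, h4, h5⟩ := Y_ge (O := k) P ![false, false, false] 1 4 0
  have hx0 : P.x 0 ∈ chartRing k (hY P) (iZ ![false, false, false] 1 4 0) := hxx 0
  have hx1 : P.x 1 ∈ chartRing k (hY P) (iZ ![false, false, false] 1 4 0) := hxx 1
  have hx2 : P.x 2 ∈ chartRing k (hY P) (iZ ![false, false, false] 1 4 0) := hxx 2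
  have h := Y4_ge (x_ne P 0) (x_ne P 1) (x_ne P 2) (x3_ne P) (sub_add_cancel _ _).symm h30 (third_mem _) hx0 hx1 hx2 h3 h4 h5
  refine ⟨?_, ?_, hww⟩
  · intro j
    fin_cases j
    · exact h.1
    · exact h.2.1
    · exact h.2.2.1
  · rw [inv_one]
    exact h.2.2.2

/-- Chart 4. -/
noncomputable def Y4 (P : Pt k K) (t s : k) (h2 : 2 * t = 1) (h41 : 41 * s = 1) (h30 : (3 : K) ≠ 0) :
    Chart k P (hY P) (iZ ![false, false, false] 1 4 0) where
  s := ![false, false, false]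
  a := Y4_a P
  φ := 1
  ξ := T15 k
  d := T15_data t s h2 h41
  hξ := Y4_hxi P k
  hF := Y4_F P
  φmem := one_mem _
  φ0 := one_ne_zero
  le := Y4_cle P
  ge := Y4_cge P h30

/-- The coordinates of chart 5. -/
noncomputable def Y5_a (P : Pt k K) : Fin 3 → K :=
  ![P.x 0, (P.x 1)⁻¹, P.x 2 / P.x 0]

theorem Y5_hxi (P : Pt k K) (O : Type) [CommRing O] [Algebra O K] (j : Fin 3) :
    aeval (Y5_a P) (T5 O j) = xx P ![false, true, false] j := by
  have h := Y5_xi (x_ne P 0) (x_ne P 1) (x_ne P 2) (x3_ne P) (sub_add_cancel _ _).symm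
  fin_cases j
  · change aeval (Y5_a P) (X 0 : MvPolynomial (Fin 3) O) = P.x 0
    simp only [map_mul, map_sub, map_add, map_one, map_ofNat, aeval_X]
    exact h.1
  · change aeval (Y5_a P) (X 1 : MvPolynomial (Fin 3) O) = (P.x 1)⁻¹
    simp only [map_mul, map_sub, map_add, map_one, map_ofNat, aeval_X]
    exact h.2.1
  · change aeval (Y5_a P) (X 0 * X 2 : MvPolynomial (Fin 3) O) = P.x 2
    simp only [map_mul, map_sub, map_add, map_one, map_ofNat, aeval_X]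
    exact h.2.2

theorem Y5_F (P : Pt k K) (j : Fin 3) : Y5_a P j ∈ P.F := by
  fin_cases j
  · change P.x 0 ∈ P.F
    exact xF P 0
  · change (P.x 1)⁻¹ ∈ P.F
    exact inv_mem (xF P 1)
  · change P.x 2 / P.x 0 ∈ P.F
    exact div_mem (xF P 2) (xF P 0)

theorem Y5_cle (P : Pt k K) (B : Subalgebra k K) (ha : ∀ j, Y5_a P j ∈ B)
    (hφ : (1 : K)⁻¹ ∈ B) (hw : ∀ j, ww P ![false, true, false] j ∈ B) :
    chartRing k (hY P) (iZ ![false, true, false] 0 0 2) ≤ B := by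
  rw [inv_one] at hφ
  have ha0 : P.x 0 ∈ B := ha 0
  have ha1 : (P.x 1)⁻¹ ∈ B := ha 1
  have ha2 : P.x 2 / P.x 0 ∈ B := ha 2
  have h := Y5_le (x_ne P 0) (x_ne P 1) (x_ne P 2) (x3_ne P) (sub_add_cancel _ _).symm ha0 ha1 ha2 hφ
  have hxx : ∀ j, xx P ![false, true, false] j ∈ B := fun j => by
    rw [← Y5_hxi P k j]
    exact aeval_mem_of B _ _ ha j
  exact Y_le P ![false, true, false] 0 0 2 B hxx hw h.1 h.2.1 h.2.2

theorem Y5_cge (P : Pt k K) (h30 : (3 : K) ≠ 0) :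
    (∀ j, Y5_a P j ∈ chartRing k (hY P) (iZ ![false, true, false] 0 0 2)) ∧
    (1 : K)⁻¹ ∈ chartRing k (hY P) (iZ ![false, true, false] 0 0 2) ∧
    ∀ j, ww P ![false, true, false] j ∈ chartRing k (hY P) (iZ ![false, true, false] 0 0 2) := by
  obtain ⟨hxx, hww, h3, h4, h5⟩ := Y_ge (O := k) P ![false, true, false] 0 0 2
  have hx0 : P.x 0 ∈ chartRing k (hY P) (iZ ![false, true, false] 0 0 2) := hxx 0
  have hx1 : (P.x 1)⁻¹ ∈ chartRing k (hY P) (iZ ![false, true, false] 0 0 2) := hxx 1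
  have hx2 : P.x 2 ∈ chartRing k (hY P) (iZ ![false, true, false] 0 0 2) := hxx 2
  have h := Y5_ge (x_ne P 0) (x_ne P 1) (x_ne P 2) (x3_ne P) (sub_add_cancel _ _).symm h30 (third_mem _) hx0 hx1 hx2 h3 h4 h5
  refine ⟨?_, ?_, hww⟩
  · intro j
    fin_cases j
    · exact h.1
    · exact h.2.1
    · exact h.2.2.1
  · rw [inv_one]
    exact h.2.2.2

/-- Chart 5. -/
noncomputable def Y5 (P : Pt k K) (t s : k) (h2 : 2 * t = 1) (h41 : 41 * s = 1) (h30 : (3 : K) ≠ 0) :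
    Chart k P (hY P) (iZ ![false, true, false] 0 0 2) where
  s := ![false, true, false]
  a := Y5_a P
  φ := 1
  ξ := T5 k
  d := T5_data t s h2 h41
  hξ := Y5_hxi P k
  hF := Y5_F P
  φmem := one_mem _
  φ0 := one_ne_zero
  le := Y5_cle P
  ge := Y5_cge P h30

/-- The coordinates of chart 6. -/
noncomputable def Y6_a (P : Pt k K) : Fin 3 → K :=
  ![P.x 0 / P.x 2, (P.x 1)⁻¹, P.x 2]

theorem Y6_hxi (P : Pt k K) (O : Type) [CommRing O] [Algebra O K] (j : Fin 3) :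
    aeval (Y6_a P) (T6 O j) = xx P ![false, true, false] j := by
  have h := Y6_xi (x_ne P 0) (x_ne P 1) (x_ne P 2) (x3_ne P) (sub_add_cancel _ _).symm
  fin_cases j
  · change aeval (Y6_a P) (X 0 * X 2 : MvPolynomial (Fin 3) O) = P.x 0
    simp only [map_mul, map_sub, map_add, map_one, map_ofNat, aeval_X]
    exact h.1
  · change aeval (Y6_a P) (X 1 : MvPolynomial (Fin 3) O) = (P.x 1)⁻¹
    simp only [map_mul, map_sub, map_add, map_one, map_ofNat, aeval_X]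
    exact h.2.1
  · change aeval (Y6_a P) (X 2 : MvPolynomial (Fin 3) O) = P.x 2
    simp only [map_mul, map_sub, map_add, map_one, map_ofNat, aeval_X]
    exact h.2.2

theorem Y6_F (P : Pt k K) (j : Fin 3) : Y6_a P j ∈ P.F := by
  fin_cases j
  · change P.x 0 / P.x 2 ∈ P.F
    exact div_mem (xF P 0) (xF P 2)
  · change (P.x 1)⁻¹ ∈ P.F
    exact inv_mem (xF P 1)
  · change P.x 2 ∈ P.F
    exact xF P 2

theorem Y6_cle (P : Pt k K) (B : Subalgebra k K) (ha : ∀ j, Y6_a P j ∈ B)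
    (hφ : ((P.x 0 - 3) : K)⁻¹ ∈ B) (hw : ∀ j, ww P ![false, true, false] j ∈ B) :
    chartRing k (hY P) (iZ ![false, true, false] 1 2 1) ≤ B := by
  have ha0 : P.x 0 / P.x 2 ∈ B := ha 0
  have ha1 : (P.x 1)⁻¹ ∈ B := ha 1
  have ha2 : P.x 2 ∈ B := ha 2
  have h := Y6_le (x_ne P 0) (x_ne P 1) (x_ne P 2) (x3_ne P) (sub_add_cancel _ _).symm ha0 ha1 ha2 hφ
  have hxx : ∀ j, xx P ![false, true, false] j ∈ B := fun j => by
    rw [← Y6_hxi P k j]
    exact aeval_mem_of B _ _ ha j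
  exact Y_le P ![false, true, false] 1 2 1 B hxx hw h.1 h.2.1 h.2.2

theorem Y6_cge (P : Pt k K) (h30 : (3 : K) ≠ 0) :
    (∀ j, Y6_a P j ∈ chartRing k (hY P) (iZ ![false, true, false] 1 2 1)) ∧
    ((P.x 0 - 3) : K)⁻¹ ∈ chartRing k (hY P) (iZ ![false, true, false] 1 2 1) ∧
    ∀ j, ww P ![false, true, false] j ∈ chartRing k (hY P) (iZ ![false, true, false] 1 2 1) := by
  obtain ⟨hxx, hww, h3, h4, h5⟩ := Y_ge (O := k) P ![false, true, false] 1 2 1
  have hx0 : P.x 0 ∈ chartRing k (hY P) (iZ ![false, true, false] 1 2 1) := hxx 0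
  have hx1 : (P.x 1)⁻¹ ∈ chartRing k (hY P) (iZ ![false, true, false] 1 2 1) := hxx 1
  have hx2 : P.x 2 ∈ chartRing k (hY P) (iZ ![false, true, false] 1 2 1) := hxx 2
  have h := Y6_ge (x_ne P 0) (x_ne P 1) (x_ne P 2) (x3_ne P) (sub_add_cancel _ _).symm h30 (third_mem _) hx0 hx1 hx2 h3 h4 h5
  refine ⟨?_, ?_, hww⟩
  · intro j
    fin_cases j
    · exact h.1
    · exact h.2.1
    · exact h.2.2.1
  · exact h.2.2.2

/-- Chart 6. -/
noncomputable def Y6 (P : Pt k K) (t s : k) (h2 : 2 * t = 1) (h41 : 41 * s = 1) (h30 : (3 : K) ≠ 0) :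
    Chart k P (hY P) (iZ ![false, true, false] 1 2 1) where
  s := ![false, true, false]
  a := Y6_a P
  φ := (P.x 0 - 3)
  ξ := T6 k
  d := T6_data t s h2 h41
  hξ := Y6_hxi P k
  hF := Y6_F P
  φmem := Y6_phi (x_ne P 0) (x_ne P 1) (x_ne P 2) (x3_ne P) (sub_add_cancel _ _).symm
    (Algebra.subset_adjoin ⟨0, rfl⟩) (Algebra.subset_adjoin ⟨1, rfl⟩) (Algebra.subset_adjoin ⟨2, rfl⟩)
  φ0 := x3_ne P
  le := Y6_cle P
  ge := Y6_cge P h30

/-- The coordinates of chart 7. -/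
noncomputable def Y7_a (P : Pt k K) : Fin 3 → K :=
  ![(P.x 0)⁻¹, P.x 1, P.x 2 / P.x 1]

theorem Y7_hxi (P : Pt k K) (O : Type) [CommRing O] [Algebra O K] (j : Fin 3) :
    aeval (Y7_a P) (T9 O j) = xx P ![true, false, false] j := by
  have h := Y7_xi (x_ne P 0) (x_ne P 1) (x_ne P 2) (x3_ne P) (sub_add_cancel _ _).symm
  fin_cases j
  · change aeval (Y7_a P) (X 0 : MvPolynomial (Fin 3) O) = (P.x 0)⁻¹
    simp only [map_mul, map_sub, map_add, map_one, map_ofNat, aeval_X]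
    exact h.1
  · change aeval (Y7_a P) (X 1 : MvPolynomial (Fin 3) O) = P.x 1
    simp only [map_mul, map_sub, map_add, map_one, map_ofNat, aeval_X]
    exact h.2.1
  · change aeval (Y7_a P) (X 1 * X 2 : MvPolynomial (Fin 3) O) = P.x 2
    simp only [map_mul, map_sub, map_add, map_one, map_ofNat, aeval_X]
    exact h.2.2

theorem Y7_F (P : Pt k K) (j : Fin 3) : Y7_a P j ∈ P.F := by
  fin_cases j
  · change (P.x 0)⁻¹ ∈ P.F
    exact inv_mem (xF P 0)
  · change P.x 1 ∈ P.F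
    exact xF P 1
  · change P.x 2 / P.x 1 ∈ P.F
    exact div_mem (xF P 2) (xF P 1)

theorem Y7_cle (P : Pt k K) (B : Subalgebra k K) (ha : ∀ j, Y7_a P j ∈ B)
    (hφ : (1 : K)⁻¹ ∈ B) (hw : ∀ j, ww P ![true, false, false] j ∈ B) :
    chartRing k (hY P) (iZ ![true, false, false] 0 0 2) ≤ B := by
  rw [inv_one] at hφ
  have ha0 : (P.x 0)⁻¹ ∈ B := ha 0
  have ha1 : P.x 1 ∈ B := ha 1
  have ha2 : P.x 2 / P.x 1 ∈ B := ha 2
  have h := Y7_le (x_ne P 0) (x_ne P 1) (x_ne P 2) (x3_ne P) (sub_add_cancel _ _).symm ha0 ha1 ha2 hφ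
  have hxx : ∀ j, xx P ![true, false, false] j ∈ B := fun j => by
    rw [← Y7_hxi P k j]
    exact aeval_mem_of B _ _ ha j
  exact Y_le P ![true, false, false] 0 0 2 B hxx hw h.1 h.2.1 h.2.2

theorem Y7_cge (P : Pt k K) (h30 : (3 : K) ≠ 0) :
    (∀ j, Y7_a P j ∈ chartRing k (hY P) (iZ ![true, false, false] 0 0 2)) ∧
    (1 : K)⁻¹ ∈ chartRing k (hY P) (iZ ![true, false, false] 0 0 2) ∧
    ∀ j, ww P ![true, false, false] j ∈ chartRing k (hY P) (iZ ![true, false, false] 0 0 2) := by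
  obtain ⟨hxx, hww, h3, h4, h5⟩ := Y_ge (O := k) P ![true, false, false] 0 0 2
  have hx0 : (P.x 0)⁻¹ ∈ chartRing k (hY P) (iZ ![true, false, false] 0 0 2) := hxx 0
  have hx1 : P.x 1 ∈ chartRing k (hY P) (iZ ![true, false, false] 0 0 2) := hxx 1
  have hx2 : P.x 2 ∈ chartRing k (hY P) (iZ ![true, false, false] 0 0 2) := hxx 2
  have h := Y7_ge (x_ne P 0) (x_ne P 1) (x_ne P 2) (x3_ne P) (sub_add_cancel _ _).symm h30 (third_mem _) hx0 hx1 hx2 h3 h4 h5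
  refine ⟨?_, ?_, hww⟩
  · intro j
    fin_cases j
    · exact h.1
    · exact h.2.1
    · exact h.2.2.1
  · rw [inv_one]
    exact h.2.2.2

/-- Chart 7. -/
noncomputable def Y7 (P : Pt k K) (t s : k) (h2 : 2 * t = 1) (h41 : 41 * s = 1) (h30 : (3 : K) ≠ 0) :
    Chart k P (hY P) (iZ ![true, false, false] 0 0 2) where
  s := ![true, false, false]
  a := Y7_a P
  φ := 1
  ξ := T9 k
  d := T9_data t s h2 h41
  hξ := Y7_hxi P k
  hF := Y7_F P
  φmem := one_mem _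
  φ0 := one_ne_zero
  le := Y7_cle P
  ge := Y7_cge P h30

/-- The coordinates of chart 8. -/
noncomputable def Y8_a (P : Pt k K) : Fin 3 → K :=
  ![(P.x 0)⁻¹, P.x 2, P.x 0 * P.x 1 / ((P.x 0 - 3) * P.x 2)]

theorem Y8_hxi (P : Pt k K) (O : Type) [CommRing O] [Algebra O K] (j : Fin 3) :
    aeval (Y8_a P) (T10 O j) = xx P ![true, false, false] j := by
  have h := Y8_xi (x_ne P 0) (x_ne P 1) (x_ne P 2) (x3_ne P) (sub_add_cancel _ _).symm
  fin_cases j
  · change aeval (Y8_a P) (X 0 : MvPolynomial (Fin 3) O) = (P.x 0)⁻¹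
    simp only [map_mul, map_sub, map_add, map_one, map_ofNat, aeval_X]
    exact h.1
  · change aeval (Y8_a P) (X 1 * (1 - 3 * X 0) * X 2 : MvPolynomial (Fin 3) O) = P.x 1
    simp only [map_mul, map_sub, map_add, map_one, map_ofNat, aeval_X]
    exact h.2.1
  · change aeval (Y8_a P) (X 1 : MvPolynomial (Fin 3) O) = P.x 2
    simp only [map_mul, map_sub, map_add, map_one, map_ofNat, aeval_X]
    exact h.2.2

theorem Y8_F (P : Pt k K) (j : Fin 3) : Y8_a P j ∈ P.F := by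
  fin_cases j
  · change (P.x 0)⁻¹ ∈ P.F
    exact inv_mem (xF P 0)
  · change P.x 2 ∈ P.F
    exact xF P 2
  · change P.x 0 * P.x 1 / ((P.x 0 - 3) * P.x 2) ∈ P.F
    exact div_mem (mul_mem (xF P 0) (xF P 1)) (mul_mem (x3F P) (xF P 2))

theorem Y8_cle (P : Pt k K) (B : Subalgebra k K) (ha : ∀ j, Y8_a P j ∈ B)
    (hφ : (1 : K)⁻¹ ∈ B) (hw : ∀ j, ww P ![true, false, false] j ∈ B) :
    chartRing k (hY P) (iZ ![true, false, false] 0 3 0) ≤ B := by
  rw [inv_one] at hφ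
  have ha0 : (P.x 0)⁻¹ ∈ B := ha 0
  have ha1 : P.x 2 ∈ B := ha 1
  have ha2 : P.x 0 * P.x 1 / ((P.x 0 - 3) * P.x 2) ∈ B := ha 2
  have h := Y8_le (x_ne P 0) (x_ne P 1) (x_ne P 2) (x3_ne P) (sub_add_cancel _ _).symm ha0 ha1 ha2 hφ
  have hxx : ∀ j, xx P ![true, false, false] j ∈ B := fun j => by
    rw [← Y8_hxi P k j]
    exact aeval_mem_of B _ _ ha j
  exact Y_le P ![true, false, false] 0 3 0 B hxx hw h.1 h.2.1 h.2.2

theorem Y8_cge (P : Pt k K) (h30 : (3 : K) ≠ 0) :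
    (∀ j, Y8_a P j ∈ chartRing k (hY P) (iZ ![true, false, false] 0 3 0)) ∧
    (1 : K)⁻¹ ∈ chartRing k (hY P) (iZ ![true, false, false] 0 3 0) ∧
    ∀ j, ww P ![true, false, false] j ∈ chartRing k (hY P) (iZ ![true, false, false] 0 3 0) := by
  obtain ⟨hxx, hww, h3, h4, h5⟩ := Y_ge (O := k) P ![true, false, false] 0 3 0
  have hx0 : (P.x 0)⁻¹ ∈ chartRing k (hY P) (iZ ![true, false, false] 0 3 0) := hxx 0
  have hx1 : P.x 1 ∈ chartRing k (hY P) (iZ ![true, false, false] 0 3 0) := hxx 1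
  have hx2 : P.x 2 ∈ chartRing k (hY P) (iZ ![true, false, false] 0 3 0) := hxx 2
  have h := Y8_ge (x_ne P 0) (x_ne P 1) (x_ne P 2) (x3_ne P) (sub_add_cancel _ _).symm h30 (third_mem _) hx0 hx1 hx2 h3 h4 h5
  refine ⟨?_, ?_, hww⟩
  · intro j
    fin_cases j
    · exact h.1
    · exact h.2.1
    · exact h.2.2.1
  · rw [inv_one]
    exact h.2.2.2

/-- Chart 8. -/
noncomputable def Y8 (P : Pt k K) (t s : k) (h2 : 2 * t = 1) (h41 : 41 * s = 1) (h30 : (3 : K) ≠ 0) :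
    Chart k P (hY P) (iZ ![true, false, false] 0 3 0) where
  s := ![true, false, false]
  a := Y8_a P
  φ := 1
  ξ := T10 k
  d := T10_data t s h2 h41
  hξ := Y8_hxi P k
  hF := Y8_F P
  φmem := one_mem _
  φ0 := one_ne_zero
  le := Y8_cle P
  ge := Y8_cge P h30

/-- The coordinates of chart 9. -/
noncomputable def Y9_a (P : Pt k K) : Fin 3 → K :=
  ![P.x 0, P.x 1 / (P.x 0 - 3), (P.x 2)⁻¹]

theorem Y9_hxi (P : Pt k K) (O : Type) [CommRing O] [Algebra O K] (j : Fin 3) :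
    aeval (Y9_a P) (T7 O j) = xx P ![false, false, true] j := by
  have h := Y9_xi (x_ne P 0) (x_ne P 1) (x_ne P 2) (x3_ne P) (sub_add_cancel _ _).symm
  fin_cases j
  · change aeval (Y9_a P) (X 0 : MvPolynomial (Fin 3) O) = P.x 0
    simp only [map_mul, map_sub, map_add, map_one, map_ofNat, aeval_X]
    exact h.1
  · change aeval (Y9_a P) ((X 0 - 3) * X 1 : MvPolynomial (Fin 3) O) = P.x 1
    simp only [map_mul, map_sub, map_add, map_one, map_ofNat, aeval_X]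
    exact h.2.1
  · change aeval (Y9_a P) (X 2 : MvPolynomial (Fin 3) O) = (P.x 2)⁻¹
    simp only [map_mul, map_sub, map_add, map_one, map_ofNat, aeval_X]
    exact h.2.2

theorem Y9_F (P : Pt k K) (j : Fin 3) : Y9_a P j ∈ P.F := by
  fin_cases j
  · change P.x 0 ∈ P.F
    exact xF P 0
  · change P.x 1 / (P.x 0 - 3) ∈ P.F
    exact div_mem (xF P 1) (x3F P)
  · change (P.x 2)⁻¹ ∈ P.F
    exact inv_mem (xF P 2)

theorem Y9_cle (P : Pt k K) (B : Subalgebra k K) (ha : ∀ j, Y9_a P j ∈ B)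
    (hφ : (1 : K)⁻¹ ∈ B) (hw : ∀ j, ww P ![false, false, true] j ∈ B) :
    chartRing k (hY P) (iZ ![false, false, true] 1 4 0) ≤ B := by
  rw [inv_one] at hφ
  have ha0 : P.x 0 ∈ B := ha 0
  have ha1 : P.x 1 / (P.x 0 - 3) ∈ B := ha 1
  have ha2 : (P.x 2)⁻¹ ∈ B := ha 2
  have h := Y9_le (x_ne P 0) (x_ne P 1) (x_ne P 2) (x3_ne P) (sub_add_cancel _ _).symm ha0 ha1 ha2 hφ
  have hxx : ∀ j, xx P ![false, false, true] j ∈ B := fun j => by
    rw [← Y9_hxi P k j]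
    exact aeval_mem_of B _ _ ha j
  exact Y_le P ![false, false, true] 1 4 0 B hxx hw h.1 h.2.1 h.2.2

theorem Y9_cge (P : Pt k K) (h30 : (3 : K) ≠ 0) :
    (∀ j, Y9_a P j ∈ chartRing k (hY P) (iZ ![false, false, true] 1 4 0)) ∧
    (1 : K)⁻¹ ∈ chartRing k (hY P) (iZ ![false, false, true] 1 4 0) ∧
    ∀ j, ww P ![false, false, true] j ∈ chartRing k (hY P) (iZ ![false, false, true] 1 4 0) := by
  obtain ⟨hxx, hww, h3, h4, h5⟩ := Y_ge (O := k) P ![false, false, true] 1 4 0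
  have hx0 : P.x 0 ∈ chartRing k (hY P) (iZ ![false, false, true] 1 4 0) := hxx 0
  have hx1 : P.x 1 ∈ chartRing k (hY P) (iZ ![false, false, true] 1 4 0) := hxx 1
  have hx2 : (P.x 2)⁻¹ ∈ chartRing k (hY P) (iZ ![false, false, true] 1 4 0) := hxx 2
  have h := Y9_ge (x_ne P 0) (x_ne P 1) (x_ne P 2) (x3_ne P) (sub_add_cancel _ _).symm h30 (third_mem _) hx0 hx1 hx2 h3 h4 h5
  refine ⟨?_, ?_, hww⟩
  · intro j
    fin_cases j
    · exact h.1
    · exact h.2.1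
    · exact h.2.2.1
  · rw [inv_one]
    exact h.2.2.2

/-- Chart 9. -/
noncomputable def Y9 (P : Pt k K) (t s : k) (h2 : 2 * t = 1) (h41 : 41 * s = 1) (h30 : (3 : K) ≠ 0) :
    Chart k P (hY P) (iZ ![false, false, true] 1 4 0) where
  s := ![false, false, true]
  a := Y9_a P
  φ := 1
  ξ := T7 k
  d := T7_data t s h2 h41
  hξ := Y9_hxi P k
  hF := Y9_F P
  φmem := one_mem _
  φ0 := one_ne_zero
  le := Y9_cle P
  ge := Y9_cge P h30

/-- The coordinates of chart 10. -/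
noncomputable def Y10_a (P : Pt k K) : Fin 3 → K :=
  ![(P.x 0 - 3) / P.x 1, P.x 1, (P.x 2)⁻¹]

theorem Y10_hxi (P : Pt k K) (O : Type) [CommRing O] [Algebra O K] (j : Fin 3) :
    aeval (Y10_a P) (T8 O j) = xx P ![false, false, true] j := by
  have h := Y10_xi (x_ne P 0) (x_ne P 1) (x_ne P 2) (x3_ne P) (sub_add_cancel _ _).symm
  fin_cases j
  · change aeval (Y10_a P) (3 + X 0 * X 1 : MvPolynomial (Fin 3) O) = P.x 0
    simp only [map_mul, map_sub, map_add, map_one, map_ofNat, aeval_X]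
    exact h.1
  · change aeval (Y10_a P) (X 1 : MvPolynomial (Fin 3) O) = P.x 1
    simp only [map_mul, map_sub, map_add, map_one, map_ofNat, aeval_X]
    exact h.2.1
  · change aeval (Y10_a P) (X 2 : MvPolynomial (Fin 3) O) = (P.x 2)⁻¹
    simp only [map_mul, map_sub, map_add, map_one, map_ofNat, aeval_X]
    exact h.2.2

theorem Y10_F (P : Pt k K) (j : Fin 3) : Y10_a P j ∈ P.F := by
  fin_cases j
  · change (P.x 0 - 3) / P.x 1 ∈ P.F
    exact div_mem (x3F P) (xF P 1)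
  · change P.x 1 ∈ P.F
    exact xF P 1
  · change (P.x 2)⁻¹ ∈ P.F
    exact inv_mem (xF P 2)

theorem Y10_cle (P : Pt k K) (B : Subalgebra k K) (ha : ∀ j, Y10_a P j ∈ B)
    (hφ : (P.x 0 : K)⁻¹ ∈ B) (hw : ∀ j, ww P ![false, false, true] j ∈ B) :
    chartRing k (hY P) (iZ ![false, false, true] 1 4 3) ≤ B := by
  have ha0 : (P.x 0 - 3) / P.x 1 ∈ B := ha 0
  have ha1 : P.x 1 ∈ B := ha 1
  have ha2 : (P.x 2)⁻¹ ∈ B := ha 2
  have h := Y10_le (x_ne P 0) (x_ne P 1) (x_ne P 2) (x3_ne P) (sub_add_cancel _ _).symm ha0 ha1 ha2 hφ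
  have hxx : ∀ j, xx P ![false, false, true] j ∈ B := fun j => by
    rw [← Y10_hxi P k j]
    exact aeval_mem_of B _ _ ha j
  exact Y_le P ![false, false, true] 1 4 3 B hxx hw h.1 h.2.1 h.2.2

theorem Y10_cge (P : Pt k K) (h30 : (3 : K) ≠ 0) :
    (∀ j, Y10_a P j ∈ chartRing k (hY P) (iZ ![false, false, true] 1 4 3)) ∧
    (P.x 0 : K)⁻¹ ∈ chartRing k (hY P) (iZ ![false, false, true] 1 4 3) ∧
    ∀ j, ww P ![false, false, true] j ∈ chartRing k (hY P) (iZ ![false, false, true] 1 4 3) := by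
  obtain ⟨hxx, hww, h3, h4, h5⟩ := Y_ge (O := k) P ![false, false, true] 1 4 3
  have hx0 : P.x 0 ∈ chartRing k (hY P) (iZ ![false, false, true] 1 4 3) := hxx 0
  have hx1 : P.x 1 ∈ chartRing k (hY P) (iZ ![false, false, true] 1 4 3) := hxx 1
  have hx2 : (P.x 2)⁻¹ ∈ chartRing k (hY P) (iZ ![false, false, true] 1 4 3) := hxx 2
  have h := Y10_ge (x_ne P 0) (x_ne P 1) (x_ne P 2) (x3_ne P) (sub_add_cancel _ _).symm h30 (third_mem _) hx0 hx1 hx2 h3 h4 h5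
  refine ⟨?_, ?_, hww⟩
  · intro j
    fin_cases j
    · exact h.1
    · exact h.2.1
    · exact h.2.2.1
  · exact h.2.2.2

/-- Chart 10. -/
noncomputable def Y10 (P : Pt k K) (t s : k) (h2 : 2 * t = 1) (h41 : 41 * s = 1) (h30 : (3 : K) ≠ 0) :
    Chart k P (hY P) (iZ ![false, false, true] 1 4 3) where
  s := ![false, false, true]
  a := Y10_a P
  φ := P.x 0
  ξ := T8 k
  d := T8_data t s h2 h41
  hξ := Y10_hxi P k
  hF := Y10_F P
  φmem := Y10_phi (x_ne P 0) (x_ne P 1) (x_ne P 2) (x3_ne P) (sub_add_cancel _ _).symm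
    (Algebra.subset_adjoin ⟨0, rfl⟩) (Algebra.subset_adjoin ⟨1, rfl⟩) (Algebra.subset_adjoin ⟨2, rfl⟩)
  φ0 := x_ne P 0
  le := Y10_cle P
  ge := Y10_cge P h30

/-- The coordinates of chart 11. -/
noncomputable def Y11_a (P : Pt k K) : Fin 3 → K :=
  ![P.x 0, (P.x 1)⁻¹, (P.x 2)⁻¹]

theorem Y11_hxi (P : Pt k K) (O : Type) [CommRing O] [Algebra O K] (j : Fin 3) :
    aeval (Y11_a P) (T11 O j) = xx P ![false, true, true] j := by
  have h := Y11_xi (x_ne P 0) (x_ne P 1) (x_ne P 2) (x3_ne P) (sub_add_cancel _ _).symm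
  fin_cases j
  · change aeval (Y11_a P) (X 0 : MvPolynomial (Fin 3) O) = P.x 0
    simp only [map_mul, map_sub, map_add, map_one, map_ofNat, aeval_X]
    exact h.1
  · change aeval (Y11_a P) (X 1 : MvPolynomial (Fin 3) O) = (P.x 1)⁻¹
    simp only [map_mul, map_sub, map_add, map_one, map_ofNat, aeval_X]
    exact h.2.1
  · change aeval (Y11_a P) (X 2 : MvPolynomial (Fin 3) O) = (P.x 2)⁻¹
    simp only [map_mul, map_sub, map_add, map_one, map_ofNat, aeval_X]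
    exact h.2.2

theorem Y11_F (P : Pt k K) (j : Fin 3) : Y11_a P j ∈ P.F := by
  fin_cases j
  · change P.x 0 ∈ P.F
    exact xF P 0
  · change (P.x 1)⁻¹ ∈ P.F
    exact inv_mem (xF P 1)
  · change (P.x 2)⁻¹ ∈ P.F
    exact inv_mem (xF P 2)

theorem Y11_cle (P : Pt k K) (B : Subalgebra k K) (ha : ∀ j, Y11_a P j ∈ B)
    (hφ : ((P.x 0 - 3) : K)⁻¹ ∈ B) (hw : ∀ j, ww P ![false, true, true] j ∈ B) :
    chartRing k (hY P) (iZ ![false, true, true] 1 2 1) ≤ B := by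
  have ha0 : P.x 0 ∈ B := ha 0
  have ha1 : (P.x 1)⁻¹ ∈ B := ha 1
  have ha2 : (P.x 2)⁻¹ ∈ B := ha 2
  have h := Y11_le (x_ne P 0) (x_ne P 1) (x_ne P 2) (x3_ne P) (sub_add_cancel _ _).symm ha0 ha1 ha2 hφ
  have hxx : ∀ j, xx P ![false, true, true] j ∈ B := fun j => by
    rw [← Y11_hxi P k j]
    exact aeval_mem_of B _ _ ha j
  exact Y_le P ![false, true, true] 1 2 1 B hxx hw h.1 h.2.1 h.2.2

theorem Y11_cge (P : Pt k K) (h30 : (3 : K) ≠ 0) :
    (∀ j, Y11_a P j ∈ chartRing k (hY P) (iZ ![false, true, true] 1 2 1)) ∧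
    ((P.x 0 - 3) : K)⁻¹ ∈ chartRing k (hY P) (iZ ![false, true, true] 1 2 1) ∧
    ∀ j, ww P ![false, true, true] j ∈ chartRing k (hY P) (iZ ![false, true, true] 1 2 1) := by
  obtain ⟨hxx, hww, h3, h4, h5⟩ := Y_ge (O := k) P ![false, true, true] 1 2 1
  have hx0 : P.x 0 ∈ chartRing k (hY P) (iZ ![false, true, true] 1 2 1) := hxx 0
  have hx1 : (P.x 1)⁻¹ ∈ chartRing k (hY P) (iZ ![false, true, true] 1 2 1) := hxx 1
  have hx2 : (P.x 2)⁻¹ ∈ chartRing k (hY P) (iZ ![false, true, true] 1 2 1) := hxx 2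
  have h := Y11_ge (x_ne P 0) (x_ne P 1) (x_ne P 2) (x3_ne P) (sub_add_cancel _ _).symm h30 (third_mem _) hx0 hx1 hx2 h3 h4 h5
  refine ⟨?_, ?_, hww⟩
  · intro j
    fin_cases j
    · exact h.1
    · exact h.2.1
    · exact h.2.2.1
  · exact h.2.2.2

/-- Chart 11. -/
noncomputable def Y11 (P : Pt k K) (t s : k) (h2 : 2 * t = 1) (h41 : 41 * s = 1) (h30 : (3 : K) ≠ 0) :
    Chart k P (hY P) (iZ ![false, true, true] 1 2 1) where
  s := ![false, true, true]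
  a := Y11_a P
  φ := (P.x 0 - 3)
  ξ := T11 k
  d := T11_data t s h2 h41
  hξ := Y11_hxi P k
  hF := Y11_F P
  φmem := Y11_phi (x_ne P 0) (x_ne P 1) (x_ne P 2) (x3_ne P) (sub_add_cancel _ _).symm
    (Algebra.subset_adjoin ⟨0, rfl⟩) (Algebra.subset_adjoin ⟨1, rfl⟩) (Algebra.subset_adjoin ⟨2, rfl⟩)
  φ0 := x3_ne P
  le := Y11_cle P
  ge := Y11_cge P h30

/-- The coordinates of chart 12. -/
noncomputable def Y12_a (P : Pt k K) : Fin 3 → K :=
  ![P.x 0, (P.x 1)⁻¹, (P.x 2)⁻¹]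

theorem Y12_hxi (P : Pt k K) (O : Type) [CommRing O] [Algebra O K] (j : Fin 3) :
    aeval (Y12_a P) (T11 O j) = xx P ![false, true, true] j := by
  have h := Y12_xi (x_ne P 0) (x_ne P 1) (x_ne P 2) (x3_ne P) (sub_add_cancel _ _).symm
  fin_cases j
  · change aeval (Y12_a P) (X 0 : MvPolynomial (Fin 3) O) = P.x 0
    simp only [map_mul, map_sub, map_add, map_one, map_ofNat, aeval_X]
    exact h.1
  · change aeval (Y12_a P) (X 1 : MvPolynomial (Fin 3) O) = (P.x 1)⁻¹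
    simp only [map_mul, map_sub, map_add, map_one, map_ofNat, aeval_X]
    exact h.2.1
  · change aeval (Y12_a P) (X 2 : MvPolynomial (Fin 3) O) = (P.x 2)⁻¹
    simp only [map_mul, map_sub, map_add, map_one, map_ofNat, aeval_X]
    exact h.2.2

theorem Y12_F (P : Pt k K) (j : Fin 3) : Y12_a P j ∈ P.F := by
  fin_cases j
  · change P.x 0 ∈ P.F
    exact xF P 0
  · change (P.x 1)⁻¹ ∈ P.F
    exact inv_mem (xF P 1)
  · change (P.x 2)⁻¹ ∈ P.F
    exact inv_mem (xF P 2)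

theorem Y12_cle (P : Pt k K) (B : Subalgebra k K) (ha : ∀ j, Y12_a P j ∈ B)
    (hφ : (P.x 0 : K)⁻¹ ∈ B) (hw : ∀ j, ww P ![false, true, true] j ∈ B) :
    chartRing k (hY P) (iZ ![false, true, true] 1 2 3) ≤ B := by
  have ha0 : P.x 0 ∈ B := ha 0
  have ha1 : (P.x 1)⁻¹ ∈ B := ha 1
  have ha2 : (P.x 2)⁻¹ ∈ B := ha 2
  have h := Y12_le (x_ne P 0) (x_ne P 1) (x_ne P 2) (x3_ne P) (sub_add_cancel _ _).symm ha0 ha1 ha2 hφ
  have hxx : ∀ j, xx P ![false, true, true] j ∈ B := fun j => by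
    rw [← Y12_hxi P k j]
    exact aeval_mem_of B _ _ ha j
  exact Y_le P ![false, true, true] 1 2 3 B hxx hw h.1 h.2.1 h.2.2

theorem Y12_cge (P : Pt k K) (h30 : (3 : K) ≠ 0) :
    (∀ j, Y12_a P j ∈ chartRing k (hY P) (iZ ![false, true, true] 1 2 3)) ∧
    (P.x 0 : K)⁻¹ ∈ chartRing k (hY P) (iZ ![false, true, true] 1 2 3) ∧
    ∀ j, ww P ![false, true, true] j ∈ chartRing k (hY P) (iZ ![false, true, true] 1 2 3) := by
  obtain ⟨hxx, hww, h3, h4, h5⟩ := Y_ge (O := k) P ![false, true, true] 1 2 3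
  have hx0 : P.x 0 ∈ chartRing k (hY P) (iZ ![false, true, true] 1 2 3) := hxx 0
  have hx1 : (P.x 1)⁻¹ ∈ chartRing k (hY P) (iZ ![false, true, true] 1 2 3) := hxx 1
  have hx2 : (P.x 2)⁻¹ ∈ chartRing k (hY P) (iZ ![false, true, true] 1 2 3) := hxx 2
  have h := Y12_ge (x_ne P 0) (x_ne P 1) (x_ne P 2) (x3_ne P) (sub_add_cancel _ _).symm h30 (third_mem _) hx0 hx1 hx2 h3 h4 h5
  refine ⟨?_, ?_, hww⟩
  · intro j
    fin_cases j
    · exact h.1
    · exact h.2.1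
    · exact h.2.2.1
  · exact h.2.2.2

/-- Chart 12. -/
noncomputable def Y12 (P : Pt k K) (t s : k) (h2 : 2 * t = 1) (h41 : 41 * s = 1) (h30 : (3 : K) ≠ 0) :
    Chart k P (hY P) (iZ ![false, true, true] 1 2 3) where
  s := ![false, true, true]
  a := Y12_a P
  φ := P.x 0
  ξ := T11 k
  d := T11_data t s h2 h41
  hξ := Y12_hxi P k
  hF := Y12_F P
  φmem := Y12_phi (x_ne P 0) (x_ne P 1) (x_ne P 2) (x3_ne P) (sub_add_cancel _ _).symm
    (Algebra.subset_adjoin ⟨0, rfl⟩) (Algebra.subset_adjoin ⟨1, rfl⟩) (Algebra.subset_adjoin ⟨2, rfl⟩)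
  φ0 := x_ne P 0
  le := Y12_cle P
  ge := Y12_cge P h30

/-- The coordinates of chart 13. -/
noncomputable def Y13_a (P : Pt k K) : Fin 3 → K :=
  ![(P.x 0)⁻¹, P.x 0 * P.x 1 / (P.x 0 - 3), (P.x 2)⁻¹]

theorem Y13_hxi (P : Pt k K) (O : Type) [CommRing O] [Algebra O K] (j : Fin 3) :
    aeval (Y13_a P) (T12 O j) = xx P ![true, false, true] j := by
  have h := Y13_xi (x_ne P 0) (x_ne P 1) (x_ne P 2) (x3_ne P) (sub_add_cancel _ _).symm
  fin_cases j
  · change aeval (Y13_a P) (X 0 : MvPolynomial (Fin 3) O) = (P.x 0)⁻¹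
    simp only [map_mul, map_sub, map_add, map_one, map_ofNat, aeval_X]
    exact h.1
  · change aeval (Y13_a P) ((1 - 3 * X 0) * X 1 : MvPolynomial (Fin 3) O) = P.x 1
    simp only [map_mul, map_sub, map_add, map_one, map_ofNat, aeval_X]
    exact h.2.1
  · change aeval (Y13_a P) (X 2 : MvPolynomial (Fin 3) O) = (P.x 2)⁻¹
    simp only [map_mul, map_sub, map_add, map_one, map_ofNat, aeval_X]
    exact h.2.2

theorem Y13_F (P : Pt k K) (j : Fin 3) : Y13_a P j ∈ P.F := by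
  fin_cases j
  · change (P.x 0)⁻¹ ∈ P.F
    exact inv_mem (xF P 0)
  · change P.x 0 * P.x 1 / (P.x 0 - 3) ∈ P.F
    exact div_mem (mul_mem (xF P 0) (xF P 1)) (x3F P)
  · change (P.x 2)⁻¹ ∈ P.F
    exact inv_mem (xF P 2)

theorem Y13_cle (P : Pt k K) (B : Subalgebra k K) (ha : ∀ j, Y13_a P j ∈ B)
    (hφ : (1 : K)⁻¹ ∈ B) (hw : ∀ j, ww P ![true, false, true] j ∈ B) :
    chartRing k (hY P) (iZ ![true, false, true] 2 3 0) ≤ B := by
  rw [inv_one] at hφ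
  have ha0 : (P.x 0)⁻¹ ∈ B := ha 0
  have ha1 : P.x 0 * P.x 1 / (P.x 0 - 3) ∈ B := ha 1
  have ha2 : (P.x 2)⁻¹ ∈ B := ha 2
  have h := Y13_le (x_ne P 0) (x_ne P 1) (x_ne P 2) (x3_ne P) (sub_add_cancel _ _).symm ha0 ha1 ha2 hφ
  have hxx : ∀ j, xx P ![true, false, true] j ∈ B := fun j => by
    rw [← Y13_hxi P k j]
    exact aeval_mem_of B _ _ ha j
  exact Y_le P ![true, false, true] 2 3 0 B hxx hw h.1 h.2.1 h.2.2

theorem Y13_cge (P : Pt k K) (h30 : (3 : K) ≠ 0) :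
    (∀ j, Y13_a P j ∈ chartRing k (hY P) (iZ ![true, false, true] 2 3 0)) ∧
    (1 : K)⁻¹ ∈ chartRing k (hY P) (iZ ![true, false, true] 2 3 0) ∧
    ∀ j, ww P ![true, false, true] j ∈ chartRing k (hY P) (iZ ![true, false, true] 2 3 0) := by
  obtain ⟨hxx, hww, h3, h4, h5⟩ := Y_ge (O := k) P ![true, false, true] 2 3 0
  have hx0 : (P.x 0)⁻¹ ∈ chartRing k (hY P) (iZ ![true, false, true] 2 3 0) := hxx 0
  have hx1 : P.x 1 ∈ chartRing k (hY P) (iZ ![true, false, true] 2 3 0) := hxx 1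
  have hx2 : (P.x 2)⁻¹ ∈ chartRing k (hY P) (iZ ![true, false, true] 2 3 0) := hxx 2
  have h := Y13_ge (x_ne P 0) (x_ne P 1) (x_ne P 2) (x3_ne P) (sub_add_cancel _ _).symm h30 (third_mem _) hx0 hx1 hx2 h3 h4 h5
  refine ⟨?_, ?_, hww⟩
  · intro j
    fin_cases j
    · exact h.1
    · exact h.2.1
    · exact h.2.2.1
  · rw [inv_one]
    exact h.2.2.2

/-- Chart 13. -/
noncomputable def Y13 (P : Pt k K) (t s : k) (h2 : 2 * t = 1) (h41 : 41 * s = 1) (h30 : (3 : K) ≠ 0) :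
    Chart k P (hY P) (iZ ![true, false, true] 2 3 0) where
  s := ![true, false, true]
  a := Y13_a P
  φ := 1
  ξ := T12 k
  d := T12_data t s h2 h41
  hξ := Y13_hxi P k
  hF := Y13_F P
  φmem := one_mem _
  φ0 := one_ne_zero
  le := Y13_cle P
  ge := Y13_cge P h30

/-- The coordinates of chart 14. -/
noncomputable def Y14_a (P : Pt k K) : Fin 3 → K :=
  ![(P.x 0)⁻¹, (P.x 1)⁻¹, P.x 2]

theorem Y14_hxi (P : Pt k K) (O : Type) [CommRing O] [Algebra O K] (j : Fin 3) :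
    aeval (Y14_a P) (T11 O j) = xx P ![true, true, false] j := by
  have h := Y14_xi (x_ne P 0) (x_ne P 1) (x_ne P 2) (x3_ne P) (sub_add_cancel _ _).symm
  fin_cases j
  · change aeval (Y14_a P) (X 0 : MvPolynomial (Fin 3) O) = (P.x 0)⁻¹
    simp only [map_mul, map_sub, map_add, map_one, map_ofNat, aeval_X]
    exact h.1
  · change aeval (Y14_a P) (X 1 : MvPolynomial (Fin 3) O) = (P.x 1)⁻¹
    simp only [map_mul, map_sub, map_add, map_one, map_ofNat, aeval_X]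
    exact h.2.1
  · change aeval (Y14_a P) (X 2 : MvPolynomial (Fin 3) O) = P.x 2
    simp only [map_mul, map_sub, map_add, map_one, map_ofNat, aeval_X]
    exact h.2.2

theorem Y14_F (P : Pt k K) (j : Fin 3) : Y14_a P j ∈ P.F := by
  fin_cases j
  · change (P.x 0)⁻¹ ∈ P.F
    exact inv_mem (xF P 0)
  · change (P.x 1)⁻¹ ∈ P.F
    exact inv_mem (xF P 1)
  · change P.x 2 ∈ P.F
    exact xF P 2

theorem Y14_cle (P : Pt k K) (B : Subalgebra k K) (ha : ∀ j, Y14_a P j ∈ B)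
    (hφ : (1 : K)⁻¹ ∈ B) (hw : ∀ j, ww P ![true, true, false] j ∈ B) :
    chartRing k (hY P) (iZ ![true, true, false] 0 0 2) ≤ B := by
  rw [inv_one] at hφ
  have ha0 : (P.x 0)⁻¹ ∈ B := ha 0
  have ha1 : (P.x 1)⁻¹ ∈ B := ha 1
  have ha2 : P.x 2 ∈ B := ha 2
  have h := Y14_le (x_ne P 0) (x_ne P 1) (x_ne P 2) (x3_ne P) (sub_add_cancel _ _).symm ha0 ha1 ha2 hφ
  have hxx : ∀ j, xx P ![true, true, false] j ∈ B := fun j => by
    rw [← Y14_hxi P k j]
    exact aeval_mem_of B _ _ ha j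
  exact Y_le P ![true, true, false] 0 0 2 B hxx hw h.1 h.2.1 h.2.2

theorem Y14_cge (P : Pt k K) (h30 : (3 : K) ≠ 0) :
    (∀ j, Y14_a P j ∈ chartRing k (hY P) (iZ ![true, true, false] 0 0 2)) ∧
    (1 : K)⁻¹ ∈ chartRing k (hY P) (iZ ![true, true, false] 0 0 2) ∧
    ∀ j, ww P ![true, true, false] j ∈ chartRing k (hY P) (iZ ![true, true, false] 0 0 2) := by
  obtain ⟨hxx, hww, h3, h4, h5⟩ := Y_ge (O := k) P ![true, true, false] 0 0 2
  have hx0 : (P.x 0)⁻¹ ∈ chartRing k (hY P) (iZ ![true, true, false] 0 0 2) := hxx 0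
  have hx1 : (P.x 1)⁻¹ ∈ chartRing k (hY P) (iZ ![true, true, false] 0 0 2) := hxx 1
  have hx2 : P.x 2 ∈ chartRing k (hY P) (iZ ![true, true, false] 0 0 2) := hxx 2
  have h := Y14_ge (x_ne P 0) (x_ne P 1) (x_ne P 2) (x3_ne P) (sub_add_cancel _ _).symm h30 (third_mem _) hx0 hx1 hx2 h3 h4 h5
  refine ⟨?_, ?_, hww⟩
  · intro j
    fin_cases j
    · exact h.1
    · exact h.2.1
    · exact h.2.2.1
  · rw [inv_one]
    exact h.2.2.2

/-- Chart 14. -/
noncomputable def Y14 (P : Pt k K) (t s : k) (h2 : 2 * t = 1) (h41 : 41 * s = 1) (h30 : (3 : K) ≠ 0) :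
    Chart k P (hY P) (iZ ![true, true, false] 0 0 2) where
  s := ![true, true, false]
  a := Y14_a P
  φ := 1
  ξ := T11 k
  d := T11_data t s h2 h41
  hξ := Y14_hxi P k
  hF := Y14_F P
  φmem := one_mem _
  φ0 := one_ne_zero
  le := Y14_cle P
  ge := Y14_cge P h30

/-- The coordinates of chart 15. -/
noncomputable def Y15_a (P : Pt k K) : Fin 3 → K :=
  ![(P.x 0)⁻¹, (P.x 1)⁻¹, (P.x 2)⁻¹]

theorem Y15_hxi (P : Pt k K) (O : Type) [CommRing O] [Algebra O K] (j : Fin 3) :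
    aeval (Y15_a P) (T11 O j) = xx P ![true, true, true] j := by
  have h := Y15_xi (x_ne P 0) (x_ne P 1) (x_ne P 2) (x3_ne P) (sub_add_cancel _ _).symm
  fin_cases j
  · change aeval (Y15_a P) (X 0 : MvPolynomial (Fin 3) O) = (P.x 0)⁻¹
    simp only [map_mul, map_sub, map_add, map_one, map_ofNat, aeval_X]
    exact h.1
  · change aeval (Y15_a P) (X 1 : MvPolynomial (Fin 3) O) = (P.x 1)⁻¹
    simp only [map_mul, map_sub, map_add, map_one, map_ofNat, aeval_X]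
    exact h.2.1
  · change aeval (Y15_a P) (X 2 : MvPolynomial (Fin 3) O) = (P.x 2)⁻¹
    simp only [map_mul, map_sub, map_add, map_one, map_ofNat, aeval_X]
    exact h.2.2

theorem Y15_F (P : Pt k K) (j : Fin 3) : Y15_a P j ∈ P.F := by
  fin_cases j
  · change (P.x 0)⁻¹ ∈ P.F
    exact inv_mem (xF P 0)
  · change (P.x 1)⁻¹ ∈ P.F
    exact inv_mem (xF P 1)
  · change (P.x 2)⁻¹ ∈ P.F
    exact inv_mem (xF P 2)

theorem Y15_cle (P : Pt k K) (B : Subalgebra k K) (ha : ∀ j, Y15_a P j ∈ B)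
    (hφ : (1 : K)⁻¹ ∈ B) (hw : ∀ j, ww P ![true, true, true] j ∈ B) :
    chartRing k (hY P) (iZ ![true, true, true] 2 1 3) ≤ B := by
  rw [inv_one] at hφ
  have ha0 : (P.x 0)⁻¹ ∈ B := ha 0
  have ha1 : (P.x 1)⁻¹ ∈ B := ha 1
  have ha2 : (P.x 2)⁻¹ ∈ B := ha 2
  have h := Y15_le (x_ne P 0) (x_ne P 1) (x_ne P 2) (x3_ne P) (sub_add_cancel _ _).symm ha0 ha1 ha2 hφ
  have hxx : ∀ j, xx P ![true, true, true] j ∈ B := fun j => by
    rw [← Y15_hxi P k j]
    exact aeval_mem_of B _ _ ha j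
  exact Y_le P ![true, true, true] 2 1 3 B hxx hw h.1 h.2.1 h.2.2

theorem Y15_cge (P : Pt k K) (h30 : (3 : K) ≠ 0) :
    (∀ j, Y15_a P j ∈ chartRing k (hY P) (iZ ![true, true, true] 2 1 3)) ∧
    (1 : K)⁻¹ ∈ chartRing k (hY P) (iZ ![true, true, true] 2 1 3) ∧
    ∀ j, ww P ![true, true, true] j ∈ chartRing k (hY P) (iZ ![true, true, true] 2 1 3) := by
  obtain ⟨hxx, hww, h3, h4, h5⟩ := Y_ge (O := k) P ![true, true, true] 2 1 3
  have hx0 : (P.x 0)⁻¹ ∈ chartRing k (hY P) (iZ ![true, true, true] 2 1 3) := hxx 0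
  have hx1 : (P.x 1)⁻¹ ∈ chartRing k (hY P) (iZ ![true, true, true] 2 1 3) := hxx 1
  have hx2 : (P.x 2)⁻¹ ∈ chartRing k (hY P) (iZ ![true, true, true] 2 1 3) := hxx 2
  have h := Y15_ge (x_ne P 0) (x_ne P 1) (x_ne P 2) (x3_ne P) (sub_add_cancel _ _).symm h30 (third_mem _) hx0 hx1 hx2 h3 h4 h5
  refine ⟨?_, ?_, hww⟩
  · intro j
    fin_cases j
    · exact h.1
    · exact h.2.1
    · exact h.2.2.1
  · rw [inv_one]
    exact h.2.2.2

/-- Chart 15. -/
noncomputable def Y15 (P : Pt k K) (t s : k) (h2 : 2 * t = 1) (h41 : 41 * s = 1) (h30 : (3 : K) ≠ 0) :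
    Chart k P (hY P) (iZ ![true, true, true] 2 1 3) where
  s := ![true, true, true]
  a := Y15_a P
  φ := 1
  ξ := T11 k
  d := T11_data t s h2 h41
  hξ := Y15_hxi P k
  hF := Y15_F P
  φmem := one_mem _
  φ0 := one_ne_zero
  le := Y15_cle P
  ge := Y15_cge P h30

end Pool.Agent.Lib.MP_55c1e7_ag.CH
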