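import Mathlib
import Pool.Agent.Lib.MP_55c1e7_ag.CH.XXb
import Pool.Agent.Lib.MP_55c1e7_ag.CH.Xb
import Pool.Agent.Lib.MP_55c1e7_ag.CH.Yb

set_option linter.unusedVariables false

namespace Pool.Agent.Lib.MP_55c1e7_ag.CH

open Pool.Agent.Lib.MP_55c1e7_ag.CK

theorem fin3 {p : Fin 3 → Prop} (h0 : p 0) (h1 : p 1) (h2 : p 2) (j : Fin 3) : p j := by
  fin_cases j
  · exact h0
  · exact h1
  · exact h2

section val

variable {k : Type} [Field k] {O : Type} [CommRing O] {K : Type} [Field K] [Algebra O K]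
  [Algebra k K] (P : Pt k K)

theorem one_inv_mem (B : Subalgebra O K) : (1 : K)⁻¹ ∈ B := by
  rw [inv_one]
  exact one_mem B

theorem inv_of {B : Subalgebra O K} {a b : K} (h : (a / b)⁻¹ ∈ B) : b / a ∈ B := by
  rwa [inv_div] at h

theorem ww_mem (B : Subalgebra O K) (tot : ∀ a : K, a ∈ B ∨ a⁻¹ ∈ B) (s : Fin 3 → Bool)
    (hx : ∀ j, xx P s j ∈ B) (j : Fin 3) : ww P s j ∈ B := by
  have h := ww_sq P s j
  rcases tot (ww P s j) with h1 | h1
  · exact h1
  · by_cases h0 : ww P s j = 0
    · rw [h0]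
      exact zero_mem B
    · have h2 : ww P s j = (xx P s j ^ 4 + 1) * (ww P s j)⁻¹ := by
        rw [← h]
        field_simp
      rw [h2]
      exact mul_mem (add_mem (pow_mem (hx j) 4) (one_mem B)) h1

theorem inf_mem (B : Subalgebra O K) (tot : ∀ a : K, a ∈ B ∨ a⁻¹ ∈ B) (hx : P.x 0 ∉ B) :
    (P.x 0)⁻¹ ∈ B ∧ P.x 0 / (P.x 0 - 3) ∈ B := by
  have h1 : (P.x 0)⁻¹ ∈ B := (tot _).resolve_left hx
  refine ⟨h1, ?_⟩
  rcases tot (P.x 0 - 3) with h | h
  · exfalso
    apply hx
    have h2 := add_mem h (three_mem B)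
    rwa [sub_add_cancel] at h2
  · have h0 := x3_ne P
    exact mem_eq (by field_simp; ring) (add_mem (one_mem B) (mul_mem (three_mem B) h))

theorem two_mem (B : Subalgebra O K) (tot : ∀ a : K, a ∈ B ∨ a⁻¹ ∈ B) (h30 : (3 : K) ≠ 0)
    (ht : (3 : K)⁻¹ ∈ B) : (P.x 0)⁻¹ ∈ B ∨ (P.x 0 - 3)⁻¹ ∈ B := by
  have h0 := x3_ne P
  have h1 := x_ne P 0
  rcases tot (P.x 0 / (P.x 0 - 3)) with h | h
  · right
    refine mem_eq ?_ (mul_mem ht (sub_mem h (one_mem B)))
    field_simp
    ring
  · left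
    rw [inv_div] at h
    refine mem_eq ?_ (mul_mem ht (sub_mem (one_mem B) h))
    field_simp
    ring

/-- The indices of the charts of `hXX`. -/
def IXX : Fin 14 → Fin 4 × Fin 4 × Fin 4 × Fin 3 × Fin 5 × Fin 5 :=
  ![iXX ![false, false, false] 0 0 4,
    iXX ![false, false, false] 0 4 4,
    iXX ![false, false, false] 1 4 0,
    iXX ![false, false, false] 1 4 4,
    iXX ![false, true, false] 0 0 4,
    iXX ![false, true, false] 0 2 4,
    iXX ![false, false, true] 1 4 0,
    iXX ![false, false, true] 1 4 2,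
    iXX ![true, false, false] 0 0 3,
    iXX ![true, false, false] 1 3 0,
    iXX ![true, true, false] 0 0 3,
    iXX ![true, false, true] 1 3 0,
    iXX ![false, true, true] 2 2 2,
    iXX ![true, true, true] 2 1 1]

/-- The indices of the charts of `hX`. -/
def IX : Fin 15 → (Fin 4 × Fin 4 × Fin 4 × Fin 5 × Fin 4) × Fin 3 :=
  ![iZ ![false, false, false] 0 0 2,
    iZ ![false, false, false] 0 4 0,
    iZ ![false, false, false] 1 4 0,
    iZ ![false, false, false] 1 4 2,
    iZ ![false, true, false] 0 0 2,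
    iZ ![false, true, false] 0 2 1,
    iZ ![false, false, true] 1 4 0,
    iZ ![false, false, true] 1 4 3,
    iZ ![true, false, false] 0 0 2,
    iZ ![true, false, false] 1 3 0,
    iZ ![true, true, false] 0 0 2,
    iZ ![true, false, true] 1 3 0,
    iZ ![false, true, true] 2 2 1,
    iZ ![false, true, true] 2 2 3,
    iZ ![true, true, true] 2 1 3]

/-- The indices of the charts of `hY`. -/
def IY : Fin 15 → (Fin 4 × Fin 4 × Fin 4 × Fin 5 × Fin 4) × Fin 3 :=
  ![iZ ![false, false, false] 0 0 2,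
    iZ ![false, false, false] 0 4 0,
    iZ ![false, false, false] 0 4 2,
    iZ ![false, false, false] 1 4 0,
    iZ ![false, true, false] 0 0 2,
    iZ ![false, true, false] 1 2 1,
    iZ ![true, false, false] 0 0 2,
    iZ ![true, false, false] 0 3 0,
    iZ ![false, false, true] 1 4 0,
    iZ ![false, false, true] 1 4 3,
    iZ ![false, true, true] 1 2 1,
    iZ ![false, true, true] 1 2 3,
    iZ ![true, false, true] 2 3 0,
    iZ ![true, true, false] 0 0 2,
    iZ ![true, true, true] 2 1 3]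

theorem XX_val (B : Subalgebra O K) (tot : ∀ a : K, a ∈ B ∨ a⁻¹ ∈ B) :
    ∃ c, chartRing O (hXX P) (IXX c) ≤ B := by
  have n0 := x_ne P 0
  have n1 := x_ne P 1
  have n2 := x_ne P 2
  have n3 := x3_ne P
  by_cases hx : P.x 0 ∈ B
  · rcases tot (P.x 1) with hy | hy
    · rcases tot (P.x 2) with hz | hz
      · rcases tot (P.x 2 / P.x 1) with hu | hu
        · rcases tot (P.x 2 / (P.x 0 * P.x 1)) with hv | hv
          · exact ⟨0, XX1_cle P B (fin3 hx hy hv) (one_inv_mem B)
            (ww_mem P B tot _ (fin3 hx hy hz))⟩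
          · exact ⟨1, XX2_cle P B (fin3 hu hy (inv_of hv)) (one_inv_mem B)
            (ww_mem P B tot _ (fin3 hx hy hz))⟩
        · have hu := inv_of hu
          rcases tot (P.x 1 / ((P.x 0 - 3) * P.x 2)) with hv | hv
          · exact ⟨2, XX3_cle P B (fin3 hx hz hv) (one_inv_mem B)
            (ww_mem P B tot _ (fin3 hx hy hz))⟩
          · exact ⟨3, XX4_cle P B (fin3 hu hz (inv_of hv)) (one_inv_mem B)
            (ww_mem P B tot _ (fin3 hx hy hz))⟩
      · rcases tot (P.x 1 / (P.x 0 - 3)) with hv | hv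
        · exact ⟨6, XX7_cle P B (fin3 hx hv hz) (one_inv_mem B)
          (ww_mem P B tot _ (fin3 hx hy hz))⟩
        · exact ⟨7, XX8_cle P B (fin3 (inv_of hv) hy hz) (one_inv_mem B)
          (ww_mem P B tot _ (fin3 hx hy hz))⟩
    · rcases tot (P.x 2) with hz | hz
      · rcases tot (P.x 2 / P.x 0) with hv | hv
        · exact ⟨4, XX5_cle P B (fin3 hx hy hv) (one_inv_mem B)
          (ww_mem P B tot _ (fin3 hx hy hz))⟩
        · exact ⟨5, XX6_cle P B (fin3 (inv_of hv) hy hz) (one_inv_mem B)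
          (ww_mem P B tot _ (fin3 hx hy hz))⟩
      · exact ⟨12, XX13_cle P B (fin3 hx hy hz) (one_inv_mem B)
        (ww_mem P B tot _ (fin3 hx hy hz))⟩
  · obtain ⟨hx, hφ⟩ := inf_mem P B tot hx
    have hf : ((P.x 0 - 3) / P.x 0)⁻¹ ∈ B := by rwa [inv_div]
    rcases tot (P.x 1) with hy | hy
    · rcases tot (P.x 2) with hz | hz
      · rcases tot (P.x 2 / P.x 1) with hu | hu
        · exact ⟨8, XX9_cle P B (fin3 hx hy hu) hf
          (ww_mem P B tot _ (fin3 hx hy hz))⟩
        · have hu := inv_of hu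
          have hv : P.x 0 * P.x 1 / ((P.x 0 - 3) * P.x 2) ∈ B :=
            mem_eq (by field_simp) (mul_mem hφ hu)
          exact ⟨9, XX10_cle P B (fin3 hx hz hv) (one_inv_mem B)
            (ww_mem P B tot _ (fin3 hx hy hz))⟩
      · have hv : P.x 0 * P.x 1 / (P.x 0 - 3) ∈ B :=
          mem_eq (by field_simp) (mul_mem hφ hy)
        exact ⟨11, XX12_cle P B (fin3 hx hv hz) (one_inv_mem B)
          (ww_mem P B tot _ (fin3 hx hy hz))⟩
    · rcases tot (P.x 2) with hz | hz
      · exact ⟨10, XX11_cle P B (fin3 hx hy hz) hf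
        (ww_mem P B tot _ (fin3 hx hy hz))⟩
      · exact ⟨13, XX14_cle P B (fin3 hx hy hz) hf
        (ww_mem P B tot _ (fin3 hx hy hz))⟩

end val

section valk

variable {k : Type} [Field k] {K : Type} [Field K] [Algebra k K] (P : Pt k K)

theorem X_val (h30 : (3 : K) ≠ 0) (B : Subalgebra k K) (tot : ∀ a : K, a ∈ B ∨ a⁻¹ ∈ B) :
    ∃ c, chartRing k (hX P) (IX c) ≤ B := by
  have n0 := x_ne P 0
  have n1 := x_ne P 1
  have n2 := x_ne P 2
  have n3 := x3_ne P
  by_cases hx : P.x 0 ∈ B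
  · have hq := two_mem P B tot h30 (third_mem B)
    rcases tot (P.x 1) with hy | hy
    · rcases tot (P.x 2) with hz | hz
      · rcases tot (P.x 2 / P.x 1) with hu | hu
        · rcases hq with hq | hq
          · have hv : P.x 2 / (P.x 0 * P.x 1) ∈ B := mem_eq (by field_simp) (mul_mem hu hq)
            exact ⟨0, X1_cle P B (fin3 hx hy hv) (one_inv_mem B)
              (ww_mem P B tot _ (fin3 hx hy hz))⟩
          · rcases tot (P.x 2 / (P.x 0 * P.x 1)) with hv | hv
            · exact ⟨0, X1_cle P B (fin3 hx hy hv) (one_inv_mem B)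
              (ww_mem P B tot _ (fin3 hx hy hz))⟩
            · exact ⟨1, X2_cle P B (fin3 hu hy (inv_of hv)) hq
              (ww_mem P B tot _ (fin3 hx hy hz))⟩
        · have hu := inv_of hu
          rcases hq with hq | hq
          · rcases tot (P.x 1 / ((P.x 0 - 3) * P.x 2)) with hv | hv
            · exact ⟨2, X3_cle P B (fin3 hx hz hv) (one_inv_mem B)
              (ww_mem P B tot _ (fin3 hx hy hz))⟩
            · exact ⟨3, X4_cle P B (fin3 hu hz (inv_of hv)) hq
              (ww_mem P B tot _ (fin3 hx hy hz))⟩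
          · have hv : P.x 1 / ((P.x 0 - 3) * P.x 2) ∈ B := mem_eq (by field_simp) (mul_mem hu hq)
            exact ⟨2, X3_cle P B (fin3 hx hz hv) (one_inv_mem B)
              (ww_mem P B tot _ (fin3 hx hy hz))⟩
      · rcases hq with hq | hq
        · rcases tot (P.x 1 / (P.x 0 - 3)) with hv | hv
          · exact ⟨6, X7_cle P B (fin3 hx hv hz) (one_inv_mem B)
            (ww_mem P B tot _ (fin3 hx hy hz))⟩
          · exact ⟨7, X8_cle P B (fin3 (inv_of hv) hy hz) hq
            (ww_mem P B tot _ (fin3 hx hy hz))⟩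
        · have hv : P.x 1 / (P.x 0 - 3) ∈ B := mem_eq (by field_simp) (mul_mem hy hq)
          exact ⟨6, X7_cle P B (fin3 hx hv hz) (one_inv_mem B)
            (ww_mem P B tot _ (fin3 hx hy hz))⟩
    · rcases tot (P.x 2) with hz | hz
      · rcases hq with hq | hq
        · have hv : P.x 2 / P.x 0 ∈ B := mem_eq (by field_simp) (mul_mem hz hq)
          exact ⟨4, X5_cle P B (fin3 hx hy hv) (one_inv_mem B)
            (ww_mem P B tot _ (fin3 hx hy hz))⟩
        · rcases tot (P.x 2 / P.x 0) with hv | hv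
          · exact ⟨4, X5_cle P B (fin3 hx hy hv) (one_inv_mem B)
            (ww_mem P B tot _ (fin3 hx hy hz))⟩
          · exact ⟨5, X6_cle P B (fin3 (inv_of hv) hy hz) hq
            (ww_mem P B tot _ (fin3 hx hy hz))⟩
      · rcases hq with hq | hq
        · exact ⟨13, X14_cle P B (fin3 hx hy hz) hq
          (ww_mem P B tot _ (fin3 hx hy hz))⟩
        · exact ⟨12, X13_cle P B (fin3 hx hy hz) hq
          (ww_mem P B tot _ (fin3 hx hy hz))⟩
  · obtain ⟨hx, hφ⟩ := inf_mem P B tot hx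
    rcases tot (P.x 1) with hy | hy
    · rcases tot (P.x 2) with hz | hz
      · rcases tot (P.x 2 / P.x 1) with hu | hu
        · exact ⟨8, X9_cle P B (fin3 hx hy hu) (one_inv_mem B)
          (ww_mem P B tot _ (fin3 hx hy hz))⟩
        · have hu := inv_of hu
          have hv : P.x 0 * P.x 1 / ((P.x 0 - 3) * P.x 2) ∈ B :=
            mem_eq (by field_simp) (mul_mem hφ hu)
          exact ⟨9, X10_cle P B (fin3 hx hz hv) (one_inv_mem B)
            (ww_mem P B tot _ (fin3 hx hy hz))⟩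
      · have hv : P.x 0 * P.x 1 / (P.x 0 - 3) ∈ B :=
          mem_eq (by field_simp) (mul_mem hφ hy)
        exact ⟨11, X12_cle P B (fin3 hx hv hz) (one_inv_mem B)
          (ww_mem P B tot _ (fin3 hx hy hz))⟩
    · rcases tot (P.x 2) with hz | hz
      · exact ⟨10, X11_cle P B (fin3 hx hy hz) (one_inv_mem B)
        (ww_mem P B tot _ (fin3 hx hy hz))⟩
      · exact ⟨14, X15_cle P B (fin3 hx hy hz) (one_inv_mem B)
        (ww_mem P B tot _ (fin3 hx hy hz))⟩

theorem Y_val (h30 : (3 : K) ≠ 0) (B : Subalgebra k K) (tot : ∀ a : K, a ∈ B ∨ a⁻¹ ∈ B) :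
    ∃ c, chartRing k (hY P) (IY c) ≤ B := by
  have n0 := x_ne P 0
  have n1 := x_ne P 1
  have n2 := x_ne P 2
  have n3 := x3_ne P
  by_cases hx : P.x 0 ∈ B
  · have hq := two_mem P B tot h30 (third_mem B)
    rcases tot (P.x 1) with hy | hy
    · rcases tot (P.x 2) with hz | hz
      · have hfin : P.x 2 / P.x 0 ∈ B → ∃ c, chartRing k (hY P) (IY c) ≤ B := by
          intro hu
          rcases tot (P.x 2 / (P.x 0 * P.x 1)) with hv | hv
          · exact ⟨0, Y1_cle P B (fin3 hx hy hv) (one_inv_mem B)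
            (ww_mem P B tot _ (fin3 hx hy hz))⟩
          · rcases tot (P.x 0 * P.x 1 / ((P.x 0 - 3) * P.x 2)) with hw | hw
            · exact ⟨1, Y2_cle P B (fin3 hx hu hw) (one_inv_mem B)
              (ww_mem P B tot _ (fin3 hx hy hz))⟩
            · exact ⟨2, Y3_cle P B (fin3 (inv_of hv) hu (inv_of hw)) (one_inv_mem B)
              (ww_mem P B tot _ (fin3 hx hy hz))⟩
        rcases hq with hq | hq
        · exact hfin (mem_eq (by field_simp) (mul_mem hz hq))
        · rcases tot (P.x 2 / P.x 0) with hu | hu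
          · exact hfin hu
          · have hu := inv_of hu
            have hv : P.x 1 / (P.x 0 - 3) ∈ B := mem_eq (by field_simp) (mul_mem hy hq)
            exact ⟨3, Y4_cle P B (fin3 hu hz hv) (one_inv_mem B)
              (ww_mem P B tot _ (fin3 hx hy hz))⟩
      · rcases hq with hq | hq
        · rcases tot (P.x 1 / (P.x 0 - 3)) with hv | hv
          · exact ⟨8, Y9_cle P B (fin3 hx hv hz) (one_inv_mem B)
            (ww_mem P B tot _ (fin3 hx hy hz))⟩
          · exact ⟨9, Y10_cle P B (fin3 (inv_of hv) hy hz) hq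
            (ww_mem P B tot _ (fin3 hx hy hz))⟩
        · have hv : P.x 1 / (P.x 0 - 3) ∈ B := mem_eq (by field_simp) (mul_mem hy hq)
          exact ⟨8, Y9_cle P B (fin3 hx hv hz) (one_inv_mem B)
            (ww_mem P B tot _ (fin3 hx hy hz))⟩
    · rcases tot (P.x 2) with hz | hz
      · rcases hq with hq | hq
        · have hv : P.x 2 / P.x 0 ∈ B := mem_eq (by field_simp) (mul_mem hz hq)
          exact ⟨4, Y5_cle P B (fin3 hx hy hv) (one_inv_mem B)
            (ww_mem P B tot _ (fin3 hx hy hz))⟩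
        · rcases tot (P.x 2 / P.x 0) with hv | hv
          · exact ⟨4, Y5_cle P B (fin3 hx hy hv) (one_inv_mem B)
            (ww_mem P B tot _ (fin3 hx hy hz))⟩
          · exact ⟨5, Y6_cle P B (fin3 (inv_of hv) hy hz) hq
            (ww_mem P B tot _ (fin3 hx hy hz))⟩
      · rcases hq with hq | hq
        · exact ⟨11, Y12_cle P B (fin3 hx hy hz) hq
          (ww_mem P B tot _ (fin3 hx hy hz))⟩
        · exact ⟨10, Y11_cle P B (fin3 hx hy hz) hq
          (ww_mem P B tot _ (fin3 hx hy hz))⟩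
  · obtain ⟨hx, hφ⟩ := inf_mem P B tot hx
    rcases tot (P.x 1) with hy | hy
    · rcases tot (P.x 2) with hz | hz
      · rcases tot (P.x 2 / P.x 1) with hu | hu
        · exact ⟨6, Y7_cle P B (fin3 hx hy hu) (one_inv_mem B)
          (ww_mem P B tot _ (fin3 hx hy hz))⟩
        · have hu := inv_of hu
          have hv : P.x 0 * P.x 1 / ((P.x 0 - 3) * P.x 2) ∈ B :=
            mem_eq (by field_simp) (mul_mem hφ hu)
          exact ⟨7, Y8_cle P B (fin3 hx hz hv) (one_inv_mem B)
            (ww_mem P B tot _ (fin3 hx hy hz))⟩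
      · have hv : P.x 0 * P.x 1 / (P.x 0 - 3) ∈ B :=
          mem_eq (by field_simp) (mul_mem hφ hy)
        exact ⟨12, Y13_cle P B (fin3 hx hv hz) (one_inv_mem B)
          (ww_mem P B tot _ (fin3 hx hy hz))⟩
    · rcases tot (P.x 2) with hz | hz
      · exact ⟨13, Y14_cle P B (fin3 hx hy hz) (one_inv_mem B)
        (ww_mem P B tot _ (fin3 hx hy hz))⟩
      · exact ⟨14, Y15_cle P B (fin3 hx hy hz) (one_inv_mem B)
        (ww_mem P B tot _ (fin3 hx hy hz))⟩

end valk

end Pool.Agent.Lib.MP_55c1e7_ag.CH
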