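import Mathlib
import Pool.Agent.Lib.MP_55c1e7_ag.CH.Val

namespace Pool.Agent.Lib.MP_55c1e7_ag.CH

open Pool.Agent.Lib.MP_55c1e7_ag.CK

section general

variable {O : Type} [CommRing O] {K : Type} [Field K] [Algebra O K] {ι γ : Type}

/-- The element `h j / h i` of the chart ring. -/
def crat (O : Type) [CommRing O] [Algebra O K] (h : ι → K) (i j : ι) : chartRing O h i :=
  ⟨h j / h i, Algebra.subset_adjoin ⟨j, rfl⟩⟩

/-- A valuation subring containing `O`, as a subalgebra. -/
def valSub (V : ValuationSubring K) (hV : ∀ r : O, algebraMap O K r ∈ V) : Subalgebra O K :=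
  { V.toSubring with algebraMap_mem' := hV }

theorem mem_valSub (V : ValuationSubring K) (hV : ∀ r : O, algebraMap O K r ∈ V) (a : K) :
    a ∈ valSub V hV ↔ a ∈ V := Iff.rfl

theorem cover_of_val (h : ι → K) (hne : ∀ j, h j ≠ 0) (I : γ → ι)
    (H : ∀ B : Subalgebra O K, (∀ a : K, a ∈ B ∨ a⁻¹ ∈ B) → ∃ c, chartRing O h (I c) ≤ B)
    (J : ι) : Ideal.span (Set.range fun c => crat O h J (I c)) = ⊤ := by
  by_contra hI
  obtain ⟨V, hAV, hV⟩ := Ideal.image_subset_nonunits_valuationSubring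
    (A := (chartRing O h J).toSubring) (Ideal.span (Set.range fun c => crat O h J (I c))) hI
  have hO : ∀ r : O, algebraMap O K r ∈ V := fun r =>
    hAV ((chartRing O h J).algebraMap_mem r)
  obtain ⟨c, hc⟩ := H (valSub V hO) (fun a => V.mem_or_inv_mem a)
  have h1 : h J / h (I c) ∈ V := hc (Algebra.subset_adjoin ⟨J, rfl⟩)
  have h2 : h (I c) / h J ∈ V.nonunits :=
    hV ⟨crat O h J (I c), Ideal.subset_span ⟨c, rfl⟩, rfl⟩
  have h3 : h (I c) / h J ∈ V := ValuationSubring.nonunits_subset h2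
  rw [ValuationSubring.mem_nonunits_iff_exists_mem_maximalIdeal] at h2
  obtain ⟨h4, h5⟩ := h2
  apply (IsLocalRing.mem_maximalIdeal _).1 h5
  refine IsUnit.of_mul_eq_one ⟨_, h1⟩ ?_
  apply Subtype.ext
  change h (I c) / h J * (h J / h (I c)) = 1
  have e1 := hne J
  have e2 := hne (I c)
  field_simp

end general

end Pool.Agent.Lib.MP_55c1e7_ag.CH
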