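import Mathlib
import Pool.Agent.Lib.MP_55c1e7_ag.CH.Cov

namespace Pool.Agent.Lib.MP_55c1e7_ag.CH

open Pool.Agent.Lib.MP_55c1e7_ag.CK

section general

variable {O : Type} [CommRing O] {K : Type} [Field K] [Algebra O K] {ι γ κ : Type}

/-- The list `g` is invertible on the chart `i` of the list `h`. -/
def Prin (O : Type) [CommRing O] [Algebra O K] [Fintype κ] (h : ι → K) (g : κ → K) (i : ι) :
    Prop :=
  ∃ n : κ → K, (∀ m b, n m * g b ∈ chartRing O h i) ∧ ∑ m, n m * g m = 1

theorem exists_pow_mem (h : ι → K) (hne : ∀ j, h j ≠ 0) (i J : ι) {y : K}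
    (hy : y ∈ chartRing O h i) : ∃ N : ℕ, ∀ M, N ≤ M → (h i / h J) ^ M * y ∈ chartRing O h J := by
  have hu : h i / h J ∈ chartRing O h J := Algebra.subset_adjoin ⟨i, rfl⟩
  have step : ∀ {z : K} {N : ℕ}, (h i / h J) ^ N * z ∈ chartRing O h J →
      ∀ M, N ≤ M → (h i / h J) ^ M * z ∈ chartRing O h J := by
    intro z N hz M hM
    obtain ⟨d, rfl⟩ := Nat.exists_eq_add_of_le hM
    have e : (h i / h J) ^ (N + d) * z = (h i / h J) ^ d * ((h i / h J) ^ N * z) := by
      rw [pow_add]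
      ring
    rw [e]
    exact mul_mem (pow_mem hu d) hz
  refine Algebra.adjoin_induction
    (p := fun y _ => ∃ N : ℕ, ∀ M, N ≤ M → (h i / h J) ^ M * y ∈ chartRing O h J) ?_ ?_ ?_ ?_ hy
  · rintro _ ⟨j, rfl⟩
    refine ⟨1, step ?_⟩
    have e : (h i / h J) ^ 1 * (h j / h i) = h j / h J := by
      have e1 := hne i
      have e2 := hne J
      field_simp
    rw [e]
    exact Algebra.subset_adjoin ⟨j, rfl⟩
  · intro r
    refine ⟨0, step ?_⟩
    rw [pow_zero, one_mul]
    exact Subalgebra.algebraMap_mem _ r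
  · rintro x y _ _ ⟨n, hn⟩ ⟨m, hm⟩
    refine ⟨n + m, fun M hM => ?_⟩
    rw [mul_add]
    exact add_mem (hn M (by omega)) (hm M (by omega))
  · rintro x y _ _ ⟨n, hn⟩ ⟨m, hm⟩
    refine ⟨n + m, step ?_⟩
    have e : (h i / h J) ^ (n + m) * (x * y) =
        ((h i / h J) ^ n * x) * ((h i / h J) ^ m * y) := by
      rw [pow_add]
      ring
    rw [e]
    exact mul_mem (hn n le_rfl) (hm m le_rfl)

theorem prin_of_cover [Fintype κ] [Fintype γ] (h : ι → K) (hne : ∀ j, h j ≠ 0) (I : γ → ι)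
    (g : κ → K) (hp : ∀ c, Prin O h g (I c)) (J : ι)
    (hcov : Ideal.span (Set.range fun c => crat O h J (I c)) = ⊤) : Prin O h g J := by
  classical
  choose n hn hs using hp
  have hN : ∀ q : γ × κ × κ, ∃ N : ℕ, ∀ M, N ≤ M →
      (h (I q.1) / h J) ^ M * (n q.1 q.2.1 * g q.2.2) ∈ chartRing O h J := fun q =>
    exists_pow_mem h hne (I q.1) J (hn q.1 q.2.1 q.2.2)
  choose N hN using hN
  let M := ∑ q, N q
  have hM : ∀ q : γ × κ × κ,
      (h (I q.1) / h J) ^ M * (n q.1 q.2.1 * g q.2.2) ∈ chartRing O h J := fun q =>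
    hN q M (Finset.single_le_sum (f := N) (fun _ _ => Nat.zero_le _) (Finset.mem_univ q))
  have h1 := Ideal.span_pow_eq_top _ hcov M
  have h2 : (1 : chartRing O h J) ∈ Ideal.span (Set.range fun c => crat O h J (I c) ^ M) := by
    have e : (fun x : chartRing O h J => x ^ M) '' (Set.range fun c => crat O h J (I c)) =
        Set.range fun c => crat O h J (I c) ^ M := by
      rw [← Set.range_comp]
      rfl
    rw [← e, h1]
    exact Submodule.mem_top
  rw [Ideal.mem_span_range_iff_exists_fun] at h2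
  obtain ⟨r, hr⟩ := h2
  have hr' : ∑ c, (r c : K) * (h (I c) / h J) ^ M = 1 := by
    have h3 := congrArg (fun x : chartRing O h J => (x : K)) hr
    simpa [crat] using h3
  refine ⟨fun m => ∑ c, (r c : K) * (h (I c) / h J) ^ M * n c m, ?_, ?_⟩
  · intro m b
    rw [Finset.sum_mul]
    refine sum_mem fun c _ => ?_
    have e : (r c : K) * (h (I c) / h J) ^ M * n c m * g b =
        (r c : K) * ((h (I c) / h J) ^ M * (n c m * g b)) := by ring
    rw [e]
    exact mul_mem (r c).2 (hM (c, m, b))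
  · simp_rw [Finset.sum_mul]
    rw [Finset.sum_comm]
    rw [← hr']
    refine Finset.sum_congr rfl fun c _ => ?_
    have e : ∀ m, (r c : K) * (h (I c) / h J) ^ M * n c m * g m =
        (r c : K) * (h (I c) / h J) ^ M * (n c m * g m) := fun m => by ring
    simp_rw [e]
    rw [← Finset.mul_sum, hs, mul_one]

end general

end Pool.Agent.Lib.MP_55c1e7_ag.CH
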