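import Mathlib
import Pool.Agent.Lib.MP_55c1e7_ag.CH.Pr

set_option linter.unusedVariables false
set_option linter.unusedTactic false
set_option linter.unreachableTactic false
set_option linter.unusedSimpArgs false
set_option linter.unnecessarySeqFocus false

namespace Pool.Agent.Lib.MP_55c1e7_ag.CH

open Pool.Agent.Lib.MP_55c1e7_ag.CK

variable {k : Type} [Field k] {K : Type} [Field K] [Algebra k K]

theorem pr_single {B : Subalgebra k K} {n : ℕ} (g : Fin n → K) (i : Fin n) (hi : g i ≠ 0)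
    (h : ∀ b, g b / g i ∈ B) :
    ∃ n : Fin n → K, (∀ m b, n m * g b ∈ B) ∧ ∑ m, n m * g m = 1 := by
  refine ⟨fun m => if m = i then (g i)⁻¹ else 0, ?_, ?_⟩
  · intro m b
    beta_reduce
    split_ifs
    · rw [inv_mul_eq_div]
      exact h b
    · rw [zero_mul]
      exact zero_mem B
  · simp [hi]

theorem pr_pair {B : Subalgebra k K} {n : ℕ} (g : Fin n → K) (i j : Fin n) (hij : i ≠ j)
    (c d : K) (hi : g i ≠ 0) (hj : g j ≠ 0) (h1 : ∀ b, c / g i * g b ∈ B)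
    (h2 : ∀ b, d / g j * g b ∈ B) (hs : c + d = 1) :
    ∃ n : Fin n → K, (∀ m b, n m * g b ∈ B) ∧ ∑ m, n m * g m = 1 := by
  refine ⟨fun m => if m = i then c / g i else if m = j then d / g j else 0, ?_, ?_⟩
  · intro m b
    beta_reduce
    split_ifs
    · exact h1 b
    · exact h2 b
    · rw [zero_mul]
      exact zero_mem B
  · have e : ∀ m, (if m = i then c / g i else if m = j then d / g j else 0) * g m =
        (if m = i then c else 0) + (if m = j then d else 0) := by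
      intro m
      by_cases hm : m = i
      · subst hm
        rw [if_pos rfl, if_pos rfl, if_neg hij, add_zero]
        field_simp
      · by_cases hm' : m = j
        · subst hm'
          rw [if_neg hm, if_pos rfl, if_neg hm, if_pos rfl, zero_add]
          field_simp
        · rw [if_neg hm, if_neg hm', if_neg hm, if_neg hm', zero_mul, add_zero]
    simp_rw [e]
    rw [Finset.sum_add_distrib]
    simp [hs]

theorem XX1_pr {B : Subalgebra k K} {x y z X : K} (hx : x ≠ 0) (hy : y ≠ 0) (hz : z ≠ 0)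
    (hX : X ≠ 0) (hXe : x = X + 3) (h30 : (3 : K) ≠ 0) (ha : x ∈ B) (hb : y ∈ B)
    (hc : z / (x * y) ∈ B) (hQ : 1 ∈ B) :
    ∃ n : Fin 4 → K, (∀ m b, n m * m4 X x y z b ∈ B) ∧ ∑ m, n m * m4 X x y z m = 1 := by
  have ht : (3 : K)⁻¹ ∈ B := third_mem B
  have hP : X ∈ B :=
    mem_eq (by first | (rw [hXe]; ring1) | (field_simp <;> rw [hXe] <;> ring1)) (sub_mem ha (three_mem B))
  refine pr_single _ 2 ?_ ?_
  · change x * y ≠ 0
    simp [hx, hy, hz, hX]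
  · intro b
    fin_cases b
    · change X * z / (x * y) ∈ B
      exact mem_eq (by field_simp) (mul_mem hc hP)
    · change X * y * z / (x * y) ∈ B
      exact mem_eq (by field_simp) (mul_mem (mul_mem hb hc) hP)
    · exact div_self_mem B _
    · change x * y * z / (x * y) ∈ B
      exact mem_eq (by field_simp) (mul_mem (mul_mem ha hb) hc)

theorem XX1_prin (P : Pt k K) (h30 : (3 : K) ≠ 0) :
    Prin k (hXX P) (l4 (P.x 0) (P.x 1) (P.x 2)) (iXX ![false, false, false] 0 0 4) := by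
  have h := XX1_cge (O := k) P
  obtain ⟨ha, hφ, -⟩ := h
  rw [inv_one] at hφ
  have ha0 : P.x 0 ∈ _ := ha 0
  have ha1 : P.x 1 ∈ _ := ha 1
  have ha2 : P.x 2 / (P.x 0 * P.x 1) ∈ _ := ha 2
  exact XX1_pr (x_ne P 0) (x_ne P 1) (x_ne P 2) (x3_ne P) (sub_add_cancel _ _).symm h30 ha0 ha1 ha2 hφ

theorem XX2_pr {B : Subalgebra k K} {x y z X : K} (hx : x ≠ 0) (hy : y ≠ 0) (hz : z ≠ 0)
    (hX : X ≠ 0) (hXe : x = X + 3) (h30 : (3 : K) ≠ 0) (ha : z / y ∈ B) (hb : y ∈ B)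
    (hc : x * y / z ∈ B) (hQ : 1 ∈ B) :
    ∃ n : Fin 4 → K, (∀ m b, n m * m4 X x y z b ∈ B) ∧ ∑ m, n m * m4 X x y z m = 1 := by
  have ht : (3 : K)⁻¹ ∈ B := third_mem B
  have hP : X ∈ B :=
    mem_eq (by first | (rw [hXe]; ring1) | (field_simp <;> rw [hXe] <;> ring1)) (sub_mem (mul_mem ha hc) (three_mem B))
  refine pr_pair _ 2 0 (by decide) (x / 3) (-X / 3) ?_ ?_ ?_ ?_ ?_
  · change x * y ≠ 0
    simp [hx, hy, hz, hX]
  · change X * z ≠ 0
    simp [hx, hy, hz, hX]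
  · intro b
    fin_cases b
    · change x / 3 / (x * y) * (X * z) ∈ B
      exact mem_eq (by field_simp) (mul_mem ht (mul_mem ha hP))
    · change x / 3 / (x * y) * (X * y * z) ∈ B
      exact mem_eq (by field_simp) (mul_mem ht (mul_mem (mul_mem ha hb) hP))
    · change x / 3 / (x * y) * (x * y) ∈ B
      exact mem_eq (by field_simp) (mul_mem ht (mul_mem ha hc))
    · change x / 3 / (x * y) * (x * y * z) ∈ B
      exact mem_eq (by field_simp) (mul_mem ht (mul_mem (mul_mem (pow_mem ha 2) hb) hc))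
  · intro b
    fin_cases b
    · change -X / 3 / (X * z) * (X * z) ∈ B
      exact mem_eq (by field_simp) (neg_mem (mul_mem ht (hP)))
    · change -X / 3 / (X * z) * (X * y * z) ∈ B
      exact mem_eq (by field_simp) (neg_mem (mul_mem ht (mul_mem hb hP)))
    · change -X / 3 / (X * z) * (x * y) ∈ B
      exact mem_eq (by field_simp) (neg_mem (mul_mem ht (hc)))
    · change -X / 3 / (X * z) * (x * y * z) ∈ B
      exact mem_eq (by field_simp) (neg_mem (mul_mem ht (mul_mem (mul_mem ha hb) hc)))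
  · rw [hXe]
    field_simp
    ring

theorem XX2_prin (P : Pt k K) (h30 : (3 : K) ≠ 0) :
    Prin k (hXX P) (l4 (P.x 0) (P.x 1) (P.x 2)) (iXX ![false, false, false] 0 4 4) := by
  have h := XX2_cge (O := k) P
  obtain ⟨ha, hφ, -⟩ := h
  rw [inv_one] at hφ
  have ha0 : P.x 2 / P.x 1 ∈ _ := ha 0
  have ha1 : P.x 1 ∈ _ := ha 1
  have ha2 : P.x 0 * P.x 1 / P.x 2 ∈ _ := ha 2
  exact XX2_pr (x_ne P 0) (x_ne P 1) (x_ne P 2) (x3_ne P) (sub_add_cancel _ _).symm h30 ha0 ha1 ha2 hφ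

theorem XX3_pr {B : Subalgebra k K} {x y z X : K} (hx : x ≠ 0) (hy : y ≠ 0) (hz : z ≠ 0)
    (hX : X ≠ 0) (hXe : x = X + 3) (h30 : (3 : K) ≠ 0) (ha : x ∈ B) (hb : z ∈ B)
    (hc : y / (X * z) ∈ B) (hQ : 1 ∈ B) :
    ∃ n : Fin 4 → K, (∀ m b, n m * m4 X x y z b ∈ B) ∧ ∑ m, n m * m4 X x y z m = 1 := by
  have ht : (3 : K)⁻¹ ∈ B := third_mem B
  have hP : X ∈ B :=
    mem_eq (by first | (rw [hXe]; ring1) | (field_simp <;> rw [hXe] <;> ring1)) (sub_mem ha (three_mem B))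
  refine pr_single _ 0 ?_ ?_
  · change X * z ≠ 0
    simp [hx, hy, hz, hX]
  · intro b
    fin_cases b
    · exact div_self_mem B _
    · change X * y * z / (X * z) ∈ B
      exact mem_eq (by field_simp) (mul_mem (mul_mem hb hc) hP)
    · change x * y / (X * z) ∈ B
      exact mem_eq (by field_simp) (mul_mem ha hc)
    · change x * y * z / (X * z) ∈ B
      exact mem_eq (by field_simp) (mul_mem (mul_mem ha hb) hc)

theorem XX3_prin (P : Pt k K) (h30 : (3 : K) ≠ 0) :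
    Prin k (hXX P) (l4 (P.x 0) (P.x 1) (P.x 2)) (iXX ![false, false, false] 1 4 0) := by
  have h := XX3_cge (O := k) P
  obtain ⟨ha, hφ, -⟩ := h
  rw [inv_one] at hφ
  have ha0 : P.x 0 ∈ _ := ha 0
  have ha1 : P.x 2 ∈ _ := ha 1
  have ha2 : P.x 1 / ((P.x 0 - 3) * P.x 2) ∈ _ := ha 2
  exact XX3_pr (x_ne P 0) (x_ne P 1) (x_ne P 2) (x3_ne P) (sub_add_cancel _ _).symm h30 ha0 ha1 ha2 hφ

theorem XX4_pr {B : Subalgebra k K} {x y z X : K} (hx : x ≠ 0) (hy : y ≠ 0) (hz : z ≠ 0)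
    (hX : X ≠ 0) (hXe : x = X + 3) (h30 : (3 : K) ≠ 0) (ha : y / z ∈ B) (hb : z ∈ B)
    (hc : X * z / y ∈ B) (hQ : 1 ∈ B) :
    ∃ n : Fin 4 → K, (∀ m b, n m * m4 X x y z b ∈ B) ∧ ∑ m, n m * m4 X x y z m = 1 := by
  have ht : (3 : K)⁻¹ ∈ B := third_mem B
  have hP : x ∈ B :=
    mem_eq (by first | (rw [hXe]; ring1) | (field_simp <;> rw [hXe] <;> ring1)) (add_mem (mul_mem ha hc) (three_mem B))
  refine pr_pair _ 2 0 (by decide) (x / 3) (-X / 3) ?_ ?_ ?_ ?_ ?_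
  · change x * y ≠ 0
    simp [hx, hy, hz, hX]
  · change X * z ≠ 0
    simp [hx, hy, hz, hX]
  · intro b
    fin_cases b
    · change x / 3 / (x * y) * (X * z) ∈ B
      exact mem_eq (by field_simp) (mul_mem ht (hc))
    · change x / 3 / (x * y) * (X * y * z) ∈ B
      exact mem_eq (by field_simp) (mul_mem ht (mul_mem (mul_mem ha hb) hc))
    · change x / 3 / (x * y) * (x * y) ∈ B
      exact mem_eq (by field_simp) (mul_mem ht (hP))
    · change x / 3 / (x * y) * (x * y * z) ∈ B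
      exact mem_eq (by field_simp) (mul_mem ht (mul_mem hb hP))
  · intro b
    fin_cases b
    · change -X / 3 / (X * z) * (X * z) ∈ B
      exact mem_eq (by field_simp) (neg_mem (mul_mem ht (mul_mem ha hc)))
    · change -X / 3 / (X * z) * (X * y * z) ∈ B
      exact mem_eq (by field_simp) (neg_mem (mul_mem ht (mul_mem (mul_mem (pow_mem ha 2) hb) hc)))
    · change -X / 3 / (X * z) * (x * y) ∈ B
      exact mem_eq (by field_simp) (neg_mem (mul_mem ht (mul_mem ha hP)))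
    · change -X / 3 / (X * z) * (x * y * z) ∈ B
      exact mem_eq (by field_simp) (neg_mem (mul_mem ht (mul_mem (mul_mem ha hb) hP)))
  · rw [hXe]
    field_simp
    ring

theorem XX4_prin (P : Pt k K) (h30 : (3 : K) ≠ 0) :
    Prin k (hXX P) (l4 (P.x 0) (P.x 1) (P.x 2)) (iXX ![false, false, false] 1 4 4) := by
  have h := XX4_cge (O := k) P
  obtain ⟨ha, hφ, -⟩ := h
  rw [inv_one] at hφ
  have ha0 : P.x 1 / P.x 2 ∈ _ := ha 0
  have ha1 : P.x 2 ∈ _ := ha 1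
  have ha2 : (P.x 0 - 3) * P.x 2 / P.x 1 ∈ _ := ha 2
  exact XX4_pr (x_ne P 0) (x_ne P 1) (x_ne P 2) (x3_ne P) (sub_add_cancel _ _).symm h30 ha0 ha1 ha2 hφ

theorem XX5_pr {B : Subalgebra k K} {x y z X : K} (hx : x ≠ 0) (hy : y ≠ 0) (hz : z ≠ 0)
    (hX : X ≠ 0) (hXe : x = X + 3) (h30 : (3 : K) ≠ 0) (ha : x ∈ B) (hb : y⁻¹ ∈ B)
    (hc : z / x ∈ B) (hQ : 1 ∈ B) :
    ∃ n : Fin 4 → K, (∀ m b, n m * m4 X x y z b ∈ B) ∧ ∑ m, n m * m4 X x y z m = 1 := by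
  have ht : (3 : K)⁻¹ ∈ B := third_mem B
  have hP : X ∈ B :=
    mem_eq (by first | (rw [hXe]; ring1) | (field_simp <;> rw [hXe] <;> ring1)) (sub_mem ha (three_mem B))
  refine pr_single _ 2 ?_ ?_
  · change x * y ≠ 0
    simp [hx, hy, hz, hX]
  · intro b
    fin_cases b
    · change X * z / (x * y) ∈ B
      exact mem_eq (by field_simp) (mul_mem (mul_mem hb hc) hP)
    · change X * y * z / (x * y) ∈ B
      exact mem_eq (by field_simp) (mul_mem hc hP)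
    · exact div_self_mem B _
    · change x * y * z / (x * y) ∈ B
      exact mem_eq (by field_simp) (mul_mem ha hc)

theorem XX5_prin (P : Pt k K) (h30 : (3 : K) ≠ 0) :
    Prin k (hXX P) (l4 (P.x 0) (P.x 1) (P.x 2)) (iXX ![false, true, false] 0 0 4) := by
  have h := XX5_cge (O := k) P
  obtain ⟨ha, hφ, -⟩ := h
  rw [inv_one] at hφ
  have ha0 : P.x 0 ∈ _ := ha 0
  have ha1 : (P.x 1)⁻¹ ∈ _ := ha 1
  have ha2 : P.x 2 / P.x 0 ∈ _ := ha 2
  exact XX5_pr (x_ne P 0) (x_ne P 1) (x_ne P 2) (x3_ne P) (sub_add_cancel _ _).symm h30 ha0 ha1 ha2 hφ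

theorem XX6_pr {B : Subalgebra k K} {x y z X : K} (hx : x ≠ 0) (hy : y ≠ 0) (hz : z ≠ 0)
    (hX : X ≠ 0) (hXe : x = X + 3) (h30 : (3 : K) ≠ 0) (ha : x / z ∈ B) (hb : y⁻¹ ∈ B)
    (hc : z ∈ B) (hQ : 1 ∈ B) :
    ∃ n : Fin 4 → K, (∀ m b, n m * m4 X x y z b ∈ B) ∧ ∑ m, n m * m4 X x y z m = 1 := by
  have ht : (3 : K)⁻¹ ∈ B := third_mem B
  have hP : X ∈ B :=
    mem_eq (by first | (rw [hXe]; ring1) | (field_simp <;> rw [hXe] <;> ring1)) (sub_mem (mul_mem ha hc) (three_mem B))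
  refine pr_pair _ 2 1 (by decide) (x / 3) (-X / 3) ?_ ?_ ?_ ?_ ?_
  · change x * y ≠ 0
    simp [hx, hy, hz, hX]
  · change X * y * z ≠ 0
    simp [hx, hy, hz, hX]
  · intro b
    fin_cases b
    · change x / 3 / (x * y) * (X * z) ∈ B
      exact mem_eq (by field_simp) (mul_mem ht (mul_mem (mul_mem hb hc) hP))
    · change x / 3 / (x * y) * (X * y * z) ∈ B
      exact mem_eq (by field_simp) (mul_mem ht (mul_mem hc hP))
    · change x / 3 / (x * y) * (x * y) ∈ B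
      exact mem_eq (by field_simp) (mul_mem ht (mul_mem ha hc))
    · change x / 3 / (x * y) * (x * y * z) ∈ B
      exact mem_eq (by field_simp) (mul_mem ht (mul_mem ha (pow_mem hc 2)))
  · intro b
    fin_cases b
    · change -X / 3 / (X * y * z) * (X * z) ∈ B
      exact mem_eq (by field_simp) (neg_mem (mul_mem ht (mul_mem hb hP)))
    · change -X / 3 / (X * y * z) * (X * y * z) ∈ B
      exact mem_eq (by field_simp) (neg_mem (mul_mem ht (hP)))
    · change -X / 3 / (X * y * z) * (x * y) ∈ B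
      exact mem_eq (by field_simp) (neg_mem (mul_mem ht (ha)))
    · change -X / 3 / (X * y * z) * (x * y * z) ∈ B
      exact mem_eq (by field_simp) (neg_mem (mul_mem ht (mul_mem ha hc)))
  · rw [hXe]
    field_simp
    ring

theorem XX6_prin (P : Pt k K) (h30 : (3 : K) ≠ 0) :
    Prin k (hXX P) (l4 (P.x 0) (P.x 1) (P.x 2)) (iXX ![false, true, false] 0 2 4) := by
  have h := XX6_cge (O := k) P
  obtain ⟨ha, hφ, -⟩ := h
  rw [inv_one] at hφ
  have ha0 : P.x 0 / P.x 2 ∈ _ := ha 0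
  have ha1 : (P.x 1)⁻¹ ∈ _ := ha 1
  have ha2 : P.x 2 ∈ _ := ha 2
  exact XX6_pr (x_ne P 0) (x_ne P 1) (x_ne P 2) (x3_ne P) (sub_add_cancel _ _).symm h30 ha0 ha1 ha2 hφ

theorem XX7_pr {B : Subalgebra k K} {x y z X : K} (hx : x ≠ 0) (hy : y ≠ 0) (hz : z ≠ 0)
    (hX : X ≠ 0) (hXe : x = X + 3) (h30 : (3 : K) ≠ 0) (ha : x ∈ B) (hb : y / X ∈ B)
    (hc : z⁻¹ ∈ B) (hQ : 1 ∈ B) :
    ∃ n : Fin 4 → K, (∀ m b, n m * m4 X x y z b ∈ B) ∧ ∑ m, n m * m4 X x y z m = 1 := by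
  have ht : (3 : K)⁻¹ ∈ B := third_mem B
  have hP : X ∈ B :=
    mem_eq (by first | (rw [hXe]; ring1) | (field_simp <;> rw [hXe] <;> ring1)) (sub_mem ha (three_mem B))
  refine pr_single _ 0 ?_ ?_
  · change X * z ≠ 0
    simp [hx, hy, hz, hX]
  · intro b
    fin_cases b
    · exact div_self_mem B _
    · change X * y * z / (X * z) ∈ B
      exact mem_eq (by field_simp) (mul_mem hb hP)
    · change x * y / (X * z) ∈ B
      exact mem_eq (by field_simp) (mul_mem (mul_mem ha hb) hc)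
    · change x * y * z / (X * z) ∈ B
      exact mem_eq (by field_simp) (mul_mem ha hb)

theorem XX7_prin (P : Pt k K) (h30 : (3 : K) ≠ 0) :
    Prin k (hXX P) (l4 (P.x 0) (P.x 1) (P.x 2)) (iXX ![false, false, true] 1 4 0) := by
  have h := XX7_cge (O := k) P
  obtain ⟨ha, hφ, -⟩ := h
  rw [inv_one] at hφ
  have ha0 : P.x 0 ∈ _ := ha 0
  have ha1 : P.x 1 / (P.x 0 - 3) ∈ _ := ha 1
  have ha2 : (P.x 2)⁻¹ ∈ _ := ha 2
  exact XX7_pr (x_ne P 0) (x_ne P 1) (x_ne P 2) (x3_ne P) (sub_add_cancel _ _).symm h30 ha0 ha1 ha2 hφ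

theorem XX8_pr {B : Subalgebra k K} {x y z X : K} (hx : x ≠ 0) (hy : y ≠ 0) (hz : z ≠ 0)
    (hX : X ≠ 0) (hXe : x = X + 3) (h30 : (3 : K) ≠ 0) (ha : X / y ∈ B) (hb : y ∈ B)
    (hc : z⁻¹ ∈ B) (hQ : 1 ∈ B) :
    ∃ n : Fin 4 → K, (∀ m b, n m * m4 X x y z b ∈ B) ∧ ∑ m, n m * m4 X x y z m = 1 := by
  have ht : (3 : K)⁻¹ ∈ B := third_mem B
  have hP : x ∈ B :=
    mem_eq (by first | (rw [hXe]; ring1) | (field_simp <;> rw [hXe] <;> ring1)) (add_mem (mul_mem ha hb) (three_mem B))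
  refine pr_pair _ 3 0 (by decide) (x / 3) (-X / 3) ?_ ?_ ?_ ?_ ?_
  · change x * y * z ≠ 0
    simp [hx, hy, hz, hX]
  · change X * z ≠ 0
    simp [hx, hy, hz, hX]
  · intro b
    fin_cases b
    · change x / 3 / (x * y * z) * (X * z) ∈ B
      exact mem_eq (by field_simp) (mul_mem ht (ha))
    · change x / 3 / (x * y * z) * (X * y * z) ∈ B
      exact mem_eq (by field_simp) (mul_mem ht (mul_mem ha hb))
    · change x / 3 / (x * y * z) * (x * y) ∈ B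
      exact mem_eq (by field_simp) (mul_mem ht (mul_mem hc hP))
    · change x / 3 / (x * y * z) * (x * y * z) ∈ B
      exact mem_eq (by field_simp) (mul_mem ht (hP))
  · intro b
    fin_cases b
    · change -X / 3 / (X * z) * (X * z) ∈ B
      exact mem_eq (by field_simp) (neg_mem (mul_mem ht (mul_mem ha hb)))
    · change -X / 3 / (X * z) * (X * y * z) ∈ B
      exact mem_eq (by field_simp) (neg_mem (mul_mem ht (mul_mem ha (pow_mem hb 2))))
    · change -X / 3 / (X * z) * (x * y) ∈ B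
      exact mem_eq (by field_simp) (neg_mem (mul_mem ht (mul_mem (mul_mem hb hc) hP)))
    · change -X / 3 / (X * z) * (x * y * z) ∈ B
      exact mem_eq (by field_simp) (neg_mem (mul_mem ht (mul_mem hb hP)))
  · rw [hXe]
    field_simp
    ring

theorem XX8_prin (P : Pt k K) (h30 : (3 : K) ≠ 0) :
    Prin k (hXX P) (l4 (P.x 0) (P.x 1) (P.x 2)) (iXX ![false, false, true] 1 4 2) := by
  have h := XX8_cge (O := k) P
  obtain ⟨ha, hφ, -⟩ := h
  rw [inv_one] at hφ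
  have ha0 : (P.x 0 - 3) / P.x 1 ∈ _ := ha 0
  have ha1 : P.x 1 ∈ _ := ha 1
  have ha2 : (P.x 2)⁻¹ ∈ _ := ha 2
  exact XX8_pr (x_ne P 0) (x_ne P 1) (x_ne P 2) (x3_ne P) (sub_add_cancel _ _).symm h30 ha0 ha1 ha2 hφ

theorem XX9_pr {B : Subalgebra k K} {x y z X : K} (hx : x ≠ 0) (hy : y ≠ 0) (hz : z ≠ 0)
    (hX : X ≠ 0) (hXe : x = X + 3) (h30 : (3 : K) ≠ 0) (ha : x⁻¹ ∈ B) (hb : y ∈ B)
    (hc : z / y ∈ B) (hQ : x / X ∈ B) :
    ∃ n : Fin 4 → K, (∀ m b, n m * m4 X x y z b ∈ B) ∧ ∑ m, n m * m4 X x y z m = 1 := by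
  have ht : (3 : K)⁻¹ ∈ B := third_mem B
  have hP : X / x ∈ B :=
    mem_eq (by first | (rw [hXe]; ring1) | (field_simp <;> rw [hXe] <;> ring1)) (sub_mem (one_mem B) (mul_mem (three_mem B) ha))
  refine pr_single _ 2 ?_ ?_
  · change x * y ≠ 0
    simp [hx, hy, hz, hX]
  · intro b
    fin_cases b
    · change X * z / (x * y) ∈ B
      exact mem_eq (by field_simp) (mul_mem hc hP)
    · change X * y * z / (x * y) ∈ B
      exact mem_eq (by field_simp) (mul_mem (mul_mem hb hc) hP)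
    · exact div_self_mem B _
    · change x * y * z / (x * y) ∈ B
      exact mem_eq (by field_simp) (mul_mem hb hc)

theorem XX9_prin (P : Pt k K) (h30 : (3 : K) ≠ 0) :
    Prin k (hXX P) (l4 (P.x 0) (P.x 1) (P.x 2)) (iXX ![true, false, false] 0 0 3) := by
  have h := XX9_cge (O := k) P
  obtain ⟨ha, hφ, -⟩ := h
  rw [inv_div] at hφ
  have ha0 : (P.x 0)⁻¹ ∈ _ := ha 0
  have ha1 : P.x 1 ∈ _ := ha 1
  have ha2 : P.x 2 / P.x 1 ∈ _ := ha 2
  exact XX9_pr (x_ne P 0) (x_ne P 1) (x_ne P 2) (x3_ne P) (sub_add_cancel _ _).symm h30 ha0 ha1 ha2 hφ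

theorem XX10_pr {B : Subalgebra k K} {x y z X : K} (hx : x ≠ 0) (hy : y ≠ 0) (hz : z ≠ 0)
    (hX : X ≠ 0) (hXe : x = X + 3) (h30 : (3 : K) ≠ 0) (ha : x⁻¹ ∈ B) (hb : z ∈ B)
    (hc : x * y / (X * z) ∈ B) (hQ : 1 ∈ B) :
    ∃ n : Fin 4 → K, (∀ m b, n m * m4 X x y z b ∈ B) ∧ ∑ m, n m * m4 X x y z m = 1 := by
  have ht : (3 : K)⁻¹ ∈ B := third_mem B
  have hP : X / x ∈ B :=
    mem_eq (by first | (rw [hXe]; ring1) | (field_simp <;> rw [hXe] <;> ring1)) (sub_mem (one_mem B) (mul_mem (three_mem B) ha))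
  refine pr_single _ 0 ?_ ?_
  · change X * z ≠ 0
    simp [hx, hy, hz, hX]
  · intro b
    fin_cases b
    · exact div_self_mem B _
    · change X * y * z / (X * z) ∈ B
      exact mem_eq (by field_simp) (mul_mem (mul_mem hb hc) hP)
    · change x * y / (X * z) ∈ B
      exact mem_eq (by field_simp) (hc)
    · change x * y * z / (X * z) ∈ B
      exact mem_eq (by field_simp) (mul_mem hb hc)

theorem XX10_prin (P : Pt k K) (h30 : (3 : K) ≠ 0) :
    Prin k (hXX P) (l4 (P.x 0) (P.x 1) (P.x 2)) (iXX ![true, false, false] 1 3 0) := by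
  have h := XX10_cge (O := k) P
  obtain ⟨ha, hφ, -⟩ := h
  rw [inv_one] at hφ
  have ha0 : (P.x 0)⁻¹ ∈ _ := ha 0
  have ha1 : P.x 2 ∈ _ := ha 1
  have ha2 : P.x 0 * P.x 1 / ((P.x 0 - 3) * P.x 2) ∈ _ := ha 2
  exact XX10_pr (x_ne P 0) (x_ne P 1) (x_ne P 2) (x3_ne P) (sub_add_cancel _ _).symm h30 ha0 ha1 ha2 hφ

theorem XX11_pr {B : Subalgebra k K} {x y z X : K} (hx : x ≠ 0) (hy : y ≠ 0) (hz : z ≠ 0)
    (hX : X ≠ 0) (hXe : x = X + 3) (h30 : (3 : K) ≠ 0) (ha : x⁻¹ ∈ B) (hb : y⁻¹ ∈ B)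
    (hc : z ∈ B) (hQ : x / X ∈ B) :
    ∃ n : Fin 4 → K, (∀ m b, n m * m4 X x y z b ∈ B) ∧ ∑ m, n m * m4 X x y z m = 1 := by
  have ht : (3 : K)⁻¹ ∈ B := third_mem B
  have hP : X / x ∈ B :=
    mem_eq (by first | (rw [hXe]; ring1) | (field_simp <;> rw [hXe] <;> ring1)) (sub_mem (one_mem B) (mul_mem (three_mem B) ha))
  refine pr_single _ 2 ?_ ?_
  · change x * y ≠ 0
    simp [hx, hy, hz, hX]
  · intro b
    fin_cases b
    · change X * z / (x * y) ∈ B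
      exact mem_eq (by field_simp) (mul_mem (mul_mem hb hc) hP)
    · change X * y * z / (x * y) ∈ B
      exact mem_eq (by field_simp) (mul_mem hc hP)
    · exact div_self_mem B _
    · change x * y * z / (x * y) ∈ B
      exact mem_eq (by field_simp) (hc)

theorem XX11_prin (P : Pt k K) (h30 : (3 : K) ≠ 0) :
    Prin k (hXX P) (l4 (P.x 0) (P.x 1) (P.x 2)) (iXX ![true, true, false] 0 0 3) := by
  have h := XX11_cge (O := k) P
  obtain ⟨ha, hφ, -⟩ := h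
  rw [inv_div] at hφ
  have ha0 : (P.x 0)⁻¹ ∈ _ := ha 0
  have ha1 : (P.x 1)⁻¹ ∈ _ := ha 1
  have ha2 : P.x 2 ∈ _ := ha 2
  exact XX11_pr (x_ne P 0) (x_ne P 1) (x_ne P 2) (x3_ne P) (sub_add_cancel _ _).symm h30 ha0 ha1 ha2 hφ

theorem XX12_pr {B : Subalgebra k K} {x y z X : K} (hx : x ≠ 0) (hy : y ≠ 0) (hz : z ≠ 0)
    (hX : X ≠ 0) (hXe : x = X + 3) (h30 : (3 : K) ≠ 0) (ha : x⁻¹ ∈ B) (hb : x * y / X ∈ B)
    (hc : z⁻¹ ∈ B) (hQ : 1 ∈ B) :
    ∃ n : Fin 4 → K, (∀ m b, n m * m4 X x y z b ∈ B) ∧ ∑ m, n m * m4 X x y z m = 1 := by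
  have ht : (3 : K)⁻¹ ∈ B := third_mem B
  have hP : X / x ∈ B :=
    mem_eq (by first | (rw [hXe]; ring1) | (field_simp <;> rw [hXe] <;> ring1)) (sub_mem (one_mem B) (mul_mem (three_mem B) ha))
  refine pr_single _ 0 ?_ ?_
  · change X * z ≠ 0
    simp [hx, hy, hz, hX]
  · intro b
    fin_cases b
    · exact div_self_mem B _
    · change X * y * z / (X * z) ∈ B
      exact mem_eq (by field_simp) (mul_mem hb hP)
    · change x * y / (X * z) ∈ B
      exact mem_eq (by field_simp) (mul_mem hb hc)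
    · change x * y * z / (X * z) ∈ B
      exact mem_eq (by field_simp) (hb)

theorem XX12_prin (P : Pt k K) (h30 : (3 : K) ≠ 0) :
    Prin k (hXX P) (l4 (P.x 0) (P.x 1) (P.x 2)) (iXX ![true, false, true] 1 3 0) := by
  have h := XX12_cge (O := k) P
  obtain ⟨ha, hφ, -⟩ := h
  rw [inv_one] at hφ
  have ha0 : (P.x 0)⁻¹ ∈ _ := ha 0
  have ha1 : P.x 0 * P.x 1 / (P.x 0 - 3) ∈ _ := ha 1
  have ha2 : (P.x 2)⁻¹ ∈ _ := ha 2
  exact XX12_pr (x_ne P 0) (x_ne P 1) (x_ne P 2) (x3_ne P) (sub_add_cancel _ _).symm h30 ha0 ha1 ha2 hφ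

theorem XX13_pr {B : Subalgebra k K} {x y z X : K} (hx : x ≠ 0) (hy : y ≠ 0) (hz : z ≠ 0)
    (hX : X ≠ 0) (hXe : x = X + 3) (h30 : (3 : K) ≠ 0) (ha : x ∈ B) (hb : y⁻¹ ∈ B)
    (hc : z⁻¹ ∈ B) (hQ : 1 ∈ B) :
    ∃ n : Fin 4 → K, (∀ m b, n m * m4 X x y z b ∈ B) ∧ ∑ m, n m * m4 X x y z m = 1 := by
  have ht : (3 : K)⁻¹ ∈ B := third_mem B
  have hP : X ∈ B :=
    mem_eq (by first | (rw [hXe]; ring1) | (field_simp <;> rw [hXe] <;> ring1)) (sub_mem ha (three_mem B))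
  refine pr_pair _ 3 1 (by decide) (x / 3) (-X / 3) ?_ ?_ ?_ ?_ ?_
  · change x * y * z ≠ 0
    simp [hx, hy, hz, hX]
  · change X * y * z ≠ 0
    simp [hx, hy, hz, hX]
  · intro b
    fin_cases b
    · change x / 3 / (x * y * z) * (X * z) ∈ B
      exact mem_eq (by field_simp) (mul_mem ht (mul_mem hb hP))
    · change x / 3 / (x * y * z) * (X * y * z) ∈ B
      exact mem_eq (by field_simp) (mul_mem ht (hP))
    · change x / 3 / (x * y * z) * (x * y) ∈ B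
      exact mem_eq (by field_simp) (mul_mem ht (mul_mem ha hc))
    · change x / 3 / (x * y * z) * (x * y * z) ∈ B
      exact mem_eq (by field_simp) (mul_mem ht (ha))
  · intro b
    fin_cases b
    · change -X / 3 / (X * y * z) * (X * z) ∈ B
      exact mem_eq (by field_simp) (neg_mem (mul_mem ht (mul_mem hb hP)))
    · change -X / 3 / (X * y * z) * (X * y * z) ∈ B
      exact mem_eq (by field_simp) (neg_mem (mul_mem ht (hP)))
    · change -X / 3 / (X * y * z) * (x * y) ∈ B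
      exact mem_eq (by field_simp) (neg_mem (mul_mem ht (mul_mem ha hc)))
    · change -X / 3 / (X * y * z) * (x * y * z) ∈ B
      exact mem_eq (by field_simp) (neg_mem (mul_mem ht (ha)))
  · rw [hXe]
    field_simp
    ring

theorem XX13_prin (P : Pt k K) (h30 : (3 : K) ≠ 0) :
    Prin k (hXX P) (l4 (P.x 0) (P.x 1) (P.x 2)) (iXX ![false, true, true] 2 2 2) := by
  have h := XX13_cge (O := k) P
  obtain ⟨ha, hφ, -⟩ := h
  rw [inv_one] at hφ
  have ha0 : P.x 0 ∈ _ := ha 0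
  have ha1 : (P.x 1)⁻¹ ∈ _ := ha 1
  have ha2 : (P.x 2)⁻¹ ∈ _ := ha 2
  exact XX13_pr (x_ne P 0) (x_ne P 1) (x_ne P 2) (x3_ne P) (sub_add_cancel _ _).symm h30 ha0 ha1 ha2 hφ

theorem XX14_pr {B : Subalgebra k K} {x y z X : K} (hx : x ≠ 0) (hy : y ≠ 0) (hz : z ≠ 0)
    (hX : X ≠ 0) (hXe : x = X + 3) (h30 : (3 : K) ≠ 0) (ha : x⁻¹ ∈ B) (hb : y⁻¹ ∈ B)
    (hc : z⁻¹ ∈ B) (hQ : x / X ∈ B) :
    ∃ n : Fin 4 → K, (∀ m b, n m * m4 X x y z b ∈ B) ∧ ∑ m, n m * m4 X x y z m = 1 := by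
  have ht : (3 : K)⁻¹ ∈ B := third_mem B
  have hP : X / x ∈ B :=
    mem_eq (by first | (rw [hXe]; ring1) | (field_simp <;> rw [hXe] <;> ring1)) (sub_mem (one_mem B) (mul_mem (three_mem B) ha))
  refine pr_single _ 3 ?_ ?_
  · change x * y * z ≠ 0
    simp [hx, hy, hz, hX]
  · intro b
    fin_cases b
    · change X * z / (x * y * z) ∈ B
      exact mem_eq (by field_simp) (mul_mem hb hP)
    · change X * y * z / (x * y * z) ∈ B
      exact mem_eq (by field_simp) (hP)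
    · change x * y / (x * y * z) ∈ B
      exact mem_eq (by field_simp) (hc)
    · exact div_self_mem B _

theorem XX14_prin (P : Pt k K) (h30 : (3 : K) ≠ 0) :
    Prin k (hXX P) (l4 (P.x 0) (P.x 1) (P.x 2)) (iXX ![true, true, true] 2 1 1) := by
  have h := XX14_cge (O := k) P
  obtain ⟨ha, hφ, -⟩ := h
  rw [inv_div] at hφ
  have ha0 : (P.x 0)⁻¹ ∈ _ := ha 0
  have ha1 : (P.x 1)⁻¹ ∈ _ := ha 1
  have ha2 : (P.x 2)⁻¹ ∈ _ := ha 2
  exact XX14_pr (x_ne P 0) (x_ne P 1) (x_ne P 2) (x3_ne P) (sub_add_cancel _ _).symm h30 ha0 ha1 ha2 hφ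

theorem X1_pr {B : Subalgebra k K} {x y z X : K} (hx : x ≠ 0) (hy : y ≠ 0) (hz : z ≠ 0)
    (hX : X ≠ 0) (hXe : x = X + 3) (h30 : (3 : K) ≠ 0) (ha : x ∈ B) (hb : y ∈ B)
    (hc : z / (x * y) ∈ B) (hQ : 1 ∈ B) :
    ∃ n : Fin 5 → K, (∀ m b, n m * m3 X y z b ∈ B) ∧ ∑ m, n m * m3 X y z m = 1 := by
  have ht : (3 : K)⁻¹ ∈ B := third_mem B
  have hP : X ∈ B :=
    mem_eq (by first | (rw [hXe]; ring1) | (field_simp <;> rw [hXe] <;> ring1)) (sub_mem ha (three_mem B))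
  refine pr_single _ 4 ?_ ?_
  · change y ≠ 0
    simp [hx, hy, hz, hX]
  · intro b
    fin_cases b
    · change X * z / y ∈ B
      exact mem_eq (by field_simp) (mul_mem (mul_mem ha hc) hP)
    · change X * y * z / y ∈ B
      exact mem_eq (by field_simp) (mul_mem (mul_mem (mul_mem ha hb) hc) hP)
    · change y * z / y ∈ B
      exact mem_eq (by field_simp) (mul_mem (mul_mem ha hb) hc)
    · change X * y / y ∈ B
      exact mem_eq (by field_simp) (hP)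
    · exact div_self_mem B _

theorem X1_prin (P : Pt k K) (h30 : (3 : K) ≠ 0) :
    Prin k (hX P) (l3 (P.x 0) (P.x 1) (P.x 2)) (iZ ![false, false, false] 0 0 2) := by
  have h := X1_cge (K := K) P h30
  obtain ⟨ha, hφ, -⟩ := h
  rw [inv_one] at hφ
  have ha0 : P.x 0 ∈ _ := ha 0
  have ha1 : P.x 1 ∈ _ := ha 1
  have ha2 : P.x 2 / (P.x 0 * P.x 1) ∈ _ := ha 2
  exact X1_pr (x_ne P 0) (x_ne P 1) (x_ne P 2) (x3_ne P) (sub_add_cancel _ _).symm h30 ha0 ha1 ha2 hφ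

theorem X2_pr {B : Subalgebra k K} {x y z X : K} (hx : x ≠ 0) (hy : y ≠ 0) (hz : z ≠ 0)
    (hX : X ≠ 0) (hXe : x = X + 3) (h30 : (3 : K) ≠ 0) (ha : z / y ∈ B) (hb : y ∈ B)
    (hc : x * y / z ∈ B) (hQ : X⁻¹ ∈ B) :
    ∃ n : Fin 5 → K, (∀ m b, n m * m3 X y z b ∈ B) ∧ ∑ m, n m * m3 X y z m = 1 := by
  have ht : (3 : K)⁻¹ ∈ B := third_mem B
  have hP : X ∈ B :=
    mem_eq (by first | (rw [hXe]; ring1) | (field_simp <;> rw [hXe] <;> ring1)) (sub_mem (mul_mem ha hc) (three_mem B))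
  refine pr_single _ 4 ?_ ?_
  · change y ≠ 0
    simp [hx, hy, hz, hX]
  · intro b
    fin_cases b
    · change X * z / y ∈ B
      exact mem_eq (by field_simp) (mul_mem ha hP)
    · change X * y * z / y ∈ B
      exact mem_eq (by field_simp) (mul_mem (mul_mem ha hb) hP)
    · change y * z / y ∈ B
      exact mem_eq (by field_simp) (mul_mem ha hb)
    · change X * y / y ∈ B
      exact mem_eq (by field_simp) (hP)
    · exact div_self_mem B _

theorem X2_prin (P : Pt k K) (h30 : (3 : K) ≠ 0) :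
    Prin k (hX P) (l3 (P.x 0) (P.x 1) (P.x 2)) (iZ ![false, false, false] 0 4 0) := by
  have h := X2_cge (K := K) P h30
  obtain ⟨ha, hφ, -⟩ := h
  have ha0 : P.x 2 / P.x 1 ∈ _ := ha 0
  have ha1 : P.x 1 ∈ _ := ha 1
  have ha2 : P.x 0 * P.x 1 / P.x 2 ∈ _ := ha 2
  exact X2_pr (x_ne P 0) (x_ne P 1) (x_ne P 2) (x3_ne P) (sub_add_cancel _ _).symm h30 ha0 ha1 ha2 hφ

theorem X3_pr {B : Subalgebra k K} {x y z X : K} (hx : x ≠ 0) (hy : y ≠ 0) (hz : z ≠ 0)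
    (hX : X ≠ 0) (hXe : x = X + 3) (h30 : (3 : K) ≠ 0) (ha : x ∈ B) (hb : z ∈ B)
    (hc : y / (X * z) ∈ B) (hQ : 1 ∈ B) :
    ∃ n : Fin 5 → K, (∀ m b, n m * m3 X y z b ∈ B) ∧ ∑ m, n m * m3 X y z m = 1 := by
  have ht : (3 : K)⁻¹ ∈ B := third_mem B
  have hP : X ∈ B :=
    mem_eq (by first | (rw [hXe]; ring1) | (field_simp <;> rw [hXe] <;> ring1)) (sub_mem ha (three_mem B))
  refine pr_single _ 0 ?_ ?_
  · change X * z ≠ 0
    simp [hx, hy, hz, hX]
  · intro b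
    fin_cases b
    · exact div_self_mem B _
    · change X * y * z / (X * z) ∈ B
      exact mem_eq (by field_simp) (mul_mem (mul_mem hb hc) hP)
    · change y * z / (X * z) ∈ B
      exact mem_eq (by field_simp) (mul_mem hb hc)
    · change X * y / (X * z) ∈ B
      exact mem_eq (by field_simp) (mul_mem hc hP)
    · change y / (X * z) ∈ B
      exact mem_eq (by field_simp) (hc)

theorem X3_prin (P : Pt k K) (h30 : (3 : K) ≠ 0) :
    Prin k (hX P) (l3 (P.x 0) (P.x 1) (P.x 2)) (iZ ![false, false, false] 1 4 0) := by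
  have h := X3_cge (K := K) P h30
  obtain ⟨ha, hφ, -⟩ := h
  rw [inv_one] at hφ
  have ha0 : P.x 0 ∈ _ := ha 0
  have ha1 : P.x 2 ∈ _ := ha 1
  have ha2 : P.x 1 / ((P.x 0 - 3) * P.x 2) ∈ _ := ha 2
  exact X3_pr (x_ne P 0) (x_ne P 1) (x_ne P 2) (x3_ne P) (sub_add_cancel _ _).symm h30 ha0 ha1 ha2 hφ

theorem X4_pr {B : Subalgebra k K} {x y z X : K} (hx : x ≠ 0) (hy : y ≠ 0) (hz : z ≠ 0)
    (hX : X ≠ 0) (hXe : x = X + 3) (h30 : (3 : K) ≠ 0) (ha : y / z ∈ B) (hb : z ∈ B)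
    (hc : X * z / y ∈ B) (hQ : x⁻¹ ∈ B) :
    ∃ n : Fin 5 → K, (∀ m b, n m * m3 X y z b ∈ B) ∧ ∑ m, n m * m3 X y z m = 1 := by
  have ht : (3 : K)⁻¹ ∈ B := third_mem B
  have hP : x ∈ B :=
    mem_eq (by first | (rw [hXe]; ring1) | (field_simp <;> rw [hXe] <;> ring1)) (add_mem (mul_mem ha hc) (three_mem B))
  refine pr_single _ 4 ?_ ?_
  · change y ≠ 0
    simp [hx, hy, hz, hX]
  · intro b
    fin_cases b
    · change X * z / y ∈ B
      exact mem_eq (by field_simp) (hc)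
    · change X * y * z / y ∈ B
      exact mem_eq (by field_simp) (mul_mem (mul_mem ha hb) hc)
    · change y * z / y ∈ B
      exact mem_eq (by field_simp) (hb)
    · change X * y / y ∈ B
      exact mem_eq (by field_simp) (mul_mem ha hc)
    · exact div_self_mem B _

theorem X4_prin (P : Pt k K) (h30 : (3 : K) ≠ 0) :
    Prin k (hX P) (l3 (P.x 0) (P.x 1) (P.x 2)) (iZ ![false, false, false] 1 4 2) := by
  have h := X4_cge (K := K) P h30
  obtain ⟨ha, hφ, -⟩ := h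
  have ha0 : P.x 1 / P.x 2 ∈ _ := ha 0
  have ha1 : P.x 2 ∈ _ := ha 1
  have ha2 : (P.x 0 - 3) * P.x 2 / P.x 1 ∈ _ := ha 2
  exact X4_pr (x_ne P 0) (x_ne P 1) (x_ne P 2) (x3_ne P) (sub_add_cancel _ _).symm h30 ha0 ha1 ha2 hφ

theorem X5_pr {B : Subalgebra k K} {x y z X : K} (hx : x ≠ 0) (hy : y ≠ 0) (hz : z ≠ 0)
    (hX : X ≠ 0) (hXe : x = X + 3) (h30 : (3 : K) ≠ 0) (ha : x ∈ B) (hb : y⁻¹ ∈ B)
    (hc : z / x ∈ B) (hQ : 1 ∈ B) :
    ∃ n : Fin 5 → K, (∀ m b, n m * m3 X y z b ∈ B) ∧ ∑ m, n m * m3 X y z m = 1 := by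
  have ht : (3 : K)⁻¹ ∈ B := third_mem B
  have hP : X ∈ B :=
    mem_eq (by first | (rw [hXe]; ring1) | (field_simp <;> rw [hXe] <;> ring1)) (sub_mem ha (three_mem B))
  refine pr_single _ 4 ?_ ?_
  · change y ≠ 0
    simp [hx, hy, hz, hX]
  · intro b
    fin_cases b
    · change X * z / y ∈ B
      exact mem_eq (by field_simp) (mul_mem (mul_mem (mul_mem ha hb) hc) hP)
    · change X * y * z / y ∈ B
      exact mem_eq (by field_simp) (mul_mem (mul_mem ha hc) hP)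
    · change y * z / y ∈ B
      exact mem_eq (by field_simp) (mul_mem ha hc)
    · change X * y / y ∈ B
      exact mem_eq (by field_simp) (hP)
    · exact div_self_mem B _

theorem X5_prin (P : Pt k K) (h30 : (3 : K) ≠ 0) :
    Prin k (hX P) (l3 (P.x 0) (P.x 1) (P.x 2)) (iZ ![false, true, false] 0 0 2) := by
  have h := X5_cge (K := K) P h30
  obtain ⟨ha, hφ, -⟩ := h
  rw [inv_one] at hφ
  have ha0 : P.x 0 ∈ _ := ha 0
  have ha1 : (P.x 1)⁻¹ ∈ _ := ha 1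
  have ha2 : P.x 2 / P.x 0 ∈ _ := ha 2
  exact X5_pr (x_ne P 0) (x_ne P 1) (x_ne P 2) (x3_ne P) (sub_add_cancel _ _).symm h30 ha0 ha1 ha2 hφ

theorem X6_pr {B : Subalgebra k K} {x y z X : K} (hx : x ≠ 0) (hy : y ≠ 0) (hz : z ≠ 0)
    (hX : X ≠ 0) (hXe : x = X + 3) (h30 : (3 : K) ≠ 0) (ha : x / z ∈ B) (hb : y⁻¹ ∈ B)
    (hc : z ∈ B) (hQ : X⁻¹ ∈ B) :
    ∃ n : Fin 5 → K, (∀ m b, n m * m3 X y z b ∈ B) ∧ ∑ m, n m * m3 X y z m = 1 := by
  have ht : (3 : K)⁻¹ ∈ B := third_mem B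
  have hP : X ∈ B :=
    mem_eq (by first | (rw [hXe]; ring1) | (field_simp <;> rw [hXe] <;> ring1)) (sub_mem (mul_mem ha hc) (three_mem B))
  refine pr_single _ 4 ?_ ?_
  · change y ≠ 0
    simp [hx, hy, hz, hX]
  · intro b
    fin_cases b
    · change X * z / y ∈ B
      exact mem_eq (by field_simp) (mul_mem (mul_mem hb hc) hP)
    · change X * y * z / y ∈ B
      exact mem_eq (by field_simp) (mul_mem hc hP)
    · change y * z / y ∈ B
      exact mem_eq (by field_simp) (hc)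
    · change X * y / y ∈ B
      exact mem_eq (by field_simp) (hP)
    · exact div_self_mem B _

theorem X6_prin (P : Pt k K) (h30 : (3 : K) ≠ 0) :
    Prin k (hX P) (l3 (P.x 0) (P.x 1) (P.x 2)) (iZ ![false, true, false] 0 2 1) := by
  have h := X6_cge (K := K) P h30
  obtain ⟨ha, hφ, -⟩ := h
  have ha0 : P.x 0 / P.x 2 ∈ _ := ha 0
  have ha1 : (P.x 1)⁻¹ ∈ _ := ha 1
  have ha2 : P.x 2 ∈ _ := ha 2
  exact X6_pr (x_ne P 0) (x_ne P 1) (x_ne P 2) (x3_ne P) (sub_add_cancel _ _).symm h30 ha0 ha1 ha2 hφ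

theorem X7_pr {B : Subalgebra k K} {x y z X : K} (hx : x ≠ 0) (hy : y ≠ 0) (hz : z ≠ 0)
    (hX : X ≠ 0) (hXe : x = X + 3) (h30 : (3 : K) ≠ 0) (ha : x ∈ B) (hb : y / X ∈ B)
    (hc : z⁻¹ ∈ B) (hQ : 1 ∈ B) :
    ∃ n : Fin 5 → K, (∀ m b, n m * m3 X y z b ∈ B) ∧ ∑ m, n m * m3 X y z m = 1 := by
  have ht : (3 : K)⁻¹ ∈ B := third_mem B
  have hP : X ∈ B :=
    mem_eq (by first | (rw [hXe]; ring1) | (field_simp <;> rw [hXe] <;> ring1)) (sub_mem ha (three_mem B))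
  refine pr_single _ 0 ?_ ?_
  · change X * z ≠ 0
    simp [hx, hy, hz, hX]
  · intro b
    fin_cases b
    · exact div_self_mem B _
    · change X * y * z / (X * z) ∈ B
      exact mem_eq (by field_simp) (mul_mem hb hP)
    · change y * z / (X * z) ∈ B
      exact mem_eq (by field_simp) (hb)
    · change X * y / (X * z) ∈ B
      exact mem_eq (by field_simp) (mul_mem (mul_mem hb hc) hP)
    · change y / (X * z) ∈ B
      exact mem_eq (by field_simp) (mul_mem hb hc)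

theorem X7_prin (P : Pt k K) (h30 : (3 : K) ≠ 0) :
    Prin k (hX P) (l3 (P.x 0) (P.x 1) (P.x 2)) (iZ ![false, false, true] 1 4 0) := by
  have h := X7_cge (K := K) P h30
  obtain ⟨ha, hφ, -⟩ := h
  rw [inv_one] at hφ
  have ha0 : P.x 0 ∈ _ := ha 0
  have ha1 : P.x 1 / (P.x 0 - 3) ∈ _ := ha 1
  have ha2 : (P.x 2)⁻¹ ∈ _ := ha 2
  exact X7_pr (x_ne P 0) (x_ne P 1) (x_ne P 2) (x3_ne P) (sub_add_cancel _ _).symm h30 ha0 ha1 ha2 hφ

theorem X8_pr {B : Subalgebra k K} {x y z X : K} (hx : x ≠ 0) (hy : y ≠ 0) (hz : z ≠ 0)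
    (hX : X ≠ 0) (hXe : x = X + 3) (h30 : (3 : K) ≠ 0) (ha : X / y ∈ B) (hb : y ∈ B)
    (hc : z⁻¹ ∈ B) (hQ : x⁻¹ ∈ B) :
    ∃ n : Fin 5 → K, (∀ m b, n m * m3 X y z b ∈ B) ∧ ∑ m, n m * m3 X y z m = 1 := by
  have ht : (3 : K)⁻¹ ∈ B := third_mem B
  have hP : x ∈ B :=
    mem_eq (by first | (rw [hXe]; ring1) | (field_simp <;> rw [hXe] <;> ring1)) (add_mem (mul_mem ha hb) (three_mem B))
  refine pr_single _ 2 ?_ ?_
  · change y * z ≠ 0
    simp [hx, hy, hz, hX]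
  · intro b
    fin_cases b
    · change X * z / (y * z) ∈ B
      exact mem_eq (by field_simp) (ha)
    · change X * y * z / (y * z) ∈ B
      exact mem_eq (by field_simp) (mul_mem ha hb)
    · exact div_self_mem B _
    · change X * y / (y * z) ∈ B
      exact mem_eq (by field_simp) (mul_mem (mul_mem ha hb) hc)
    · change y / (y * z) ∈ B
      exact mem_eq (by field_simp) (hc)

theorem X8_prin (P : Pt k K) (h30 : (3 : K) ≠ 0) :
    Prin k (hX P) (l3 (P.x 0) (P.x 1) (P.x 2)) (iZ ![false, false, true] 1 4 3) := by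
  have h := X8_cge (K := K) P h30
  obtain ⟨ha, hφ, -⟩ := h
  have ha0 : (P.x 0 - 3) / P.x 1 ∈ _ := ha 0
  have ha1 : P.x 1 ∈ _ := ha 1
  have ha2 : (P.x 2)⁻¹ ∈ _ := ha 2
  exact X8_pr (x_ne P 0) (x_ne P 1) (x_ne P 2) (x3_ne P) (sub_add_cancel _ _).symm h30 ha0 ha1 ha2 hφ

theorem X9_pr {B : Subalgebra k K} {x y z X : K} (hx : x ≠ 0) (hy : y ≠ 0) (hz : z ≠ 0)
    (hX : X ≠ 0) (hXe : x = X + 3) (h30 : (3 : K) ≠ 0) (ha : x⁻¹ ∈ B) (hb : y ∈ B)
    (hc : z / y ∈ B) (hQ : 1 ∈ B) :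
    ∃ n : Fin 5 → K, (∀ m b, n m * m3 X y z b ∈ B) ∧ ∑ m, n m * m3 X y z m = 1 := by
  have ht : (3 : K)⁻¹ ∈ B := third_mem B
  have hP : X / x ∈ B :=
    mem_eq (by first | (rw [hXe]; ring1) | (field_simp <;> rw [hXe] <;> ring1)) (sub_mem (one_mem B) (mul_mem (three_mem B) ha))
  refine pr_pair _ 3 4 (by decide) (X / x) (3 / x) ?_ ?_ ?_ ?_ ?_
  · change X * y ≠ 0
    simp [hx, hy, hz, hX]
  · change y ≠ 0
    simp [hx, hy, hz, hX]
  · intro b
    fin_cases b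
    · change X / x / (X * y) * (X * z) ∈ B
      exact mem_eq (by field_simp) (mul_mem hc hP)
    · change X / x / (X * y) * (X * y * z) ∈ B
      exact mem_eq (by field_simp) (mul_mem (mul_mem hb hc) hP)
    · change X / x / (X * y) * (y * z) ∈ B
      exact mem_eq (by field_simp) (mul_mem (mul_mem ha hb) hc)
    · change X / x / (X * y) * (X * y) ∈ B
      exact mem_eq (by field_simp) (hP)
    · change X / x / (X * y) * y ∈ B
      exact mem_eq (by field_simp) (ha)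
  · intro b
    fin_cases b
    · change 3 / x / y * (X * z) ∈ B
      exact mem_eq (by field_simp) (mul_mem (three_mem B) (mul_mem hc hP))
    · change 3 / x / y * (X * y * z) ∈ B
      exact mem_eq (by field_simp) (mul_mem (three_mem B) (mul_mem (mul_mem hb hc) hP))
    · change 3 / x / y * (y * z) ∈ B
      exact mem_eq (by field_simp) (mul_mem (three_mem B) (mul_mem (mul_mem ha hb) hc))
    · change 3 / x / y * (X * y) ∈ B
      exact mem_eq (by field_simp) (mul_mem (three_mem B) (hP))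
    · change 3 / x / y * y ∈ B
      exact mem_eq (by field_simp) (mul_mem (three_mem B) (ha))
  · field_simp
    rw [hXe]

theorem X9_prin (P : Pt k K) (h30 : (3 : K) ≠ 0) :
    Prin k (hX P) (l3 (P.x 0) (P.x 1) (P.x 2)) (iZ ![true, false, false] 0 0 2) := by
  have h := X9_cge (K := K) P h30
  obtain ⟨ha, hφ, -⟩ := h
  rw [inv_one] at hφ
  have ha0 : (P.x 0)⁻¹ ∈ _ := ha 0
  have ha1 : P.x 1 ∈ _ := ha 1
  have ha2 : P.x 2 / P.x 1 ∈ _ := ha 2
  exact X9_pr (x_ne P 0) (x_ne P 1) (x_ne P 2) (x3_ne P) (sub_add_cancel _ _).symm h30 ha0 ha1 ha2 hφ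

theorem X10_pr {B : Subalgebra k K} {x y z X : K} (hx : x ≠ 0) (hy : y ≠ 0) (hz : z ≠ 0)
    (hX : X ≠ 0) (hXe : x = X + 3) (h30 : (3 : K) ≠ 0) (ha : x⁻¹ ∈ B) (hb : z ∈ B)
    (hc : x * y / (X * z) ∈ B) (hQ : 1 ∈ B) :
    ∃ n : Fin 5 → K, (∀ m b, n m * m3 X y z b ∈ B) ∧ ∑ m, n m * m3 X y z m = 1 := by
  have ht : (3 : K)⁻¹ ∈ B := third_mem B
  have hP : X / x ∈ B :=
    mem_eq (by first | (rw [hXe]; ring1) | (field_simp <;> rw [hXe] <;> ring1)) (sub_mem (one_mem B) (mul_mem (three_mem B) ha))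
  refine pr_single _ 0 ?_ ?_
  · change X * z ≠ 0
    simp [hx, hy, hz, hX]
  · intro b
    fin_cases b
    · exact div_self_mem B _
    · change X * y * z / (X * z) ∈ B
      exact mem_eq (by field_simp) (mul_mem (mul_mem hb hc) hP)
    · change y * z / (X * z) ∈ B
      exact mem_eq (by field_simp) (mul_mem (mul_mem ha hb) hc)
    · change X * y / (X * z) ∈ B
      exact mem_eq (by field_simp) (mul_mem hc hP)
    · change y / (X * z) ∈ B
      exact mem_eq (by field_simp) (mul_mem ha hc)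

theorem X10_prin (P : Pt k K) (h30 : (3 : K) ≠ 0) :
    Prin k (hX P) (l3 (P.x 0) (P.x 1) (P.x 2)) (iZ ![true, false, false] 1 3 0) := by
  have h := X10_cge (K := K) P h30
  obtain ⟨ha, hφ, -⟩ := h
  rw [inv_one] at hφ
  have ha0 : (P.x 0)⁻¹ ∈ _ := ha 0
  have ha1 : P.x 2 ∈ _ := ha 1
  have ha2 : P.x 0 * P.x 1 / ((P.x 0 - 3) * P.x 2) ∈ _ := ha 2
  exact X10_pr (x_ne P 0) (x_ne P 1) (x_ne P 2) (x3_ne P) (sub_add_cancel _ _).symm h30 ha0 ha1 ha2 hφ

theorem X11_pr {B : Subalgebra k K} {x y z X : K} (hx : x ≠ 0) (hy : y ≠ 0) (hz : z ≠ 0)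
    (hX : X ≠ 0) (hXe : x = X + 3) (h30 : (3 : K) ≠ 0) (ha : x⁻¹ ∈ B) (hb : y⁻¹ ∈ B)
    (hc : z ∈ B) (hQ : 1 ∈ B) :
    ∃ n : Fin 5 → K, (∀ m b, n m * m3 X y z b ∈ B) ∧ ∑ m, n m * m3 X y z m = 1 := by
  have ht : (3 : K)⁻¹ ∈ B := third_mem B
  have hP : X / x ∈ B :=
    mem_eq (by first | (rw [hXe]; ring1) | (field_simp <;> rw [hXe] <;> ring1)) (sub_mem (one_mem B) (mul_mem (three_mem B) ha))
  refine pr_pair _ 3 4 (by decide) (X / x) (3 / x) ?_ ?_ ?_ ?_ ?_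
  · change X * y ≠ 0
    simp [hx, hy, hz, hX]
  · change y ≠ 0
    simp [hx, hy, hz, hX]
  · intro b
    fin_cases b
    · change X / x / (X * y) * (X * z) ∈ B
      exact mem_eq (by field_simp) (mul_mem (mul_mem hb hc) hP)
    · change X / x / (X * y) * (X * y * z) ∈ B
      exact mem_eq (by field_simp) (mul_mem hc hP)
    · change X / x / (X * y) * (y * z) ∈ B
      exact mem_eq (by field_simp) (mul_mem ha hc)
    · change X / x / (X * y) * (X * y) ∈ B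
      exact mem_eq (by field_simp) (hP)
    · change X / x / (X * y) * y ∈ B
      exact mem_eq (by field_simp) (ha)
  · intro b
    fin_cases b
    · change 3 / x / y * (X * z) ∈ B
      exact mem_eq (by field_simp) (mul_mem (three_mem B) (mul_mem (mul_mem hb hc) hP))
    · change 3 / x / y * (X * y * z) ∈ B
      exact mem_eq (by field_simp) (mul_mem (three_mem B) (mul_mem hc hP))
    · change 3 / x / y * (y * z) ∈ B
      exact mem_eq (by field_simp) (mul_mem (three_mem B) (mul_mem ha hc))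
    · change 3 / x / y * (X * y) ∈ B
      exact mem_eq (by field_simp) (mul_mem (three_mem B) (hP))
    · change 3 / x / y * y ∈ B
      exact mem_eq (by field_simp) (mul_mem (three_mem B) (ha))
  · field_simp
    rw [hXe]

theorem X11_prin (P : Pt k K) (h30 : (3 : K) ≠ 0) :
    Prin k (hX P) (l3 (P.x 0) (P.x 1) (P.x 2)) (iZ ![true, true, false] 0 0 2) := by
  have h := X11_cge (K := K) P h30
  obtain ⟨ha, hφ, -⟩ := h
  rw [inv_one] at hφ
  have ha0 : (P.x 0)⁻¹ ∈ _ := ha 0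
  have ha1 : (P.x 1)⁻¹ ∈ _ := ha 1
  have ha2 : P.x 2 ∈ _ := ha 2
  exact X11_pr (x_ne P 0) (x_ne P 1) (x_ne P 2) (x3_ne P) (sub_add_cancel _ _).symm h30 ha0 ha1 ha2 hφ

theorem X12_pr {B : Subalgebra k K} {x y z X : K} (hx : x ≠ 0) (hy : y ≠ 0) (hz : z ≠ 0)
    (hX : X ≠ 0) (hXe : x = X + 3) (h30 : (3 : K) ≠ 0) (ha : x⁻¹ ∈ B) (hb : x * y / X ∈ B)
    (hc : z⁻¹ ∈ B) (hQ : 1 ∈ B) :
    ∃ n : Fin 5 → K, (∀ m b, n m * m3 X y z b ∈ B) ∧ ∑ m, n m * m3 X y z m = 1 := by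
  have ht : (3 : K)⁻¹ ∈ B := third_mem B
  have hP : X / x ∈ B :=
    mem_eq (by first | (rw [hXe]; ring1) | (field_simp <;> rw [hXe] <;> ring1)) (sub_mem (one_mem B) (mul_mem (three_mem B) ha))
  refine pr_single _ 0 ?_ ?_
  · change X * z ≠ 0
    simp [hx, hy, hz, hX]
  · intro b
    fin_cases b
    · exact div_self_mem B _
    · change X * y * z / (X * z) ∈ B
      exact mem_eq (by field_simp) (mul_mem hb hP)
    · change y * z / (X * z) ∈ B
      exact mem_eq (by field_simp) (mul_mem ha hb)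
    · change X * y / (X * z) ∈ B
      exact mem_eq (by field_simp) (mul_mem (mul_mem hb hc) hP)
    · change y / (X * z) ∈ B
      exact mem_eq (by field_simp) (mul_mem (mul_mem ha hb) hc)

theorem X12_prin (P : Pt k K) (h30 : (3 : K) ≠ 0) :
    Prin k (hX P) (l3 (P.x 0) (P.x 1) (P.x 2)) (iZ ![true, false, true] 1 3 0) := by
  have h := X12_cge (K := K) P h30
  obtain ⟨ha, hφ, -⟩ := h
  rw [inv_one] at hφ
  have ha0 : (P.x 0)⁻¹ ∈ _ := ha 0
  have ha1 : P.x 0 * P.x 1 / (P.x 0 - 3) ∈ _ := ha 1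
  have ha2 : (P.x 2)⁻¹ ∈ _ := ha 2
  exact X12_pr (x_ne P 0) (x_ne P 1) (x_ne P 2) (x3_ne P) (sub_add_cancel _ _).symm h30 ha0 ha1 ha2 hφ

theorem X13_pr {B : Subalgebra k K} {x y z X : K} (hx : x ≠ 0) (hy : y ≠ 0) (hz : z ≠ 0)
    (hX : X ≠ 0) (hXe : x = X + 3) (h30 : (3 : K) ≠ 0) (ha : x ∈ B) (hb : y⁻¹ ∈ B)
    (hc : z⁻¹ ∈ B) (hQ : X⁻¹ ∈ B) :
    ∃ n : Fin 5 → K, (∀ m b, n m * m3 X y z b ∈ B) ∧ ∑ m, n m * m3 X y z m = 1 := by
  have ht : (3 : K)⁻¹ ∈ B := third_mem B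
  have hP : X ∈ B :=
    mem_eq (by first | (rw [hXe]; ring1) | (field_simp <;> rw [hXe] <;> ring1)) (sub_mem ha (three_mem B))
  refine pr_single _ 2 ?_ ?_
  · change y * z ≠ 0
    simp [hx, hy, hz, hX]
  · intro b
    fin_cases b
    · change X * z / (y * z) ∈ B
      exact mem_eq (by field_simp) (mul_mem hb hP)
    · change X * y * z / (y * z) ∈ B
      exact mem_eq (by field_simp) (hP)
    · exact div_self_mem B _
    · change X * y / (y * z) ∈ B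
      exact mem_eq (by field_simp) (mul_mem hc hP)
    · change y / (y * z) ∈ B
      exact mem_eq (by field_simp) (hc)

theorem X13_prin (P : Pt k K) (h30 : (3 : K) ≠ 0) :
    Prin k (hX P) (l3 (P.x 0) (P.x 1) (P.x 2)) (iZ ![false, true, true] 2 2 1) := by
  have h := X13_cge (K := K) P h30
  obtain ⟨ha, hφ, -⟩ := h
  have ha0 : P.x 0 ∈ _ := ha 0
  have ha1 : (P.x 1)⁻¹ ∈ _ := ha 1
  have ha2 : (P.x 2)⁻¹ ∈ _ := ha 2
  exact X13_pr (x_ne P 0) (x_ne P 1) (x_ne P 2) (x3_ne P) (sub_add_cancel _ _).symm h30 ha0 ha1 ha2 hφ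

theorem X14_pr {B : Subalgebra k K} {x y z X : K} (hx : x ≠ 0) (hy : y ≠ 0) (hz : z ≠ 0)
    (hX : X ≠ 0) (hXe : x = X + 3) (h30 : (3 : K) ≠ 0) (ha : x ∈ B) (hb : y⁻¹ ∈ B)
    (hc : z⁻¹ ∈ B) (hQ : x⁻¹ ∈ B) :
    ∃ n : Fin 5 → K, (∀ m b, n m * m3 X y z b ∈ B) ∧ ∑ m, n m * m3 X y z m = 1 := by
  have ht : (3 : K)⁻¹ ∈ B := third_mem B
  have hP : X ∈ B :=
    mem_eq (by first | (rw [hXe]; ring1) | (field_simp <;> rw [hXe] <;> ring1)) (sub_mem ha (three_mem B))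
  refine pr_single _ 2 ?_ ?_
  · change y * z ≠ 0
    simp [hx, hy, hz, hX]
  · intro b
    fin_cases b
    · change X * z / (y * z) ∈ B
      exact mem_eq (by field_simp) (mul_mem hb hP)
    · change X * y * z / (y * z) ∈ B
      exact mem_eq (by field_simp) (hP)
    · exact div_self_mem B _
    · change X * y / (y * z) ∈ B
      exact mem_eq (by field_simp) (mul_mem hc hP)
    · change y / (y * z) ∈ B
      exact mem_eq (by field_simp) (hc)

theorem X14_prin (P : Pt k K) (h30 : (3 : K) ≠ 0) :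
    Prin k (hX P) (l3 (P.x 0) (P.x 1) (P.x 2)) (iZ ![false, true, true] 2 2 3) := by
  have h := X14_cge (K := K) P h30
  obtain ⟨ha, hφ, -⟩ := h
  have ha0 : P.x 0 ∈ _ := ha 0
  have ha1 : (P.x 1)⁻¹ ∈ _ := ha 1
  have ha2 : (P.x 2)⁻¹ ∈ _ := ha 2
  exact X14_pr (x_ne P 0) (x_ne P 1) (x_ne P 2) (x3_ne P) (sub_add_cancel _ _).symm h30 ha0 ha1 ha2 hφ

theorem X15_pr {B : Subalgebra k K} {x y z X : K} (hx : x ≠ 0) (hy : y ≠ 0) (hz : z ≠ 0)
    (hX : X ≠ 0) (hXe : x = X + 3) (h30 : (3 : K) ≠ 0) (ha : x⁻¹ ∈ B) (hb : y⁻¹ ∈ B)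
    (hc : z⁻¹ ∈ B) (hQ : 1 ∈ B) :
    ∃ n : Fin 5 → K, (∀ m b, n m * m3 X y z b ∈ B) ∧ ∑ m, n m * m3 X y z m = 1 := by
  have ht : (3 : K)⁻¹ ∈ B := third_mem B
  have hP : X / x ∈ B :=
    mem_eq (by first | (rw [hXe]; ring1) | (field_simp <;> rw [hXe] <;> ring1)) (sub_mem (one_mem B) (mul_mem (three_mem B) ha))
  refine pr_pair _ 1 2 (by decide) (X / x) (3 / x) ?_ ?_ ?_ ?_ ?_
  · change X * y * z ≠ 0
    simp [hx, hy, hz, hX]
  · change y * z ≠ 0
    simp [hx, hy, hz, hX]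
  · intro b
    fin_cases b
    · change X / x / (X * y * z) * (X * z) ∈ B
      exact mem_eq (by field_simp) (mul_mem hb hP)
    · change X / x / (X * y * z) * (X * y * z) ∈ B
      exact mem_eq (by field_simp) (hP)
    · change X / x / (X * y * z) * (y * z) ∈ B
      exact mem_eq (by field_simp) (ha)
    · change X / x / (X * y * z) * (X * y) ∈ B
      exact mem_eq (by field_simp) (mul_mem hc hP)
    · change X / x / (X * y * z) * y ∈ B
      exact mem_eq (by field_simp) (mul_mem ha hc)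
  · intro b
    fin_cases b
    · change 3 / x / (y * z) * (X * z) ∈ B
      exact mem_eq (by field_simp) (mul_mem (three_mem B) (mul_mem hb hP))
    · change 3 / x / (y * z) * (X * y * z) ∈ B
      exact mem_eq (by field_simp) (mul_mem (three_mem B) (hP))
    · change 3 / x / (y * z) * (y * z) ∈ B
      exact mem_eq (by field_simp) (mul_mem (three_mem B) (ha))
    · change 3 / x / (y * z) * (X * y) ∈ B
      exact mem_eq (by field_simp) (mul_mem (three_mem B) (mul_mem hc hP))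
    · change 3 / x / (y * z) * y ∈ B
      exact mem_eq (by field_simp) (mul_mem (three_mem B) (mul_mem ha hc))
  · field_simp
    rw [hXe]

theorem X15_prin (P : Pt k K) (h30 : (3 : K) ≠ 0) :
    Prin k (hX P) (l3 (P.x 0) (P.x 1) (P.x 2)) (iZ ![true, true, true] 2 1 3) := by
  have h := X15_cge (K := K) P h30
  obtain ⟨ha, hφ, -⟩ := h
  rw [inv_one] at hφ
  have ha0 : (P.x 0)⁻¹ ∈ _ := ha 0
  have ha1 : (P.x 1)⁻¹ ∈ _ := ha 1
  have ha2 : (P.x 2)⁻¹ ∈ _ := ha 2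
  exact X15_pr (x_ne P 0) (x_ne P 1) (x_ne P 2) (x3_ne P) (sub_add_cancel _ _).symm h30 ha0 ha1 ha2 hφ

end Pool.Agent.Lib.MP_55c1e7_ag.CH
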