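import Mathlib
import Pool.Agent.Lib.MP_55c1e7_ag.CH.Pc

namespace Pool.Agent.Lib.MP_55c1e7_ag.CH

open Pool.Agent.Lib.MP_55c1e7_ag.CK

section O

variable {k : Type} [Field k] {O : Type} [CommRing O] {K : Type} [Field K] [Algebra O K]
  [Algebra k K] (P : Pt k K)

theorem XX_chart (t s : O) (h2 : 2 * t = 1) (h41 : 41 * s = 1) (c : Fin 14) :
    Nonempty (Chart O P (hXX P) (IXX c)) := by
  fin_cases c
  · exact ⟨XX1 P t s h2 h41⟩
  · exact ⟨XX2 P t s h2 h41⟩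
  · exact ⟨XX3 P t s h2 h41⟩
  · exact ⟨XX4 P t s h2 h41⟩
  · exact ⟨XX5 P t s h2 h41⟩
  · exact ⟨XX6 P t s h2 h41⟩
  · exact ⟨XX7 P t s h2 h41⟩
  · exact ⟨XX8 P t s h2 h41⟩
  · exact ⟨XX9 P t s h2 h41⟩
  · exact ⟨XX10 P t s h2 h41⟩
  · exact ⟨XX11 P t s h2 h41⟩
  · exact ⟨XX12 P t s h2 h41⟩
  · exact ⟨XX13 P t s h2 h41⟩
  · exact ⟨XX14 P t s h2 h41⟩

/-- The charts of the model of `X` are smooth. -/
theorem XX_smooth [Algebra O k] [IsScalarTower O k K] (hk : (2 : k) ≠ 0) (hP : P.Gen)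
    (hinj : Function.Injective (algebraMap O k)) (t s : O) (h2 : 2 * t = 1) (h41 : 41 * s = 1)
    (c : Fin 14) : Algebra.Smooth O (chartRing O (hXX P) (IXX c)) := by
  obtain ⟨C⟩ := XX_chart P t s h2 h41 c
  exact C.smooth hk hP hinj

/-- The fourteen charts cover the model of `X`. -/
theorem XX_cover (J : Fin 4 × Fin 4 × Fin 4 × Fin 3 × Fin 5 × Fin 5) :
    Ideal.span (Set.range fun c => crat O (hXX P) J (IXX c)) = ⊤ :=
  cover_of_val (hXX P) (XX_ne P) IXX (XX_val P) J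

end O

section k

variable {k : Type} [Field k] {K : Type} [Field K] [Algebra k K] (P : Pt k K)

theorem three_ne (hk3 : (3 : k) ≠ 0) : (3 : K) ≠ 0 := by
  have h := (algebraMap k K).injective.ne hk3
  rwa [map_ofNat, map_zero] at h

theorem X_chart (h30 : (3 : K) ≠ 0) (t s : k) (h2 : 2 * t = 1) (h41 : 41 * s = 1) (c : Fin 15) :
    Nonempty (Chart k P (hX P) (IX c)) := by
  fin_cases c
  · exact ⟨X1 P t s h2 h41 h30⟩
  · exact ⟨X2 P t s h2 h41 h30⟩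
  · exact ⟨X3 P t s h2 h41 h30⟩
  · exact ⟨X4 P t s h2 h41 h30⟩
  · exact ⟨X5 P t s h2 h41 h30⟩
  · exact ⟨X6 P t s h2 h41 h30⟩
  · exact ⟨X7 P t s h2 h41 h30⟩
  · exact ⟨X8 P t s h2 h41 h30⟩
  · exact ⟨X9 P t s h2 h41 h30⟩
  · exact ⟨X10 P t s h2 h41 h30⟩
  · exact ⟨X11 P t s h2 h41 h30⟩
  · exact ⟨X12 P t s h2 h41 h30⟩
  · exact ⟨X13 P t s h2 h41 h30⟩
  · exact ⟨X14 P t s h2 h41 h30⟩
  · exact ⟨X15 P t s h2 h41 h30⟩

/-- The charts of `X` are smooth. -/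
theorem X_smooth (hk2 : (2 : k) ≠ 0) (hk3 : (3 : k) ≠ 0) (hk41 : (41 : k) ≠ 0) (hP : P.Gen)
    (c : Fin 15) : Algebra.Smooth k (chartRing k (hX P) (IX c)) := by
  obtain ⟨C⟩ := X_chart P (three_ne hk3) (2 : k)⁻¹ (41 : k)⁻¹ (mul_inv_cancel₀ hk2)
    (mul_inv_cancel₀ hk41) c
  exact C.smooth hk2 hP Function.injective_id

/-- The fifteen charts cover `X`. -/
theorem X_cover (hk3 : (3 : k) ≠ 0) (J : (Fin 4 × Fin 4 × Fin 4 × Fin 5 × Fin 4) × Fin 3) :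
    Ideal.span (Set.range fun c => crat k (hX P) J (IX c)) = ⊤ :=
  cover_of_val (hX P) (X_ne P) IX (X_val P (three_ne hk3)) J

theorem Y_chart (h30 : (3 : K) ≠ 0) (t s : k) (h2 : 2 * t = 1) (h41 : 41 * s = 1) (c : Fin 15) :
    Nonempty (Chart k P (hY P) (IY c)) := by
  fin_cases c
  · exact ⟨Y1 P t s h2 h41 h30⟩
  · exact ⟨Y2 P t s h2 h41 h30⟩
  · exact ⟨Y3 P t s h2 h41 h30⟩
  · exact ⟨Y4 P t s h2 h41 h30⟩
  · exact ⟨Y5 P t s h2 h41 h30⟩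
  · exact ⟨Y6 P t s h2 h41 h30⟩
  · exact ⟨Y7 P t s h2 h41 h30⟩
  · exact ⟨Y8 P t s h2 h41 h30⟩
  · exact ⟨Y9 P t s h2 h41 h30⟩
  · exact ⟨Y10 P t s h2 h41 h30⟩
  · exact ⟨Y11 P t s h2 h41 h30⟩
  · exact ⟨Y12 P t s h2 h41 h30⟩
  · exact ⟨Y13 P t s h2 h41 h30⟩
  · exact ⟨Y14 P t s h2 h41 h30⟩
  · exact ⟨Y15 P t s h2 h41 h30⟩

/-- The charts of `Y` are smooth. -/
theorem Y_smooth (hk2 : (2 : k) ≠ 0) (hk3 : (3 : k) ≠ 0) (hk41 : (41 : k) ≠ 0) (hP : P.Gen)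
    (c : Fin 15) : Algebra.Smooth k (chartRing k (hY P) (IY c)) := by
  obtain ⟨C⟩ := Y_chart P (three_ne hk3) (2 : k)⁻¹ (41 : k)⁻¹ (mul_inv_cancel₀ hk2)
    (mul_inv_cancel₀ hk41) c
  exact C.smooth hk2 hP Function.injective_id

/-- The fifteen charts cover `Y`. -/
theorem Y_cover (hk3 : (3 : k) ≠ 0) (J : (Fin 4 × Fin 4 × Fin 4 × Fin 5 × Fin 4) × Fin 3) :
    Ideal.span (Set.range fun c => crat k (hY P) J (IY c)) = ⊤ :=
  cover_of_val (hY P) (Y_ne P) IY (Y_val P (three_ne hk3)) J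

/-- The list `l4` is invertible on all charts of `hXX` (over the field `k`). -/
theorem XX_prin (hk3 : (3 : k) ≠ 0) (J : Fin 4 × Fin 4 × Fin 4 × Fin 3 × Fin 5 × Fin 5) :
    Prin k (hXX P) (l4 (P.x 0) (P.x 1) (P.x 2)) J := by
  have h30 : (3 : K) ≠ 0 := three_ne hk3
  refine prin_of_cover (hXX P) (XX_ne P) IXX _ ?_ J
    (XX_cover P J)
  intro c
  fin_cases c
  · exact XX1_prin P h30
  · exact XX2_prin P h30
  · exact XX3_prin P h30
  · exact XX4_prin P h30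
  · exact XX5_prin P h30
  · exact XX6_prin P h30
  · exact XX7_prin P h30
  · exact XX8_prin P h30
  · exact XX9_prin P h30
  · exact XX10_prin P h30
  · exact XX11_prin P h30
  · exact XX12_prin P h30
  · exact XX13_prin P h30
  · exact XX14_prin P h30

/-- The list `l3` is invertible on all charts of `hX` (over the field `k`). -/
theorem X_prin (hk3 : (3 : k) ≠ 0) (J : (Fin 4 × Fin 4 × Fin 4 × Fin 5 × Fin 4) × Fin 3) :
    Prin k (hX P) (l3 (P.x 0) (P.x 1) (P.x 2)) J := by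
  have h30 : (3 : K) ≠ 0 := three_ne hk3
  refine prin_of_cover (hX P) (X_ne P) IX _ ?_ J
    (X_cover P hk3 J)
  intro c
  fin_cases c
  · exact X1_prin P h30
  · exact X2_prin P h30
  · exact X3_prin P h30
  · exact X4_prin P h30
  · exact X5_prin P h30
  · exact X6_prin P h30
  · exact X7_prin P h30
  · exact X8_prin P h30
  · exact X9_prin P h30
  · exact X10_prin P h30
  · exact X11_prin P h30
  · exact X12_prin P h30
  · exact X13_prin P h30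
  · exact X14_prin P h30
  · exact X15_prin P h30

end k

end Pool.Agent.Lib.MP_55c1e7_ag.CH
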